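import Pool.Agent.PEt.AS

/-! MP_a10c55_nt, degrees 2 and 3: definitions. -/

set_option autoImplicit false

open Complex MeasureTheory Set Filter Topology
open scoped Real ComplexConjugate ContDiff

namespace Pool.Agent.PEt3

open Pool.Agent.PEt

/-- The data of the functional equation of an `L` of degree 3. -/
structure Fun3 (L : ℂ → ℂ) (Q : ℝ) {r : ℕ} (lam : Fin r → ℝ) (mu : Fin r → ℂ) (w : ℂ) :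
    Prop where
  Qpos : 0 < Q
  lampos : ∀ j, 0 < lam j
  mure : ∀ j, 0 ≤ (mu j).re
  wnorm : ‖w‖ = 1
  deg : ∑ j, lam j = 3 / 2
  fe : ∀ s : ℂ, 0 < s.re → s.re < 1 →
      (Q : ℂ) ^ s * (∏ j, Gamma (lam j * s + mu j)) * L s =
        w * conj ((Q : ℂ) ^ (1 - conj s) * (∏ j, Gamma (lam j * (1 - conj s) + mu j)) *
          L (1 - conj s))

/-- The constant `κ = ((2π)³ (Q ∏ λ_j^{λ_j})²)^{-1}`. -/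
noncomputable def kap3 (Q : ℝ) {r : ℕ} (lam : Fin r → ℝ) : ℝ :=
  ((2 * π) ^ 3 * (Q * ∏ j, lam j ^ lam j) ^ 2)⁻¹

/-- `M_j(s) = e^{-3πis/2} (6πκ^{1/3})^{3s} Γ(-3s-1-j)`. -/
noncomputable def Mf3 (κ : ℝ) (j : ℕ) (s : ℂ) : ℂ :=
  cexp (-(3 * π * I * s / 2)) * ((6 * π * κ ^ (1 / 3 : ℝ) : ℝ) : ℂ) ^ (3 * s) *
    Gamma (-3 * s - 1 - j)

/-- The kernel `Θ(y) = (1/2πi) ∫_{(-1/8)} X(s) y^{s+2}/(s(s+1)(s+2)) ds`. -/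
noncomputable def Theta3 (Q : ℝ) {r : ℕ} (lam : Fin r → ℝ) (mu : Fin r → ℂ) (w : ℂ) (y : ℝ) : ℂ :=
  (1 / (2 * π) : ℂ) * ∫ t : ℝ, Xf Q lam mu w (-(1 / 8) + t * I) *
    (y : ℂ) ^ (-(1 / 8) + t * I + 2 : ℂ) /
      ((-(1 / 8) + t * I) * (-(1 / 8) + t * I + 1) * (-(1 / 8) + t * I + 2))

/-- The remainder `X(s)/(s(s+1)(s+2)) - ∑_j h_j M_j(s) - conj(∑_j h_j M_j(conj s))`. -/
noncomputable def Rem3 (Q : ℝ) {r : ℕ} (lam : Fin r → ℝ) (mu : Fin r → ℂ) (w : ℂ)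
    (h : Fin 3 → ℂ) (s : ℂ) : ℂ :=
  Xf Q lam mu w s / (s * (s + 1) * (s + 2)) - (∑ j : Fin 3, h j * Mf3 (kap3 Q lam) j s) -
    conj (∑ j : Fin 3, h j * Mf3 (kap3 Q lam) j (conj s))

/-- `D(x) = ∫_0^x (x-t) E(t) dt`. -/
noncomputable def D2 (b : ℕ → ℝ) (L : ℂ → ℂ) (x : ℝ) : ℝ :=
  ∫ t in (0 : ℝ)..x, (x - t) * errTerm b L t

/-- The `m`-th term of the series of `D`:
`q_m(x) = ∑_{j<3} m^{-(4+j)/3} x^{(5-j)/3} Re(c_j e(3(κmx)^{1/3}))`. -/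
noncomputable def qm (κ : ℝ) (c : Fin 3 → ℂ) (m : ℕ) (x : ℝ) : ℝ :=
  ∑ j : Fin 3, (m : ℝ) ^ (-((4 + (j : ℝ)) / 3)) * x ^ ((5 - (j : ℝ)) / 3) *
    (c j * e (3 * (κ * m * x) ^ (1 / 3 : ℝ))).re

/-- The `m`-th term of the series of `E`:
`k_m(x) = ∑_{i<4} m^{-(2+i)/3} x^{(1-i)/3} Re(d_i e(3(κmx)^{1/3}))`. -/
noncomputable def km (κ : ℝ) (d : Fin 4 → ℂ) (m : ℕ) (x : ℝ) : ℝ :=
  ∑ i : Fin 4, (m : ℝ) ^ (-((2 + (i : ℝ)) / 3)) * x ^ ((1 - (i : ℝ)) / 3) *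
    (d i * e (3 * (κ * m * x) ^ (1 / 3 : ℝ))).re

/-- Amplitudes: `C²`, supported in `[T, T+X]`, with derivatives `≪ X^{-j}`. -/
structure Am (T X C : ℝ) (a : ℝ → ℂ) : Prop where
  smooth : ContDiff ℝ 2 a
  supp : ∀ x, x ∉ Icc T (T + X) → a x = 0
  b0 : ∀ x, ‖a x‖ ≤ C
  b1 : ∀ x, ‖deriv a x‖ ≤ C / X
  b2 : ∀ x, ‖deriv (deriv a) x‖ ≤ C / X ^ 2

/-- The phase `φ(x) = 2λ√x + μ x^{1/3}`. -/
noncomputable def ps (l mu x : ℝ) : ℝ := 2 * l * √x + mu * x ^ (1 / 3 : ℝ)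

/-- The window. -/
noncomputable def w1 (ρ : ℝ → ℝ) (T X x : ℝ) : ℝ := ρ ((x - T) / X)

/-- The kernel. -/
noncomputable def K3 (ρ : ℝ → ℝ) (κ₁ φ₁ κ₂ φ₂ s T X x : ℝ) : ℝ :=
  w1 ρ T X x * (1 + Real.cos (4 * π * √(κ₁ * x) + φ₁)) *
    (1 + s * Real.cos (6 * π * (κ₂ * x) ^ (1 / 3 : ℝ) + φ₂))

/-- The derivative of `P_m`. -/
noncomputable def Pmd (κ : ℝ) (c0 : ℂ) (m : ℕ) (x : ℝ) : ℝ :=
  √m * (x ^ (1 / 4 : ℝ) * (2 * π * I * √κ * c0 * e (2 * √(κ * m * x))).re) +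
    3 / 4 * x ^ (-(1 / 4) : ℝ) * (c0 * e (2 * √(κ * m * x))).re

/-- The truncated series of `E_f`, `f` of degree 2. -/
noncomputable def Etr (a : ℕ → ℝ) (κ L0 : ℝ) (c0 : ℂ) (M : ℕ) (x : ℝ) : ℝ :=
  L0 + ∑ m ∈ Finset.Icc 1 M, a m * (m : ℝ) ^ (-(5 / 4) : ℝ) * Pmd κ c0 m x

end Pool.Agent.PEt3
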