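import Pool.Agent.PEt3.Defs3
import Pool.Agent.MP_67227b_nt.Mo.Digamma

/-! Digamma to fourth order and the factor `X(s)` for an `L` of degree 3. Everything here is the
degree 3 analogue of the theorems of `Pool/Agent/PEt/GA.lean`, `XF.lean`: copy and adapt the
proofs. -/

set_option autoImplicit false

open Complex MeasureTheory Set Filter Topology
open scoped Real ComplexConjugate ContDiff

namespace Pool.Agent.PEt3

open Pool.Agent.PEt

--BEGIN GX1
private theorem GX1_diff {z : ℂ} (hz : 0 < z.re) : DifferentiableAt ℂ digamma z := by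
  have h2 := Pool.Agent.MP_67227b_nt.Mo.analyticAt_Gamma hz
  have h3 : AnalyticAt ℂ digamma z := h2.deriv.div h2 (Gamma_ne_zero_of_re_pos hz)
  exact h3.differentiableAt

private theorem GX1_shift {s : ℂ} (hs : 0 < s.re) {N : ℕ} (hN : 8 * (‖s‖ + 3) ≤ N) :
    ‖digamma (s + N) - digamma (1 + N)‖ ≤ 2048 / N * ‖s - 1‖ := by
  have hconv : Convex ℝ ({z : ℂ | 0 < z.re} ∩ Metric.closedBall 0 (1 + ‖s‖)) :=
    (convex_halfSpace_re_gt 0).inter (convex_closedBall _ _)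
  have h1 : (1 : ℂ) ∈ ({z : ℂ | 0 < z.re} ∩ Metric.closedBall 0 (1 + ‖s‖)) := by
    refine ⟨by simp, ?_⟩
    rw [mem_closedBall_zero_iff, norm_one]
    linarith [norm_nonneg s]
  have h2 : s ∈ ({z : ℂ | 0 < z.re} ∩ Metric.closedBall 0 (1 + ‖s‖)) := by
    refine ⟨hs, ?_⟩
    rw [mem_closedBall_zero_iff]
    linarith
  have hN0 : (0 : ℝ) ≤ N := Nat.cast_nonneg N
  have hre : ∀ z : ℂ, 0 < z.re → 0 < (z + N).re := by
    intro z hz
    simp
    positivity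
  refine Convex.norm_image_sub_le_of_norm_deriv_le (f := fun z : ℂ => digamma (z + N))
    (fun z hz => ?_) (fun z hz => ?_) hconv h1 h2
  · exact (GX1_diff (hre z hz.1)).comp z (by fun_prop)
  · rw [deriv_comp_add_const]
    refine (Pool.Agent.MP_67227b_nt.Mo.digamma_far hz.1 ?_).2
    have h3 := mem_closedBall_zero_iff.1 hz.2
    linarith

private theorem GX1_lim_one :
    Tendsto (fun N : ℕ => digamma (1 + N) - (Real.log N : ℂ)) atTop (𝓝 0) := by
  have h1 : ∀ N : ℕ, digamma (1 + N) - (Real.log N : ℂ) =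
      (((harmonic N : ℝ) - Real.log N - Real.eulerMascheroniConstant : ℝ) : ℂ) := by
    intro N
    rw [Pool.Agent.MP_67227b_nt.Mo.digamma_add_nat (by simp) N, digamma_one]
    have h2 : ∑ j ∈ Finset.range N, ((1 : ℂ) + j)⁻¹ = (((harmonic N : ℚ) : ℝ) : ℂ) := by
      rw [harmonic]
      push_cast
      exact Finset.sum_congr rfl fun j _ => by rw [add_comm]
    rw [h2]
    push_cast
    ring
  have h3 := Real.tendsto_harmonic_sub_log.sub_const Real.eulerMascheroniConstant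
  rw [sub_self] at h3
  have h4 := (Complex.continuous_ofReal.tendsto 0).comp h3
  rw [Complex.ofReal_zero] at h4
  exact h4.congr fun N => (h1 N).symm

private theorem GX1_lim_log {s : ℂ} (hs : 0 < s.re) :
    Tendsto (fun N : ℕ => Complex.log (s + N) - (Real.log N : ℂ)) atTop (𝓝 0) := by
  have h1 : Tendsto (fun N : ℕ => 1 + s / (N : ℂ)) atTop (𝓝 (1 + 0)) := by
    refine tendsto_const_nhds.add ?_
    have h2 := (tendsto_const_div_atTop_nhds_zero_nat ‖s‖)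
    rw [tendsto_zero_iff_norm_tendsto_zero]
    refine h2.congr fun N => ?_
    rw [norm_div, Complex.norm_natCast]
  rw [add_zero] at h1
  have h3 : ContinuousAt Complex.log 1 := continuousAt_clog (by simp)
  have h4 := h3.tendsto.comp h1
  rw [Complex.log_one] at h4
  refine h4.congr' ?_
  filter_upwards [eventually_ge_atTop 1] with N hN
  have hN0 : (0 : ℝ) < N := by exact_mod_cast hN
  have hNc : (N : ℂ) ≠ 0 := by exact_mod_cast hN0.ne'
  have h5 : s + N = ((N : ℝ) : ℂ) * (1 + s / N) := by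
    rw [Complex.ofReal_natCast]
    field_simp
    ring
  have h6 : (1 + s / (N : ℂ)) ≠ 0 := by
    intro h7
    rw [h7, mul_zero] at h5
    have h8 : 0 < (s + N).re := by
      simp
      positivity
    rw [h5] at h8
    simp at h8
  rw [h5, Complex.log_ofReal_mul hN0 h6]
  simp

private theorem GX1_far {s : ℂ} (hs : 0 < s.re) :
    Tendsto (fun N : ℕ => digamma (s + N) - Complex.log (s + N)) atTop (𝓝 0) := by
  have hA : Tendsto (fun N : ℕ => Complex.digamma (s + N) - Complex.digamma (1 + N)) atTop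
      (𝓝 0) := by
    have h1 : Tendsto (fun N : ℕ => 2048 / (N : ℝ) * ‖s - 1‖) atTop (𝓝 (0 * ‖s - 1‖)) :=
      (tendsto_const_div_atTop_nhds_zero_nat 2048).mul_const _
    rw [zero_mul] at h1
    refine squeeze_zero_norm' ?_ h1
    filter_upwards [eventually_ge_atTop ⌈8 * (‖s‖ + 3)⌉₊] with N hN
    exact GX1_shift hs ((Nat.le_ceil _).trans (by exact_mod_cast hN))
  have h := (hA.add GX1_lim_one).sub (GX1_lim_log hs)
  rw [add_zero, sub_zero] at h
  refine h.congr fun N => ?_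
  ring

/-- the remainder -/
private noncomputable def GX1_d (s : ℂ) : ℂ :=
  digamma s - Complex.log s + 1 / (2 * s) + 1 / (12 * s ^ 2)

private theorem GX1_dlim {s : ℂ} (hs : 0 < s.re) :
    Tendsto (fun N : ℕ => GX1_d (s + N)) atTop (𝓝 0) := by
  have h1 : Tendsto (fun N : ℕ => (1 : ℂ) / (s + N)) atTop (𝓝 0) := by
    have h2 : Tendsto (fun N : ℕ => (1 : ℝ) / N) atTop (𝓝 0) := tendsto_one_div_atTop_nhds_zero_nat
    refine squeeze_zero_norm' ?_ h2
    filter_upwards [eventually_ge_atTop 1] with N hN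
    have hN0 : (0 : ℝ) < N := by exact_mod_cast hN
    rw [norm_div, norm_one]
    refine one_div_le_one_div_of_le hN0 ?_
    have h3 := Complex.re_le_norm (s + N)
    simp only [add_re, natCast_re] at h3
    linarith
  have h4 := ((GX1_far hs).add (h1.const_mul (1 / 2))).add ((h1.mul h1).const_mul (1 / 12))
  simp only [mul_zero, add_zero] at h4
  refine h4.congr fun N => ?_
  have h5 : s + (N : ℂ) ≠ 0 := by
    intro h
    have := congrArg Complex.re h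
    simp at this
    have hN : (0 : ℝ) ≤ N := Nat.cast_nonneg N
    linarith
  unfold GX1_d
  field_simp

/-- one step, for every `s` off the real axis -/
private theorem GX1_step {s : ℂ} (hs : s.im ≠ 0) (hg : ∀ m : ℕ, s ≠ -m) {r : ℝ} (hr : 1 ≤ r)
    (hr2 : ∀ u : ℝ, 0 ≤ u → u ≤ 1 → r ≤ ‖s + u‖) :
    ‖GX1_d s - GX1_d (s + 1)‖ ≤ 2 / (‖s‖ ^ 4 * r) := by
  have hr0 : 0 < r := by linarith
  have n0 : r ≤ ‖s‖ := by simpa using hr2 0 le_rfl zero_le_one
  have n1 : r ≤ ‖s + 1‖ := by simpa using hr2 1 zero_le_one le_rfl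
  have hs0 : s ≠ 0 := norm_pos_iff.1 (by linarith)
  have hs1 : s + 1 ≠ 0 := norm_pos_iff.1 (by linarith)
  have p0 : 0 < ‖s‖ := by linarith
  have p1 : 0 < ‖s + 1‖ := by linarith
  have key := norm_image_sub_le_of_norm_deriv_le_segment_01'
    (f := fun u : ℝ => Complex.log (s + u) - (u : ℂ) * s⁻¹ + (u : ℂ) ^ 2 * (1 / (2 * s ^ 2)) -
      (u : ℂ) ^ 3 * (1 / (3 * s ^ 3)) + (u : ℂ) ^ 4 * (1 / (4 * s ^ 4)))
    (f' := fun u : ℝ => (s + u)⁻¹ - s⁻¹ + (u : ℂ) * (1 / s ^ 2) - (u : ℂ) ^ 2 * (1 / s ^ 3) +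
      (u : ℂ) ^ 3 * (1 / s ^ 4))
    (C := 1 / (‖s‖ ^ 4 * r)) ?_ ?_
  · have e1 : GX1_d s - GX1_d (s + 1) =
        ((Complex.log (s + (1 : ℝ)) - ((1 : ℝ) : ℂ) * s⁻¹ +
          ((1 : ℝ) : ℂ) ^ 2 * (1 / (2 * s ^ 2)) - ((1 : ℝ) : ℂ) ^ 3 * (1 / (3 * s ^ 3)) +
          ((1 : ℝ) : ℂ) ^ 4 * (1 / (4 * s ^ 4))) -
          (Complex.log (s + (0 : ℝ)) - ((0 : ℝ) : ℂ) * s⁻¹ +
          ((0 : ℝ) : ℂ) ^ 2 * (1 / (2 * s ^ 2)) - ((0 : ℝ) : ℂ) ^ 3 * (1 / (3 * s ^ 3)) +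
          ((0 : ℝ) : ℂ) ^ 4 * (1 / (4 * s ^ 4)))) -
        (2 * s + 3) / (12 * (s ^ 4 * (s + 1) ^ 2)) := by
      unfold GX1_d
      rw [digamma_apply_add_one s hg]
      simp only [Complex.ofReal_zero, add_zero, zero_mul, sub_zero, Complex.ofReal_one, one_mul,
        one_pow, ne_eq, OfNat.ofNat_ne_zero, not_false_eq_true, zero_pow]
      field_simp
      ring
    have b2 : ‖(2 * s + 3) / (12 * (s ^ 4 * (s + 1) ^ 2))‖ ≤ 1 / 4 * (1 / (‖s‖ ^ 4 * r)) := by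
      have h3 : ‖2 * s + 3‖ ≤ 3 * ‖s + 1‖ := by
        have h4 : 2 * s + 3 = 2 * (s + 1) + 1 := by ring
        rw [h4]
        refine (norm_add_le _ _).trans ?_
        rw [norm_mul, Complex.norm_ofNat, norm_one]
        linarith
      rw [norm_div, norm_mul, norm_mul, norm_pow, norm_pow, Complex.norm_ofNat]
      calc ‖2 * s + 3‖ / (12 * (‖s‖ ^ 4 * ‖s + 1‖ ^ 2))
          ≤ 3 * ‖s + 1‖ / (12 * (‖s‖ ^ 4 * ‖s + 1‖ ^ 2)) := by gcongr
        _ = 1 / 4 * (1 / (‖s‖ ^ 4 * ‖s + 1‖)) := by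
            field_simp
            ring
        _ ≤ 1 / 4 * (1 / (‖s‖ ^ 4 * r)) := by gcongr
    rw [e1]
    refine (norm_sub_le _ _).trans ?_
    have h5 : 0 ≤ 1 / (‖s‖ ^ 4 * r) := by positivity
    have h6 : 2 / (‖s‖ ^ 4 * r) = 2 * (1 / (‖s‖ ^ 4 * r)) := by ring
    rw [h6]
    linarith
  · intro u hu
    have h5 : (s + u) ∈ slitPlane := by
      rw [Complex.mem_slitPlane_iff]
      right
      simpa using hs
    have h6 : HasDerivAt (fun u : ℝ => s + (u : ℂ)) 1 u := by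
      have := (Complex.ofRealCLM.hasDerivAt (x := u)).const_add s
      simpa using this
    have h0 : HasDerivAt (fun u : ℝ => (u : ℂ)) 1 u := Complex.ofRealCLM.hasDerivAt
    have h7 := h6.clog_real h5
    have h8 := h0.mul_const s⁻¹
    have h9 := (h0.pow 2).mul_const (1 / (2 * s ^ 2))
    have h10 := (h0.pow 3).mul_const (1 / (3 * s ^ 3))
    have h12 := (h0.pow 4).mul_const (1 / (4 * s ^ 4))
    have h11 := (((h7.sub h8).add h9).sub h10).add h12
    refine HasDerivAt.hasDerivWithinAt (h11.congr_deriv ?_)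
    push_cast
    field_simp
  · intro u hu
    have hu2 := hr2 u hu.1 hu.2.le
    have h5 : s + u ≠ 0 := norm_pos_iff.1 (by linarith)
    have h6 : (s + u)⁻¹ - s⁻¹ + (u : ℂ) * (1 / s ^ 2) - (u : ℂ) ^ 2 * (1 / s ^ 3) +
        (u : ℂ) ^ 3 * (1 / s ^ 4) = (u : ℂ) ^ 4 * (1 / (s ^ 4 * (s + u))) := by
      field_simp
      ring
    rw [h6, norm_mul, norm_pow, Complex.norm_real, Real.norm_eq_abs, abs_of_nonneg hu.1,
      norm_div, norm_one, norm_mul, norm_pow]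
    have h7 : u ^ 4 ≤ 1 := pow_le_one₀ hu.1 hu.2.le
    have h9 : 1 / (‖s‖ ^ 4 * ‖s + u‖) ≤ 1 / (‖s‖ ^ 4 * r) := by gcongr
    have h10 : 0 ≤ 1 / (‖s‖ ^ 4 * ‖s + u‖) := by positivity
    nlinarith

private theorem GX1_im_ne {s : ℂ} (hs : s.im ≠ 0) (m : ℕ) : s ≠ -m := by
  rintro rfl
  simp at hs

/-- **GX1.** Fourth order form of GA1: the next term of the expansion of `ψ` is `1/(120 s⁴)`.
Same telescoping as `digamma_two`: the differences are `O(|s|^{-5})`. -/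
theorem digamma_four : ∃ C : ℝ, 0 < C ∧ ∀ s : ℂ, 0 < s.re → 1 ≤ |s.im| →
    ‖digamma s - log s + 1 / (2 * s) + 1 / (12 * s ^ 2)‖ ≤ C / |s.im| ^ 4 := by
  refine ⟨16, by norm_num, fun s hs ht => ?_⟩
  have hstep : ∀ j : ℕ, ‖GX1_d (s + j) - GX1_d (s + (j + 1 : ℕ))‖ ≤
      8 / |s.im| ^ 3 * (1 / ((j : ℝ) + |s.im|) ^ 2) := by
    intro j
    have hj : (0 : ℝ) ≤ j := Nat.cast_nonneg j
    have him : (s + j).im = s.im := by simp
    have hne : (s + j).im ≠ 0 := by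
      rw [him]
      intro h
      rw [h, abs_zero] at ht
      linarith
    have h3 : ((j : ℝ) + |s.im|) ^ 2 / 2 ≤ ‖s + j‖ ^ 2 := by
      rw [← normSq_eq_norm_sq, normSq_apply]
      simp only [add_re, natCast_re, add_im, natCast_im, add_zero]
      nlinarith [sq_nonneg ((j : ℝ) - |s.im|), sq_abs s.im, mul_nonneg hj hs.le]
    have h1 := GX1_step hne (GX1_im_ne hne) ht (fun u hu _ => by
      have := Complex.abs_im_le_norm (s + j + u)
      rw [add_im, him, ofReal_im, add_zero] at this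
      exact this)
    have e1 : s + ((j + 1 : ℕ) : ℂ) = s + j + 1 := by
      push_cast
      ring
    rw [e1]
    refine h1.trans ?_
    have h4 : 0 < |s.im| := by linarith
    have h5 : |s.im| ^ 2 * ((j : ℝ) + |s.im|) ^ 2 / 4 ≤ ‖s + j‖ ^ 4 := by
      have h6 : |s.im| ^ 2 ≤ ((j : ℝ) + |s.im|) ^ 2 := by nlinarith
      have h7 : 0 ≤ ((j : ℝ) + |s.im|) ^ 2 := sq_nonneg _
      nlinarith [mul_le_mul h3 h3 (by positivity) (by positivity)]
    have h8 : 0 < |s.im| ^ 2 * ((j : ℝ) + |s.im|) ^ 2 / 4 := by positivity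
    calc 2 / (‖s + j‖ ^ 4 * |s.im|) ≤ 2 / (|s.im| ^ 2 * ((j : ℝ) + |s.im|) ^ 2 / 4 * |s.im|) := by
          gcongr
      _ = 8 / |s.im| ^ 3 * (1 / ((j : ℝ) + |s.im|) ^ 2) := by
          field_simp
          ring
  have hsum : ∀ N : ℕ, ‖GX1_d s‖ ≤ ‖GX1_d (s + N)‖ + 16 / |s.im| ^ 4 := by
    intro N
    have h0 : 0 ≤ 16 / |s.im| ^ 4 := by positivity
    rcases N with _ | M
    · simp only [Nat.cast_zero, add_zero]
      linarith
    have h1 : GX1_d s = GX1_d (s + (M + 1 : ℕ)) +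
        ∑ j ∈ Finset.range (M + 1), (GX1_d (s + j) - GX1_d (s + (j + 1 : ℕ))) := by
      rw [Finset.sum_range_sub' (fun j : ℕ => GX1_d (s + j))]
      simp
    have h2 : ‖∑ j ∈ Finset.range (M + 1), (GX1_d (s + j) - GX1_d (s + (j + 1 : ℕ)))‖ ≤
        16 / |s.im| ^ 4 := by
      calc _ ≤ ∑ j ∈ Finset.range (M + 1), ‖GX1_d (s + j) - GX1_d (s + (j + 1 : ℕ))‖ :=
            norm_sum_le _ _
        _ ≤ ∑ j ∈ Finset.range (M + 1), 8 / |s.im| ^ 3 * (1 / ((j : ℝ) + |s.im|) ^ 2) :=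
            Finset.sum_le_sum fun j _ => hstep j
        _ = 8 / |s.im| ^ 3 * ∑ j ∈ Finset.range (M + 1), 1 / ((j : ℝ) + |s.im|) ^ 2 := by
            rw [Finset.mul_sum]
        _ ≤ 8 / |s.im| ^ 3 * (2 / |s.im|) := by
            have h3 := Pool.Agent.MP_67227b_nt.Mo.sum_inv_sq_le ht M
            have h4 : 0 ≤ 1 / (|s.im| + M) := by positivity
            have h5 : 1 / |s.im| ^ 2 ≤ 1 / |s.im| := by
              apply one_div_le_one_div_of_le (by linarith)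
              nlinarith
            have h6 : 2 / |s.im| = 1 / |s.im| + 1 / |s.im| := by ring
            gcongr
            rw [h6]
            linarith
        _ = 16 / |s.im| ^ 4 := by
            have h4 : 0 < |s.im| := by linarith
            field_simp
            ring
    calc ‖GX1_d s‖ = ‖GX1_d (s + (M + 1 : ℕ)) +
        ∑ j ∈ Finset.range (M + 1), (GX1_d (s + j) - GX1_d (s + (j + 1 : ℕ)))‖ := by rw [← h1]
      _ ≤ _ := (norm_add_le _ _).trans (add_le_add le_rfl h2)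
  have hlim : Tendsto (fun N : ℕ => ‖GX1_d (s + N)‖ + 16 / |s.im| ^ 4) atTop
      (𝓝 (0 + 16 / |s.im| ^ 4)) := by
    have h := (GX1_dlim hs).norm
    rw [norm_zero] at h
    exact h.add tendsto_const_nhds
  rw [zero_add] at hlim
  exact ge_of_tendsto hlim (Eventually.of_forall hsum)
--END GX1

--BEGIN GX2
private theorem GX2_nat {s : ℂ} (ht : 1 ≤ |s.im|) (M : ℕ) :
    ‖GX1_d s‖ ≤ ‖GX1_d (s + M)‖ + M * (2 / |s.im| ^ 4) := by
  induction M with
  | zero => simp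
  | succ M ih =>
    have him : (s + M).im = s.im := by simp
    have hne : (s + M).im ≠ 0 := by
      rw [him]
      intro h
      rw [h, abs_zero] at ht
      linarith
    have h1 := GX1_step hne (GX1_im_ne hne) ht (fun u _ _ => by
      have := Complex.abs_im_le_norm (s + M + u)
      rw [add_im, him, ofReal_im, add_zero] at this
      exact this)
    have h2 : 2 / (‖s + M‖ ^ 4 * |s.im|) ≤ 2 / |s.im| ^ 4 := by
      have h3 : 0 < |s.im| := by linarith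
      have h4 : |s.im| ≤ ‖s + M‖ := by
        have := Complex.abs_im_le_norm (s + M)
        rwa [him] at this
      have h5 : |s.im| ^ 4 ≤ ‖s + M‖ ^ 4 * |s.im| := by
        calc |s.im| ^ 4 = |s.im| ^ 4 * 1 := by ring
          _ ≤ ‖s + M‖ ^ 4 * |s.im| := by gcongr
      gcongr
    have e1 : s + ((M + 1 : ℕ) : ℂ) = s + M + 1 := by
      push_cast
      ring
    have h5 : ‖GX1_d (s + M)‖ ≤ ‖GX1_d (s + M + 1)‖ + ‖GX1_d (s + M) - GX1_d (s + M + 1)‖ := by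
      have h6 := norm_add_le (GX1_d (s + M + 1)) (GX1_d (s + M) - GX1_d (s + M + 1))
      rw [add_sub_cancel] at h6
      exact h6
    rw [e1]
    push_cast
    linarith

/-- **GX2.** The same in every vertical strip (compare `digamma_strip`). -/
theorem digamma_four_strip (A : ℝ) : ∃ C : ℝ, 0 < C ∧ ∀ s : ℂ, |s.re| ≤ A → 1 ≤ |s.im| →
    ‖digamma s - log s + 1 / (2 * s) + 1 / (12 * s ^ 2)‖ ≤ C / |s.im| ^ 4 := by
  obtain ⟨C, hC, h⟩ := digamma_four
  obtain ⟨M, hM⟩ := exists_nat_gt A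
  refine ⟨C + M * 2, by positivity, fun s hs ht => ?_⟩
  have him : (s + M).im = s.im := by simp
  have hre : 0 < (s + M).re := by
    have := (abs_le.1 hs).1
    simp
    linarith
  have h1 := h (s + M) hre (by rw [him]; exact ht)
  rw [him] at h1
  have h2 := GX2_nat ht M
  have h3 : (C + M * 2) / |s.im| ^ 4 = C / |s.im| ^ 4 + M * (2 / |s.im| ^ 4) := by ring
  rw [h3]
  exact h2.trans (add_le_add h1 le_rfl)
--END GX2

--BEGIN GX3
private theorem GX3_log {w β : ℂ} {r : ℝ} (hr : 0 < r) (hw : r ≤ |w.im|)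
    (hb : ∀ u : ℝ, 0 ≤ u → u ≤ 1 → r ≤ |(w + u * β).im|)
    (hw0 : ∀ u : ℝ, 0 ≤ u → u ≤ 1 → (w + u * β).im ≠ 0) :
    ‖Complex.log (w + β) - Complex.log w - β / w + β ^ 2 / (2 * w ^ 2) - β ^ 3 / (3 * w ^ 3)‖ ≤
      ‖β‖ ^ 4 / r ^ 4 := by
  have n0 : r ≤ ‖w‖ := hw.trans (Complex.abs_im_le_norm w)
  have hwn : w ≠ 0 := norm_pos_iff.1 (by linarith)
  have key := norm_image_sub_le_of_norm_deriv_le_segment_01'
    (f := fun u : ℝ => Complex.log (w + u * β) - (u : ℂ) * (β / w) +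
      (u : ℂ) ^ 2 * (β ^ 2 / (2 * w ^ 2)) - (u : ℂ) ^ 3 * (β ^ 3 / (3 * w ^ 3)))
    (f' := fun u : ℝ => β / (w + u * β) - β / w + (u : ℂ) * (β ^ 2 / w ^ 2) -
      (u : ℂ) ^ 2 * (β ^ 3 / w ^ 3))
    (C := ‖β‖ ^ 4 / r ^ 4) ?_ ?_
  · have e1 : Complex.log (w + β) - Complex.log w - β / w + β ^ 2 / (2 * w ^ 2) -
        β ^ 3 / (3 * w ^ 3) =
        (Complex.log (w + (1 : ℝ) * β) - ((1 : ℝ) : ℂ) * (β / w) +
          ((1 : ℝ) : ℂ) ^ 2 * (β ^ 2 / (2 * w ^ 2)) - ((1 : ℝ) : ℂ) ^ 3 * (β ^ 3 / (3 * w ^ 3))) -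
        (Complex.log (w + (0 : ℝ) * β) - ((0 : ℝ) : ℂ) * (β / w) +
          ((0 : ℝ) : ℂ) ^ 2 * (β ^ 2 / (2 * w ^ 2)) -
          ((0 : ℝ) : ℂ) ^ 3 * (β ^ 3 / (3 * w ^ 3))) := by
      simp only [Complex.ofReal_zero, add_zero, zero_mul, sub_zero, Complex.ofReal_one, one_mul,
        one_pow, ne_eq, OfNat.ofNat_ne_zero, not_false_eq_true, zero_pow]
      ring
    rw [e1]
    exact key
  · intro u hu
    have h5 : (w + u * β) ∈ slitPlane := by
      rw [Complex.mem_slitPlane_iff]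
      right
      exact hw0 u hu.1 hu.2
    have h0 : HasDerivAt (fun u : ℝ => (u : ℂ)) 1 u := Complex.ofRealCLM.hasDerivAt
    have h6 : HasDerivAt (fun u : ℝ => w + (u : ℂ) * β) (1 * β) u := (h0.mul_const β).const_add w
    have h7 := h6.clog_real h5
    have h8 := h0.mul_const (β / w)
    have h9 := (h0.pow 2).mul_const (β ^ 2 / (2 * w ^ 2))
    have h10 := (h0.pow 3).mul_const (β ^ 3 / (3 * w ^ 3))
    have h11 := ((h7.sub h8).add h9).sub h10
    refine HasDerivAt.hasDerivWithinAt (h11.congr_deriv ?_)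
    push_cast
    field_simp
  · intro u hu
    have hu2 := (hb u hu.1 hu.2.le).trans (Complex.abs_im_le_norm _)
    have h5 : w + u * β ≠ 0 := norm_pos_iff.1 (by linarith)
    have h6 : β / (w + u * β) - β / w + (u : ℂ) * (β ^ 2 / w ^ 2) -
        (u : ℂ) ^ 2 * (β ^ 3 / w ^ 3) =
        -((u : ℂ) ^ 3 * (β ^ 4 / (w ^ 3 * (w + u * β)))) := by
      generalize hz : w + (u : ℂ) * β = z at h5 ⊢
      have hu' : (u : ℂ) * β = z - w := by rw [← hz]; ring
      have e : β / z - β / w + (u : ℂ) * (β ^ 2 / w ^ 2) - (u : ℂ) ^ 2 * (β ^ 3 / w ^ 3) =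
          β * (w ^ 3 - z * w ^ 2 + (u * β) * z * w - (u * β) ^ 2 * z) / (w ^ 3 * z) := by
        field_simp
      have e' : -((u : ℂ) ^ 3 * (β ^ 4 / (w ^ 3 * z))) = -(β * (u * β) ^ 3 / (w ^ 3 * z)) := by ring
      rw [e, e', hu']
      ring
    rw [h6, norm_neg, norm_mul, norm_pow, Complex.norm_real, Real.norm_eq_abs, abs_of_nonneg hu.1,
      norm_div, norm_pow, norm_mul, norm_pow]
    have h7 : u ^ 3 ≤ 1 := pow_le_one₀ hu.1 hu.2.le
    have h8 : r ^ 4 ≤ ‖w‖ ^ 3 * ‖w + u * β‖ := by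
      calc r ^ 4 = r ^ 3 * r := by ring
        _ ≤ ‖w‖ ^ 3 * ‖w + u * β‖ := by gcongr
    have h9 : ‖β‖ ^ 4 / (‖w‖ ^ 3 * ‖w + u * β‖) ≤ ‖β‖ ^ 4 / r ^ 4 := by gcongr
    have h10 : 0 ≤ ‖β‖ ^ 4 / (‖w‖ ^ 3 * ‖w + u * β‖) := by positivity
    nlinarith

/-- **GX3.** Affine arguments (compare `digamma_affine`); `c, c'` are polynomials in `β`, divided
by `α²`, `α³`. -/
theorem digamma_affine_four (α : ℝ) (hα : α ≠ 0) (β : ℂ) (A : ℝ) :
    ∃ (c c' : ℂ) (C t0 : ℝ), 0 < C ∧ 1 ≤ t0 ∧ ∀ s : ℂ, |s.re| ≤ A → t0 ≤ |s.im| →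
      ‖digamma (α * s + β) - log (α * s) - (β - 1 / 2) / (α * s) - c / s ^ 2 - c' / s ^ 3‖ ≤
        C / |s.im| ^ 4 := by
  obtain ⟨C, hC, h⟩ := digamma_four_strip (|α| * A + ‖β‖)
  have ha : 0 < |α| := abs_pos.2 hα
  have hb : 0 ≤ ‖β‖ := norm_nonneg β
  have hαc : (α : ℂ) ≠ 0 := by exact_mod_cast hα
  refine ⟨(-β ^ 2 / 2 + β / 2 - 1 / 12) / α ^ 2, (β ^ 3 / 3 - β ^ 2 / 2 + β / 6) / α ^ 3,
    (C + ‖β‖ ^ 4 + ‖β‖ ^ 3 + (3 * ‖β‖ ^ 2 + 2 * ‖β‖ ^ 3)) / (|α| / 2) ^ 4,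
    1 + 2 * (1 + ‖β‖) / |α|, by positivity, ?_, fun s hs ht => ?_⟩
  · have : 0 ≤ 2 * (1 + ‖β‖) / |α| := by positivity
    linarith
  have ht0 : 2 * (1 + ‖β‖) / |α| ≤ |s.im| := by linarith
  have ht1 : 1 ≤ |s.im| := by
    have : 0 ≤ 2 * (1 + ‖β‖) / |α| := by positivity
    linarith
  have ht2 : 2 * (1 + ‖β‖) ≤ |α| * |s.im| := by
    rw [div_le_iff₀ ha] at ht0
    linarith
  -- `w = α s`, `z = w + β`, `r = |α| |t| / 2`
  have hwim : |((α : ℂ) * s).im| = |α| * |s.im| := by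
    rw [Complex.im_ofReal_mul, abs_mul]
  have hr1 : 1 ≤ |α| * |s.im| / 2 := by linarith
  have hr : 0 < |α| * |s.im| / 2 := by linarith
  have hβ : ‖β‖ ≤ |α| * |s.im| / 2 := by linarith
  have hseg : ∀ u : ℝ, 0 ≤ u → u ≤ 1 → |α| * |s.im| / 2 ≤ |((α : ℂ) * s + u * β).im| := by
    intro u hu hu1
    have h1 : |((α : ℂ) * s).im| ≤ |((α : ℂ) * s + u * β).im| + |(u * β : ℂ).im| := by
      have h2 := abs_sub (((α : ℂ) * s + u * β).im) ((u * β : ℂ).im)
      rw [add_im, add_sub_cancel_right] at h2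
      rw [add_im]
      exact h2
    have h2 : |(u * β : ℂ).im| ≤ ‖β‖ := by
      rw [Complex.im_ofReal_mul, abs_mul, abs_of_nonneg hu]
      have h3 := Complex.abs_im_le_norm β
      nlinarith [abs_nonneg β.im]
    rw [hwim] at h1
    linarith
  have hseg0 : ∀ u : ℝ, 0 ≤ u → u ≤ 1 → ((α : ℂ) * s + u * β).im ≠ 0 := by
    intro u hu hu1 h0
    have := hseg u hu hu1
    rw [h0, abs_zero] at this
    linarith
  have hlog := GX3_log hr (by rw [hwim]; linarith) hseg hseg0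
  have hz1 : |α| * |s.im| / 2 ≤ |((α : ℂ) * s + β).im| := by
    have := hseg 1 zero_le_one le_rfl
    rwa [Complex.ofReal_one, one_mul] at this
  have hzre : |((α : ℂ) * s + β).re| ≤ |α| * A + ‖β‖ := by
    rw [add_re, Complex.re_ofReal_mul]
    refine (abs_add_le _ _).trans (add_le_add ?_ (Complex.abs_re_le_norm β))
    rw [abs_mul]
    gcongr
  have hd := h ((α : ℂ) * s + β) hzre (hr1.trans hz1)
  have hd' : C / |((α : ℂ) * s + β).im| ^ 4 ≤ C / (|α| * |s.im| / 2) ^ 4 := by gcongr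
  have nw : |α| * |s.im| / 2 ≤ ‖(α : ℂ) * s‖ := by
    have := Complex.abs_im_le_norm ((α : ℂ) * s)
    rw [hwim] at this
    linarith
  have nz : |α| * |s.im| / 2 ≤ ‖(α : ℂ) * s + β‖ := hz1.trans (Complex.abs_im_le_norm _)
  have hs0 : s ≠ 0 := by
    rintro rfl
    rw [zero_im, abs_zero] at ht1
    linarith
  have hw0 : (α : ℂ) * s ≠ 0 := mul_ne_zero hαc hs0
  have hz0 : (α : ℂ) * s + β ≠ 0 := norm_pos_iff.1 (by linarith)
  have p0 : 0 < ‖(α : ℂ) * s‖ := by linarith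
  have p1 : 0 < ‖(α : ℂ) * s + β‖ := by linarith
  have b1 : ‖β ^ 3 / (2 * (((α : ℂ) * s) ^ 3 * ((α : ℂ) * s + β)))‖ ≤
      ‖β‖ ^ 3 / (|α| * |s.im| / 2) ^ 4 := by
    rw [norm_div, norm_pow, norm_mul, Complex.norm_ofNat, norm_mul, norm_pow]
    have h8 : (|α| * |s.im| / 2) ^ 4 ≤ 2 * (‖(α : ℂ) * s‖ ^ 3 * ‖(α : ℂ) * s + β‖) := by
      calc (|α| * |s.im| / 2) ^ 4 = (|α| * |s.im| / 2) ^ 3 * (|α| * |s.im| / 2) := by ring
        _ ≤ ‖(α : ℂ) * s‖ ^ 3 * ‖(α : ℂ) * s + β‖ := by gcongr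
        _ ≤ 2 * (‖(α : ℂ) * s‖ ^ 3 * ‖(α : ℂ) * s + β‖) := by
            have : 0 ≤ ‖(α : ℂ) * s‖ ^ 3 * ‖(α : ℂ) * s + β‖ := by positivity
            linarith
    gcongr
  have b2 : ‖β ^ 2 * (3 * ((α : ℂ) * s) + 2 * β) /
      (12 * (((α : ℂ) * s) ^ 3 * ((α : ℂ) * s + β) ^ 2))‖ ≤
      (3 * ‖β‖ ^ 2 + 2 * ‖β‖ ^ 3) / (|α| * |s.im| / 2) ^ 4 := by
    set R : ℝ := |α| * |s.im| / 2 with hR
    have h3 : ‖3 * ((α : ℂ) * s) + 2 * β‖ ≤ (3 + 2 * ‖β‖) * ‖(α : ℂ) * s‖ := by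
      refine (norm_add_le _ _).trans ?_
      rw [norm_mul 3 ((α : ℂ) * s), norm_mul 2 β, Complex.norm_ofNat, Complex.norm_ofNat]
      have : ‖β‖ * 1 ≤ ‖β‖ * ‖(α : ℂ) * s‖ :=
        mul_le_mul_of_nonneg_left (hr1.trans nw) hb
      nlinarith
    rw [norm_div, norm_mul, norm_mul, Complex.norm_ofNat, norm_mul, norm_pow, norm_pow, norm_pow]
    calc ‖β‖ ^ 2 * ‖3 * ((α : ℂ) * s) + 2 * β‖ /
          (12 * (‖(α : ℂ) * s‖ ^ 3 * ‖(α : ℂ) * s + β‖ ^ 2))
        ≤ ‖β‖ ^ 2 * ((3 + 2 * ‖β‖) * ‖(α : ℂ) * s‖) /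
          (12 * (‖(α : ℂ) * s‖ ^ 3 * ‖(α : ℂ) * s + β‖ ^ 2)) := by gcongr
      _ = 1 / 12 * ((3 * ‖β‖ ^ 2 + 2 * ‖β‖ ^ 3) / (‖(α : ℂ) * s‖ ^ 2 * ‖(α : ℂ) * s + β‖ ^ 2)) := by
          field_simp
      _ ≤ 1 / 12 * ((3 * ‖β‖ ^ 2 + 2 * ‖β‖ ^ 3) / (R ^ 2 * R ^ 2)) := by gcongr
      _ ≤ (3 * ‖β‖ ^ 2 + 2 * ‖β‖ ^ 3) / R ^ 4 := by
          have h7 : 0 ≤ (3 * ‖β‖ ^ 2 + 2 * ‖β‖ ^ 3) / R ^ 4 := by positivity
          have h8 : R ^ 2 * R ^ 2 = R ^ 4 := by ring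
          rw [h8]
          linarith
  have e1 : digamma (α * s + β) - Complex.log (α * s) - (β - 1 / 2) / (α * s) -
      (-β ^ 2 / 2 + β / 2 - 1 / 12) / α ^ 2 / s ^ 2 -
      (β ^ 3 / 3 - β ^ 2 / 2 + β / 6) / α ^ 3 / s ^ 3 =
      (digamma (α * s + β) - Complex.log (α * s + β) + 1 / (2 * (α * s + β)) +
        1 / (12 * (α * s + β) ^ 2)) +
      (Complex.log (α * s + β) - Complex.log (α * s) - β / (α * s) +
        β ^ 2 / (2 * (α * s) ^ 2) - β ^ 3 / (3 * (α * s) ^ 3)) +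
      β ^ 3 / (2 * ((α * s) ^ 3 * (α * s + β))) -
      β ^ 2 * (3 * (α * s) + 2 * β) / (12 * ((α * s) ^ 3 * (α * s + β) ^ 2)) := by
    have hs2 : (-β ^ 2 / 2 + β / 2 - 1 / 12) / (α : ℂ) ^ 2 / s ^ 2 =
        (-β ^ 2 / 2 + β / 2 - 1 / 12) / ((α : ℂ) * s) ^ 2 := by
      rw [div_div, mul_pow]
    have hs3 : (β ^ 3 / 3 - β ^ 2 / 2 + β / 6) / (α : ℂ) ^ 3 / s ^ 3 =
        (β ^ 3 / 3 - β ^ 2 / 2 + β / 6) / ((α : ℂ) * s) ^ 3 := by
      rw [div_div, mul_pow]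
    rw [hs2, hs3]
    generalize (α : ℂ) * s = w at hw0 hz0 ⊢
    field_simp
    ring
  rw [e1]
  refine (norm_sub_le _ _).trans ?_
  refine (add_le_add ((norm_add_le _ _).trans (add_le_add (norm_add_le _ _) le_rfl)) le_rfl).trans ?_
  have e2 : (C + ‖β‖ ^ 4 + ‖β‖ ^ 3 + (3 * ‖β‖ ^ 2 + 2 * ‖β‖ ^ 3)) / (|α| / 2) ^ 4 / |s.im| ^ 4 =
      C / (|α| * |s.im| / 2) ^ 4 + ‖β‖ ^ 4 / (|α| * |s.im| / 2) ^ 4 +
        ‖β‖ ^ 3 / (|α| * |s.im| / 2) ^ 4 +
        (3 * ‖β‖ ^ 2 + 2 * ‖β‖ ^ 3) / (|α| * |s.im| / 2) ^ 4 := by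
    field_simp
  rw [e2]
  exact add_le_add (add_le_add (add_le_add (hd.trans hd') hlog) b1) b2
--END GX3

variable {b : ℕ → ℝ} {L : ℂ → ℂ}
variable {Q : ℝ} {r : ℕ} {lam : Fin r → ℝ} {mu : Fin r → ℂ} {w : ℂ}

--BEGIN GX4
/-- **GX4.** From the class to the data (compare `exists_fun2`). -/
theorem exists_fun3 (h : RealSelberg b L 3) : ∃ (Q : ℝ) (r : ℕ) (lam : Fin r → ℝ)
    (mu : Fin r → ℂ) (w : ℂ), Fun3 L Q lam mu w := by
  obtain ⟨Q, r, lam, mu, w, h1, h2, h3, h4, h5, h6⟩ := h.functional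
  exact ⟨Q, r, lam, mu, w, h1, h2, h3, h4, by linarith, h6⟩

private theorem GX4_num (hf : Fun3 L Q lam mu w) {s : ℂ} (hs : s.re < 1) (j : Fin r) :
    0 < ((lam j : ℂ) * (1 - s) + conj (mu j)).re := by
  have h1 := hf.lampos j
  have h2 := hf.mure j
  have h3 : ((lam j : ℂ) * (1 - s) + conj (mu j)).re = lam j * (1 - s.re) + (mu j).re := by simp
  rw [h3]
  have : 0 < lam j * (1 - s.re) := mul_pos h1 (by linarith)
  linarith

private theorem GX4_diffGamma {z : ℂ} (hz : 0 < z.re) : DifferentiableAt ℂ Gamma z := by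
  refine differentiableAt_Gamma z fun m h => ?_
  rw [h] at hz
  simp only [neg_re, natCast_re] at hz
  have : (0 : ℝ) ≤ m := Nat.cast_nonneg m
  linarith

/-- `X` is differentiable for `Re s < 1` (compare `Xf_diff`). -/
theorem Xf_diff3 (hf : Fun3 L Q lam mu w) {s : ℂ} (hs : s.re < 1) :
    DifferentiableAt ℂ (Xf Q lam mu w) s := by
  have hQ : (Q : ℂ) ≠ 0 := by exact_mod_cast hf.Qpos.ne'
  have hX : Xf Q lam mu w = fun s => w * (Q : ℂ) ^ (1 - 2 * s) *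
      (∏ j, Gamma (lam j * (1 - s) + conj (mu j))) * ∏ j, (Gamma (lam j * s + mu j))⁻¹ := by
    funext s
    rw [Xf, div_eq_mul_inv, Finset.prod_inv_distrib]
  rw [hX]
  refine DifferentiableAt.mul (DifferentiableAt.mul (DifferentiableAt.const_mul ?_ _) ?_) ?_
  · exact DifferentiableAt.const_cpow (by fun_prop) (Or.inl hQ)
  · refine DifferentiableAt.fun_finsetProd fun j _ => ?_
    exact (GX4_diffGamma (GX4_num hf hs j)).comp s (f := fun s => (lam j : ℂ) * (1 - s) + conj (mu j))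
      (by fun_prop)
  · refine DifferentiableAt.fun_finsetProd fun j _ => ?_
    exact (differentiable_one_div_Gamma _).comp s (f := fun s => (lam j : ℂ) * s + mu j)
      (by fun_prop)

private theorem GX4_crit (h : RealSelberg b L 3) (hf : Fun3 L Q lam mu w) {s : ℂ} (h0 : 0 < s.re)
    (h1 : s.re < 1) : L s = Xf Q lam mu w s * L (1 - s) := by
  have hQ : (Q : ℂ) ≠ 0 := by exact_mod_cast hf.Qpos.ne'
  have hfe := hf.fe s h0 h1
  have hne : 1 - conj s ≠ 1 := by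
    intro h'
    have := congrArg re h'
    simp at this
    linarith
  have hL : conj (L (1 - conj s)) = L (1 - s) := by
    rw [← L_conj h hne]; simp
  have hG : conj (∏ j, Gamma (lam j * (1 - conj s) + mu j)) =
      ∏ j, Gamma (lam j * (1 - s) + conj (mu j)) := by
    rw [map_prod]
    refine Finset.prod_congr rfl fun j _ => ?_
    rw [← Gamma_conj]
    simp
  have hq : conj ((Q : ℂ) ^ (1 - conj s)) = (Q : ℂ) ^ (1 - s) := by
    have h1 := conj_cpow (Q : ℂ) (1 - s)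
      (by rw [arg_ofReal_of_nonneg hf.Qpos.le]; exact Real.pi_ne_zero.symm)
    rw [conj_ofReal, map_sub, map_one] at h1
    exact h1.symm
  have hP : (∏ j, Gamma (lam j * s + mu j)) ≠ 0 := by
    refine Finset.prod_ne_zero_iff.2 fun j _ => ?_
    refine Gamma_ne_zero_of_re_pos ?_
    have h2 := hf.lampos j
    have h3 := hf.mure j
    have h4 : ((lam j : ℂ) * s + mu j).re = lam j * s.re + (mu j).re := by simp
    rw [h4]
    have := mul_pos h2 h0
    linarith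
  rw [map_mul, map_mul, hL, hG, hq] at hfe
  have hQs : (Q : ℂ) ^ s ≠ 0 := by
    rw [cpow_def_of_ne_zero hQ]; exact exp_ne_zero _
  have hQ2 : (Q : ℂ) ^ (1 - s) = (Q : ℂ) ^ (1 - 2 * s) * (Q : ℂ) ^ s := by
    rw [← cpow_add _ _ hQ]; congr 1; ring
  rw [hQ2] at hfe
  rw [Xf, div_mul_eq_mul_div, eq_div_iff hP]
  refine mul_left_cancel₀ hQs ?_
  linear_combination hfe

/-- The functional equation (compare `fe_left`). -/
theorem fe_left3 (h : RealSelberg b L 3) (hf : Fun3 L Q lam mu w) {s : ℂ} (hs : s.re < 1)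
    (h0 : s ≠ 0) : L s = Xf Q lam mu w s * L (1 - s) := by
  obtain ⟨m, G, A, hGd, hG, -⟩ := h.continuation
  have hUo : IsOpen {z : ℂ | z.re < 1} := isOpen_lt continuous_re continuous_const
  have hUc : Convex ℝ {z : ℂ | z.re < 1} := convex_halfSpace_re_lt 1
  have hne1 : ∀ z : ℂ, z.re < 1 → z ≠ 1 := by
    rintro z hz rfl
    simp at hz
  have hA1 : AnalyticOnNhd ℂ (fun z => (-z) ^ m * L z) {z : ℂ | z.re < 1} := by
    refine DifferentiableOn.analyticOnNhd (fun z hz => ?_) hUo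
    have hz' : z.re < 1 := hz
    exact ((by fun_prop : DifferentiableAt ℂ (fun z : ℂ => (-z) ^ m) z).mul
      (L_diff h (hne1 z hz'))).differentiableWithinAt
  have hA2 : AnalyticOnNhd ℂ (fun z => Xf Q lam mu w z * G (1 - z)) {z : ℂ | z.re < 1} := by
    refine DifferentiableOn.analyticOnNhd (fun z hz => ?_) hUo
    have hz' : z.re < 1 := hz
    refine ((Xf_diff3 hf hz').mul ?_).differentiableWithinAt
    exact (hGd _).comp z (f := fun z => 1 - z) (by fun_prop)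
  have hG1 : ∀ z : ℂ, z ≠ 0 → G (1 - z) = (-z) ^ m * L (1 - z) := by
    intro z hz
    rw [hG (1 - z) (by intro h'; apply hz; linear_combination -h')]
    congr 2
    ring
  have hhalf : ((1 / 2 : ℝ) : ℂ) ∈ {z : ℂ | z.re < 1} := by
    show ((1 / 2 : ℝ) : ℂ).re < 1
    rw [ofReal_re]; norm_num
  have key := hA1.eqOn_of_preconnected_of_eventuallyEq hA2 hUc.isPreconnected hhalf (by
    have hop : IsOpen {z : ℂ | 0 < z.re ∧ z.re < 1} :=
      (isOpen_lt continuous_const continuous_re).inter (isOpen_lt continuous_re continuous_const)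
    have hmem : ((1 / 2 : ℝ) : ℂ) ∈ {z : ℂ | 0 < z.re ∧ z.re < 1} := by
      show 0 < ((1 / 2 : ℝ) : ℂ).re ∧ ((1 / 2 : ℝ) : ℂ).re < 1
      rw [ofReal_re]; norm_num
    filter_upwards [hop.mem_nhds hmem] with z hz
    have hz1 : 0 < z.re := hz.1
    have hz2 : z.re < 1 := hz.2
    have hz0 : z ≠ 0 := by
      rintro rfl
      simp at hz1
    rw [hG1 z hz0, GX4_crit h hf hz1 hz2]
    ring)
  have h2 := key (show s ∈ {z : ℂ | z.re < 1} from hs)
  simp only at h2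
  rw [hG1 s h0] at h2
  refine mul_left_cancel₀ (pow_ne_zero m (neg_ne_zero.2 h0)) ?_
  linear_combination h2

/-- `X` is real for `Re s < 0` (compare `Xf_conj`). -/
theorem Xf_conj3 (h : RealSelberg b L 3) (hf : Fun3 L Q lam mu w) {s : ℂ} (hs : s.re < 0) :
    Xf Q lam mu w (conj s) = conj (Xf Q lam mu w s) := by
  have hsc : (conj s).re < 0 := by simpa using hs
  have hne : ∀ z : ℂ, z.re < 0 → z ≠ 0 ∧ z ≠ 1 := by
    intro z hz
    constructor
    · rintro rfl; simp at hz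
    · rintro rfl; simp at hz; linarith
  have e1 := fe_left3 h hf (by linarith : s.re < 1) (hne s hs).1
  have e2 := fe_left3 h hf (by linarith : (conj s).re < 1) (hne _ hsc).1
  have hL0 : L (1 - s) ≠ 0 := L_ne_zero h (by simp; linarith)
  have h1s : (1 - s) ≠ 1 := by
    intro h'
    exact (hne s hs).1 (by linear_combination -h')
  have hc : L (1 - conj s) = conj (L (1 - s)) := by
    rw [← L_conj h h1s]; simp
  rw [L_conj h (hne s hs).2, hc, e1, map_mul] at e2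
  exact (mul_right_cancel₀ ((map_ne_zero _).2 hL0) e2).symm

private theorem GX4_im (hf : Fun3 L Q lam mu w) : ∃ t0 : ℝ, 1 ≤ t0 ∧ ∀ s : ℂ,
    t0 ≤ |s.im| → ∀ j, ((lam j : ℂ) * s + mu j).im ≠ 0 := by
  refine ⟨1 + ∑ j, (|(mu j).im| / lam j), ?_, fun s hs j => ?_⟩
  · have : 0 ≤ ∑ j, (|(mu j).im| / lam j) :=
      Finset.sum_nonneg fun j _ => div_nonneg (abs_nonneg _) (hf.lampos j).le
    linarith
  · intro h0
    have hl := hf.lampos j
    have h1 : ((lam j : ℂ) * s + mu j).im = lam j * s.im + (mu j).im := by simp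
    rw [h1] at h0
    have h2 : |(mu j).im| / lam j ≤ ∑ j, (|(mu j).im| / lam j) :=
      Finset.single_le_sum (f := fun j => |(mu j).im| / lam j)
        (fun j _ => div_nonneg (abs_nonneg _) (hf.lampos j).le) (Finset.mem_univ j)
    have h3 : |(mu j).im| = lam j * |s.im| := by
      have : (mu j).im = -(lam j * s.im) := by linarith
      rw [this, abs_neg, abs_mul, abs_of_pos hl]
    have h4 : |(mu j).im| / lam j = |s.im| := by
      rw [h3]; field_simp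
    rw [h4] at h2
    linarith

/-- `X` has no zeros far up (compare `Xf_ne_zero`). -/
theorem Xf_ne_zero3 (hf : Fun3 L Q lam mu w) : ∃ t0 : ℝ, 1 ≤ t0 ∧ ∀ s : ℂ, s.re < 1 →
    t0 ≤ |s.im| → Xf Q lam mu w s ≠ 0 := by
  obtain ⟨t0, h1, h2⟩ := GX4_im hf
  have hQ : (Q : ℂ) ≠ 0 := by exact_mod_cast hf.Qpos.ne'
  refine ⟨t0, h1, fun s hs ht => ?_⟩
  rw [Xf]
  refine div_ne_zero (mul_ne_zero (mul_ne_zero ?_ ?_) ?_) ?_
  · intro h0
    have := hf.wnorm
    rw [h0] at this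
    simp at this
  · rw [cpow_def_of_ne_zero hQ]; exact exp_ne_zero _
  · refine Finset.prod_ne_zero_iff.2 fun j _ => ?_
    exact Gamma_ne_zero_of_re_pos (GX4_num hf hs j)
  · refine Finset.prod_ne_zero_iff.2 fun j _ => ?_
    refine Gamma_ne_zero fun m h' => ?_
    have h3 := h2 s ht j
    rw [h'] at h3
    simp at h3

theorem kap3_pos (hf : Fun3 L Q lam mu w) : 0 < kap3 Q lam := by
  have hP : 0 < ∏ j, lam j ^ lam j :=
    Finset.prod_pos fun j _ => Real.rpow_pos_of_pos (hf.lampos j) _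
  have hQ := hf.Qpos
  have := Real.pi_pos
  rw [kap3]
  positivity
--END GX4

--BEGIN GX5
private theorem GX5_gen (hf : Fun3 L Q lam mu w) : ∃ (c2 c3 : ℂ) (C t0 : ℝ), 0 < C ∧ 1 ≤ t0 ∧
    ∀ s : ℂ, -(9 / 8) ≤ s.re → s.re ≤ 1 / 2 → t0 ≤ |s.im| →
      ‖logDeriv (Xf Q lam mu w) s - (-((2 * Real.log Q : ℝ) : ℂ) -
        ∑ j, ((lam j : ℂ) * (log ((lam j : ℂ) * s) + log (((-lam j : ℝ) : ℂ) * s))) +
        (3 / 2 - (2 * ∑ j, (mu j).im : ℝ) * I) / s + c2 / s ^ 2 + c3 / s ^ 3)‖ ≤ C / |s.im| ^ 4 := by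
  have hQ : (Q : ℂ) ≠ 0 := by exact_mod_cast hf.Qpos.ne'
  have hlc : ∀ j, (lam j : ℂ) ≠ 0 := fun j => by exact_mod_cast (hf.lampos j).ne'
  obtain ⟨t1, ht1, him⟩ := GX4_im hf
  have hA1 := fun j => digamma_affine_four (lam j) (hf.lampos j).ne' (mu j) (9 / 8)
  have hA2 := fun j => digamma_affine_four (-lam j) (neg_ne_zero.2 (hf.lampos j).ne')
    (lam j + conj (mu j)) (9 / 8)
  choose c e C t hC ht hb using hA1
  choose c' e' C' t' hC' ht' hb' using hA2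
  have hlam0 : ∀ j, 0 ≤ lam j := fun j => (hf.lampos j).le
  refine ⟨-∑ j, (lam j : ℂ) * (c j + c' j), -∑ j, (lam j : ℂ) * (e j + e' j), 1 + ∑ j, lam j * (C j + C' j),
    t1 + ∑ j, (t j + t' j), ?_, ?_, ?_⟩
  · have : 0 ≤ ∑ j, lam j * (C j + C' j) :=
      Finset.sum_nonneg fun j _ => mul_nonneg (hlam0 j) (by have := hC j; have := hC' j; linarith)
    linarith
  · have : 0 ≤ ∑ j, (t j + t' j) :=
      Finset.sum_nonneg fun j _ => by have := ht j; have := ht' j; linarith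
    linarith
  intro s hs1 hs2 hst
  have hsum0 : 0 ≤ ∑ j, (t j + t' j) :=
    Finset.sum_nonneg fun j _ => by have := ht j; have := ht' j; linarith
  have hst1 : t1 ≤ |s.im| := by linarith
  have hle : ∀ j, t j + t' j ≤ |s.im| := by
    intro j
    have : t j + t' j ≤ ∑ j, (t j + t' j) :=
      Finset.single_le_sum (f := fun j => t j + t' j)
        (fun j _ => by have := ht j; have := ht' j; linarith) (Finset.mem_univ j)
    linarith
  have him0 : 0 < |s.im| := by linarith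
  have hs0 : s ≠ 0 := by
    rintro rfl
    simp at him0
  have hsre : |s.re| ≤ 9 / 8 := abs_le.2 ⟨hs1, by linarith⟩
  have hs1' : s.re < 1 := by linarith
  -- the logarithmic derivative
  have hld : logDeriv (Xf Q lam mu w) s = -((2 * Real.log Q : ℝ) : ℂ) -
      ∑ j, (lam j : ℂ) * digamma (((-lam j : ℝ) : ℂ) * s + (lam j + conj (mu j))) -
      ∑ j, (lam j : ℂ) * digamma (lam j * s + mu j) := by
    have hw : w ≠ 0 := by
      intro h0
      have := hf.wnorm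
      rw [h0] at this
      simp at this
    have d1 : HasDerivAt (fun z : ℂ => (Q : ℂ) ^ (1 - 2 * z))
        ((Q : ℂ) ^ (1 - 2 * s) * Complex.log Q * (-2)) s := by
      have : HasDerivAt (fun z : ℂ => 1 - 2 * z) (-2) s := by
        have := ((hasDerivAt_id s).const_mul (2 : ℂ)).const_sub 1
        simpa using this
      exact this.const_cpow (Or.inl hQ)
    have n1 : (Q : ℂ) ^ (1 - 2 * s) ≠ 0 := by
      rw [cpow_def_of_ne_zero hQ]; exact exp_ne_zero _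
    have n2 : ∀ j ∈ Finset.univ, (fun z : ℂ => Gamma (lam j * (1 - z) + conj (mu j))) s ≠ 0 :=
      fun j _ => Gamma_ne_zero_of_re_pos (GX4_num hf hs1' j)
    have g3 : ∀ j, ∀ m : ℕ, (lam j : ℂ) * s + mu j ≠ -m := by
      intro j m h'
      have h3 := him s hst1 j
      rw [h'] at h3
      simp at h3
    have n3 : ∀ j ∈ Finset.univ, (fun z : ℂ => Gamma (lam j * z + mu j)) s ≠ 0 :=
      fun j _ => Gamma_ne_zero (g3 j)
    have e2 : ∀ j ∈ Finset.univ,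
        DifferentiableAt ℂ (fun z : ℂ => Gamma (lam j * (1 - z) + conj (mu j))) s := by
      intro j _
      exact (GX4_diffGamma (GX4_num hf hs1' j)).comp s
        (f := fun s => (lam j : ℂ) * (1 - s) + conj (mu j)) (by fun_prop)
    have e3 : ∀ j ∈ Finset.univ, DifferentiableAt ℂ (fun z : ℂ => Gamma (lam j * z + mu j)) s := by
      intro j _
      exact (differentiableAt_Gamma _ (g3 j)).comp s (f := fun s => (lam j : ℂ) * s + mu j)
        (by fun_prop)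
    have p2 : (∏ j, Gamma (lam j * (1 - s) + conj (mu j))) ≠ 0 := Finset.prod_ne_zero_iff.2 n2
    have p3 : (∏ j, Gamma (lam j * s + mu j)) ≠ 0 := Finset.prod_ne_zero_iff.2 n3
    have q2 : DifferentiableAt ℂ (fun z : ℂ => ∏ j, Gamma (lam j * (1 - z) + conj (mu j))) s :=
      DifferentiableAt.fun_finsetProd e2
    have q3 : DifferentiableAt ℂ (fun z : ℂ => ∏ j, Gamma (lam j * z + mu j)) s :=
      DifferentiableAt.fun_finsetProd e3
    have h1 : logDeriv (Xf Q lam mu w) s = logDeriv (fun z => w * (Q : ℂ) ^ (1 - 2 * z) *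
        (∏ j, Gamma (lam j * (1 - z) + conj (mu j)))) s -
        logDeriv (fun z => ∏ j, Gamma (lam j * z + mu j)) s := by
      refine logDeriv_div s (mul_ne_zero (mul_ne_zero hw n1) p2) p3 ?_ q3
      exact (d1.differentiableAt.const_mul w).mul q2
    have h2 : logDeriv (fun z => w * (Q : ℂ) ^ (1 - 2 * z) *
        (∏ j, Gamma (lam j * (1 - z) + conj (mu j)))) s =
        logDeriv (fun z => w * (Q : ℂ) ^ (1 - 2 * z)) s +
        logDeriv (fun z => ∏ j, Gamma (lam j * (1 - z) + conj (mu j))) s :=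
      logDeriv_mul s (mul_ne_zero hw n1) p2 (d1.differentiableAt.const_mul w) q2
    have h3 : logDeriv (fun z => w * (Q : ℂ) ^ (1 - 2 * z)) s = -((2 * Real.log Q : ℝ) : ℂ) := by
      rw [logDeriv_const_mul s w hw, logDeriv_apply, d1.deriv, ofReal_mul, ofReal_log hf.Qpos.le]
      field_simp
      push_cast
      ring
    have h4 : logDeriv (fun z => ∏ j, Gamma (lam j * (1 - z) + conj (mu j))) s =
        -∑ j, (lam j : ℂ) * digamma (((-lam j : ℝ) : ℂ) * s + (lam j + conj (mu j))) := by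
      rw [logDeriv_prod n2 e2, ← Finset.sum_neg_distrib]
      refine Finset.sum_congr rfl fun j _ => ?_
      have dd : HasDerivAt (fun z : ℂ => (lam j : ℂ) * (1 - z) + conj (mu j)) (-(lam j : ℂ)) s := by
        have := (((hasDerivAt_id s).const_sub 1).const_mul (lam j : ℂ)).add_const (conj (mu j))
        simpa using this
      have := logDeriv_comp (f := Gamma) (g := fun z : ℂ => (lam j : ℂ) * (1 - z) + conj (mu j))
        (x := s) (GX4_diffGamma (GX4_num hf hs1' j)) dd.differentiableAt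
      rw [dd.deriv] at this
      have h5 : (((-lam j : ℝ) : ℂ) * s + (lam j + conj (mu j))) =
          (lam j : ℂ) * (1 - s) + conj (mu j) := by push_cast; ring
      rw [h5, digamma_def]
      have h6 : (Gamma ∘ fun z : ℂ => (lam j : ℂ) * (1 - z) + conj (mu j)) =
        fun z : ℂ => Gamma (lam j * (1 - z) + conj (mu j)) := rfl
      rw [h6] at this
      rw [this]
      ring
    have h5 : logDeriv (fun z => ∏ j, Gamma (lam j * z + mu j)) s =
        ∑ j, (lam j : ℂ) * digamma (lam j * s + mu j) := by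
      rw [logDeriv_prod n3 e3]
      refine Finset.sum_congr rfl fun j _ => ?_
      have dd : HasDerivAt (fun z : ℂ => (lam j : ℂ) * z + mu j) (lam j : ℂ) s := by
        have := (((hasDerivAt_id s)).const_mul (lam j : ℂ)).add_const (mu j)
        simpa using this
      have := logDeriv_comp (f := Gamma) (g := fun z : ℂ => (lam j : ℂ) * z + mu j)
        (x := s) (differentiableAt_Gamma _ (g3 j)) dd.differentiableAt
      rw [dd.deriv] at this
      have h6 : (Gamma ∘ fun z : ℂ => (lam j : ℂ) * z + mu j) =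
        fun z : ℂ => Gamma (lam j * z + mu j) := rfl
      rw [h6] at this
      rw [this, digamma_def]
      ring
    rw [h1, h2, h3, h4, h5]
    ring
  have hmain : logDeriv (Xf Q lam mu w) s - (-((2 * Real.log Q : ℝ) : ℂ) -
        ∑ j, ((lam j : ℂ) * (log ((lam j : ℂ) * s) + log (((-lam j : ℝ) : ℂ) * s))) +
        (3 / 2 - (2 * ∑ j, (mu j).im : ℝ) * I) / s +
        (-∑ j, (lam j : ℂ) * (c j + c' j)) / s ^ 2 +
        (-∑ j, (lam j : ℂ) * (e j + e' j)) / s ^ 3) =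
      -∑ j, (lam j : ℂ) * ((digamma (lam j * s + mu j) - log (lam j * s) -
        (mu j - 1 / 2) / (lam j * s) - c j / s ^ 2 - e j / s ^ 3) +
        (digamma (((-lam j : ℝ) : ℂ) * s + (lam j + conj (mu j))) - log (((-lam j : ℝ) : ℂ) * s) -
          (lam j + conj (mu j) - 1 / 2) / (((-lam j : ℝ) : ℂ) * s) - c' j / s ^ 2 - e' j / s ^ 3)) := by
    rw [hld]
    have hone : (3 / 2 : ℂ) = ∑ j, (lam j : ℂ) := by
      rw [← ofReal_sum, hf.deg]; push_cast; ring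
    have hnu : ((2 * ∑ j, (mu j).im : ℝ) : ℂ) * I = ∑ j, (mu j - conj (mu j)) := by
      rw [ofReal_mul, ofReal_sum, Finset.mul_sum, Finset.sum_mul]
      refine Finset.sum_congr rfl fun j _ => ?_
      rw [sub_conj]
      push_cast
      ring
    have e1 : (3 / 2 - (2 * ∑ j, (mu j).im : ℝ) * I) / s =
        ∑ j, ((lam j : ℂ) - (mu j - conj (mu j))) / s := by
      have e0 : ∑ j, ((lam j : ℂ) - (mu j - conj (mu j))) = 3 / 2 - ∑ j, (mu j - conj (mu j)) := by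
        rw [hone]
        exact Finset.sum_sub_distrib (fun j => (lam j : ℂ)) (fun j => mu j - conj (mu j))
      rw [hnu, ← Finset.sum_div, e0]
    have e2 : (-∑ j, (lam j : ℂ) * (c j + c' j)) / s ^ 2 =
        -∑ j, (lam j : ℂ) * (c j + c' j) / s ^ 2 := by
      rw [neg_div, Finset.sum_div]
    have e2' : (-∑ j, (lam j : ℂ) * (e j + e' j)) / s ^ 3 =
        -∑ j, (lam j : ℂ) * (e j + e' j) / s ^ 3 := by
      rw [neg_div, Finset.sum_div]
    have e3 : ∑ j, (lam j : ℂ) * ((digamma (lam j * s + mu j) - log (lam j * s) -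
        (mu j - 1 / 2) / (lam j * s) - c j / s ^ 2 - e j / s ^ 3) +
        (digamma (((-lam j : ℝ) : ℂ) * s + (lam j + conj (mu j))) - log (((-lam j : ℝ) : ℂ) * s) -
          (lam j + conj (mu j) - 1 / 2) / (((-lam j : ℝ) : ℂ) * s) - c' j / s ^ 2 - e' j / s ^ 3)) =
        ∑ j, ((lam j : ℂ) * digamma (lam j * s + mu j) +
          (lam j : ℂ) * digamma (((-lam j : ℝ) : ℂ) * s + (lam j + conj (mu j))) -
          (lam j : ℂ) * (log ((lam j : ℂ) * s) + log (((-lam j : ℝ) : ℂ) * s)) +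
          ((lam j : ℂ) - (mu j - conj (mu j))) / s - (lam j : ℂ) * (c j + c' j) / s ^ 2 -
          (lam j : ℂ) * (e j + e' j) / s ^ 3) := by
      refine Finset.sum_congr rfl fun j _ => ?_
      have h1 := hlc j
      rw [ofReal_neg]
      field_simp
      ring
    rw [e1, e2, e2', e3, Finset.sum_sub_distrib, Finset.sum_sub_distrib, Finset.sum_add_distrib,
      Finset.sum_sub_distrib, Finset.sum_add_distrib]
    ring
  rw [hmain, norm_neg]
  refine (norm_sum_le _ _).trans ?_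
  have h3 : ∀ j ∈ Finset.univ, ‖(lam j : ℂ) * ((digamma (lam j * s + mu j) - log (lam j * s) -
        (mu j - 1 / 2) / (lam j * s) - c j / s ^ 2 - e j / s ^ 3) +
        (digamma (((-lam j : ℝ) : ℂ) * s + (lam j + conj (mu j))) - log (((-lam j : ℝ) : ℂ) * s) -
          (lam j + conj (mu j) - 1 / 2) / (((-lam j : ℝ) : ℂ) * s) - c' j / s ^ 2 - e' j / s ^ 3))‖ ≤
      lam j * (C j + C' j) / |s.im| ^ 4 := by
    intro j _
    rw [norm_mul, norm_real, Real.norm_of_nonneg (hlam0 j), mul_div_assoc, add_div]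
    refine mul_le_mul_of_nonneg_left ((norm_add_le _ _).trans (add_le_add ?_ ?_)) (hlam0 j)
    · exact hb j s hsre (by have := hle j; have := ht' j; linarith)
    · exact hb' j s hsre (by have := hle j; have := ht j; linarith)
  refine (Finset.sum_le_sum h3).trans ?_
  rw [← Finset.sum_div]
  gcongr
  linarith

private theorem GX5_kap (hf : Fun3 L Q lam mu w) :
    3 * Real.log (2 * π * kap3 Q lam ^ (1 / 3 : ℝ)) =
    -(2 * Real.log Q) - 2 * ∑ j, lam j * Real.log (lam j) := by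
  have hP : 0 < ∏ j, lam j ^ lam j :=
    Finset.prod_pos fun j _ => Real.rpow_pos_of_pos (hf.lampos j) _
  have hQ := hf.Qpos
  have hπ := Real.pi_pos
  have hκ := kap3_pos hf
  have h3 : Real.log (∏ j, lam j ^ lam j) = ∑ j, lam j * Real.log (lam j) := by
    rw [Real.log_prod fun j _ => (Real.rpow_pos_of_pos (hf.lampos j) _).ne']
    exact Finset.sum_congr rfl fun j _ => Real.log_rpow (hf.lampos j) _
  have h4 : Real.log (kap3 Q lam) = -(3 * Real.log (2 * π) + 2 * (Real.log Q +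
      ∑ j, lam j * Real.log (lam j))) := by
    rw [kap3, Real.log_inv, Real.log_mul (by positivity) (by positivity), Real.log_pow,
      Real.log_pow, Real.log_mul hQ.ne' hP.ne', h3]
    push_cast
    ring
  rw [Real.log_mul (by positivity) (Real.rpow_pos_of_pos hκ _).ne', Real.log_rpow hκ, h4]
  ring

private theorem GX5_sum (hf : Fun3 L Q lam mu w) {s : ℂ} (hs : s ≠ 0) :
    -((2 * Real.log Q : ℝ) : ℂ) -
        ∑ j, ((lam j : ℂ) * (log ((lam j : ℂ) * s) + log (((-lam j : ℝ) : ℂ) * s))) =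
      3 * Real.log (2 * π * kap3 Q lam ^ (1 / 3 : ℝ)) - 3 / 2 * (log s + log (-s)) := by
  have h0 : (3 * Real.log (2 * π * kap3 Q lam ^ (1 / 3 : ℝ)) : ℂ) =
      ((3 * Real.log (2 * π * kap3 Q lam ^ (1 / 3 : ℝ)) : ℝ) : ℂ) := by
    rw [ofReal_mul]
    norm_num
  have hone : (3 / 2 : ℂ) = ∑ j, (lam j : ℂ) := by
    rw [← ofReal_sum, hf.deg]; push_cast; ring
  have h1 : ∑ j, ((lam j : ℂ) * (log ((lam j : ℂ) * s) + log (((-lam j : ℝ) : ℂ) * s))) =
      2 * ∑ j, ((lam j * Real.log (lam j) : ℝ) : ℂ) + 3 / 2 * (log s + log (-s)) := by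
    have : 3 / 2 * (log s + log (-s)) = ∑ j, (lam j : ℂ) * (log s + log (-s)) := by
      rw [← Finset.sum_mul, ← hone]
    rw [this, Finset.mul_sum, ← Finset.sum_add_distrib]
    refine Finset.sum_congr rfl fun j _ => ?_
    have h2 : ((-lam j : ℝ) : ℂ) * s = (lam j : ℂ) * (-s) := by push_cast; ring
    rw [h2, log_ofReal_mul (hf.lampos j) hs, log_ofReal_mul (hf.lampos j) (neg_ne_zero.2 hs)]
    push_cast
    ring
  rw [h0, GX5_kap hf, h1]
  push_cast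
  ring

/-- **GX5.** Fourth order expansion of `X'/X`, upper half plane (compare `Xf_logDeriv_upper`; use
GX3); `3 log(2πκ^{1/3}) = -2 log Q - 2 ∑ λ_j log λ_j`. -/
theorem Xf_logDeriv_upper3 (hf : Fun3 L Q lam mu w) : ∃ (c2 c3 : ℂ) (C t0 : ℝ), 0 < C ∧ 1 ≤ t0 ∧
    ∀ s : ℂ, -(9 / 8) ≤ s.re → s.re ≤ 1 / 2 → t0 ≤ s.im →
      ‖logDeriv (Xf Q lam mu w) s - (3 / 2 * π * I +
        3 * Real.log (2 * π * kap3 Q lam ^ (1 / 3 : ℝ)) - 3 * log s +
        (3 / 2 - (2 * ∑ j, (mu j).im : ℝ) * I) / s + c2 / s ^ 2 + c3 / s ^ 3)‖ ≤ C / s.im ^ 4 := by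
  obtain ⟨c2, c3, C, t0, hC, ht, hb⟩ := GX5_gen hf
  refine ⟨c2, c3, C, t0, hC, ht, fun s h1 h2 h3 => ?_⟩
  have him : 0 < s.im := by linarith
  have hs : s ≠ 0 := by
    rintro rfl
    simp at him
  have h4 := hb s h1 h2 (by rwa [abs_of_pos him])
  rw [abs_of_pos him, GX5_sum hf hs] at h4
  have h5 : log (-s) = log s - π * I := by
    rw [log, log, norm_neg, arg_neg_eq_arg_sub_pi_of_im_pos him]
    push_cast
    ring
  rw [h5] at h4
  refine le_of_eq_of_le ?_ h4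
  congr 1
  ring

/-- The same in the lower half plane (compare `Xf_logDeriv_lower`). -/
theorem Xf_logDeriv_lower3 (hf : Fun3 L Q lam mu w) : ∃ (c2 c3 : ℂ) (C t0 : ℝ), 0 < C ∧ 1 ≤ t0 ∧
    ∀ s : ℂ, -(9 / 8) ≤ s.re → s.re ≤ 1 / 2 → s.im ≤ -t0 →
      ‖logDeriv (Xf Q lam mu w) s - (-(3 / 2 * π * I) +
        3 * Real.log (2 * π * kap3 Q lam ^ (1 / 3 : ℝ)) - 3 * log s +
        (3 / 2 - (2 * ∑ j, (mu j).im : ℝ) * I) / s + c2 / s ^ 2 + c3 / s ^ 3)‖ ≤
        C / |s.im| ^ 4 := by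
  obtain ⟨c2, c3, C, t0, hC, ht, hb⟩ := GX5_gen hf
  refine ⟨c2, c3, C, t0, hC, ht, fun s h1 h2 h3 => ?_⟩
  have him : s.im < 0 := by linarith
  have hs : s ≠ 0 := by
    rintro rfl
    simp at him
  have h4 := hb s h1 h2 (by rw [abs_of_neg him]; linarith)
  rw [GX5_sum hf hs] at h4
  have h5 : log (-s) = log s + π * I := by
    rw [log, log, norm_neg, arg_neg_eq_arg_add_pi_of_im_neg him]
    push_cast
    ring
  rw [h5] at h4
  refine le_of_eq_of_le ?_ h4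
  congr 1
  ring

private theorem GX5_red {D M1 s c e : ℂ} {C t : ℝ} (ht : t = |s.im|) (ht1 : 1 ≤ |s.im|)
    (hC : 0 ≤ C) (h : ‖D - (M1 + c / s ^ 2 + e / s ^ 3)‖ ≤ C / t ^ 4) :
    ‖D - (M1 + c / s ^ 2)‖ ≤ (C + ‖e‖) / t ^ 3 := by
  rw [ht] at h ⊢
  have ht0 : 0 < |s.im| := by linarith
  have h1 : D - (M1 + c / s ^ 2) = (D - (M1 + c / s ^ 2 + e / s ^ 3)) + e / s ^ 3 := by ring
  rw [h1, add_div]
  refine (norm_add_le _ _).trans (add_le_add (h.trans ?_) ?_)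
  · exact div_le_div_of_nonneg_left hC (by positivity) (pow_le_pow_right₀ ht1 (by norm_num))
  · rw [norm_div, norm_pow]
    have h2 := abs_im_le_norm s
    gcongr

/-- `∑ Im μ_j = 0` (compare `sum_im_zero`). -/
theorem sum_im_zero3 (h : RealSelberg b L 3) (hf : Fun3 L Q lam mu w) : ∑ j, (mu j).im = 0 := by
  obtain ⟨c, e, C, t0, hC, ht, hb⟩ := Xf_logDeriv_upper3 hf
  obtain ⟨c', e', C', t0', hC', ht', hb'⟩ := Xf_logDeriv_lower3 hf
  have hb3 : ∀ s : ℂ, -(9 / 8) ≤ s.re → s.re ≤ 1 / 2 → t0 ≤ s.im →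
      ‖logDeriv (Xf Q lam mu w) s - (3 / 2 * π * I +
        3 * Real.log (2 * π * kap3 Q lam ^ (1 / 3 : ℝ)) - 3 * log s +
        (3 / 2 - (2 * ∑ j, (mu j).im : ℝ) * I) / s + c / s ^ 2)‖ ≤ (C + ‖e‖) / s.im ^ 3 := by
    intro s h1 h2 h3
    exact GX5_red (abs_of_pos (by linarith : 0 < s.im)).symm
      (by rw [abs_of_pos (by linarith)]; linarith) hC.le (hb s h1 h2 h3)
  have hb3' : ∀ s : ℂ, -(9 / 8) ≤ s.re → s.re ≤ 1 / 2 → s.im ≤ -t0' →
      ‖logDeriv (Xf Q lam mu w) s - (-(3 / 2 * π * I) +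
        3 * Real.log (2 * π * kap3 Q lam ^ (1 / 3 : ℝ)) - 3 * log s +
        (3 / 2 - (2 * ∑ j, (mu j).im : ℝ) * I) / s + c' / s ^ 2)‖ ≤
        (C' + ‖e'‖) / |s.im| ^ 3 := by
    intro s h1 h2 h3
    exact GX5_red rfl (by rw [abs_of_neg (by linarith)]; linarith) hC'.le (hb' s h1 h2 h3)
  replace hC : 0 < C + ‖e‖ := by have := norm_nonneg e; linarith
  replace hC' : 0 < C' + ‖e'‖ := by have := norm_nonneg e'; linarith
  generalize C + ‖e‖ = C at hC hb3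
  generalize C' + ‖e'‖ = C' at hC' hb3'
  clear hb hb'
  rename' hb3 => hb
  rename' hb3' => hb'
  set K : ℂ := ((3 * Real.log (2 * π * kap3 Q lam ^ (1 / 3 : ℝ)) : ℝ) : ℂ) with hK
  set ν : ℝ := 2 * ∑ j, (mu j).im with hν
  have hKe : (3 * Real.log (2 * π * kap3 Q lam ^ (1 / 3 : ℝ)) : ℂ) = K := by
    rw [hK, ofReal_mul]; norm_num
  -- the logarithmic derivative of X at conjugate points
  have hld : ∀ s : ℂ, s.re < 0 →
      logDeriv (Xf Q lam mu w) (conj s) = conj (logDeriv (Xf Q lam mu w) s) := by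
    intro s hs
    have h1 : HasDerivAt (Xf Q lam mu w) (deriv (Xf Q lam mu w) s) s :=
      (Xf_diff3 hf (by linarith)).hasDerivAt
    have h2 := h1.conj_conj
    have h3 : (conj ∘ Xf Q lam mu w ∘ conj) =ᶠ[𝓝 (conj s)] Xf Q lam mu w := by
      have hop : IsOpen {z : ℂ | z.re < 0} := isOpen_lt continuous_re continuous_const
      have hm : conj s ∈ {z : ℂ | z.re < 0} := by
        show (conj s).re < 0
        simpa using hs
      filter_upwards [hop.mem_nhds hm] with z hz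
      have hz' : z.re < 0 := hz
      simp only [Function.comp_apply]
      rw [Xf_conj3 h hf hz', conj_conj]
    have h4 := (h2.congr_of_eventuallyEq h3.symm).deriv
    rw [logDeriv_apply, logDeriv_apply, h4, Xf_conj3 h hf hs, map_div₀]
  -- compare at -1/2 + it
  have key : ∀ t : ℝ, t0 + t0' ≤ t → |ν| * 2 / (1 + t) ≤
      (‖c‖ + ‖c'‖) / t ^ 2 + (C + C') / t ^ 3 := by
    intro t htt
    have ht0 : 0 < t := by linarith
    set s : ℂ := -(1 / 2) + t * I with hs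
    have hre : s.re = -(1 / 2) := by simp [hs]
    have him : s.im = t := by simp [hs]
    have hcre : (conj s).re = -(1 / 2) := by simp [hs]
    have hcim : (conj s).im = -t := by simp [hs]
    have hs0 : s ≠ 0 := by
      intro h0
      rw [h0] at him
      simp at him
      linarith
    have e1 := hb s (by rw [hre]; norm_num) (by rw [hre]; norm_num) (by rw [him]; linarith)
    have e2 := hb' (conj s) (by rw [hcre]; norm_num) (by rw [hcre]; norm_num)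
      (by rw [hcim]; linarith)
    rw [hld s (by rw [hre]; norm_num), hcim, abs_neg, abs_of_pos ht0] at e2
    rw [him] at e1
    have e3 : ‖conj (conj (logDeriv (Xf Q lam mu w) s) - (-(3 / 2 * π * I) +
        3 * Real.log (2 * π * kap3 Q lam ^ (1 / 3 : ℝ)) - 3 * log (conj s) +
        (3 / 2 - (ν : ℂ) * I) / conj s + c' / conj s ^ 2))‖ ≤ C' / t ^ 3 := by
      rw [RCLike.norm_conj]; exact e2
    have hlog : conj (log (conj s)) = log s := by
      rw [← log_conj _ (by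
        intro h'
        have := (arg_eq_pi_iff.1 h').2
        rw [hcim] at this
        linarith), conj_conj]
    have h2c : conj (2 : ℂ) = 2 := map_ofNat _ 2
    have h3c : conj (3 : ℂ) = 3 := map_ofNat _ 3
    have hKc : conj K = K := by rw [hK, conj_ofReal]
    have hνc : conj (ν : ℂ) = ν := conj_ofReal _
    have hπc : conj (π : ℂ) = π := conj_ofReal _
    rw [hKe] at e3
    simp only [map_sub, map_add, map_neg, map_mul, map_div₀, map_pow, conj_conj, hlog,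
      conj_I, h2c, h3c, hKc, hνc, hπc] at e3
    rw [hKe] at e1
    have e4 := norm_sub_le
      (logDeriv (Xf Q lam mu w) s - (-(3 / 2 * (π : ℂ) * -I) + K - 3 * log s +
        (3 / 2 - (ν : ℂ) * -I) / s + conj c' / s ^ 2))
      (logDeriv (Xf Q lam mu w) s - (3 / 2 * π * I + K - 3 * log s + (3 / 2 - (ν : ℂ) * I) / s +
        c / s ^ 2))
    have e5 : (logDeriv (Xf Q lam mu w) s - (-(3 / 2 * (π : ℂ) * -I) + K - 3 * log s +
        (3 / 2 - (ν : ℂ) * -I) / s + conj c' / s ^ 2)) -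
      (logDeriv (Xf Q lam mu w) s - (3 / 2 * π * I + K - 3 * log s + (3 / 2 - (ν : ℂ) * I) / s +
        c / s ^ 2)) =
      -(2 * (ν * I) / s) - (conj c' - c) / s ^ 2 := by
      field_simp
      ring
    rw [e5] at e4
    have e6 : ‖2 * ((ν : ℂ) * I) / s‖ ≤ ‖-(2 * (ν * I) / s) - (conj c' - c) / s ^ 2‖ +
        ‖(conj c' - c) / s ^ 2‖ := by
      have := norm_add_le (-(2 * (ν * I) / s) - (conj c' - c) / s ^ 2) ((conj c' - c) / s ^ 2)
      rw [sub_add_cancel, norm_neg] at this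
      exact this
    have hns : ‖s‖ ≤ 1 + t := by
      refine (norm_add_le _ _).trans ?_
      have h1 : ‖(-(1 / 2) : ℂ)‖ = 1 / 2 := by
        rw [norm_neg]
        norm_num
      rw [h1, norm_mul, norm_I, mul_one, norm_real, Real.norm_of_nonneg ht0.le]
      linarith
    have hns2 : t ≤ ‖s‖ := by
      have := abs_im_le_norm s
      rw [him, abs_of_pos ht0] at this
      exact this
    have hns0 : 0 < ‖s‖ := norm_pos_iff.2 hs0
    have e7 : ‖2 * ((ν : ℂ) * I) / s‖ = |ν| * 2 / ‖s‖ := by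
      rw [norm_div, norm_mul, norm_mul, norm_I, norm_real, Real.norm_eq_abs, mul_one, mul_comm]
      norm_num
    have e8 : |ν| * 2 / (1 + t) ≤ |ν| * 2 / ‖s‖ := by
      gcongr
    have e9 : ‖(conj c' - c) / s ^ 2‖ ≤ (‖c‖ + ‖c'‖) / t ^ 2 := by
      rw [norm_div, norm_pow]
      have h1 : ‖conj c' - c‖ ≤ ‖c‖ + ‖c'‖ := by
        refine (norm_sub_le _ _).trans ?_
        rw [RCLike.norm_conj]; linarith
      gcongr
    have e10 : C' / t ^ 3 + C / t ^ 3 = (C + C') / t ^ 3 := by ring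
    linarith
  have hν0 : ν = 0 := by
    by_contra hne
    have hpos : 0 < |ν| := abs_pos.2 hne
    set B : ℝ := ‖c‖ + ‖c'‖ + (C + C') with hB
    have hB0 : 0 < B := by have := norm_nonneg c; have := norm_nonneg c'; linarith
    set t : ℝ := t0 + t0' + B / |ν| with htd
    have hBν : 0 < B / |ν| := div_pos hB0 hpos
    have ht1 : 1 ≤ t := by linarith
    have ht0 : 0 < t := by linarith
    have h1 := key t (by linarith)
    have h2 : (‖c‖ + ‖c'‖) / t ^ 2 + (C + C') / t ^ 3 ≤ B / t ^ 2 := by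
      have : (C + C') / t ^ 3 ≤ (C + C') / t ^ 2 := by
        exact div_le_div_of_nonneg_left (by linarith) (by positivity)
          (pow_le_pow_right₀ ht1 (by norm_num))
      have h3 : B / t ^ 2 = (‖c‖ + ‖c'‖) / t ^ 2 + (C + C') / t ^ 2 := by rw [hB]; ring
      linarith
    have h3 : |ν| / t ≤ |ν| * 2 / (1 + t) := by
      rw [div_le_div_iff₀ ht0 (by linarith)]
      nlinarith
    have h4 : |ν| / t ≤ B / t ^ 2 := by linarith
    rw [div_le_div_iff₀ ht0 (by positivity)] at h4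
    have h5 : |ν| * t ≤ B := by
      have : |ν| * t * t ≤ B * t := by nlinarith
      exact le_of_mul_le_mul_right this ht0
    have h6 : B < |ν| * t := by
      have : |ν| * (B / |ν|) = B := by field_simp
      rw [htd]
      nlinarith
    linarith
  rw [hν] at hν0
  linarith
--END GX5

--BEGIN GX6
/-- **GX6.** The logarithmic derivative of `M_0` (compare `Mf_logDeriv`; use GX3). -/
theorem Mf3_logDeriv {κ : ℝ} (hκ : 0 < κ) : ∃ (c c' : ℂ) (C t0 : ℝ), 0 < C ∧ 1 ≤ t0 ∧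
    ∀ s : ℂ, -(9 / 8) ≤ s.re → s.re ≤ 1 / 2 → t0 ≤ s.im →
      Mf3 κ 0 s ≠ 0 ∧
      ‖logDeriv (Mf3 κ 0) s - (3 / 2 * π * I + 3 * Real.log (2 * π * κ ^ (1 / 3 : ℝ)) - 3 * log s -
        (3 / 2) / s + c / s ^ 2 + c' / s ^ 3)‖ ≤ C / s.im ^ 4 := by
  obtain ⟨c, c', C, t0, hC, ht0, hd⟩ := digamma_affine_four (-3) (by norm_num) (-1) (9 / 8)
  have hκ3 : 0 < κ ^ (1 / 3 : ℝ) := Real.rpow_pos_of_pos hκ _
  have hB : 0 < 6 * π * κ ^ (1 / 3 : ℝ) := by positivity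
  refine ⟨-3 * c, -3 * c', 3 * C, t0, by positivity, ht0, fun s hs1 hs2 hst => ?_⟩
  have him : 0 < s.im := by linarith
  have hs0 : s ≠ 0 := by
    intro h
    rw [h, Complex.zero_im] at him
    exact lt_irrefl _ him
  have hz : ∀ m : ℕ, (-3 * s - 1 - ((0 : ℕ) : ℂ)) ≠ -(m : ℂ) := by
    intro m hm
    have h1 := congrArg Complex.im hm
    simp at h1
    linarith
  have hΓ : Gamma (-3 * s - 1 - ((0 : ℕ) : ℂ)) ≠ 0 := Complex.Gamma_ne_zero hz
  have hBc : ((6 * π * κ ^ (1 / 3 : ℝ) : ℝ) : ℂ) ≠ 0 := by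
    rw [Complex.ofReal_ne_zero]
    exact hB.ne'
  have hpow : ((6 * π * κ ^ (1 / 3 : ℝ) : ℝ) : ℂ) ^ (3 * s) ≠ 0 := by
    rw [Complex.cpow_ne_zero_iff]
    exact Or.inl hBc
  have hexp : cexp (-(3 * π * I * s / 2)) ≠ 0 := Complex.exp_ne_zero _
  refine ⟨mul_ne_zero (mul_ne_zero hexp hpow) hΓ, ?_⟩
  have d1 : HasDerivAt (fun s : ℂ => cexp (-(3 * π * I * s / 2)))
      (cexp (-(3 * π * I * s / 2)) * (-(3 / 2 * π * I))) s := by
    have h1 : HasDerivAt (fun s : ℂ => -(3 * π * I * s / 2)) (-(3 / 2 * π * I)) s := by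
      have h2 := (((hasDerivAt_id s).const_mul (3 * π * I)).div_const 2).neg
      refine h2.congr_deriv ?_
      ring
    exact h1.cexp
  have d2 : HasDerivAt (fun s : ℂ => ((6 * π * κ ^ (1 / 3 : ℝ) : ℝ) : ℂ) ^ (3 * s))
      (((6 * π * κ ^ (1 / 3 : ℝ) : ℝ) : ℂ) ^ (3 * s) * log ((6 * π * κ ^ (1 / 3 : ℝ) : ℝ) : ℂ) *
        3) s := by
    have h1 : HasDerivAt (fun s : ℂ => 3 * s) (3 * 1) s := (hasDerivAt_id s).const_mul 3
    rw [mul_one] at h1
    exact h1.const_cpow (Or.inl hBc)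
  have d3 : HasDerivAt (fun s : ℂ => Gamma (-3 * s - 1 - ((0 : ℕ) : ℂ)))
      (deriv Gamma (-3 * s - 1 - ((0 : ℕ) : ℂ)) * (-3)) s := by
    have h1 : HasDerivAt (fun s : ℂ => -3 * s - 1 - ((0 : ℕ) : ℂ)) (-3 * 1) s :=
      (((hasDerivAt_id s).const_mul (-3)).sub_const _).sub_const _
    rw [mul_one] at h1
    exact (Complex.differentiableAt_Gamma _ hz).hasDerivAt.comp s h1
  have d4 := (d1.mul d2).mul d3
  have e1 : logDeriv (Mf3 κ 0) s = -(3 / 2 * π * I) + log ((6 * π * κ ^ (1 / 3 : ℝ) : ℝ) : ℂ) * 3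
      + digamma (-3 * s - 1 - ((0 : ℕ) : ℂ)) * (-3) := by
    have h1 : HasDerivAt (Mf3 κ 0) _ s := d4
    rw [logDeriv_apply, h1.deriv]
    unfold Mf3 digamma
    rw [logDeriv_apply]
    simp only [Pi.mul_apply]
    generalize Gamma (-3 * s - 1 - ((0 : ℕ) : ℂ)) = G at hΓ ⊢
    generalize deriv Gamma (-3 * s - 1 - ((0 : ℕ) : ℂ)) = G'
    generalize ((6 * π * κ ^ (1 / 3 : ℝ) : ℝ) : ℂ) ^ (3 * s) = P at hpow ⊢
    generalize cexp (-(3 * π * I * s / 2)) = E at hexp ⊢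
    field_simp
  have hd1 := hd s (by rw [abs_le]; constructor <;> linarith) (by rw [abs_of_pos him]; exact hst)
  rw [abs_of_pos him] at hd1
  have e2 : (((-3 : ℝ) : ℂ) * s + (-1 : ℂ)) = -3 * s - 1 - ((0 : ℕ) : ℂ) := by
    push_cast
    ring
  have e3 : log (((-3 : ℝ) : ℂ) * s) = log s + Real.log 3 - π * I := by
    have h2 : ((-3 : ℝ) : ℂ) * s = ((3 : ℝ) : ℂ) * (-s) := by
      push_cast
      ring
    have h3 : -s ≠ 0 := neg_ne_zero.2 hs0
    rw [h2, Complex.log_ofReal_mul (by norm_num) h3]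
    have h4 : log (-s) = log s - π * I := by
      rw [Complex.log, Complex.log, norm_neg, Complex.arg_neg_eq_arg_sub_pi_of_im_pos him]
      push_cast
      ring
    rw [h4]
    ring
  have e4 : log ((6 * π * κ ^ (1 / 3 : ℝ) : ℝ) : ℂ) =
      ((Real.log 3 + Real.log (2 * π * κ ^ (1 / 3 : ℝ)) : ℝ) : ℂ) := by
    rw [← Complex.ofReal_log hB.le, ← Real.log_mul (by norm_num) (by positivity)]
    congr 2
    ring
  rw [e2, e3] at hd1
  have e5 : logDeriv (Mf3 κ 0) s - (3 / 2 * π * I + 3 * Real.log (2 * π * κ ^ (1 / 3 : ℝ)) -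
      3 * log s - (3 / 2) / s + -3 * c / s ^ 2 + -3 * c' / s ^ 3) =
      -3 * (digamma (-3 * s - 1 - ((0 : ℕ) : ℂ))
        - (log s + Real.log 3 - π * I) - (-1 - 1 / 2) / (((-3 : ℝ) : ℂ) * s) - c / s ^ 2 -
        c' / s ^ 3) := by
    rw [e1, e4, ofReal_add]
    generalize ((Real.log (2 * π * κ ^ (1 / 3 : ℝ)) : ℝ) : ℂ) = Y
    push_cast
    field_simp
    ring
  rw [e5, norm_mul]
  have h6 : ‖(-3 : ℂ)‖ = 3 := by norm_num
  rw [h6, mul_div_assoc]
  exact mul_le_mul_of_nonneg_left hd1 (by norm_num)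

private theorem GX6_pow {B : ℝ} (hB : 0 < B) {x : ℝ} (hx : |x| ≤ 4) :
    B ^ x ≤ (max B B⁻¹ + 1) ^ 4 := by
  obtain ⟨h1, h2⟩ := abs_le.1 hx
  have h5 : 1 ≤ max B B⁻¹ + 1 := by
    have := hB.le.trans (le_max_left B B⁻¹)
    linarith
  rcases le_total 0 x with h6 | h6
  · calc B ^ x ≤ (max B B⁻¹ + 1) ^ x :=
          Real.rpow_le_rpow hB.le (by linarith [le_max_left B B⁻¹]) h6
      _ ≤ (max B B⁻¹ + 1) ^ (4 : ℝ) := Real.rpow_le_rpow_of_exponent_le h5 (by linarith)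
      _ = (max B B⁻¹ + 1) ^ 4 := by norm_cast
  · have h7 : B ^ x = (B⁻¹) ^ (-x) := by
      rw [Real.inv_rpow hB.le, Real.rpow_neg hB.le, inv_inv]
    rw [h7]
    calc (B⁻¹) ^ (-x) ≤ (max B B⁻¹ + 1) ^ (-x) :=
          Real.rpow_le_rpow (inv_nonneg.2 hB.le) (by linarith [le_max_right B B⁻¹]) (by linarith)
      _ ≤ (max B B⁻¹ + 1) ^ (4 : ℝ) := Real.rpow_le_rpow_of_exponent_le h5 (by linarith)
      _ = (max B B⁻¹ + 1) ^ 4 := by norm_cast

/-- Upper bound for `M_j` (compare `Mf_bound`). -/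
theorem Mf3_bound {κ : ℝ} (hκ : 0 < κ) (j : ℕ) : ∃ C : ℝ, 0 < C ∧
    ∀ s : ℂ, -(9 / 8) ≤ s.re → s.re ≤ 1 / 2 → 1 ≤ s.im →
      ‖Mf3 κ j s‖ ≤ C * s.im ^ (-3 * s.re - 3 / 2 - j) := by
  obtain ⟨C, hC, hG⟩ := Gamma_bound (5 + j)
  have hκ3 : 0 < κ ^ (1 / 3 : ℝ) := Real.rpow_pos_of_pos hκ _
  have hB : 0 < 6 * π * κ ^ (1 / 3 : ℝ) := by positivity
  set B : ℝ := 6 * π * κ ^ (1 / 3 : ℝ) with hBdef
  refine ⟨C * (max B B⁻¹ + 1) ^ 4 * 9, by positivity, fun s h1 h2 h3 => ?_⟩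
  have him : 0 < s.im := by linarith
  have hj : (0 : ℝ) ≤ j := Nat.cast_nonneg j
  unfold Mf3
  rw [norm_mul, norm_mul]
  have e1 : ‖cexp (-(3 * π * I * s / 2))‖ = Real.exp (3 * π * s.im / 2) := by
    rw [Complex.norm_exp]
    congr 1
    have h4 : -(3 * (π : ℂ) * I * s / 2) = ((3 * π * s.im / 2 : ℝ) : ℂ) +
        ((-(3 * π * s.re / 2) : ℝ) : ℂ) * I := by
      have h5 : s = (s.re : ℂ) + s.im * I := (re_add_im s).symm
      apply Complex.ext
      · simp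
        ring
      · simp
    rw [h4]
    simp
  have e2 : ‖((B : ℝ) : ℂ) ^ (3 * s)‖ ≤ (max B B⁻¹ + 1) ^ 4 := by
    rw [Complex.norm_cpow_eq_rpow_re_of_pos hB]
    have h4 : (3 * s).re = 3 * s.re := by simp
    rw [h4]
    exact GX6_pow hB (abs_le.2 ⟨by linarith, by linarith⟩)
  have hσ : |-3 * s.re - 1 - j| ≤ 5 + j := by
    rw [abs_le]
    constructor <;> linarith
  have ht : 1 ≤ |-3 * s.im| := by
    rw [abs_mul, abs_of_pos him]
    norm_num
    linarith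
  obtain ⟨g1, -⟩ := hG (-3 * s.re - 1 - j) (-3 * s.im) hσ ht
  have e3 : (((-3 * s.re - 1 - j : ℝ) : ℂ) + ((-3 * s.im : ℝ) : ℂ) * I)
      = -3 * s - 1 - j := by
    apply Complex.ext
    · simp
    · simp
  have e4 : |-3 * s.im| = 3 * s.im := by
    rw [abs_mul, abs_of_pos him]
    norm_num
  rw [e3, e4] at g1
  have e5 : (-3 * s.re - 1 - (j : ℝ) - 1 / 2) = -3 * s.re - 3 / 2 - j := by ring
  have e6 : -(π * (3 * s.im) / 2) = -(3 * π * s.im / 2) := by ring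
  rw [e5, e6] at g1
  have g2 : (3 * s.im) ^ (-3 * s.re - 3 / 2 - (j : ℝ)) ≤
      9 * s.im ^ (-3 * s.re - 3 / 2 - (j : ℝ)) := by
    rw [Real.mul_rpow (by norm_num) him.le]
    refine mul_le_mul_of_nonneg_right ?_ (Real.rpow_nonneg him.le _)
    have h9 : (9 : ℝ) = 3 ^ (2 : ℝ) := by norm_num
    rw [h9]
    exact Real.rpow_le_rpow_of_exponent_le (by norm_num) (by linarith)
  rw [e1]
  calc Real.exp (3 * π * s.im / 2) * ‖((B : ℝ) : ℂ) ^ (3 * s)‖ * ‖Gamma (-3 * s - 1 - j)‖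
      ≤ Real.exp (3 * π * s.im / 2) * (max B B⁻¹ + 1) ^ 4
        * (C * (3 * s.im) ^ (-3 * s.re - 3 / 2 - (j : ℝ)) * Real.exp (-(3 * π * s.im / 2))) := by
        refine mul_le_mul (mul_le_mul_of_nonneg_left e2 (Real.exp_pos _).le) g1 (norm_nonneg _)
          (by positivity)
    _ = C * (max B B⁻¹ + 1) ^ 4 * (3 * s.im) ^ (-3 * s.re - 3 / 2 - (j : ℝ))
        * (Real.exp (3 * π * s.im / 2) * Real.exp (-(3 * π * s.im / 2))) := by ring
    _ = C * (max B B⁻¹ + 1) ^ 4 * (3 * s.im) ^ (-3 * s.re - 3 / 2 - (j : ℝ)) := by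
        rw [← Real.exp_add, add_neg_cancel, Real.exp_zero, mul_one]
    _ ≤ C * (max B B⁻¹ + 1) ^ 4 * (9 * s.im ^ (-3 * s.re - 3 / 2 - (j : ℝ))) :=
        mul_le_mul_of_nonneg_left g2 (by positivity)
    _ = _ := by ring
--END GX6

--BEGIN GX7
private theorem GX7_bd (f f' : ℝ → ℂ) (t0 C M : ℝ) (ht : 1 ≤ t0) (hC : 0 ≤ C) (hM : 0 < M)
    (hf : ∀ t, t0 ≤ t → HasDerivAt f (f' t) t) (hb : ∀ t, t0 ≤ t → ‖f' t‖ ≤ C / t ^ 3 * ‖f t‖)
    (h0 : ‖f t0‖ ≤ M) : ∀ t, t0 ≤ t → ‖f t‖ ≤ M * Real.exp (C + 1) := by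
  intro t htt
  have hB : ∀ x, t0 ≤ x → HasDerivAt
      (fun x : ℝ => M * Real.exp ((C + 1) / 2 * ((t0 ^ 2)⁻¹ - (x ^ 2)⁻¹)))
      (M * Real.exp ((C + 1) / 2 * ((t0 ^ 2)⁻¹ - (x ^ 2)⁻¹)) * ((C + 1) / x ^ 3)) x := by
    intro x hx
    have hx0 : x ≠ 0 := by linarith
    have h1 : HasDerivAt (fun x : ℝ => (x ^ 2)⁻¹) (-(2 * x) / (x ^ 2) ^ 2) x := by
      refine ((hasDerivAt_pow 2 x).inv (pow_ne_zero 2 hx0)).congr_deriv ?_
      simp
    have h3 : HasDerivAt (fun x : ℝ => (C + 1) / 2 * ((t0 ^ 2)⁻¹ - (x ^ 2)⁻¹))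
        ((C + 1) / 2 * (-(-(2 * x) / (x ^ 2) ^ 2))) x := by
      have h4 := (h1.const_sub ((t0 ^ 2)⁻¹)).const_mul ((C + 1) / 2)
      exact h4
    have h5 := (h3.exp).const_mul M
    refine h5.congr_deriv ?_
    field_simp
  have h1 := image_norm_le_of_norm_deriv_right_lt_deriv_boundary' (f := f) (f' := f')
    (a := t0) (b := t)
    (B := fun x : ℝ => M * Real.exp ((C + 1) / 2 * ((t0 ^ 2)⁻¹ - (x ^ 2)⁻¹)))
    (B' := fun x : ℝ => M * Real.exp ((C + 1) / 2 * ((t0 ^ 2)⁻¹ - (x ^ 2)⁻¹)) * ((C + 1) / x ^ 3))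
    (fun x hx => (hf x hx.1).continuousAt.continuousWithinAt)
    (fun x hx => (hf x hx.1).hasDerivWithinAt)
    (by simpa using h0)
    (fun x hx => (hB x hx.1).continuousAt.continuousWithinAt)
    (fun x hx => (hB x hx.1).hasDerivWithinAt)
    (by
      intro x hx hxe
      have hx1 : 1 ≤ x := ht.trans hx.1
      refine (hb x hx.1).trans_lt ?_
      rw [hxe, mul_comm]
      refine mul_lt_mul_of_pos_left ?_ (by positivity)
      exact div_lt_div_of_pos_right (by linarith) (by positivity))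
    (right_mem_Icc.2 htt)
  refine h1.trans ?_
  refine mul_le_mul_of_nonneg_left ?_ hM.le
  apply Real.exp_le_exp.2
  have h2 : (t0 ^ 2)⁻¹ ≤ 1 := inv_le_one_of_one_le₀ (one_le_pow₀ ht)
  have h3 : 0 ≤ (t ^ 2)⁻¹ := by positivity
  nlinarith

private theorem GX7_lim (f f' : ℝ → ℂ) (t0 K : ℝ) (ht : 1 ≤ t0) (hK : 0 ≤ K)
    (hf : ∀ t, t0 ≤ t → HasDerivAt f (f' t) t) (hb : ∀ t, t0 ≤ t → ‖f' t‖ ≤ K / t ^ 4) :
    ∃ h0 : ℂ, ∀ t, t0 ≤ t → ‖f t - h0‖ ≤ K / t ^ 3 := by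
  have key : ∀ t, t0 ≤ t → ∀ u, t ≤ u → ‖f u - f t‖ ≤ K / t ^ 3 := by
    intro t htt u htu
    have ht1 : 1 ≤ t := ht.trans htt
    have hB : ∀ x, t ≤ x → HasDerivAt (fun x : ℝ => K / 3 * ((t ^ 3)⁻¹ - (x ^ 3)⁻¹))
        (K / x ^ 4) x := by
      intro x hx
      have hx0 : x ≠ 0 := by linarith
      have h1 : HasDerivAt (fun x : ℝ => (x ^ 3)⁻¹) (-(3 * x ^ 2) / (x ^ 3) ^ 2) x := by
        refine ((hasDerivAt_pow 3 x).inv (pow_ne_zero 3 hx0)).congr_deriv ?_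
        norm_num
      have h4 := (h1.const_sub ((t ^ 3)⁻¹)).const_mul (K / 3)
      refine h4.congr_deriv ?_
      field_simp
    have h1 := image_norm_le_of_norm_deriv_right_le_deriv_boundary' (f := fun x => f x - f t)
      (f' := f') (a := t) (b := u) (B := fun x : ℝ => K / 3 * ((t ^ 3)⁻¹ - (x ^ 3)⁻¹))
      (B' := fun x => K / x ^ 4)
      (fun x hx => ((hf x (htt.trans hx.1)).sub_const _).continuousAt.continuousWithinAt)
      (fun x hx => ((hf x (htt.trans hx.1)).sub_const _).hasDerivWithinAt)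
      (by simp)
      (fun x hx => (hB x hx.1).continuousAt.continuousWithinAt)
      (fun x hx => (hB x hx.1).hasDerivWithinAt)
      (fun x hx => hb x (htt.trans hx.1))
      (right_mem_Icc.2 htu)
    refine h1.trans ?_
    have h3 : 0 ≤ (u ^ 3)⁻¹ := by
      have : 0 < u := by linarith
      positivity
    have h4 : 0 ≤ (t ^ 3)⁻¹ := by positivity
    have h5 : K / t ^ 3 = K * (t ^ 3)⁻¹ := div_eq_mul_inv _ _
    rw [h5]
    nlinarith
  have hc : CauchySeq f := by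
    rw [Metric.cauchySeq_iff']
    intro ε hε
    refine ⟨max t0 (K / ε + 1), fun u hu => ?_⟩
    have h1 : t0 ≤ max t0 (K / ε + 1) := le_max_left _ _
    have h2 : K / ε + 1 ≤ max t0 (K / ε + 1) := le_max_right _ _
    have h3 := key _ h1 u hu
    generalize max t0 (K / ε + 1) = T at h1 h2 h3 hu ⊢
    have hT1 : 1 ≤ T := ht.trans h1
    rw [dist_eq_norm]
    refine h3.trans_lt ?_
    rw [div_lt_iff₀ (by positivity)]
    have h4 : K < ε * T := by
      have h5 : K = ε * (K / ε) := by field_simp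
      rw [h5]
      exact mul_lt_mul_of_pos_left (by linarith) hε
    have h6 : T ≤ T ^ 3 := le_self_pow₀ hT1 (by norm_num)
    nlinarith
  obtain ⟨h0, hh0⟩ := cauchySeq_tendsto_of_complete hc
  refine ⟨h0, fun t htt => ?_⟩
  have h1 : Tendsto (fun u => ‖f u - f t‖) atTop (𝓝 ‖h0 - f t‖) := (hh0.sub_const _).norm
  rw [norm_sub_rev]
  exact le_of_tendsto h1 (Filter.eventually_atTop.2 ⟨t, fun u hu => key t htt u hu⟩)

private theorem GX7_exp (z : ℂ) (A : ℝ) (hz : ‖z‖ ≤ A) :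
    ‖cexp z - 1 - z - z ^ 2 / 2‖ ≤ (Real.exp A + 3) * ‖z‖ ^ 3 := by
  rcases le_total ‖z‖ 1 with h | h
  · have h1 := Complex.exp_bound (x := z) h (n := 3) (by norm_num)
    have h2 : ∑ m ∈ Finset.range 3, z ^ m / (m.factorial : ℂ) = 1 + z + z ^ 2 / 2 := by
      simp [Finset.sum_range_succ, Nat.factorial]
    rw [h2] at h1
    have h3 : cexp z - 1 - z - z ^ 2 / 2 = cexp z - (1 + z + z ^ 2 / 2) := by ring
    rw [h3]
    refine h1.trans ?_
    rw [mul_comm]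
    have h4 : ((Nat.succ 3 : ℕ) : ℝ) * ((Nat.factorial 3 : ℝ) * (3 : ℕ))⁻¹ ≤ 1 := by
      norm_num [Nat.factorial]
    have h5 := Real.exp_pos A
    exact mul_le_mul_of_nonneg_right (h4.trans (by linarith)) (by positivity)
  · have h1 : ‖cexp z‖ ≤ Real.exp A := by
      rw [Complex.norm_exp]
      exact Real.exp_le_exp.2 ((Complex.re_le_norm _).trans hz)
    have h2 : ‖cexp z - 1 - z - z ^ 2 / 2‖ ≤ ‖cexp z‖ + 1 + ‖z‖ + ‖z‖ ^ 2 / 2 := by
      have e1 : ‖z ^ 2 / 2‖ = ‖z‖ ^ 2 / 2 := by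
        rw [norm_div, norm_pow, Complex.norm_ofNat]
      have e2 := norm_sub_le (cexp z - 1 - z) (z ^ 2 / 2)
      have e3 := norm_sub_le (cexp z - 1) z
      have e4 := norm_sub_le (cexp z) 1
      rw [norm_one] at e4
      rw [e1] at e2
      linarith
    have h3 : 1 ≤ ‖z‖ ^ 3 := one_le_pow₀ h
    have h4 : ‖z‖ ≤ ‖z‖ ^ 3 := le_self_pow₀ h (by norm_num)
    have h5 : ‖z‖ ^ 2 ≤ ‖z‖ ^ 3 := pow_le_pow_right₀ h (by norm_num)
    have := Real.exp_pos A
    nlinarith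

private theorem GX7_core {F D : ℂ → ℂ} {σ1 σ2 t0 C0 : ℝ} (hσ : σ1 < σ2) (ht : 1 ≤ t0)
    (hC0 : 0 ≤ C0)
    (hF : ∀ s : ℂ, σ1 ≤ s.re → s.re ≤ σ2 → t0 ≤ s.im → HasDerivAt F (F s * D s) s)
    (hFne : ∀ s : ℂ, σ1 ≤ s.re → s.re ≤ σ2 → t0 ≤ s.im → F s ≠ 0)
    (hD : ∀ s : ℂ, σ1 ≤ s.re → s.re ≤ σ2 → t0 ≤ s.im → ‖D s‖ ≤ C0 / s.im ^ 4) :
    ∃ (h0 : ℂ) (C' : ℝ), h0 ≠ 0 ∧ 0 ≤ C' ∧ ∀ s : ℂ, σ1 ≤ s.re → s.re ≤ σ2 → t0 ≤ s.im →
      ‖F s - h0‖ ≤ C' / s.im ^ 3 := by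
  have hcont : ContinuousOn (fun x : ℝ => F (x + t0 * I)) (Icc σ1 σ2) := by
    intro x hx
    have h1 := (hF (x + t0 * I) (by simpa using hx.1) (by simpa using hx.2) (by simp)).continuousAt
    have h2' : ContinuousAt (fun x : ℝ => (x : ℂ) + t0 * I) x := by fun_prop
    exact (ContinuousAt.comp (f := fun x : ℝ => (x : ℂ) + t0 * I)
      (g := F) h1 h2').continuousWithinAt
  obtain ⟨M, hM⟩ := (isCompact_Icc.image_of_continuousOn hcont.norm).bddAbove
  obtain ⟨M0, hM0, hMM0⟩ : ∃ M0 : ℝ, 0 < M0 ∧ M ≤ M0 :=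
    ⟨max M 1, lt_max_of_lt_right one_pos, le_max_left _ _⟩
  -- vertical lines
  have hv : ∀ σ : ℝ, σ1 ≤ σ → σ ≤ σ2 → ∀ t : ℝ, t0 ≤ t →
      HasDerivAt (fun t : ℝ => F (σ + t * I)) (F (σ + t * I) * D (σ + t * I) * I) t := by
    intro σ h1 h2' t h3
    have h4 := hF (σ + t * I) (by simpa using h1) (by simpa using h2') (by simpa using h3)
    have h5 : HasDerivAt (fun t : ℝ => (σ : ℂ) + t * I) I t := by
      have := ((Complex.ofRealCLM.hasDerivAt (x := t)).mul_const I).const_add (σ : ℂ)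
      simpa using this
    exact HasDerivAt.comp t h4 h5
  have hE : ∀ σ : ℝ, σ1 ≤ σ → σ ≤ σ2 → ∀ t : ℝ, t0 ≤ t → ‖D (σ + t * I)‖ ≤ C0 / t ^ 4 := by
    intro σ h1 h2' t h3
    have h4 := hD (σ + t * I) (by simpa using h1) (by simpa using h2') (by simpa using h3)
    have h5 : ((σ : ℂ) + t * I).im = t := by simp
    rw [h5] at h4
    exact h4
  have h43 : ∀ (K t : ℝ), 0 ≤ K → t0 ≤ t → K / t ^ 4 ≤ K / t ^ 3 := by
    intro K t hK h3
    have ht1 : 1 ≤ t := ht.trans h3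
    exact div_le_div_of_nonneg_left hK (by positivity) (pow_le_pow_right₀ ht1 (by norm_num))
  -- boundedness
  have hbd : ∀ σ : ℝ, σ1 ≤ σ → σ ≤ σ2 → ∀ t : ℝ, t0 ≤ t →
      ‖F (σ + t * I)‖ ≤ M0 * Real.exp (C0 + 1) := by
    intro σ h1 h2' t h3
    refine GX7_bd _ _ t0 C0 M0 ht hC0 hM0 (hv σ h1 h2') ?_ ?_ t h3
    · intro u hu
      rw [norm_mul, Complex.norm_I, mul_one, norm_mul, mul_comm]
      exact mul_le_mul_of_nonneg_right ((hE σ h1 h2' u hu).trans (h43 C0 u hC0 hu))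
        (norm_nonneg _)
    · exact (hM ⟨σ, ⟨h1, h2'⟩, rfl⟩).trans hMM0
  set K : ℝ := C0 * (M0 * Real.exp (C0 + 1)) with hK
  have hK0 : 0 ≤ K := by positivity
  -- the limit along the line σ1
  obtain ⟨h0, hh0⟩ := GX7_lim (fun t : ℝ => F (σ1 + t * I)) _ t0 K ht
    hK0 (hv σ1 le_rfl hσ.le) (by
      intro u hu
      rw [norm_mul, Complex.norm_I, mul_one, norm_mul, mul_comm]
      calc _ ≤ C0 / u ^ 4 * (M0 * Real.exp (C0 + 1)) :=
            mul_le_mul (hE σ1 le_rfl hσ.le u hu) (hbd σ1 le_rfl hσ.le u hu) (norm_nonneg _)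
              ((norm_nonneg _).trans (hE σ1 le_rfl hσ.le u hu))
        _ = K / u ^ 4 := by rw [hK]; ring)
  -- h0 is not zero
  have hne : h0 ≠ 0 := by
    intro h00
    have hφne : ∀ t : ℝ, t0 ≤ t → F (σ1 + t * I) ≠ 0 := fun t h3 =>
      hFne _ (by simp) (by simpa using hσ.le) (by simpa using h3)
    have hinv : ∀ t : ℝ, t0 ≤ t → HasDerivAt (fun t : ℝ => (F (σ1 + t * I))⁻¹)
        (-(F (σ1 + t * I) * D (σ1 + t * I) * I) / (F (σ1 + t * I)) ^ 2) t :=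
      fun t h3 => (hv σ1 le_rfl hσ.le t h3).inv (hφne t h3)
    have hM1 : 0 < ‖(F (σ1 + t0 * I))⁻¹‖ :=
      norm_pos_iff.2 (inv_ne_zero (hφne t0 le_rfl))
    have hbi := GX7_bd _ _ t0 C0 _ ht hC0 hM1 hinv (by
      intro u hu
      have h4 := hφne u hu
      have h5 : ‖F (σ1 + u * I)‖ ≠ 0 := norm_ne_zero_iff.2 h4
      rw [norm_div, norm_neg, norm_mul, Complex.norm_I, mul_one, norm_mul
        (F (σ1 + u * I)), norm_pow, norm_inv]
      have h6 : ‖F (σ1 + u * I)‖ * ‖D (σ1 + u * I)‖ / ‖F (σ1 + u * I)‖ ^ 2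
          = ‖D (σ1 + u * I)‖ * ‖F (σ1 + u * I)‖⁻¹ := by
        field_simp
      rw [h6]
      exact mul_le_mul_of_nonneg_right ((hE σ1 le_rfl hσ.le u hu).trans (h43 C0 u hC0 hu))
        (by positivity)) le_rfl
    set M1 : ℝ := ‖(F (σ1 + t0 * I))⁻¹‖ * Real.exp (C0 + 1) with hM1'
    have hM1p : 0 < M1 := by positivity
    -- take t large
    have h7 : ∀ t : ℝ, t0 ≤ t → M1⁻¹ ≤ K / t ^ 3 := by
      intro t h3
      have h8 := hbi t h3
      rw [norm_inv] at h8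
      have h9 := hh0 t h3
      rw [h00, sub_zero] at h9
      have h10 : 0 < ‖F (σ1 + t * I)‖ := norm_pos_iff.2 (hφne t h3)
      refine le_trans ?_ h9
      rw [inv_le_comm₀ hM1p h10]
      exact h8
    have h11 := h7 (max t0 (K * M1 + 1)) (le_max_left _ _)
    have h12 : 1 ≤ max t0 (K * M1 + 1) := le_trans ht (le_max_left _ _)
    have h13 : K * M1 + 1 ≤ max t0 (K * M1 + 1) := le_max_right _ _
    generalize max t0 (K * M1 + 1) = T at h11 h12 h13
    rw [le_div_iff₀ (by positivity), inv_mul_le_iff₀ hM1p] at h11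
    have h14 : T ≤ T ^ 3 := le_self_pow₀ h12 (by norm_num)
    nlinarith
  -- horizontal segments
  have hh : ∀ σ : ℝ, σ1 ≤ σ → σ ≤ σ2 → ∀ t : ℝ, t0 ≤ t →
      ‖F (σ + t * I) - F (σ1 + t * I)‖ ≤ K * (σ2 - σ1) / t ^ 3 := by
    intro σ h1 h2' t h3
    have ht1 : 1 ≤ t := ht.trans h3
    have h4 : ∀ x ∈ Icc σ1 σ, HasDerivWithinAt
        (fun x : ℝ => F (x + t * I)) (F (x + t * I) * D (x + t * I)) (Icc σ1 σ) x := by
      intro x hx
      have h5 := hF (x + t * I) (by simpa using hx.1) (by simpa using hx.2.trans h2')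
        (by simpa using h3)
      have h6 : HasDerivAt (fun x : ℝ => (x : ℂ) + t * I) 1 x := by
        have := (Complex.ofRealCLM.hasDerivAt (x := x)).add_const (t * I)
        simpa using this
      have h7 := HasDerivAt.comp x h5 h6
      rw [mul_one] at h7
      exact h7.hasDerivWithinAt
    have h8 : ∀ x ∈ Ico σ1 σ, ‖F (x + t * I) * D (x + t * I)‖ ≤ K / t ^ 4 := by
      intro x hx
      rw [norm_mul, mul_comm]
      calc _ ≤ C0 / t ^ 4 * (M0 * Real.exp (C0 + 1)) :=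
            mul_le_mul (hE x hx.1 (hx.2.le.trans h2') t h3) (hbd x hx.1 (hx.2.le.trans h2') t h3)
              (norm_nonneg _) ((norm_nonneg _).trans (hE x hx.1 (hx.2.le.trans h2') t h3))
        _ = K / t ^ 4 := by rw [hK]; ring
    have h9 := norm_image_sub_le_of_norm_deriv_le_segment' h4 h8 σ (right_mem_Icc.2 h1)
    refine h9.trans ?_
    have h10 : K / t ^ 4 ≤ K / t ^ 3 := h43 K t hK0 h3
    calc K / t ^ 4 * (σ - σ1) ≤ K / t ^ 3 * (σ2 - σ1) :=
          mul_le_mul h10 (by linarith) (by linarith) (by positivity)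
      _ = K * (σ2 - σ1) / t ^ 3 := by ring
  refine ⟨h0, K * (σ2 - σ1) + K, hne, ?_, ?_⟩
  · have : 0 ≤ K * (σ2 - σ1) := mul_nonneg hK0 (by linarith)
    linarith
  intro s h1 h2' h3
  have hs : (s.re : ℂ) + s.im * I = s := Complex.re_add_im s
  have g1 := hh s.re h1 h2' s.im h3
  have g2 := hh0 s.im h3
  rw [hs] at g1
  calc ‖F s - h0‖ ≤ ‖F s - F (σ1 + s.im * I)‖ + ‖F (σ1 + s.im * I) - h0‖ :=
        norm_sub_le_norm_sub_add_norm_sub _ _ _
    _ ≤ K * (σ2 - σ1) / s.im ^ 3 + K / s.im ^ 3 := add_le_add g1 g2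
    _ = _ := by ring

/-- **GX7.** A function with `H'/H = h2/s² + h3/s³ + O(t^{-4})` in a half strip is
`h0 (1 + e1/s + e2/s² + O(t^{-3}))`, with `h0 ≠ 0` (compare `asymp_of_logDeriv`). -/
theorem asymp_of_logDeriv3 {H : ℂ → ℂ} {σ1 σ2 t0 C : ℝ} {h2 h3 : ℂ} (hσ : σ1 < σ2) (ht : 1 ≤ t0)
    (hd : ∀ s : ℂ, σ1 - 1 / 16 < s.re → s.re < σ2 + 1 / 16 → t0 / 2 < s.im →
      DifferentiableAt ℂ H s ∧ H s ≠ 0)
    (hl : ∀ s : ℂ, σ1 ≤ s.re → s.re ≤ σ2 → t0 ≤ s.im →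
      ‖logDeriv H s - h2 / s ^ 2 - h3 / s ^ 3‖ ≤ C / s.im ^ 4) :
    ∃ (h0 e1 e2 : ℂ) (C' : ℝ), h0 ≠ 0 ∧ 0 < C' ∧ ∀ s : ℂ, σ1 ≤ s.re → s.re ≤ σ2 → t0 ≤ s.im →
      ‖H s - h0 * (1 + e1 / s + e2 / s ^ 2)‖ ≤ C' / s.im ^ 3 := by
  obtain ⟨C0, hC0, hCC0⟩ : ∃ C0 : ℝ, 0 ≤ C0 ∧ C ≤ C0 := ⟨max C 0, le_max_right _ _, le_max_left _ _⟩
  have hs0 : ∀ s : ℂ, t0 ≤ s.im → s ≠ 0 := by
    intro s hs h
    rw [h, Complex.zero_im] at hs
    linarith
  set P : ℂ → ℂ := fun s => h2 / s + h3 / (2 * s ^ 2) with hP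
  set D : ℂ → ℂ := fun s => logDeriv H s - h2 / s ^ 2 - h3 / s ^ 3 with hD
  have hF : ∀ s : ℂ, σ1 ≤ s.re → s.re ≤ σ2 → t0 ≤ s.im →
      HasDerivAt (fun s => H s * cexp (P s)) (H s * cexp (P s) * D s) s := by
    intro s h1 h2' h3'
    obtain ⟨h4, h5⟩ := hd s (by linarith) (by linarith) (by linarith)
    have hsn := hs0 s h3'
    have h6 : HasDerivAt P (-(h2 / s ^ 2) - h3 / s ^ 3) s := by
      have a1 := (hasDerivAt_inv hsn).const_mul h2
      have a2 : HasDerivAt (fun z : ℂ => (2 * z ^ 2)⁻¹) (-(2 * (2 * s)) / (2 * s ^ 2) ^ 2) s := by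
        have a3 : HasDerivAt (fun z : ℂ => 2 * z ^ 2) (2 * (2 * s)) s := by
          have := (hasDerivAt_pow 2 s).const_mul (2 : ℂ)
          simpa using this
        exact a3.inv (mul_ne_zero two_ne_zero (pow_ne_zero 2 hsn))
      have a4 := a1.add (a2.const_mul h3)
      refine (a4.congr_deriv ?_).congr_of_eventuallyEq ?_
      · field_simp
        ring
      · exact Filter.Eventually.of_forall fun x => by
          simp only [hP, Pi.add_apply, div_eq_mul_inv]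
    have h8 := h4.hasDerivAt.mul h6.cexp
    refine h8.congr_deriv ?_
    simp only [hD]
    rw [logDeriv_apply]
    field_simp
    ring
  obtain ⟨h0, K1, hne, hK1, hcore⟩ := GX7_core (F := fun s => H s * cexp (P s)) (D := D)
    (σ1 := σ1) (σ2 := σ2) (t0 := t0) (C0 := C0) hσ ht hC0 hF
    (fun s h1 h2' h3' => mul_ne_zero (hd s (by linarith) (by linarith) (by linarith)).2
      (Complex.exp_ne_zero _))
    (fun s h1 h2' h3' => (hl s h1 h2' h3').trans (by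
      have : 0 < s.im := by linarith
      gcongr))
  set A : ℝ := ‖h2‖ + ‖h3‖ with hA
  have hA0 : 0 ≤ A := by positivity
  refine ⟨h0, -h2, h2 ^ 2 / 2 - h3 / 2, K1 * Real.exp A + ‖h0‖ * ((Real.exp A + 3) * A ^ 3) +
    ‖h0‖ * (A ^ 2) + 1, hne, by positivity, ?_⟩
  intro s h1 h2' h3'
  have ht1 : 1 ≤ s.im := ht.trans h3'
  have him : 0 < s.im := by linarith
  have hsn := hs0 s h3'
  have hns : s.im ≤ ‖s‖ := (le_abs_self _).trans (Complex.abs_im_le_norm s)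
  have hns0 : 0 < ‖s‖ := by linarith
  have hz : ‖P s‖ ≤ A / s.im := by
    have b1 : ‖h2 / s‖ ≤ ‖h2‖ / s.im := by
      rw [norm_div]
      gcongr
    have b2 : ‖h3 / (2 * s ^ 2)‖ ≤ ‖h3‖ / s.im := by
      rw [norm_div, norm_mul, norm_pow, Complex.norm_ofNat]
      have : s.im ≤ 2 * ‖s‖ ^ 2 := by nlinarith
      gcongr
    calc ‖P s‖ ≤ ‖h2‖ / s.im + ‖h3‖ / s.im := (norm_add_le _ _).trans (add_le_add b1 b2)
      _ = A / s.im := by rw [hA]; ring
  have hz1 : ‖P s‖ ≤ A := hz.trans (div_le_self hA0 ht1)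
  have hzn : ‖-P s‖ ≤ A := by rwa [norm_neg]
  have g5 : ‖cexp (-P s)‖ ≤ Real.exp A := by
    rw [Complex.norm_exp]
    exact Real.exp_le_exp.2 ((Complex.re_le_norm _).trans hzn)
  have g6 : ‖cexp (-P s) - 1 - (-P s) - (-P s) ^ 2 / 2‖ ≤ (Real.exp A + 3) * (A / s.im) ^ 3 := by
    refine (GX7_exp _ A hzn).trans ?_
    rw [norm_neg]
    exact mul_le_mul_of_nonneg_left (pow_le_pow_left₀ (norm_nonneg _) hz 3) (by positivity)
  have g10 : ‖h2 * h3 / (2 * s ^ 3) + h3 ^ 2 / (8 * s ^ 4)‖ ≤ A ^ 2 / s.im ^ 3 := by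
    have b1 : ‖h2 * h3 / (2 * s ^ 3)‖ ≤ ‖h2‖ * ‖h3‖ / s.im ^ 3 := by
      rw [norm_div, norm_mul, norm_mul, norm_pow, Complex.norm_ofNat]
      have : s.im ^ 3 ≤ 2 * ‖s‖ ^ 3 := by
        have : s.im ^ 3 ≤ ‖s‖ ^ 3 := by gcongr
        have : 0 ≤ ‖s‖ ^ 3 := by positivity
        linarith
      gcongr
    have b2 : ‖h3 ^ 2 / (8 * s ^ 4)‖ ≤ ‖h3‖ ^ 2 / s.im ^ 3 := by
      rw [norm_div, norm_mul, norm_pow, norm_pow, Complex.norm_ofNat]
      have : s.im ^ 3 ≤ 8 * ‖s‖ ^ 4 := by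
        have e1 : s.im ^ 3 ≤ ‖s‖ ^ 3 := by gcongr
        have e2 : ‖s‖ ^ 3 ≤ ‖s‖ ^ 4 := pow_le_pow_right₀ (by linarith) (by norm_num)
        have : 0 ≤ ‖s‖ ^ 4 := by positivity
        linarith
      gcongr
    calc _ ≤ ‖h2‖ * ‖h3‖ / s.im ^ 3 + ‖h3‖ ^ 2 / s.im ^ 3 :=
          (norm_add_le _ _).trans (add_le_add b1 b2)
      _ = (‖h2‖ * ‖h3‖ + ‖h3‖ ^ 2) / s.im ^ 3 := by ring
      _ ≤ A ^ 2 / s.im ^ 3 := by
          have : ‖h2‖ * ‖h3‖ + ‖h3‖ ^ 2 ≤ A ^ 2 := by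
            rw [hA]
            nlinarith [norm_nonneg h2, norm_nonneg h3, mul_nonneg (norm_nonneg h2) (norm_nonneg h3)]
          gcongr
  have g4 : H s - h0 * (1 + -h2 / s + (h2 ^ 2 / 2 - h3 / 2) / s ^ 2) =
      (H s * cexp (P s) - h0) * cexp (-P s)
      + h0 * (cexp (-P s) - 1 - (-P s) - (-P s) ^ 2 / 2) +
      h0 * (h2 * h3 / (2 * s ^ 3) + h3 ^ 2 / (8 * s ^ 4)) := by
    have h5 : cexp (P s) * cexp (-P s) = 1 := by
      rw [← Complex.exp_add, add_neg_cancel, Complex.exp_zero]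
    have h6 : h0 * (1 + -h2 / s + (h2 ^ 2 / 2 - h3 / 2) / s ^ 2) =
        h0 * (1 + (-P s) + (-P s) ^ 2 / 2) -
          h0 * (h2 * h3 / (2 * s ^ 3) + h3 ^ 2 / (8 * s ^ 4)) := by
      simp only [hP]
      field_simp
      ring
    rw [h6]
    linear_combination (- H s) * h5
  rw [g4]
  refine (norm_add_le _ _).trans ((add_le_add (norm_add_le _ _) le_rfl).trans ?_)
  rw [norm_mul, norm_mul, norm_mul]
  have g3 := hcore s h1 h2' h3'
  have g7 : ‖H s * cexp (P s) - h0‖ * ‖cexp (-P s)‖ ≤ K1 / s.im ^ 3 * Real.exp A :=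
    mul_le_mul g3 g5 (norm_nonneg _) ((norm_nonneg _).trans g3)
  have g8 : ‖h0‖ * ‖cexp (-P s) - 1 - (-P s) - (-P s) ^ 2 / 2‖
      ≤ ‖h0‖ * ((Real.exp A + 3) * (A / s.im) ^ 3) := mul_le_mul_of_nonneg_left g6 (norm_nonneg _)
  have g11 : ‖h0‖ * ‖h2 * h3 / (2 * s ^ 3) + h3 ^ 2 / (8 * s ^ 4)‖ ≤ ‖h0‖ * (A ^ 2 / s.im ^ 3) :=
    mul_le_mul_of_nonneg_left g10 (norm_nonneg _)
  refine (add_le_add (add_le_add g7 g8) g11).trans ?_
  have g9 : K1 / s.im ^ 3 * Real.exp A + ‖h0‖ * ((Real.exp A + 3) * (A / s.im) ^ 3) +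
      ‖h0‖ * (A ^ 2 / s.im ^ 3)
      = (K1 * Real.exp A + ‖h0‖ * ((Real.exp A + 3) * A ^ 3) + ‖h0‖ * A ^ 2) / s.im ^ 3 := by
    rw [div_pow]
    ring
  rw [g9]
  exact div_le_div_of_nonneg_right (by linarith) (by positivity)
--END GX7

--BEGIN GX8
private theorem GX8_diffM {κ : ℝ} (hκ : 0 < κ) (j : ℕ) {s : ℂ} (hs : s.im ≠ 0) :
    DifferentiableAt ℂ (Mf3 κ j) s := by
  have hK : ((6 * π * κ ^ (1 / 3 : ℝ) : ℝ) : ℂ) ≠ 0 := by
    have := Real.pi_pos
    have := Real.rpow_pos_of_pos hκ (1 / 3 : ℝ)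
    exact_mod_cast (by positivity : (6 * π * κ ^ (1 / 3 : ℝ) : ℝ) ≠ 0)
  have h1 : DifferentiableAt ℂ (fun s : ℂ => ((6 * π * κ ^ (1 / 3 : ℝ) : ℝ) : ℂ) ^ (3 * s)) s :=
    DifferentiableAt.const_cpow (by fun_prop) (Or.inl hK)
  have h2 : DifferentiableAt ℂ (fun s : ℂ => Gamma (-3 * s - 1 - j)) s := by
    refine (differentiableAt_Gamma _ fun m h' => ?_).comp s
      (f := fun s : ℂ => -3 * s - 1 - j) (by fun_prop)
    have := congrArg im h'
    simp at this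
    exact hs this
  have h3 : DifferentiableAt ℂ (fun s : ℂ => cexp (-(3 * π * I * s / 2))) s := by fun_prop
  exact (h3.mul h1).mul h2

private theorem GX8_rec {κ : ℝ} (j : ℕ) {s : ℂ} (hs : s.im ≠ 0) :
    Mf3 κ j s = Mf3 κ (j + 1) s * (-3 * s - 2 - j) := by
  have h0 : (-3 * s - 2 - j : ℂ) ≠ 0 := by
    intro h'
    have := congrArg im h'
    simp at this
    exact hs this
  have h1 : Gamma (-3 * s - 1 - j) = (-3 * s - 2 - j) * Gamma (-3 * s - 2 - j) := by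
    rw [← Gamma_add_one _ h0]
    congr 1
    ring
  rw [Mf3, Mf3]
  have h3 : (-3 * s - 1 - ((j + 1 : ℕ) : ℂ)) = -3 * s - 2 - j := by push_cast; ring
  rw [h3, h1]
  ring

private theorem GX8_ne {s : ℂ} (hs : s.im ≠ 0) : s ≠ 0 ∧ s + 1 ≠ 0 ∧ s + 2 ≠ 0 := by
  refine ⟨?_, ?_, ?_⟩
  · rintro rfl; simp at hs
  · intro h'; have := congrArg im h'; simp at this; exact hs this
  · intro h'; have := congrArg im h'; simp at this; exact hs this

/-- **GX8.** The three term asymptotic of `X(s)/(s(s+1)(s+2))` (compare `G_asymp`):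
`M_0/s = -3M_1 + 6M_2 + O(M_2/s)`, `M_0/s² = 9M_2 + O(M_2/s)`. -/
theorem G_asymp3 (h : RealSelberg b L 3) (hf : Fun3 L Q lam mu w) :
    ∃ (g : Fin 3 → ℂ) (C t0 : ℝ), g 0 ≠ 0 ∧ 0 < C ∧ 1 ≤ t0 ∧
    ∀ s : ℂ, -1 ≤ s.re → s.re ≤ -(1 / 8) → t0 ≤ s.im →
      ‖Xf Q lam mu w s / (s * (s + 1) * (s + 2)) - ∑ j : Fin 3, g j * Mf3 (kap3 Q lam) j s‖ ≤
        C * s.im ^ (-3 * s.re - 9 / 2) := by
  have hκ := kap3_pos hf
  obtain ⟨c2, c3, C1, t1, hC1, ht1, hX⟩ := Xf_logDeriv_upper3 hf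
  obtain ⟨c, c', C2, t2, hC2, ht2, hM⟩ := Mf3_logDeriv hκ
  obtain ⟨t3, ht3, hX0⟩ := Xf_ne_zero3 hf
  obtain ⟨B0, hB0, hb0⟩ := Mf3_bound hκ 0
  obtain ⟨B2, hB2, hb2⟩ := Mf3_bound hκ 2
  have hsum := sum_im_zero3 h hf
  set X := Xf Q lam mu w with hXdef
  set M0 := Mf3 (kap3 Q lam) 0 with hM0
  set M1 := Mf3 (kap3 Q lam) 1 with hM1
  set M2 := Mf3 (kap3 Q lam) 2 with hM2
  set t0 : ℝ := 2 * (t1 + t2 + t3) with ht0
  set H : ℂ → ℂ := fun s => X s / (s * (s + 1) * (s + 2)) / M0 s with hH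
  set h2 : ℂ := c2 - c + 3 with hh2
  set h3 : ℂ := c3 - c' - 5 with hh3
  obtain ⟨h0, e1, e2, C', hh0, hC', hasy⟩ := asymp_of_logDeriv3 (H := H) (σ1 := -1)
    (σ2 := -(1 / 8)) (t0 := t0) (C := C1 + C2 + 9) (h2 := h2) (h3 := h3) (by norm_num)
    (by linarith)
    (by
      intro s hs1 hs2 hs3
      have him : 0 < s.im := by linarith
      obtain ⟨n0, n1, n2⟩ := GX8_ne him.ne'
      have nX : X s ≠ 0 := hX0 s (by linarith) (by rw [abs_of_pos him]; linarith)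
      have nM : M0 s ≠ 0 := (hM s (by linarith) (by linarith) (by linarith)).1
      have dX : DifferentiableAt ℂ X s := Xf_diff3 hf (by linarith)
      have dM : DifferentiableAt ℂ M0 s := GX8_diffM hκ 0 him.ne'
      have dP : DifferentiableAt ℂ (fun s : ℂ => s * (s + 1) * (s + 2)) s := by fun_prop
      constructor
      · exact (dX.div dP (mul_ne_zero (mul_ne_zero n0 n1) n2)).div dM nM
      · exact div_ne_zero (div_ne_zero nX (mul_ne_zero (mul_ne_zero n0 n1) n2)) nM)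
    (by
      intro s hs1 hs2 hs3
      have him : 0 < s.im := by linarith
      obtain ⟨n0, n1, n2⟩ := GX8_ne him.ne'
      have nX : X s ≠ 0 := hX0 s (by linarith) (by rw [abs_of_pos him]; linarith)
      obtain ⟨nM, hM'⟩ := hM s (by linarith) (by linarith) (by linarith)
      have hX' := hX s (by linarith) (by linarith) (by linarith)
      have dX : DifferentiableAt ℂ X s := Xf_diff3 hf (by linarith)
      have dM : DifferentiableAt ℂ M0 s := GX8_diffM hκ 0 him.ne'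
      have nP : s * (s + 1) * (s + 2) ≠ 0 := mul_ne_zero (mul_ne_zero n0 n1) n2
      have dP : DifferentiableAt ℂ (fun s : ℂ => s * (s + 1) * (s + 2)) s := by fun_prop
      have e1 : logDeriv H s = logDeriv (fun s => X s / (s * (s + 1) * (s + 2))) s -
          logDeriv M0 s := logDeriv_div s (div_ne_zero nX nP) nM (dX.div dP nP) dM
      have e2 : logDeriv (fun s => X s / (s * (s + 1) * (s + 2))) s = logDeriv X s -
          logDeriv (fun s : ℂ => s * (s + 1) * (s + 2)) s := logDeriv_div s nX nP dX dP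
      have e3 : logDeriv (fun s : ℂ => s * (s + 1) * (s + 2)) s = 1 / s + 1 / (s + 1) +
          1 / (s + 2) := by
        rw [logDeriv_mul (f := fun s : ℂ => s * (s + 1)) (g := fun s : ℂ => s + 2) s
          (mul_ne_zero n0 n1) n2 (by fun_prop) (by fun_prop),
          logDeriv_mul (f := fun s : ℂ => s) (g := fun s : ℂ => s + 1) s n0 n1 (by fun_prop)
          (by fun_prop)]
        simp [logDeriv_apply]
      have hns : s.im ≤ ‖s‖ := (le_abs_self _).trans (abs_im_le_norm s)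
      have hn1 : s.im ≤ ‖s + 1‖ := by
        have := (le_abs_self _).trans (abs_im_le_norm (s + 1))
        simpa using this
      have hn2 : s.im ≤ ‖s + 2‖ := by
        have := (le_abs_self _).trans (abs_im_le_norm (s + 2))
        simpa using this
      rw [e1, e2, e3]
      rw [hsum] at hX'
      have e4 : logDeriv X s - (1 / s + 1 / (s + 1) + 1 / (s + 2)) - logDeriv M0 s - h2 / s ^ 2 -
            h3 / s ^ 3 =
          (logDeriv X s - (3 / 2 * π * I +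
            3 * Real.log (2 * π * kap3 Q lam ^ (1 / 3 : ℝ)) - 3 * log s +
            (3 / 2 - ((2 * 0 : ℝ) : ℂ) * I) / s + c2 / s ^ 2 + c3 / s ^ 3)) -
          (logDeriv M0 s - (3 / 2 * π * I +
            3 * Real.log (2 * π * kap3 Q lam ^ (1 / 3 : ℝ)) - 3 * log s -
            (3 / 2) / s + c / s ^ 2 + c' / s ^ 3)) +
          (1 / (s ^ 3 * (s + 1)) + 8 / (s ^ 3 * (s + 2))) := by
        rw [hh2, hh3]
        generalize ((Real.log (2 * π * kap3 Q lam ^ (1 / 3 : ℝ)) : ℝ) : ℂ) = Y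
        field_simp
        push_cast
        ring
      rw [e4]
      have e5 : ‖1 / (s ^ 3 * (s + 1)) + 8 / (s ^ 3 * (s + 2))‖ ≤ 9 / s.im ^ 4 := by
        refine (norm_add_le _ _).trans ?_
        have a1 : ‖1 / (s ^ 3 * (s + 1))‖ ≤ 1 / s.im ^ 4 := by
          rw [norm_div, norm_one, norm_mul, norm_pow]
          gcongr
          calc s.im ^ 4 = s.im ^ 3 * s.im := by ring
            _ ≤ ‖s‖ ^ 3 * ‖s + 1‖ := by gcongr
        have a2 : ‖8 / (s ^ 3 * (s + 2))‖ ≤ 8 / s.im ^ 4 := by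
          rw [norm_div, norm_mul, norm_pow]
          have : ‖(8 : ℂ)‖ = 8 := by norm_num
          rw [this]
          gcongr
          calc s.im ^ 4 = s.im ^ 3 * s.im := by ring
            _ ≤ ‖s‖ ^ 3 * ‖s + 2‖ := by gcongr
        have a3 : (9 : ℝ) / s.im ^ 4 = 1 / s.im ^ 4 + 8 / s.im ^ 4 := by ring
        linarith
      refine (norm_add_le _ _).trans ?_
      have a4 : (C1 + C2 + 9) / s.im ^ 4 = C1 / s.im ^ 4 + C2 / s.im ^ 4 + 9 / s.im ^ 4 := by ring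
      rw [a4]
      refine add_le_add ((norm_sub_le _ _).trans (add_le_add ?_ ?_)) e5
      · exact hX'
      · exact hM')
  refine ⟨![h0, -3 * h0 * e1, 6 * h0 * e1 + 9 * h0 * e2],
    B0 * C' + (6 * ‖h0 * e1‖ + 21 * ‖h0 * e2‖) * B2, t0, hh0, ?_, by linarith,
    fun s hs1 hs2 hs3 => ?_⟩
  · have := norm_nonneg (h0 * e1)
    have := norm_nonneg (h0 * e2)
    positivity
  have him : 0 < s.im := by linarith
  have ht1' : 1 ≤ s.im := by linarith
  obtain ⟨n0, n1, n2⟩ := GX8_ne him.ne'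
  obtain ⟨nM, -⟩ := hM s (by linarith) (by linarith) (by linarith)
  have a1 := hasy s hs1 hs2 hs3
  have a2 : X s / (s * (s + 1) * (s + 2)) = H s * M0 s := by
    rw [hH]
    field_simp
  have r0 : M0 s = M1 s * (-3 * s - 2) := by
    have := GX8_rec (κ := kap3 Q lam) 0 him.ne'
    simpa using this
  have r1 : M1 s = M2 s * (-3 * s - 3) := by
    have := GX8_rec (κ := kap3 Q lam) 1 him.ne'
    have e : (-3 * s - 2 - ((1 : ℕ) : ℂ)) = -3 * s - 3 := by push_cast; ring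
    rw [e] at this
    exact this
  have hsm : ∑ j : Fin 3, ![h0, -3 * h0 * e1, 6 * h0 * e1 + 9 * h0 * e2] j *
      Mf3 (kap3 Q lam) j s = h0 * M0 s + -3 * h0 * e1 * M1 s +
        (6 * h0 * e1 + 9 * h0 * e2) * M2 s := by
    rw [Fin.sum_univ_three]
    rfl
  have a3 : X s / (s * (s + 1) * (s + 2)) - (h0 * M0 s + -3 * h0 * e1 * M1 s +
        (6 * h0 * e1 + 9 * h0 * e2) * M2 s) =
      (H s - h0 * (1 + e1 / s + e2 / s ^ 2)) * M0 s +
        (6 * (h0 * e1) + 15 * (h0 * e2) + 6 * (h0 * e2) / s) * (M2 s / s) := by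
    rw [a2]
    have q : (H s - h0 * (1 + e1 / s + e2 / s ^ 2)) * M0 s = H s * M0 s - h0 * M0 s -
        h0 * e1 * (M0 s / s) - h0 * e2 * (M0 s / s ^ 2) := by
      field_simp
      ring
    have q1 : M0 s / s = -3 * M1 s + 6 * M2 s + 6 * M2 s / s := by
      rw [r0, r1]
      field_simp
      ring
    have q2 : M0 s / s ^ 2 = 9 * M2 s + 15 * M2 s / s + 6 * M2 s / s ^ 2 := by
      rw [r0, r1]
      field_simp
      ring
    rw [q, q1, q2]
    field_simp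
    ring
  rw [hsm, a3]
  refine (norm_add_le _ _).trans ?_
  have b0 := hb0 s (by linarith) (by linarith) (by linarith)
  have b2 := hb2 s (by linarith) (by linarith) (by linarith)
  have hns : s.im ≤ ‖s‖ := (le_abs_self _).trans (abs_im_le_norm s)
  have p2 : s.im ^ (-3 * s.re - 9 / 2) = s.im ^ (-3 * s.re - 3 / 2 - ((0 : ℕ) : ℝ)) / s.im ^ 3 := by
    rw [← Real.rpow_natCast s.im 3, ← Real.rpow_sub him]
    congr 1
    push_cast
    ring
  have p1 : s.im ^ (-3 * s.re - 9 / 2) = s.im ^ (-3 * s.re - 3 / 2 - ((2 : ℕ) : ℝ)) / s.im := by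
    have : s.im ^ (-3 * s.re - 3 / 2 - ((2 : ℕ) : ℝ)) / s.im =
      s.im ^ (-3 * s.re - 3 / 2 - ((2 : ℕ) : ℝ)) / s.im ^ (1 : ℝ) := by rw [Real.rpow_one]
    rw [this, ← Real.rpow_sub him]
    congr 1
    push_cast
    ring
  have q1 : ‖(H s - h0 * (1 + e1 / s + e2 / s ^ 2)) * M0 s‖ ≤
      B0 * C' * s.im ^ (-3 * s.re - 9 / 2) := by
    rw [norm_mul, p2]
    calc ‖H s - h0 * (1 + e1 / s + e2 / s ^ 2)‖ * ‖M0 s‖ ≤ (C' / s.im ^ 3) *
          (B0 * s.im ^ (-3 * s.re - 3 / 2 - ((0 : ℕ) : ℝ))) := by gcongr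
      _ = _ := by ring
  have q3 : ‖6 * (h0 * e1) + 15 * (h0 * e2) + 6 * (h0 * e2) / s‖ ≤
      6 * ‖h0 * e1‖ + 21 * ‖h0 * e2‖ := by
    refine (norm_add_le _ _).trans ((add_le_add (norm_add_le _ _) le_rfl).trans ?_)
    rw [norm_mul 6 (h0 * e1), norm_mul 15 (h0 * e2), norm_div, norm_mul 6 (h0 * e2),
      Complex.norm_ofNat, Complex.norm_ofNat]
    have : 6 * ‖h0 * e2‖ / ‖s‖ ≤ 6 * ‖h0 * e2‖ :=
      div_le_self (by positivity) (by linarith)
    linarith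
  have q2 : ‖(6 * (h0 * e1) + 15 * (h0 * e2) + 6 * (h0 * e2) / s) * (M2 s / s)‖ ≤
      (6 * ‖h0 * e1‖ + 21 * ‖h0 * e2‖) * B2 * s.im ^ (-3 * s.re - 9 / 2) := by
    rw [norm_mul, norm_div (M2 s) s, p1]
    calc _ ≤ (6 * ‖h0 * e1‖ + 21 * ‖h0 * e2‖) *
          ((B2 * s.im ^ (-3 * s.re - 3 / 2 - ((2 : ℕ) : ℝ))) / s.im) := by gcongr
      _ = _ := by ring
  calc _ ≤ B0 * C' * s.im ^ (-3 * s.re - 9 / 2) +
        (6 * ‖h0 * e1‖ + 21 * ‖h0 * e2‖) * B2 * s.im ^ (-3 * s.re - 9 / 2) := add_le_add q1 q2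
    _ = _ := by ring

private theorem GX8_pow {t e : ℝ} (ht : 1 ≤ t) (he : -2 ≤ e) : t ^ e ≤ 4 * (1 + t) ^ e := by
  have ht0 : 0 < t := by linarith
  have hp : 0 < (1 + t) ^ e := Real.rpow_pos_of_pos (by linarith) _
  rcases le_total 0 e with h | h
  · have : t ^ e ≤ (1 + t) ^ e := Real.rpow_le_rpow ht0.le (by linarith) h
    linarith
  · have h3 : t ^ e ≤ ((1 + t) / 2) ^ e := Real.rpow_le_rpow_of_nonpos (by linarith) (by linarith) h
    refine h3.trans ?_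
    rw [Real.div_rpow (by linarith) (by norm_num)]
    have h5 : (1 / 4 : ℝ) ≤ 2 ^ e := by
      have : (1 / 4 : ℝ) = 2 ^ (-2 : ℝ) := by
        rw [Real.rpow_neg (by norm_num)]
        norm_num
      rw [this]
      exact Real.rpow_le_rpow_of_exponent_le (by norm_num) he
    rw [div_le_iff₀ (by positivity)]
    nlinarith

private theorem GX8_up (h : RealSelberg b L 3) (hf : Fun3 L Q lam mu w) :
    ∃ K t0 : ℝ, 0 < K ∧ 1 ≤ t0 ∧
    ∀ s : ℂ, -1 ≤ s.re → s.re ≤ -(1 / 8) → t0 ≤ s.im →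
      ‖Xf Q lam mu w s‖ ≤ K * (1 + |s.im|) ^ (3 / 2 - 3 * s.re) := by
  have hκ := kap3_pos hf
  obtain ⟨g, C, t0, hg0, hC, ht0, hG⟩ := G_asymp3 h hf
  choose B hB hb using fun j : ℕ => Mf3_bound hκ j
  set K : ℝ := C + ∑ j : Fin 3, ‖g j‖ * B j with hK
  have hK0 : 0 < K := by
    have : 0 ≤ ∑ j : Fin 3, ‖g j‖ * B j :=
      Finset.sum_nonneg fun j _ => mul_nonneg (norm_nonneg _) (hB j).le
    linarith
  refine ⟨8 * K, t0, by positivity, ht0, fun s hs1 hs2 hs3 => ?_⟩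
  have ht1 : 1 ≤ s.im := by linarith
  have him : 0 < s.im := by linarith
  obtain ⟨n0, n1, n2⟩ := GX8_ne him.ne'
  rw [abs_of_pos him]
  have g0 := hG s hs1 hs2 hs3
  have r1 : ‖Xf Q lam mu w s / (s * (s + 1) * (s + 2))‖ ≤ K * s.im ^ (-3 * s.re - 3 / 2) := by
    have e1 : Xf Q lam mu w s / (s * (s + 1) * (s + 2)) =
        (Xf Q lam mu w s / (s * (s + 1) * (s + 2)) -
        ∑ j : Fin 3, g j * Mf3 (kap3 Q lam) j s) + ∑ j : Fin 3, g j * Mf3 (kap3 Q lam) j s := by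
      ring
    rw [e1]
    have q0 : ∀ j ∈ (Finset.univ : Finset (Fin 3)), ‖g j * Mf3 (kap3 Q lam) j s‖ ≤
        ‖g j‖ * B j * s.im ^ (-3 * s.re - 3 / 2) := by
      intro j _
      rw [norm_mul, mul_assoc]
      refine mul_le_mul_of_nonneg_left ?_ (norm_nonneg _)
      refine (hb j s (by linarith) (by linarith) ht1).trans ?_
      refine mul_le_mul_of_nonneg_left ?_ (hB j).le
      exact Real.rpow_le_rpow_of_exponent_le ht1 (by
        have : (0 : ℝ) ≤ ((j : ℕ) : ℝ) := Nat.cast_nonneg _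
        linarith)
    have q2 : C * s.im ^ (-3 * s.re - 9 / 2) ≤ C * s.im ^ (-3 * s.re - 3 / 2) :=
      mul_le_mul_of_nonneg_left (Real.rpow_le_rpow_of_exponent_le ht1 (by linarith)) hC.le
    calc _ ≤ C * s.im ^ (-3 * s.re - 3 / 2) +
          ∑ j : Fin 3, ‖g j‖ * B j * s.im ^ (-3 * s.re - 3 / 2) :=
          (norm_add_le _ _).trans (add_le_add (g0.trans q2)
            ((norm_sum_le _ _).trans (Finset.sum_le_sum q0)))
      _ = _ := by rw [← Finset.sum_mul, hK]; ring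
  have hre : |s.re| ≤ 1 := abs_le.2 ⟨by linarith, by linarith⟩
  have hn : ∀ z : ℂ, ‖z‖ ≤ |z.re| + |z.im| := norm_le_abs_re_add_abs_im
  have m0 : ‖s‖ ≤ 1 + s.im := (hn s).trans (by rw [abs_of_pos him]; linarith)
  have m1 : ‖s + 1‖ ≤ 1 + s.im := by
    refine (hn _).trans ?_
    have e1 : (s + 1).re = s.re + 1 := by simp
    have e2 : (s + 1).im = s.im := by simp
    rw [e1, e2, abs_of_pos him]
    have : |s.re + 1| ≤ 1 := abs_le.2 ⟨by linarith, by linarith⟩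
    linarith
  have m2 : ‖s + 2‖ ≤ 2 * (1 + s.im) := by
    refine (hn _).trans ?_
    have e1 : (s + 2).re = s.re + 2 := by simp
    have e2 : (s + 2).im = s.im := by simp
    rw [e1, e2, abs_of_pos him]
    have : |s.re + 2| ≤ 2 := abs_le.2 ⟨by linarith, by linarith⟩
    linarith
  have m3 : ‖s * (s + 1) * (s + 2)‖ ≤ 2 * (1 + s.im) ^ (3 : ℕ) := by
    rw [norm_mul, norm_mul]
    calc ‖s‖ * ‖s + 1‖ * ‖s + 2‖ ≤ (1 + s.im) * (1 + s.im) * (2 * (1 + s.im)) := by gcongr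
      _ = _ := by ring
  have r2 : s.im ^ (-3 * s.re - 3 / 2) ≤ 4 * (1 + s.im) ^ (-3 * s.re - 3 / 2) :=
    GX8_pow ht1 (by linarith)
  have e9 : Xf Q lam mu w s = Xf Q lam mu w s / (s * (s + 1) * (s + 2)) *
      (s * (s + 1) * (s + 2)) := by field_simp
  rw [e9, norm_mul]
  calc ‖Xf Q lam mu w s / (s * (s + 1) * (s + 2))‖ * ‖s * (s + 1) * (s + 2)‖
      ≤ (K * (4 * (1 + s.im) ^ (-3 * s.re - 3 / 2))) * (2 * (1 + s.im) ^ (3 : ℕ)) := by
        refine mul_le_mul (r1.trans (mul_le_mul_of_nonneg_left r2 hK0.le)) m3 (norm_nonneg _) ?_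
        have : (0 : ℝ) < (1 + s.im) ^ (-3 * s.re - 3 / 2) :=
          Real.rpow_pos_of_pos (by linarith) _
        positivity
    _ = 8 * K * ((1 + s.im) ^ (-3 * s.re - 3 / 2) * (1 + s.im) ^ (3 : ℕ)) := by ring
    _ = 8 * K * (1 + s.im) ^ (3 / 2 - 3 * s.re) := by
        rw [← Real.rpow_natCast (1 + s.im) 3, ← Real.rpow_add (by linarith)]
        congr 2
        push_cast
        ring

/-- `|X(s)| ≪ (1+|t|)^{3/2-3σ}` (compare `Xf_bound`). -/
theorem Xf_bound3 (h : RealSelberg b L 3) (hf : Fun3 L Q lam mu w) : ∃ C : ℝ, 0 < C ∧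
    ∀ s : ℂ, -1 ≤ s.re → s.re ≤ -(1 / 8) →
      ‖Xf Q lam mu w s‖ ≤ C * (1 + |s.im|) ^ (3 / 2 - 3 * s.re) := by
  obtain ⟨K, t0, hK, ht0, hup⟩ := GX8_up h hf
  have hcomp : IsCompact (Icc (-1 : ℝ) (-(1 / 8)) ×ℂ Icc (-t0) t0) :=
    isCompact_Icc.reProdIm isCompact_Icc
  have hcont : ContinuousOn (fun s => ‖Xf Q lam mu w s‖)
      (Icc (-1 : ℝ) (-(1 / 8)) ×ℂ Icc (-t0) t0) := by
    intro s hs
    have hs' : s.re ∈ Icc (-1 : ℝ) (-(1 / 8)) := hs.1
    exact (Xf_diff3 hf (by linarith [hs'.2])).continuousAt.norm.continuousWithinAt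
  obtain ⟨M, hM⟩ := hcomp.bddAbove_image hcont
  refine ⟨K + |M|, by positivity, fun s hs1 hs2 => ?_⟩
  have hp : 0 < (1 + |s.im|) ^ (3 / 2 - 3 * s.re) := Real.rpow_pos_of_pos (by positivity) _
  rcases le_or_gt t0 |s.im| with hle | hlt
  · have hb : ‖Xf Q lam mu w s‖ ≤ K * (1 + |s.im|) ^ (3 / 2 - 3 * s.re) := by
      rcases le_or_gt 0 s.im with h0 | h0
      · exact hup s hs1 hs2 (by rwa [abs_of_nonneg h0] at hle)
      · have h1 := hup (conj s) (by simpa using hs1) (by simpa using hs2)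
          (by rw [abs_of_neg h0] at hle; simpa using hle)
        rw [Xf_conj3 h hf (by linarith), RCLike.norm_conj] at h1
        simpa using h1
    refine hb.trans ?_
    have := abs_nonneg M
    nlinarith
  · have hmem : s ∈ (Icc (-1 : ℝ) (-(1 / 8)) ×ℂ Icc (-t0) t0) :=
      ⟨⟨hs1, hs2⟩, (abs_lt.1 hlt).1.le, (abs_lt.1 hlt).2.le⟩
    have h1 : ‖Xf Q lam mu w s‖ ≤ M := hM (mem_image_of_mem _ hmem)
    have h2 : (1 : ℝ) ≤ (1 + |s.im|) ^ (3 / 2 - 3 * s.re) :=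
      Real.one_le_rpow (by linarith [abs_nonneg s.im]) (by linarith)
    have h3 : M ≤ |M| := le_abs_self M
    have := abs_nonneg M
    nlinarith
--END GX8

--BEGIN GX9
private theorem GX9_exp {t : ℝ} (ht : 1 ≤ t) :
    Real.exp (-(3 * π * t)) * (3 * t) ^ 2 ≤ 45360 * t ^ (-5 : ℝ) := by
  have h1 := Real.pow_div_factorial_le_exp t (by linarith) 7
  have h2 : Real.exp (-(3 * π * t)) ≤ Real.exp (-t) := by
    refine Real.exp_le_exp.2 ?_
    have := Real.pi_gt_three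
    nlinarith
  have ht0 : 0 < t := by linarith
  have h3 : (t ^ (-5 : ℝ)) = (t ^ 5)⁻¹ := by
    rw [Real.rpow_neg ht0.le]
    congr 1
    exact_mod_cast Real.rpow_natCast t 5
  have h4 : ((7 : ℕ).factorial : ℝ) = 5040 := by norm_num [Nat.factorial]
  rw [h4, div_le_iff₀ (by norm_num)] at h1
  have h5 : Real.exp (-t) ≤ 5040 / t ^ 7 := by
    rw [Real.exp_neg, inv_eq_one_div, div_le_div_iff₀ (Real.exp_pos t) (by positivity)]
    linarith
  calc Real.exp (-(3 * π * t)) * (3 * t) ^ 2 ≤ 5040 / t ^ 7 * (3 * t) ^ 2 :=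
        mul_le_mul_of_nonneg_right (h2.trans h5) (by positivity)
    _ = 45360 * (t ^ 5)⁻¹ := by
        field_simp
        ring
    _ = 45360 * t ^ (-5 : ℝ) := by rw [h3]

private theorem GX9_low {κ : ℝ} (hκ : 0 < κ) (j : ℕ) : ∃ C : ℝ, 0 < C ∧ ∀ s : ℂ,
    -1 ≤ s.re → s.re ≤ -(1 / 8) → 1 ≤ -s.im →
      ‖Mf3 κ j s‖ ≤ C * (-s.im) ^ (-3 * s.re - 9 / 2) := by
  obtain ⟨C, hC, hb⟩ := Gamma_bound (5 + j)
  have hκ3 : 0 < κ ^ (1 / 3 : ℝ) := Real.rpow_pos_of_pos hκ _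
  have hπ := Real.pi_pos
  have hK0 : 0 < 6 * π * κ ^ (1 / 3 : ℝ) := by positivity
  set K : ℝ := 6 * π * κ ^ (1 / 3 : ℝ) with hK
  refine ⟨(max K K⁻¹ + 1) ^ 4 * C * 45360, by positivity, fun s h1 h2 h3 => ?_⟩
  have hj : (0 : ℝ) ≤ j := Nat.cast_nonneg j
  set σ : ℝ := s.re with hσ
  set t : ℝ := -s.im with ht
  have ht0 : 0 < t := by linarith
  have hs : (-3 * s - 1 - j : ℂ) = ((-3 * σ - 1 - j : ℝ) : ℂ) + ((3 * t : ℝ) : ℂ) * I := by
    apply Complex.ext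
    · simp [hσ]
    · simp [ht]
  have hG := (hb (-3 * σ - 1 - j) (3 * t) (abs_le.2 ⟨by linarith, by linarith⟩)
    (by rw [abs_of_pos (by linarith)]; linarith)).1
  rw [abs_of_pos (by linarith : 0 < 3 * t)] at hG
  have hG2 : (3 * t) ^ (-3 * σ - 1 - j - 1 / 2 : ℝ) ≤ (3 * t) ^ 2 := by
    have : (3 * t) ^ (-3 * σ - 1 - j - 1 / 2 : ℝ) ≤ (3 * t) ^ (2 : ℝ) :=
      Real.rpow_le_rpow_of_exponent_le (by linarith) (by linarith)
    refine this.trans_eq ?_
    norm_cast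
  have hE : ‖cexp (-(3 * π * I * s / 2))‖ = Real.exp (-(3 * π * t / 2)) := by
    rw [norm_exp]
    congr 1
    have h4 : -(3 * (π : ℂ) * I * s / 2) = ((-(3 * π * t / 2) : ℝ) : ℂ) +
        ((-(3 * π * s.re / 2) : ℝ) : ℂ) * I := by
      apply Complex.ext
      · simp [ht]
      · simp
    rw [h4]
    simp
  have hKn : ‖((K : ℝ) : ℂ) ^ (3 * s)‖ ≤ (max K K⁻¹ + 1) ^ 4 := by
    rw [norm_cpow_eq_rpow_re_of_pos hK0]
    have e1 : (3 * s).re = 3 * σ := by simp [hσ]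
    rw [e1]
    exact GX6_pow hK0 (abs_le.2 ⟨by linarith, by linarith⟩)
  have hfin : Real.exp (-(3 * π * t)) * (3 * t) ^ 2 ≤ 45360 * t ^ (-3 * σ - 9 / 2) := by
    refine (GX9_exp h3).trans ?_
    refine mul_le_mul_of_nonneg_left ?_ (by norm_num)
    exact Real.rpow_le_rpow_of_exponent_le h3 (by linarith)
  have hee : Real.exp (-(3 * π * t / 2)) * Real.exp (-(π * (3 * t) / 2)) =
      Real.exp (-(3 * π * t)) := by
    rw [← Real.exp_add]
    congr 1
    ring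
  rw [Mf3, norm_mul, norm_mul, hE, hs]
  calc Real.exp (-(3 * π * t / 2)) * ‖((K : ℝ) : ℂ) ^ (3 * s)‖ *
        ‖Gamma (((-3 * σ - 1 - j : ℝ) : ℂ) + ((3 * t : ℝ) : ℂ) * I)‖
      ≤ Real.exp (-(3 * π * t / 2)) * (max K K⁻¹ + 1) ^ 4 *
        (C * (3 * t) ^ 2 * Real.exp (-(π * (3 * t) / 2))) := by
        refine mul_le_mul (mul_le_mul_of_nonneg_left hKn (Real.exp_pos _).le)
          (hG.trans ?_) (norm_nonneg _) (by positivity)
        gcongr
    _ = (max K K⁻¹ + 1) ^ 4 * C * ((Real.exp (-(3 * π * t / 2)) *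
        Real.exp (-(π * (3 * t) / 2))) * (3 * t) ^ 2) := by ring
    _ = (max K K⁻¹ + 1) ^ 4 * C * (Real.exp (-(3 * π * t)) * (3 * t) ^ 2) := by rw [hee]
    _ ≤ (max K K⁻¹ + 1) ^ 4 * C * (45360 * t ^ (-3 * σ - 9 / 2)) := by gcongr
    _ = _ := by ring

/-- the factors without poles -/
private noncomputable def GX9_p : Fin 3 → ℂ → ℂ :=
  ![fun s => -(s + 2 / 3) / 3, fun _ => 1 / 9, fun s => -1 / (27 * (s + 1))]

/-- `(s + 1/3)(s + 2/3) M_j(s)` -/
private noncomputable def GX9_N (κ : ℝ) (j : Fin 3) (s : ℂ) : ℂ :=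
  cexp (-(3 * π * I * s / 2)) * ((6 * π * κ ^ (1 / 3 : ℝ) : ℝ) : ℂ) ^ (3 * s) *
    Gamma (-3 * s) * GX9_p j s

private theorem GX9_diffN {κ : ℝ} (hκ : 0 < κ) (j : Fin 3) {s : ℂ} (h1 : -1 < s.re)
    (h2 : s.re < 0) : DifferentiableAt ℂ (GX9_N κ j) s := by
  have hK : ((6 * π * κ ^ (1 / 3 : ℝ) : ℝ) : ℂ) ≠ 0 := by
    have := Real.pi_pos
    have := Real.rpow_pos_of_pos hκ (1 / 3 : ℝ)
    exact_mod_cast (by positivity : (6 * π * κ ^ (1 / 3 : ℝ) : ℝ) ≠ 0)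
  have d1 : DifferentiableAt ℂ (fun s : ℂ => ((6 * π * κ ^ (1 / 3 : ℝ) : ℝ) : ℂ) ^ (3 * s)) s :=
    DifferentiableAt.const_cpow (by fun_prop) (Or.inl hK)
  have d2 : DifferentiableAt ℂ (fun s : ℂ => Gamma (-3 * s)) s := by
    refine (GX4_diffGamma (z := -3 * s) ?_).comp s (f := fun s : ℂ => -3 * s) (by fun_prop)
    have : (-3 * s).re = -3 * s.re := by simp
    rw [this]
    linarith
  have d3 : DifferentiableAt ℂ (fun s : ℂ => cexp (-(3 * π * I * s / 2))) s := by fun_prop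
  have n1 : s + 1 ≠ 0 := by
    intro h'
    have h3 := congrArg re h'
    simp only [add_re, one_re, zero_re] at h3
    linarith
  have d4 : DifferentiableAt ℂ (GX9_p j) s := by
    fin_cases j
    · change DifferentiableAt ℂ (fun s : ℂ => -(s + 2 / 3) / 3) s
      fun_prop
    · change DifferentiableAt ℂ (fun _ : ℂ => (1 / 9 : ℂ)) s
      fun_prop
    · change DifferentiableAt ℂ (fun s : ℂ => -1 / (27 * (s + 1))) s
      exact (differentiableAt_const _).div (by fun_prop) (mul_ne_zero (by norm_num) n1)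
  exact ((d3.mul d1).mul d2).mul d4

private theorem GX9_N_eq {κ : ℝ} (j : Fin 3) {s : ℂ} (h1 : -1 < s.re)
    (hs1 : s ≠ -(1 / 3)) (hs2 : s ≠ -(2 / 3)) :
    (s + 1 / 3) * (s + 2 / 3) * Mf3 κ j s = GX9_N κ j s := by
  have n1 : s + 1 ≠ 0 := by
    intro h'
    have h3 := congrArg re h'
    simp only [add_re, one_re, zero_re] at h3
    linarith
  have n2 : -3 * s - 1 ≠ 0 := by
    intro h'
    exact hs1 (by linear_combination (-1 / 3) * h')
  have n3 : -3 * s - 2 ≠ 0 := by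
    intro h'
    exact hs2 (by linear_combination (-1 / 3) * h')
  have n4 : -3 * s - 3 ≠ 0 := by
    intro h'
    exact n1 (by linear_combination (-1 / 3) * h')
  have g1 : Gamma (-3 * s) = (-3 * s - 1) * Gamma (-3 * s - 1) := by
    rw [← Gamma_add_one _ n2]; congr 1; ring
  have g2 : Gamma (-3 * s - 1) = (-3 * s - 2) * Gamma (-3 * s - 2) := by
    rw [← Gamma_add_one _ n3]; congr 1; ring
  have g3 : Gamma (-3 * s - 2) = (-3 * s - 3) * Gamma (-3 * s - 3) := by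
    rw [← Gamma_add_one _ n4]; congr 1; ring
  rw [Mf3, GX9_N]
  fin_cases j
  · change (s + 1 / 3) * (s + 2 / 3) * (_ * _ * Gamma (-3 * s - 1 - ((0 : ℕ) : ℂ))) =
      _ * _ * _ * (-(s + 2 / 3) / 3)
    have e : (-3 * s - 1 - ((0 : ℕ) : ℂ)) = -3 * s - 1 := by simp
    rw [e, g1]
    ring
  · change (s + 1 / 3) * (s + 2 / 3) * (_ * _ * Gamma (-3 * s - 1 - ((1 : ℕ) : ℂ))) =
      _ * _ * _ * (1 / 9)
    have e : (-3 * s - 1 - ((1 : ℕ) : ℂ)) = -3 * s - 2 := by push_cast; ring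
    rw [e, g1, g2]
    ring
  · change (s + 1 / 3) * (s + 2 / 3) * (_ * _ * Gamma (-3 * s - 1 - ((2 : ℕ) : ℂ))) =
      _ * _ * _ * (-1 / (27 * (s + 1)))
    have e : (-3 * s - 1 - ((2 : ℕ) : ℂ)) = -3 * s - 3 := by push_cast; ring
    rw [e, g1, g2, g3]
    field_simp
    ring

private theorem GX9_conj (h : RealSelberg b L 3) (hf : Fun3 L Q lam mu w) (g : Fin 3 → ℂ) {s : ℂ}
    (hs : s.re < 0) : Rem3 Q lam mu w g (conj s) = conj (Rem3 Q lam mu w g s) := by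
  have h2c : conj (2 : ℂ) = 2 := map_ofNat _ 2
  rw [Rem3, Rem3, Xf_conj3 h hf hs]
  simp only [conj_conj, map_sub, map_div₀, map_mul, map_add, map_one, h2c]
  ring

/-- **GX9.** The remainder is `O(|t|^{-9/2-3σ})` for `|t| ≥ 1`. In the upper half plane the
conjugate term is exponentially small; the lower half plane by `Xf_conj3` (compare `Rem_bound`). -/
theorem Rem3_bound (h : RealSelberg b L 3) (hf : Fun3 L Q lam mu w) : ∃ g : Fin 3 → ℂ, g 0 ≠ 0 ∧
    (∃ C : ℝ, 0 < C ∧ ∀ s : ℂ, -1 ≤ s.re → s.re ≤ -(1 / 8) → 1 ≤ |s.im| →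
      ‖Rem3 Q lam mu w g s‖ ≤ C * |s.im| ^ (-3 * s.re - 9 / 2)) ∧
    ∃ W : ℂ → ℂ, (∀ s : ℂ, -1 < s.re → s.re < 0 → DifferentiableAt ℂ W s) ∧
      ∀ s : ℂ, -1 < s.re → s.re < 0 → s ≠ -(1 / 3) → s ≠ -(2 / 3) →
        Rem3 Q lam mu w g s = W s / ((s + 1 / 3) * (s + 2 / 3)) := by
  have hκ := kap3_pos hf
  obtain ⟨g, C, t0, hg0, hC, ht0, hG⟩ := G_asymp3 h hf
  choose B hB hb using fun j : ℕ => GX9_low hκ j
  refine ⟨g, hg0, ?_, ?_⟩
  · set K : ℝ := C + ∑ j : Fin 3, ‖g j‖ * B j with hK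
    have hK0 : 0 < K := by
      have : 0 ≤ ∑ j : Fin 3, ‖g j‖ * B j :=
        Finset.sum_nonneg fun j _ => mul_nonneg (norm_nonneg _) (hB j).le
      linarith
    have hup : ∀ s : ℂ, -1 ≤ s.re → s.re ≤ -(1 / 8) → t0 ≤ s.im →
        ‖Rem3 Q lam mu w g s‖ ≤ K * s.im ^ (-3 * s.re - 9 / 2) := by
      intro s hs1 hs2 hs3
      have g0 := hG s hs1 hs2 hs3
      have e1 : (conj s).re = s.re := conj_re s
      have e2 : -(conj s).im = s.im := by rw [conj_im, neg_neg]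
      have c1 : ‖conj (∑ j : Fin 3, g j * Mf3 (kap3 Q lam) j (conj s))‖ ≤
          (∑ j : Fin 3, ‖g j‖ * B j) * s.im ^ (-3 * s.re - 9 / 2) := by
        rw [RCLike.norm_conj, Finset.sum_mul]
        refine (norm_sum_le _ _).trans (Finset.sum_le_sum fun j _ => ?_)
        have b0 := hb j (conj s) (by rw [e1]; linarith) (by rw [e1]; linarith)
          (by rw [e2]; linarith)
        rw [e1, e2] at b0
        rw [norm_mul, mul_assoc]
        exact mul_le_mul_of_nonneg_left b0 (norm_nonneg _)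
      rw [Rem3]
      refine (norm_sub_le _ _).trans ((add_le_add g0 c1).trans_eq ?_)
      rw [hK]
      ring
    have hcomp : IsCompact (Icc (-1 : ℝ) (-(1 / 8)) ×ℂ Icc 1 t0) :=
      isCompact_Icc.reProdIm isCompact_Icc
    have hcont : ContinuousOn (fun s => ‖Rem3 Q lam mu w g s‖)
        (Icc (-1 : ℝ) (-(1 / 8)) ×ℂ Icc 1 t0) := by
      intro s hs
      have hs' : s.re ∈ Icc (-1 : ℝ) (-(1 / 8)) := hs.1
      have hsi : s.im ∈ Icc (1 : ℝ) t0 := hs.2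
      have hi : s.im ≠ 0 := by linarith [hsi.1]
      obtain ⟨n0, n1, n2⟩ := GX8_ne hi
      have dX : DifferentiableAt ℂ (Xf Q lam mu w) s := Xf_diff3 hf (by linarith [hs'.2])
      have dP : DifferentiableAt ℂ (fun s : ℂ => s * (s + 1) * (s + 2)) s := by fun_prop
      have dA : ∀ z : ℂ, z.im ≠ 0 → DifferentiableAt ℂ
          (fun z => ∑ j : Fin 3, g j * Mf3 (kap3 Q lam) j z) z := fun z hz =>
        DifferentiableAt.fun_sum fun j _ => (GX8_diffM hκ j hz).const_mul _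
      have dB := (dA (conj s) (by simpa using hi)).conj_conj
      rw [conj_conj] at dB
      have dR : DifferentiableAt ℂ (Rem3 Q lam mu w g) s :=
        ((dX.div dP (mul_ne_zero (mul_ne_zero n0 n1) n2)).sub (dA s hi)).sub dB
      exact dR.continuousAt.norm.continuousWithinAt
    obtain ⟨M, hM⟩ := hcomp.bddAbove_image hcont
    have hup2 : ∀ s : ℂ, -1 ≤ s.re → s.re ≤ -(1 / 8) → 1 ≤ s.im →
        ‖Rem3 Q lam mu w g s‖ ≤ (K + |M| * t0 ^ (5 : ℝ)) * s.im ^ (-3 * s.re - 9 / 2) := by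
      intro s hs1 hs2 hs3
      have him : 0 < s.im := by linarith
      have hp : 0 < s.im ^ (-3 * s.re - 9 / 2) := Real.rpow_pos_of_pos him _
      have ht00 : 0 < t0 := by linarith
      have hq : 0 ≤ |M| * t0 ^ (5 : ℝ) := by positivity
      rcases le_or_gt t0 s.im with hle | hlt
      · refine (hup s hs1 hs2 hle).trans ?_
        nlinarith
      · have hmem : s ∈ (Icc (-1 : ℝ) (-(1 / 8)) ×ℂ Icc 1 t0) := ⟨⟨hs1, hs2⟩, hs3, hlt.le⟩
        have h1' : ‖Rem3 Q lam mu w g s‖ ≤ M := hM (mem_image_of_mem _ hmem)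
        have h2 : (1 : ℝ) ≤ t0 ^ (5 : ℝ) * s.im ^ (-3 * s.re - 9 / 2) := by
          have e1 : t0 ^ (-5 : ℝ) ≤ s.im ^ (-3 * s.re - 9 / 2) := by
            calc t0 ^ (-5 : ℝ) ≤ s.im ^ (-5 : ℝ) :=
                  Real.rpow_le_rpow_of_nonpos him hlt.le (by norm_num)
              _ ≤ _ := Real.rpow_le_rpow_of_exponent_le hs3 (by linarith)
          have e2 : t0 ^ (5 : ℝ) * t0 ^ (-5 : ℝ) = 1 := by
            rw [← Real.rpow_add ht00]
            norm_num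
          have e3 : 0 < t0 ^ (5 : ℝ) := Real.rpow_pos_of_pos ht00 _
          calc (1 : ℝ) = t0 ^ (5 : ℝ) * t0 ^ (-5 : ℝ) := e2.symm
            _ ≤ _ := mul_le_mul_of_nonneg_left e1 e3.le
        have h3 : M ≤ |M| := le_abs_self M
        have h4 : |M| ≤ |M| * (t0 ^ (5 : ℝ) * s.im ^ (-3 * s.re - 9 / 2)) :=
          le_mul_of_one_le_right (abs_nonneg M) h2
        have h5 : 0 ≤ K * s.im ^ (-3 * s.re - 9 / 2) := by positivity
        calc ‖Rem3 Q lam mu w g s‖ ≤ |M| * (t0 ^ (5 : ℝ) * s.im ^ (-3 * s.re - 9 / 2)) := by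
              linarith
          _ ≤ K * s.im ^ (-3 * s.re - 9 / 2) +
              |M| * (t0 ^ (5 : ℝ) * s.im ^ (-3 * s.re - 9 / 2)) := by linarith
          _ = _ := by ring
    refine ⟨K + |M| * t0 ^ (5 : ℝ), by positivity, fun s hs1 hs2 hs3 => ?_⟩
    rcases le_or_gt 0 s.im with h0 | h0
    · rw [abs_of_nonneg h0] at hs3 ⊢
      exact hup2 s hs1 hs2 hs3
    · rw [abs_of_neg h0] at hs3 ⊢
      have h1' := hup2 (conj s) (by simpa using hs1) (by simpa using hs2) (by simpa using hs3)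
      rw [GX9_conj h hf g (by linarith), RCLike.norm_conj, conj_re, conj_im] at h1'
      exact h1'
  · refine ⟨fun s => (s + 1 / 3) * (s + 2 / 3) * Xf Q lam mu w s / (s * (s + 1) * (s + 2)) -
      (∑ j : Fin 3, g j * GX9_N (kap3 Q lam) j s) -
      conj (∑ j : Fin 3, g j * GX9_N (kap3 Q lam) j (conj s)), ?_, ?_⟩
    · intro s hs1 hs2
      have n0 : s ≠ 0 := by rintro rfl; simp at hs2
      have n1 : s + 1 ≠ 0 := by
        intro h'
        have h3 := congrArg re h'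
        simp only [add_re, one_re, zero_re] at h3
        linarith
      have n2 : s + 2 ≠ 0 := by
        intro h'
        have h3 := congrArg re h'
        simp only [add_re, re_ofNat, zero_re] at h3
        linarith
      have dX : DifferentiableAt ℂ (Xf Q lam mu w) s := Xf_diff3 hf (by linarith)
      have dY : DifferentiableAt ℂ (fun s => (s + 1 / 3) * (s + 2 / 3) * Xf Q lam mu w s) s :=
        (by fun_prop : DifferentiableAt ℂ (fun s : ℂ => (s + 1 / 3) * (s + 2 / 3)) s).mul dX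
      have dP : DifferentiableAt ℂ (fun s : ℂ => s * (s + 1) * (s + 2)) s := by fun_prop
      have dA : ∀ z : ℂ, -1 < z.re → z.re < 0 → DifferentiableAt ℂ
          (fun z => ∑ j : Fin 3, g j * GX9_N (kap3 Q lam) j z) z := fun z hz1 hz2 =>
        DifferentiableAt.fun_sum fun j _ => (GX9_diffN hκ j hz1 hz2).const_mul _
      have dB := (dA (conj s) (by simpa using hs1) (by simpa using hs2)).conj_conj
      rw [conj_conj] at dB
      exact ((dY.div dP (mul_ne_zero (mul_ne_zero n0 n1) n2)).sub (dA s hs1 hs2)).sub dB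
    · intro s hs1 hs2 hs3 hs4
      have m1 : s + 1 / 3 ≠ 0 := by
        intro h'
        exact hs3 (by linear_combination h')
      have m2 : s + 2 / 3 ≠ 0 := by
        intro h'
        exact hs4 (by linear_combination h')
      have hc3 : conj (3 : ℂ) = 3 := map_ofNat _ 3
      have hc2 : conj (2 : ℂ) = 2 := map_ofNat _ 2
      have hc3' : conj s ≠ -(1 / 3) := by
        intro h'
        apply hs3
        have := congrArg conj h'
        simpa [hc3] using this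
      have hc4' : conj s ≠ -(2 / 3) := by
        intro h'
        apply hs4
        have := congrArg conj h'
        simpa [hc3, hc2] using this
      rw [eq_div_iff (mul_ne_zero m1 m2), Rem3]
      have e1 : ∑ j : Fin 3, g j * GX9_N (kap3 Q lam) j s =
          (s + 1 / 3) * (s + 2 / 3) * ∑ j : Fin 3, g j * Mf3 (kap3 Q lam) j s := by
        rw [Finset.mul_sum]
        refine Finset.sum_congr rfl fun j _ => ?_
        rw [← GX9_N_eq j hs1 hs3 hs4]
        ring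
      have e2 : ∑ j : Fin 3, g j * GX9_N (kap3 Q lam) j (conj s) =
          (conj s + 1 / 3) * (conj s + 2 / 3) *
            ∑ j : Fin 3, g j * Mf3 (kap3 Q lam) j (conj s) := by
        rw [Finset.mul_sum]
        refine Finset.sum_congr rfl fun j _ => ?_
        rw [← GX9_N_eq j (by simpa using hs1) hc3' hc4']
        ring
      have e3 : conj ((conj s + 1 / 3) * (conj s + 2 / 3) *
            ∑ j : Fin 3, g j * Mf3 (kap3 Q lam) j (conj s)) = (s + 1 / 3) * (s + 2 / 3) *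
            conj (∑ j : Fin 3, g j * Mf3 (kap3 Q lam) j (conj s)) := by
        rw [map_mul, map_mul, map_add, map_add, map_div₀, map_div₀, map_one, hc3, hc2, conj_conj]
      beta_reduce
      rw [e1, e2, e3]
      ring
--END GX9

end Pool.Agent.PEt3
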