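import Pool.Agent.PEt3.GX

/-! The Voronoi series of `∫_0^x (x-t) E(t) dt` for an `L` of degree 3. -/

set_option autoImplicit false

open Complex MeasureTheory Set Filter Topology
open scoped Real ComplexConjugate ContDiff

namespace Pool.Agent.PEt3

open Pool.Agent.PEt

--BEGIN VX1
private noncomputable def VX1_bd (f : ℂ → ℂ) (a b c d : ℝ) : ℂ :=
  (∫ x in a..b, f (x + c * I)) - (∫ x in a..b, f (x + d * I)) +
    I * (∫ y in c..d, f (b + y * I)) - I * ∫ y in c..d, f (a + y * I)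

private theorem VX1_bd_zero {f : ℂ → ℂ} {a b c d : ℝ} (hab : a ≤ b) (hcd : c ≤ d)
    (hf : DifferentiableOn ℂ f (Icc a b ×ℂ Icc c d)) : VX1_bd f a b c d = 0 := by
  have h := Complex.integral_boundary_rect_eq_zero_of_differentiableOn f ⟨a, c⟩ ⟨b, d⟩ (by
    show DifferentiableOn ℂ f (uIcc a b ×ℂ uIcc c d)
    rwa [uIcc_of_le hab, uIcc_of_le hcd])
  exact h

private theorem VX1_int {h : ℝ → ℂ} {C δ : ℝ} (hδ : 0 < δ) (hc : Continuous h)
    (hb : ∀ t : ℝ, 1 ≤ |t| → ‖h t‖ ≤ C * |t| ^ (-(1 + δ))) : Integrable h := by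
  obtain ⟨M, hM⟩ := (isCompact_Icc (a := (-1 : ℝ)) (b := 1)).exists_bound_of_continuousOn
    hc.continuousOn
  have hM0 : 0 ≤ M := (norm_nonneg _).trans (hM 0 ⟨by norm_num, by norm_num⟩)
  have hC0 : 0 ≤ C := by
    have := (norm_nonneg _).trans (hb 1 (by rw [abs_one]))
    simpa using this
  have hi : Integrable (fun t : ℝ => (1 + ‖t‖) ^ (-(1 + δ))) :=
    integrable_one_add_norm (by simp; linarith)
  refine (hi.const_mul ((M + C) * 2 ^ (1 + δ))).mono' hc.aestronglyMeasurable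
    (Eventually.of_forall fun t => ?_)
  have h1 : (0 : ℝ) < 1 + ‖t‖ := by positivity
  have hr : (0 : ℝ) ≤ 1 + δ := by linarith
  by_cases ht : 1 ≤ |t|
  · have h2 : |t| ^ (-(1 + δ)) ≤ 2 ^ (1 + δ) * (1 + ‖t‖) ^ (-(1 + δ)) := by
      rw [Real.norm_eq_abs] at h1 ⊢
      have h3 : (1 + |t|) ≤ 2 * |t| := by linarith
      have h4 : (1 + |t|) ^ (1 + δ) ≤ 2 ^ (1 + δ) * |t| ^ (1 + δ) := by
        rw [← Real.mul_rpow (by norm_num) (abs_nonneg t)]
        exact Real.rpow_le_rpow h1.le h3 hr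
      rw [Real.rpow_neg (abs_nonneg t), Real.rpow_neg h1.le, ← div_eq_mul_inv,
        inv_eq_one_div, div_le_div_iff₀ (Real.rpow_pos_of_pos (by linarith) _)
          (Real.rpow_pos_of_pos h1 _), one_mul]
      exact h4
    refine (hb t ht).trans ?_
    refine (mul_le_mul_of_nonneg_left h2 hC0).trans ?_
    have h5 : 0 ≤ 2 ^ (1 + δ) * (1 + ‖t‖) ^ (-(1 + δ)) := by positivity
    nlinarith
  · have ht' : |t| ≤ 1 := (not_le.1 ht).le
    have h2 : (1 : ℝ) ≤ 2 ^ (1 + δ) * (1 + ‖t‖) ^ (-(1 + δ)) := by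
      rw [Real.norm_eq_abs] at h1 ⊢
      rw [Real.rpow_neg h1.le, ← div_eq_mul_inv, one_le_div (Real.rpow_pos_of_pos h1 _)]
      exact Real.rpow_le_rpow h1.le (by linarith) hr
    refine (hM t (abs_le.1 ht')).trans ?_
    have h5 : 0 ≤ 2 ^ (1 + δ) * (1 + ‖t‖) ^ (-(1 + δ)) := by positivity
    nlinarith

private theorem VX1_hor {F : ℂ → ℂ} {σ1 σ2 C δ : ℝ} (hσ : σ1 ≤ σ2) (hδ : 0 < δ)
    (hb : ∀ s : ℂ, σ1 ≤ s.re → s.re ≤ σ2 → 1 ≤ |s.im| → ‖F s‖ ≤ C * |s.im| ^ (-(1 + δ)))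
    (ε : ℝ) (hε : ε = 1 ∨ ε = -1) :
    Tendsto (fun N : ℝ => ∫ x in σ1..σ2, F (x + (ε * N : ℝ) * I)) atTop (𝓝 0) := by
  have h1 : Tendsto (fun N : ℝ => C * N ^ (-(1 + δ)) * |σ2 - σ1|) atTop (𝓝 0) := by
    have h2 := (tendsto_rpow_neg_atTop (by linarith : 0 < 1 + δ)).const_mul C
    simpa using h2.mul_const |σ2 - σ1|
  refine squeeze_zero_norm' ?_ h1
  filter_upwards [eventually_ge_atTop 1] with N hN
  have ha : |ε * N| = N := by
    rw [abs_mul, abs_of_nonneg (by linarith : 0 ≤ N)]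
    rcases hε with rfl | rfl <;> simp
  refine intervalIntegral.norm_integral_le_of_norm_le_const fun x hx => ?_
  rw [uIoc_of_le hσ] at hx
  have h3 : ((x : ℂ) + (ε * N : ℝ) * I).re = x := by simp
  have h4 : ((x : ℂ) + (ε * N : ℝ) * I).im = ε * N := by simp
  have h5 := hb ((x : ℂ) + (ε * N : ℝ) * I) (by rw [h3]; exact hx.1.le) (by rw [h3]; exact hx.2)
    (by rw [h4, ha]; exact hN)
  rwa [h4, ha] at h5

private theorem VX1_lim {F : ℂ → ℂ} {σ1 σ2 C δ : ℝ} {R : ℂ} (hσ : σ1 ≤ σ2) (hδ : 0 < δ)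
    (c1 : Continuous fun t : ℝ => F (σ1 + t * I)) (c2 : Continuous fun t : ℝ => F (σ2 + t * I))
    (hb : ∀ s : ℂ, σ1 ≤ s.re → s.re ≤ σ2 → 1 ≤ |s.im| → ‖F s‖ ≤ C * |s.im| ^ (-(1 + δ)))
    (hR : ∀ N : ℝ, 1 ≤ N → VX1_bd F σ1 σ2 (-N) N = R) :
    Integrable (fun t : ℝ => F (σ1 + t * I)) ∧ Integrable (fun t : ℝ => F (σ2 + t * I)) ∧
    I * (∫ t : ℝ, F (σ2 + t * I)) - I * (∫ t : ℝ, F (σ1 + t * I)) = R := by
  have i1 : Integrable (fun t : ℝ => F (σ1 + t * I)) := VX1_int hδ c1 fun t ht => by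
    have := hb (σ1 + t * I) (by simp) (by simpa using hσ) (by simpa using ht)
    simpa using this
  have i2 : Integrable (fun t : ℝ => F (σ2 + t * I)) := VX1_int hδ c2 fun t ht => by
    have := hb (σ2 + t * I) (by simpa using hσ) (by simp) (by simpa using ht)
    simpa using this
  refine ⟨i1, i2, ?_⟩
  have t1 := intervalIntegral_tendsto_integral i1 tendsto_neg_atTop_atBot tendsto_id
  have t2 := intervalIntegral_tendsto_integral i2 tendsto_neg_atTop_atBot tendsto_id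
  have t3 := VX1_hor hσ hδ hb 1 (Or.inl rfl)
  have t4 := VX1_hor hσ hδ hb (-1) (Or.inr rfl)
  have t5 := ((t4.sub t3).add (t2.const_mul I)).sub (t1.const_mul I)
  have t6 : Tendsto (fun N : ℝ => VX1_bd F σ1 σ2 (-N) N) atTop
      (𝓝 (0 - 0 + I * (∫ t : ℝ, F (σ2 + t * I)) - I * (∫ t : ℝ, F (σ1 + t * I)))) := by
    refine t5.congr fun N => ?_
    simp only [VX1_bd, one_mul, neg_one_mul, id]
  have t7 : Tendsto (fun N : ℝ => VX1_bd F σ1 σ2 (-N) N) atTop (𝓝 R) := by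
    refine tendsto_const_nhds.congr' ?_
    filter_upwards [eventually_ge_atTop 1] with N hN
    exact (hR N hN).symm
  have t8 := tendsto_nhds_unique t6 t7
  rw [sub_zero, zero_add] at t8
  exact t8

private theorem VX1_line {F : ℂ → ℂ} {σ : ℝ} (h : ∀ t : ℝ, DifferentiableAt ℂ F (σ + t * I)) :
    Continuous fun t : ℝ => F (σ + t * I) := by
  rw [continuous_iff_continuousAt]
  intro t
  exact ContinuousAt.comp (f := fun t : ℝ => (σ + t * I : ℂ)) (h t).continuousAt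
    (by fun_prop)

/-- the integral of `1/(s - z)` along a line, by a branch of the logarithm -/
private theorem VX1_seg {u v : ℂ} {p q : ℝ} {z : ℂ} (w : ℂ) (hw : w ≠ 0)
    (h : ∀ x ∈ uIcc p q, w * (u + x * v - z) ∈ slitPlane) :
    ∫ x in p..q, v * (1 / (u + (x : ℂ) * v - z)) =
      Complex.log (w * (u + q * v - z)) - Complex.log (w * (u + p * v - z)) := by
  have hd : ∀ x ∈ uIcc p q, HasDerivAt (fun x : ℝ => Complex.log (w * (u + (x : ℂ) * v - z)))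
      (v * (1 / (u + (x : ℂ) * v - z))) x := by
    intro x hx
    have h1 : HasDerivAt (fun x : ℝ => w * (u + (x : ℂ) * v - z)) (w * v) x := by
      have h2 : HasDerivAt (fun x : ℝ => (x : ℂ)) 1 x := Complex.ofRealCLM.hasDerivAt
      have h3 := (((h2.mul_const v).const_add u).sub_const z).const_mul w
      simpa using h3
    have h4 := h1.clog_real (h x hx)
    have h5 : u + (x : ℂ) * v - z ≠ 0 := by
      intro h6
      have := h x hx
      rw [h6, mul_zero] at this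
      exact Complex.slitPlane_ne_zero this rfl
    have h6 : v * (1 / (u + (x : ℂ) * v - z)) = w * v / (w * (u + (x : ℂ) * v - z)) := by
      field_simp
    rw [h6]
    exact h4
  refine intervalIntegral.integral_eq_sub_of_hasDerivAt hd ?_
  refine ContinuousOn.intervalIntegrable ?_
  refine continuousOn_const.mul (ContinuousOn.div continuousOn_const ?_ ?_)
  · fun_prop
  · intro x hx h6
    have := h x hx
    rw [h6, mul_zero] at this
    exact Complex.slitPlane_ne_zero this rfl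

private theorem VX1_one {a b c d : ℝ} {z : ℂ} (h1 : a < z.re) (h2 : z.re < b)
    (h3 : c < z.im) (h4 : z.im < d) : VX1_bd (fun s => 1 / (s - z)) a b c d = 2 * π * I := by
  have e1 : ∫ x in a..b, (1 : ℂ) / ((x : ℂ) + c * I - z) =
      Complex.log ((b : ℂ) + c * I - z) - Complex.log ((a : ℂ) + c * I - z) := by
    have h := VX1_seg (u := c * I) (v := 1) (p := a) (q := b) (z := z) 1 one_ne_zero (by
      intro x _
      rw [Complex.mem_slitPlane_iff]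
      right
      simp
      linarith)
    simp only [one_mul, mul_one] at h
    rw [add_comm (b : ℂ), add_comm (a : ℂ), ← h]
    refine intervalIntegral.integral_congr fun x _ => ?_
    simp only [add_comm]
  have e2 : ∫ x in a..b, (1 : ℂ) / ((x : ℂ) + d * I - z) =
      Complex.log ((b : ℂ) + d * I - z) - Complex.log ((a : ℂ) + d * I - z) := by
    have h := VX1_seg (u := d * I) (v := 1) (p := a) (q := b) (z := z) 1 one_ne_zero (by
      intro x _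
      rw [Complex.mem_slitPlane_iff]
      right
      simp
      linarith)
    simp only [one_mul, mul_one] at h
    rw [add_comm (b : ℂ), add_comm (a : ℂ), ← h]
    refine intervalIntegral.integral_congr fun x _ => ?_
    simp only [add_comm]
  have e3 : I * ∫ y in c..d, (1 : ℂ) / ((b : ℂ) + y * I - z) =
      Complex.log ((b : ℂ) + d * I - z) - Complex.log ((b : ℂ) + c * I - z) := by
    have h := VX1_seg (u := b) (v := I) (p := c) (q := d) (z := z) 1 one_ne_zero (by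
      intro x _
      rw [Complex.mem_slitPlane_iff]
      left
      simp
      linarith)
    simp only [one_mul] at h
    rw [← h, ← intervalIntegral.integral_const_mul]
  have e4 : I * ∫ y in c..d, (1 : ℂ) / ((a : ℂ) + y * I - z) =
      Complex.log (-((a : ℂ) + d * I - z)) - Complex.log (-((a : ℂ) + c * I - z)) := by
    have h := VX1_seg (u := a) (v := I) (p := c) (q := d) (z := z) (-1) (by norm_num) (by
      intro x _
      rw [Complex.mem_slitPlane_iff]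
      left
      simp
      linarith)
    simp only [neg_mul, one_mul] at h
    rw [← h, ← intervalIntegral.integral_const_mul]
  have l1 : Complex.log (-((a : ℂ) + d * I - z)) = Complex.log ((a : ℂ) + d * I - z) - π * I := by
    unfold Complex.log
    rw [norm_neg, Complex.arg_neg_eq_arg_sub_pi_of_im_pos (by simp; linarith)]
    push_cast
    ring
  have l2 : Complex.log (-((a : ℂ) + c * I - z)) = Complex.log ((a : ℂ) + c * I - z) + π * I := by
    unfold Complex.log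
    rw [norm_neg, Complex.arg_neg_eq_arg_add_pi_of_im_neg (by simp; linarith)]
    push_cast
    ring
  unfold VX1_bd
  rw [e1, e2, e3, e4, l1, l2]
  ring

/-- the integral of `f(s)/(s - z)` along a line which does not contain `z` -/
private theorem VX1_side {f : ℂ → ℂ} {S : Set ℂ} {z : ℂ} (hz : S ∈ 𝓝 z) (hf : DifferentiableOn ℂ f S)
    {p q : ℝ} {g : ℝ → ℂ} (hg : Continuous g) (hS : ∀ x ∈ uIcc p q, g x ∈ S ∧ g x ≠ z) :
    ∫ x in p..q, f (g x) / (g x - z) = (∫ x in p..q, dslope f z (g x)) +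
      f z * ∫ x in p..q, 1 / (g x - z) := by
  have hd : DifferentiableOn ℂ (dslope f z) S := (Complex.differentiableOn_dslope hz).2 hf
  have i1 : IntervalIntegrable (fun x => dslope f z (g x)) volume p q :=
    (hd.continuousOn.comp hg.continuousOn fun x hx => (hS x hx).1).intervalIntegrable
  have i2 : IntervalIntegrable (fun x => f z * (1 / (g x - z))) volume p q := by
    refine ContinuousOn.intervalIntegrable (continuousOn_const.mul
      (ContinuousOn.div continuousOn_const (hg.sub continuous_const).continuousOn ?_))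
    intro x hx
    exact sub_ne_zero.2 (hS x hx).2
  rw [← intervalIntegral.integral_const_mul, ← intervalIntegral.integral_add i1 i2]
  refine intervalIntegral.integral_congr fun x hx => ?_
  have h1 := sub_ne_zero.2 (hS x hx).2
  rw [dslope_of_ne _ (hS x hx).2, slope_def_field]
  field_simp
  ring

/-- Cauchy's formula for a rectangle. -/
private theorem VX1_pole {f : ℂ → ℂ} {a b c d : ℝ} {z : ℂ} (h1 : a < z.re) (h2 : z.re < b)
    (h3 : c < z.im) (h4 : z.im < d) (hf : DifferentiableOn ℂ f (Icc a b ×ℂ Icc c d)) :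
    VX1_bd (fun s => f s / (s - z)) a b c d = 2 * π * I * f z := by
  have hz : (Icc a b ×ℂ Icc c d) ∈ 𝓝 z := by
    have h5 : (Ioo a b ×ℂ Ioo c d) ∈ 𝓝 z := by
      refine IsOpen.mem_nhds ?_ ⟨⟨h1, h2⟩, ⟨h3, h4⟩⟩
      exact isOpen_Ioo.reProdIm isOpen_Ioo
    refine Filter.mem_of_superset h5 ?_
    rintro s ⟨hs1, hs2⟩
    exact ⟨Ioo_subset_Icc_self hs1, Ioo_subset_Icc_self hs2⟩
  have hab : a ≤ b := (h1.trans h2).le
  have hcd : c ≤ d := (h3.trans h4).le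
  have hd : DifferentiableOn ℂ (dslope f z) (Icc a b ×ℂ Icc c d) :=
    (Complex.differentiableOn_dslope hz).2 hf
  have key : VX1_bd (fun s => f s / (s - z)) a b c d = VX1_bd (dslope f z) a b c d +
      f z * VX1_bd (fun s => 1 / (s - z)) a b c d := by
    have hx : ∀ y₀, y₀ ∈ Icc c d → y₀ ≠ z.im → ∀ x ∈ uIcc a b,
        ((x : ℂ) + y₀ * I) ∈ Icc a b ×ℂ Icc c d ∧ ((x : ℂ) + y₀ * I) ≠ z := by
      intro y₀ hy₀ hne x hx
      rw [uIcc_of_le hab] at hx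
      refine ⟨?_, ?_⟩
      · rw [Complex.mem_reProdIm]
        simpa using ⟨hx, hy₀⟩
      · intro h
        apply hne
        rw [← h]
        simp
    have hy : ∀ x₀, x₀ ∈ Icc a b → x₀ ≠ z.re → ∀ y ∈ uIcc c d,
        ((x₀ : ℂ) + y * I) ∈ Icc a b ×ℂ Icc c d ∧ ((x₀ : ℂ) + y * I) ≠ z := by
      intro x₀ hx₀ hne y hy
      rw [uIcc_of_le hcd] at hy
      refine ⟨?_, ?_⟩
      · rw [Complex.mem_reProdIm]
        simpa using ⟨hx₀, hy⟩
      · intro h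
        apply hne
        rw [← h]
        simp
    unfold VX1_bd
    rw [VX1_side hz hf (g := fun x : ℝ => (x : ℂ) + c * I) (by fun_prop)
        (hx c (left_mem_Icc.2 hcd) h3.ne),
      VX1_side hz hf (g := fun x : ℝ => (x : ℂ) + d * I) (by fun_prop)
        (hx d (right_mem_Icc.2 hcd) h4.ne'),
      VX1_side hz hf (g := fun y : ℝ => (b : ℂ) + y * I) (by fun_prop)
        (hy b (right_mem_Icc.2 hab) h2.ne'),
      VX1_side hz hf (g := fun y : ℝ => (a : ℂ) + y * I) (by fun_prop)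
        (hy a (left_mem_Icc.2 hab) h1.ne)]
    ring
  rw [key, VX1_bd_zero hab hcd hd, VX1_one h1 h2 h3 h4]
  ring

private theorem VX1_ne' {σ : ℝ} {z : ℂ} (hz : z.re ≠ σ) (y : ℝ) : (σ : ℂ) + y * I ≠ z := by
  intro h
  apply hz
  rw [← h]
  simp

/-- **VX1.** Shift with a simple pole at a real point (compare `shift_poles`). -/
theorem shift_pole {F W : ℂ → ℂ} {σ1 σ2 C δ p : ℝ} (h1 : σ1 < p) (h2 : p < σ2) (hδ : 0 < δ)
    (hW : ∀ s : ℂ, σ1 ≤ s.re → s.re ≤ σ2 → DifferentiableAt ℂ W s)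
    (hF : ∀ s : ℂ, σ1 ≤ s.re → s.re ≤ σ2 → s ≠ p → F s = W s / (s - p))
    (hb : ∀ s : ℂ, σ1 ≤ s.re → s.re ≤ σ2 → 1 ≤ |s.im| → ‖F s‖ ≤ C * |s.im| ^ (-(1 + δ))) :
    Integrable (fun t : ℝ => F (σ1 + t * I)) ∧ Integrable (fun t : ℝ => F (σ2 + t * I)) ∧
    (1 / (2 * π) : ℂ) * ∫ t : ℝ, F (σ2 + t * I) =
      W p + (1 / (2 * π) : ℂ) * ∫ t : ℝ, F (σ1 + t * I) := by
  have hl : ∀ σ : ℝ, σ1 ≤ σ → σ ≤ σ2 → σ ≠ p → Continuous fun t : ℝ => F (σ + t * I) := by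
    intro σ ha hb hp
    have hne : ∀ t : ℝ, (σ : ℂ) + t * I ≠ p := fun t => VX1_ne' (by simpa using hp.symm) t
    have e : (fun t : ℝ => F (σ + t * I)) = fun t : ℝ => W (σ + t * I) / ((σ + t * I) - p) := by
      funext t
      exact hF _ (by simpa using ha) (by simpa using hb) (hne t)
    rw [e]
    exact (VX1_line fun t => hW _ (by simpa using ha) (by simpa using hb)).div (by fun_prop)
      fun t => sub_ne_zero.2 (hne t)
  have hbd : ∀ N : ℝ, 1 ≤ N → VX1_bd F σ1 σ2 (-N) N = 2 * π * I * W p := by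
    intro N hN
    have hx : ∀ e : ℝ, e ≠ 0 → ∫ x in σ1..σ2, F (x + e * I) =
        ∫ x in σ1..σ2, W (x + e * I) / ((x + e * I) - p) := by
      intro e he
      refine intervalIntegral.integral_congr fun x hx => ?_
      rw [uIcc_of_le (h1.trans h2).le] at hx
      refine hF _ (by simpa using hx.1) (by simpa using hx.2) fun h => he ?_
      have := congrArg Complex.im h
      simpa using this
    have hy : ∀ σ : ℝ, σ1 ≤ σ → σ ≤ σ2 → σ ≠ p → ∫ y in (-N)..N, F (σ + y * I) =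
        ∫ y in (-N)..N, W (σ + y * I) / ((σ + y * I) - p) := by
      intro σ ha hb hp
      refine intervalIntegral.integral_congr fun y _ => ?_
      exact hF _ (by simpa using ha) (by simpa using hb) (VX1_ne' (by simpa using hp.symm) y)
    have h := VX1_pole (f := W) (a := σ1) (b := σ2) (c := -N) (d := N) (z := (p : ℂ))
      (by simpa using h1) (by simpa using h2) (by simp; linarith) (by simp; linarith)
      fun s hs => (hW s hs.1.1 hs.1.2).differentiableWithinAt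
    rw [← h]
    unfold VX1_bd
    rw [hx (-N) (by linarith), hx N (by linarith), hy σ2 (h1.trans h2).le le_rfl h2.ne',
      hy σ1 le_rfl (h1.trans h2).le h1.ne]
  have h := VX1_lim (R := 2 * π * I * W p) (h1.trans h2).le hδ
    (hl σ1 le_rfl (h1.trans h2).le h1.ne) (hl σ2 (h1.trans h2).le le_rfl h2.ne') hb hbd
  refine ⟨h.1, h.2.1, ?_⟩
  have h5 := h.2.2
  have hpi : (π : ℂ) ≠ 0 := by exact_mod_cast Real.pi_ne_zero
  have hI := I_ne_zero
  generalize (∫ t : ℝ, F (σ2 + t * I)) = J2 at h5 ⊢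
  generalize (∫ t : ℝ, F (σ1 + t * I)) = J1 at h5 ⊢
  have h6 : J2 = 2 * π * W p + J1 := by
    have : I * J2 = I * (2 * π * W p + J1) := by linear_combination h5
    exact mul_left_cancel₀ hI this
  rw [h6]
  field_simp
--END VX1

--BEGIN VX2
private theorem VX2_meas (w : ℂ) :
    AEStronglyMeasurable (fun x : ℝ => (cexp (I * x) - 1 - I * x + x ^ 2 / 2) * (x : ℂ) ^ (w - 1))
      (volume.restrict (Ioi 0)) := by
  refine ContinuousOn.aestronglyMeasurable ?_ measurableSet_Ioi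
  intro x hx
  have hx0 : (x : ℂ) ∈ slitPlane := ofReal_mem_slitPlane.2 hx
  have h1 : ContinuousAt (fun x : ℝ => (x : ℂ) ^ (w - 1)) x :=
    (continuousAt_cpow_const hx0).comp continuous_ofReal.continuousAt
  exact ((by fun_prop : ContinuousAt (fun x : ℝ => cexp (I * x) - 1 - I * x + x ^ 2 / 2) x).mul
    h1).continuousWithinAt

private theorem VX2_le {x : ℝ} (hx : 0 < x) :
    (x ≤ 1 → ‖cexp (I * x) - 1 - I * x + x ^ 2 / 2‖ ≤ x ^ 3) ∧
      (1 ≤ x → ‖cexp (I * x) - 1 - I * x + x ^ 2 / 2‖ ≤ 4 * x ^ 2) := by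
  have hn : ‖I * (x:ℂ)‖ = x := by
    rw [norm_mul, norm_I, one_mul, norm_real, Real.norm_of_nonneg hx.le]
  constructor
  · intro h1
    have h2 := exp_bound (x := I * x) (by rw [hn]; exact h1) (n := 3) (by norm_num)
    rw [hn] at h2
    have e : cexp (I * x) - ∑ m ∈ Finset.range 3, (I * (x:ℂ)) ^ m / m.factorial =
        cexp (I * x) - 1 - I * x + x ^ 2 / 2 := by
      simp only [Finset.sum_range_succ, Finset.sum_range_zero, Nat.factorial]
      push_cast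
      linear_combination (-(x:ℂ) ^ 2 / 2) * I_mul_I
    rw [e] at h2
    refine h2.trans ?_
    have h3 : 0 ≤ x ^ 3 := by positivity
    have h4 : ((Nat.succ 3 : ℕ) : ℝ) * (((Nat.factorial 3 : ℕ) : ℝ) * ((3 : ℕ) : ℝ))⁻¹ ≤ 1 := by
      norm_num [Nat.factorial]
    calc x ^ 3 * (((Nat.succ 3 : ℕ) : ℝ) * (((Nat.factorial 3 : ℕ) : ℝ) * ((3 : ℕ) : ℝ))⁻¹) ≤
        x ^ 3 * 1 := mul_le_mul_of_nonneg_left h4 h3
      _ = x ^ 3 := mul_one _
  · intro h1
    have h2 : ‖cexp (I * x)‖ = 1 := by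
      rw [norm_exp]; simp
    have h3 : ‖(x:ℂ) ^ 2 / 2‖ = x ^ 2 / 2 := by
      rw [norm_div, norm_pow, norm_real, Real.norm_of_nonneg hx.le]
      norm_num
    calc ‖cexp (I * x) - 1 - I * x + x ^ 2 / 2‖ ≤ ‖cexp (I * x) - 1 - I * x‖ + ‖(x:ℂ) ^ 2 / 2‖ :=
          norm_add_le _ _
      _ ≤ (‖cexp (I * x) - 1‖ + ‖I * (x:ℂ)‖) + ‖(x:ℂ) ^ 2 / 2‖ := by
          gcongr; exact norm_sub_le _ _
      _ ≤ ((‖cexp (I * x)‖ + ‖(1:ℂ)‖) + ‖I * (x:ℂ)‖) + ‖(x:ℂ) ^ 2 / 2‖ := by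
          gcongr; exact norm_sub_le _ _
      _ ≤ 4 * x ^ 2 := by rw [h2, hn, h3, norm_one]; nlinarith

private theorem VX2_int {w : ℂ} (h1 : -3 < w.re) (h2 : w.re < -2) :
    IntegrableOn (fun x : ℝ => (cexp (I * x) - 1 - I * x + x ^ 2 / 2) * (x : ℂ) ^ (w - 1))
      (Ioi 0) := by
  have key : ∀ x : ℝ, 0 < x → ‖(x : ℂ) ^ (w - 1)‖ = x ^ (w.re - 1) := by
    intro x hx
    rw [norm_cpow_eq_rpow_re_of_pos hx, sub_re, one_re]
  have hm := VX2_meas w
  have e : Ioi (0:ℝ) = Ioc 0 1 ∪ Ioi 1 := (Ioc_union_Ioi_eq_Ioi zero_le_one).symm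
  rw [e]
  refine IntegrableOn.union ?_ ?_
  · have k1 : IntegrableOn (fun x : ℝ => x ^ (w.re + 2)) (Ioc 0 1) :=
      (intervalIntegrable_iff_integrableOn_Ioc_of_le zero_le_one).1
        (intervalIntegral.intervalIntegrable_rpow' (by linarith))
    refine Integrable.mono' k1 (hm.mono_set Ioc_subset_Ioi_self) ?_
    refine (ae_restrict_iff' measurableSet_Ioc).2 (Eventually.of_forall fun x hx => ?_)
    rw [norm_mul, key x hx.1]
    have h3 := (VX2_le hx.1).1 hx.2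
    have h4 : x ^ (w.re + 2) = x ^ 3 * x ^ (w.re - 1) := by
      rw [← Real.rpow_natCast, ← Real.rpow_add hx.1]
      congr 1
      push_cast
      ring
    rw [h4]
    exact mul_le_mul_of_nonneg_right h3 (Real.rpow_nonneg hx.1.le _)
  · have k1 : IntegrableOn (fun x : ℝ => 4 * x ^ (w.re + 1)) (Ioi 1) :=
      (integrableOn_Ioi_rpow_of_lt (by linarith) zero_lt_one).const_mul 4
    refine Integrable.mono' k1 (hm.mono_set (Ioi_subset_Ioi zero_le_one)) ?_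
    refine (ae_restrict_iff' measurableSet_Ioi).2 (Eventually.of_forall fun x hx => ?_)
    have hx1 : 1 < x := hx
    have hx0 : 0 < x := by linarith
    rw [norm_mul, key x hx0]
    have h3 := (VX2_le hx0).2 hx1.le
    have h4 : x ^ (w.re + 1) = x ^ 2 * x ^ (w.re - 1) := by
      rw [← Real.rpow_natCast, ← Real.rpow_add hx0]
      congr 1
      push_cast
      ring
    rw [h4]
    calc ‖cexp (I * x) - 1 - I * x + x ^ 2 / 2‖ * x ^ (w.re - 1) ≤
        (4 * x ^ 2) * x ^ (w.re - 1) :=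
          mul_le_mul_of_nonneg_right h3 (Real.rpow_nonneg hx0.le _)
      _ = 4 * (x ^ 2 * x ^ (w.re - 1)) := by ring

/-- **VX2.** `∫_0^∞ (e^{ix} - 1 - ix + x²/2) x^{w-1} dx = Γ(w) e^{iπw/2}` for `-3 < Re w < -2`,
and its Mellin inversion (compare `mellin_exp_two`, `mellinBarnes_two`). -/
theorem mellin_exp_three {w : ℂ} (h1 : -3 < w.re) (h2 : w.re < -2) :
    IntegrableOn (fun x : ℝ => (cexp (I * x) - 1 - I * x + x ^ 2 / 2) * (x : ℂ) ^ (w - 1))
      (Ioi 0) ∧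
    ∫ x in Ioi (0 : ℝ), (cexp (I * x) - 1 - I * x + x ^ 2 / 2) * (x : ℂ) ^ (w - 1) =
      Gamma w * cexp (I * π * w / 2) := by
  have hw : w ≠ 0 := by
    intro h; rw [h, zero_re] at h2; linarith
  obtain ⟨hI, hG⟩ := mellin_exp_two (w := w + 1) (by simp; linarith) (by simp; linarith)
  refine ⟨VX2_int h1 h2, ?_⟩
  have e0 : ∀ x : ℝ, (I * (cexp (I * x) - 1 - I * x)) * ((x : ℂ) ^ w / w) =
      (I / w) * ((cexp (I * x) - 1 - I * x) * (x : ℂ) ^ (w + 1 - 1)) := by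
    intro x
    rw [add_sub_cancel_right]
    ring
  have key := integral_Ioi_mul_deriv_eq_deriv_mul (a := (0:ℝ)) (a' := (0:ℂ)) (b' := (0:ℂ))
    (u := fun x : ℝ => cexp (I * x) - 1 - I * x + x ^ 2 / 2) (v := fun x : ℝ => (x : ℂ) ^ w / w)
    (u' := fun x : ℝ => I * (cexp (I * x) - 1 - I * x)) (v' := fun x : ℝ => (x : ℂ) ^ (w - 1))
    (fun x _ => by
      have k0 : HasDerivAt (fun x : ℝ => (x:ℂ)) 1 x := ofRealCLM.hasDerivAt (x := x)
      have k1 : HasDerivAt (fun x : ℝ => I * (x:ℂ)) (I * 1) x := k0.const_mul I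
      have k2 := (((k1.cexp).sub_const (1:ℂ)).sub k1).add ((k0.pow 2).div_const 2)
      refine k2.congr_deriv ?_
      push_cast
      linear_combination (x : ℂ) * I_mul_I)
    (fun x hx => by
      have hx0 : x ≠ 0 := ne_of_gt hx
      have h1 := (hasDerivAt_ofReal_cpow_const (x := x) hx0 (r := w) hw).div_const w
      refine h1.congr_deriv ?_
      field_simp)
    (VX2_int h1 h2)
    (by
      refine (hI.const_mul (I / w)).congr ?_
      exact Eventually.of_forall fun x => (e0 x).symm)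
    (by
      have k1 : Tendsto (fun x : ℝ => 1 / ‖w‖ * x ^ (w.re + 3)) (𝓝[>] 0) (𝓝 0) := by
        have k2 : Tendsto (fun x : ℝ => x ^ (w.re + 3)) (𝓝 0) (𝓝 (0 ^ (w.re + 3))) :=
          (Real.continuousAt_rpow_const 0 (w.re + 3) (Or.inr (by linarith))).tendsto
        rw [Real.zero_rpow (by linarith)] at k2
        simpa using (k2.mono_left nhdsWithin_le_nhds).const_mul (1 / ‖w‖)
      refine squeeze_zero_norm' ?_ k1
      filter_upwards [self_mem_nhdsWithin, nhdsWithin_le_nhds (gt_mem_nhds one_pos)] with x hx hx1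
      have hx0 : 0 < x := hx
      have k3 := (VX2_le hx0).1 (le_of_lt hx1)
      simp only [Pi.mul_apply]
      rw [norm_mul, norm_div, norm_cpow_eq_rpow_re_of_pos hx0]
      have k4 : x ^ (w.re + 3) = x ^ w.re * x ^ 3 := by
        rw [← Real.rpow_natCast, ← Real.rpow_add hx0]
        push_cast
        rfl
      rw [k4]
      calc ‖cexp (I * x) - 1 - I * x + x ^ 2 / 2‖ * (x ^ w.re / ‖w‖) ≤
          x ^ 3 * (x ^ w.re / ‖w‖) :=
            mul_le_mul_of_nonneg_right k3 (by positivity)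
        _ = 1 / ‖w‖ * (x ^ w.re * x ^ 3) := by ring)
    (by
      have k1 : Tendsto (fun x : ℝ => 4 / ‖w‖ * x ^ (-(-w.re - 2))) atTop (𝓝 0) := by
        simpa using (tendsto_rpow_neg_atTop (y := -w.re - 2) (by linarith)).const_mul (4 / ‖w‖)
      refine squeeze_zero_norm' ?_ k1
      filter_upwards [eventually_gt_atTop 1] with x hx1
      have hx0 : 0 < x := by linarith
      have k3 := (VX2_le hx0).2 hx1.le
      simp only [Pi.mul_apply]
      rw [norm_mul, norm_div, norm_cpow_eq_rpow_re_of_pos hx0]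
      have k4 : x ^ (-(-w.re - 2)) = x ^ w.re * x ^ 2 := by
        rw [← Real.rpow_natCast, ← Real.rpow_add hx0]
        congr 1
        push_cast
        ring
      rw [k4]
      calc ‖cexp (I * x) - 1 - I * x + x ^ 2 / 2‖ * (x ^ w.re / ‖w‖) ≤
          4 * x ^ 2 * (x ^ w.re / ‖w‖) :=
            mul_le_mul_of_nonneg_right k3 (by positivity)
        _ = 4 / ‖w‖ * (x ^ w.re * x ^ 2) := by ring)
  rw [key]
  have e1 : ∫ x in Ioi (0:ℝ), (I * (cexp (I * x) - 1 - I * x)) * ((x : ℂ) ^ w / w) =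
      (I / w) * ∫ x in Ioi (0:ℝ), (cexp (I * x) - 1 - I * x) * (x : ℂ) ^ (w + 1 - 1) := by
    rw [← integral_const_mul]
    exact integral_congr_ae (Eventually.of_forall fun x => e0 x)
  have e2 : cexp (I * π * (w + 1) / 2) = cexp (I * π * w / 2) * I := by
    rw [show I * π * (w + 1) / 2 = I * π * w / 2 + π / 2 * I by ring, exp_add, exp_pi_div_two_mul_I]
  rw [e1, hG, Gamma_add_one w hw, e2]
  have e3 : I * I = -1 := I_mul_I
  generalize cexp (I * π * w / 2) = E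
  generalize Gamma w = G
  field_simp
  linear_combination (-(G * E)) * e3

private theorem VX2_norm (c v : ℝ) :
    ‖cexp (I * π * (c + v * I) / 2)‖ = Real.exp (-(π * v / 2)) := by
  rw [norm_exp]
  congr 1
  have : I * π * (c + v * I) / 2 = ((-(π * v / 2) : ℝ) : ℂ) + ((π * c / 2 : ℝ) : ℂ) * I := by
    push_cast
    linear_combination (π * v / 2 : ℂ) * I_mul_I
  rw [this, add_re, ofReal_re, re_ofReal_mul, I_re, mul_zero, add_zero]

/-- the weight is integrable -/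
private theorem VX2_vert {c : ℝ} (hc : c < -(1 / 2)) (hm : ∀ m : ℕ, c ≠ -m) :
    Integrable (fun v : ℝ => Gamma (c + v * I) * cexp (I * π * (c + v * I) / 2)) := by
  obtain ⟨C, hC, hG⟩ := Gamma_bound |c|
  have hcont : Continuous fun v : ℝ => Gamma (c + v * I) * cexp (I * π * (c + v * I) / 2) := by
    refine Continuous.mul ?_ (by fun_prop)
    refine continuous_iff_continuousAt.2 fun v => ?_
    have h1 : ContinuousAt Gamma (c + v * I) := by
      refine (differentiableAt_Gamma _ ?_).continuousAt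
      intro m h
      have h2 := congrArg re h
      simp at h2
      exact hm m h2
    exact ContinuousAt.comp (f := fun v : ℝ => (c:ℂ) + v * I) h1 (by fun_prop)
  obtain ⟨K, hK⟩ := (isCompact_Icc (a := (-1:ℝ)) (b := 1)).exists_bound_of_continuousOn
    hcont.continuousOn
  have hint : Integrable (fun v : ℝ => (max K C * 2 ^ (1 / 2 - c)) * (1 + ‖v‖) ^ (-(1 / 2 - c))) :=
    (integrable_one_add_norm (by simp; linarith)).const_mul _
  refine Integrable.mono' hint hcont.aestronglyMeasurable (Eventually.of_forall fun v => ?_)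
  have hpos : 0 < 1 + ‖v‖ := by positivity
  have hK0 : 0 ≤ K := (norm_nonneg _).trans (hK 0 (by simp))
  have e1 : (1 + ‖v‖) ^ (-(1 / 2 - c)) * 2 ^ (1 / 2 - c) = ((1 + ‖v‖) / 2) ^ (-(1 / 2 - c)) := by
    rw [Real.div_rpow hpos.le (by norm_num), Real.rpow_neg (by norm_num : (0:ℝ) ≤ 2)]
    field_simp
  have e2 : (max K C * 2 ^ (1 / 2 - c)) * (1 + ‖v‖) ^ (-(1 / 2 - c)) =
      max K C * ((1 + ‖v‖) / 2) ^ (-(1 / 2 - c)) := by
    rw [← e1]; ring
  rw [e2]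
  rcases le_total |v| 1 with hv | hv
  · have h1 := hK v (abs_le.1 hv)
    have h2 : 1 ≤ ((1 + ‖v‖) / 2) ^ (-(1 / 2 - c)) := by
      refine Real.one_le_rpow_of_pos_of_le_one_of_nonpos (by positivity) ?_ (by linarith)
      rw [Real.norm_eq_abs]; linarith
    calc ‖Gamma (c + v * I) * cexp (I * π * (c + v * I) / 2)‖ ≤ K := h1
      _ ≤ max K C * 1 := by rw [mul_one]; exact le_max_left _ _
      _ ≤ _ := mul_le_mul_of_nonneg_left h2 (hK0.trans (le_max_left _ _))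
  · have h1 := (hG c v le_rfl hv).1
    have hv0 : 0 < |v| := by linarith
    rw [norm_mul, VX2_norm]
    have h2 : Real.exp (-(π * |v| / 2)) * Real.exp (-(π * v / 2)) ≤ 1 := by
      rw [← Real.exp_add, Real.exp_le_one_iff]
      have := neg_abs_le v
      nlinarith [Real.pi_pos]
    have h3 : |v| ^ (c - 1 / 2) ≤ ((1 + ‖v‖) / 2) ^ (-(1 / 2 - c)) := by
      rw [show c - 1 / 2 = -(1 / 2 - c) by ring]
      refine Real.rpow_le_rpow_of_nonpos (by positivity) ?_ (by linarith)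
      rw [Real.norm_eq_abs]; linarith
    calc ‖Gamma (c + v * I)‖ * Real.exp (-(π * v / 2))
        ≤ (C * |v| ^ (c - 1 / 2) * Real.exp (-(π * |v| / 2))) * Real.exp (-(π * v / 2)) :=
          mul_le_mul_of_nonneg_right h1 (Real.exp_pos _).le
      _ = C * |v| ^ (c - 1 / 2) * (Real.exp (-(π * |v| / 2)) * Real.exp (-(π * v / 2))) := by ring
      _ ≤ C * |v| ^ (c - 1 / 2) * 1 := mul_le_mul_of_nonneg_left h2 (by positivity)
      _ ≤ max K C * ((1 + ‖v‖) / 2) ^ (-(1 / 2 - c)) := by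
          rw [mul_one]
          exact mul_le_mul (le_max_right _ _) h3 (by positivity) (hC.le.trans (le_max_right _ _))

theorem mellinBarnes_three {c Z : ℝ} (h1 : -3 < c) (h2 : c < -2) (hZ : 0 < Z) :
    Integrable (fun v : ℝ => Gamma (c + v * I) * cexp (I * π * (c + v * I) / 2) *
      (Z : ℂ) ^ (-(c + v * I : ℂ))) ∧
    (1 / (2 * π) : ℂ) * ∫ v : ℝ, Gamma (c + v * I) * cexp (I * π * (c + v * I) / 2) *
      (Z : ℂ) ^ (-(c + v * I : ℂ)) = cexp (I * Z) - 1 - I * Z + Z ^ 2 / 2 := by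
  have hm : ∀ m : ℕ, c ≠ -m := by
    intro m h
    rw [h] at h1 h2
    have h3 : 2 < m := by
      have : (2:ℝ) < m := by linarith
      exact_mod_cast this
    have h4 : m < 3 := by
      have : (m:ℝ) < 3 := by linarith
      exact_mod_cast this
    omega
  have hI : IntegrableOn (fun x : ℝ => (cexp (I * x) - 1 - I * x + x ^ 2 / 2) *
      (x : ℂ) ^ ((c:ℂ) - 1)) (Ioi 0) :=
    (mellin_exp_three (w := c) (by simpa using h1) (by simpa using h2)).1
  have hv := VX2_vert (c := c) (by linarith) hm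
  have hmel : ∀ v : ℝ, mellin (fun x : ℝ => cexp (I * x) - 1 - I * x + x ^ 2 / 2) (c + v * I) =
      Gamma (c + v * I) * cexp (I * π * (c + v * I) / 2) := by
    intro v
    rw [← (mellin_exp_three (w := c + v * I) (by simpa using h1) (by simpa using h2)).2, mellin]
    refine integral_congr_ae (Eventually.of_forall fun x => ?_)
    simp only [smul_eq_mul]
    ring
  constructor
  · have hZ0 : (Z:ℂ) ≠ 0 := ofReal_ne_zero.2 hZ.ne'
    refine Integrable.mul_bdd (c := Z ^ (-c)) hv ?_ (Eventually.of_forall fun v => ?_)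
    · refine Continuous.aestronglyMeasurable ?_
      have : (fun v : ℝ => (Z : ℂ) ^ (-(c + v * I : ℂ))) =
          fun v : ℝ => cexp (Complex.log Z * (-(c + v * I : ℂ))) := by
        funext v
        rw [cpow_def_of_ne_zero hZ0]
      rw [this]
      fun_prop
    · rw [norm_cpow_eq_rpow_re_of_pos hZ]
      simp
  · have hinv := mellinInv_mellin_eq c (fun x : ℝ => cexp (I * x) - 1 - I * x + x ^ 2 / 2) hZ (by
      rw [MellinConvergent]
      refine hI.congr (Eventually.of_forall fun x => ?_)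
      simp only [smul_eq_mul]
      ring) (by
      rw [VerticalIntegrable]
      exact hv.congr (Eventually.of_forall fun v => (hmel v).symm)) (by fun_prop)
    rw [← hinv, mellinInv]
    rw [real_smul]
    push_cast
    congr 1
    refine integral_congr_ae (Eventually.of_forall fun v => ?_)
    simp only [smul_eq_mul]
    rw [hmel]
    ring
--END VX2

--BEGIN VX3
private theorem VX3_cpow {x : ℝ} (hx : 0 < x) (z : ℂ) : (x : ℂ) ^ z = cexp ((Real.log x : ℝ) * z) := by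
  rw [cpow_def_of_ne_zero (ofReal_ne_zero.2 hx.ne'), ofReal_log hx.le]

private theorem VX3_eq {κ y : ℝ} (hκ : 0 < κ) (hy : 0 < y) (j : ℕ) (t : ℝ) :
    Mf3 κ j (-(1 / 8) + t * I) * (y : ℂ) ^ (-(1 / 8) + t * I + 2 : ℂ) =
      (cexp (I * π * (1 + j) / 2) * ((6 * π * κ ^ (1 / 3 : ℝ) : ℝ) : ℂ) ^ (-(1 + j) : ℂ)) *
        ((y ^ ((5 - j) / 3 : ℝ) : ℝ) : ℂ) *
      (Gamma (((-(5 / 8) - j : ℝ) : ℂ) + ((-3 * t : ℝ) : ℂ) * I) *
        cexp (I * π * (((-(5 / 8) - j : ℝ) : ℂ) + ((-3 * t : ℝ) : ℂ) * I) / 2) *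
        ((6 * π * (κ * y) ^ (1 / 3 : ℝ) : ℝ) : ℂ) ^
          (-(((-(5 / 8) - j : ℝ) : ℂ) + ((-3 * t : ℝ) : ℂ) * I))) := by
  have hA : 0 < 6 * π * κ ^ (1 / 3 : ℝ) := by
    have := Real.rpow_pos_of_pos hκ (1 / 3 : ℝ); positivity
  have hB : 0 < 6 * π * (κ * y) ^ (1 / 3 : ℝ) := by
    have := Real.rpow_pos_of_pos (mul_pos hκ hy) (1 / 3 : ℝ); positivity
  have hlog : Real.log (6 * π * (κ * y) ^ (1 / 3 : ℝ)) =
      Real.log (6 * π * κ ^ (1 / 3 : ℝ)) + Real.log y / 3 := by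
    rw [Real.mul_rpow hκ.le hy.le, ← mul_assoc,
      Real.log_mul hA.ne' (Real.rpow_pos_of_pos hy (1 / 3 : ℝ)).ne', Real.log_rpow hy]
    ring
  have hyp : ((y ^ ((5 - j) / 3 : ℝ) : ℝ) : ℂ) = cexp ((Real.log y : ℝ) * ((5 - j) / 3)) := by
    rw [Real.rpow_def_of_pos hy, ofReal_exp]
    push_cast
    rfl
  have hG : (-3 * (-(1 / 8) + t * I) - 1 - j : ℂ) =
      ((-(5 / 8) - j : ℝ) : ℂ) + ((-3 * t : ℝ) : ℂ) * I := by
    push_cast
    ring
  unfold Mf3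
  rw [hG, VX3_cpow hA, VX3_cpow hA, VX3_cpow hB, VX3_cpow hy, hyp, hlog]
  generalize Gamma _ = G
  have key : cexp (-(3 * π * I * (-(1 / 8) + t * I) / 2)) *
      cexp ((Real.log (6 * π * κ ^ (1 / 3 : ℝ)) : ℝ) * (3 * (-(1 / 8) + t * I))) *
      cexp ((Real.log y : ℝ) * (-(1 / 8) + t * I + 2)) =
      cexp (I * π * (1 + j) / 2) * cexp ((Real.log (6 * π * κ ^ (1 / 3 : ℝ)) : ℝ) * (-(1 + j))) *
        cexp ((Real.log y : ℝ) * ((5 - j) / 3)) *
        cexp (I * π * (((-(5 / 8) - j : ℝ) : ℂ) + ((-3 * t : ℝ) : ℂ) * I) / 2) *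
        cexp (((Real.log (6 * π * κ ^ (1 / 3 : ℝ)) + Real.log y / 3 : ℝ) : ℂ) *
          (-(((-(5 / 8) - j : ℝ) : ℂ) + ((-3 * t : ℝ) : ℂ) * I))) := by
    rw [← exp_add, ← exp_add, ← exp_add, ← exp_add, ← exp_add, ← exp_add]
    congr 1
    push_cast
    ring
  linear_combination G * key

/-- the transform for the three values of `j` -/
private theorem VX3_trans {κ y c : ℝ} {W : ℂ} (hκ : 0 < κ) (hy : 0 < y) (j : ℕ)
    (hc : c = -(5 / 8) - j)
    (h : Integrable (fun v : ℝ => Gamma (c + v * I) * cexp (I * π * (c + v * I) / 2) *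
      ((6 * π * (κ * y) ^ (1 / 3 : ℝ) : ℝ) : ℂ) ^ (-(c + v * I : ℂ))) ∧
    (1 / (2 * π) : ℂ) * ∫ v : ℝ, Gamma (c + v * I) * cexp (I * π * (c + v * I) / 2) *
      ((6 * π * (κ * y) ^ (1 / 3 : ℝ) : ℝ) : ℂ) ^ (-(c + v * I : ℂ)) = W) :
    Integrable (fun t : ℝ => Mf3 κ j (-(1 / 8) + t * I) * (y : ℂ) ^ (-(1 / 8) + t * I + 2 : ℂ)) ∧
    (1 / (2 * π) : ℂ) * ∫ t : ℝ, Mf3 κ j (-(1 / 8) + t * I) *
      (y : ℂ) ^ (-(1 / 8) + t * I + 2 : ℂ) =
      (1 / 3 * (cexp (I * π * (1 + j) / 2) *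
        ((6 * π * κ ^ (1 / 3 : ℝ) : ℝ) : ℂ) ^ (-(1 + j) : ℂ))) *
        ((y ^ ((5 - j) / 3 : ℝ) : ℝ) : ℂ) * W := by
  obtain ⟨h1, h2⟩ := h
  set g : ℝ → ℂ := fun v : ℝ => Gamma (c + v * I) * cexp (I * π * (c + v * I) / 2) *
      ((6 * π * (κ * y) ^ (1 / 3 : ℝ) : ℝ) : ℂ) ^ (-(c + v * I : ℂ)) with hg
  set K : ℂ := cexp (I * π * (1 + j) / 2) *
    ((6 * π * κ ^ (1 / 3 : ℝ) : ℝ) : ℂ) ^ (-(1 + j) : ℂ) with hK
  have e : (fun t : ℝ => Mf3 κ j (-(1 / 8) + t * I) * (y : ℂ) ^ (-(1 / 8) + t * I + 2 : ℂ)) =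
      fun t : ℝ => K * ((y ^ ((5 - j) / 3 : ℝ) : ℝ) : ℂ) * g (-3 * t) := by
    funext t
    rw [VX3_eq hκ hy j t, hg, hc]
  rw [e]
  refine ⟨(h1.comp_mul_left' (by norm_num)).const_mul _, ?_⟩
  have e2 : ∫ t : ℝ, K * ((y ^ ((5 - j) / 3 : ℝ) : ℝ) : ℂ) * g (-3 * t) =
      K * ((y ^ ((5 - j) / 3 : ℝ) : ℝ) : ℂ) * ((1 / 3 : ℂ) * ∫ v, g v) := by
    rw [integral_const_mul, Measure.integral_comp_mul_left g (-3), real_smul]
    congr 2
    norm_num
  rw [e2, ← h2]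
  ring

private theorem VX3_e {x : ℝ} : e (3 * x) = cexp (I * ((6 * π * x : ℝ) : ℂ)) := by
  unfold e
  congr 1
  push_cast
  ring

/-- **VX3.** The transforms of `M_0, M_1, M_2` on `Re s = -1/8`, `Z = 6π(κy)^{1/3}`: put
`w = -3s - 1 - j`, `Re w = -5/8, -13/8, -21/8` (compare `Mf_zero_transform`). -/
theorem Mf3_transform {κ : ℝ} (hκ : 0 < κ) : ∃ C : Fin 3 → ℂ, C 0 ≠ 0 ∧ ∀ y : ℝ, 0 < y →
    (∀ j : Fin 3, Integrable (fun t : ℝ => Mf3 κ j (-(1 / 8) + t * I) *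
      (y : ℂ) ^ (-(1 / 8) + t * I + 2 : ℂ))) ∧
    (1 / (2 * π) : ℂ) * (∫ t : ℝ, Mf3 κ 0 (-(1 / 8) + t * I) *
      (y : ℂ) ^ (-(1 / 8) + t * I + 2 : ℂ)) =
      C 0 * ((y ^ (5 / 3 : ℝ) : ℝ) : ℂ) * (e (3 * (κ * y) ^ (1 / 3 : ℝ)) - 1) ∧
    (1 / (2 * π) : ℂ) * (∫ t : ℝ, Mf3 κ 1 (-(1 / 8) + t * I) *
      (y : ℂ) ^ (-(1 / 8) + t * I + 2 : ℂ)) =
      C 1 * ((y ^ (4 / 3 : ℝ) : ℝ) : ℂ) * (e (3 * (κ * y) ^ (1 / 3 : ℝ)) - 1 -
        I * (6 * π * (κ * y) ^ (1 / 3 : ℝ) : ℝ)) ∧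
    (1 / (2 * π) : ℂ) * (∫ t : ℝ, Mf3 κ 2 (-(1 / 8) + t * I) *
      (y : ℂ) ^ (-(1 / 8) + t * I + 2 : ℂ)) =
      C 2 * (y : ℂ) * (e (3 * (κ * y) ^ (1 / 3 : ℝ)) - 1 -
        I * (6 * π * (κ * y) ^ (1 / 3 : ℝ) : ℝ) +
        (6 * π * (κ * y) ^ (1 / 3 : ℝ) : ℝ) ^ 2 / 2) := by
  have hA : 0 < 6 * π * κ ^ (1 / 3 : ℝ) := by
    have := Real.rpow_pos_of_pos hκ (1 / 3 : ℝ); positivity
  refine ⟨fun j => 1 / 3 * (cexp (I * π * (1 + ((j : ℕ) : ℂ)) / 2) *
    ((6 * π * κ ^ (1 / 3 : ℝ) : ℝ) : ℂ) ^ (-(1 + ((j : ℕ) : ℂ)) : ℂ)), ?_, ?_⟩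
  · refine mul_ne_zero (by norm_num) (mul_ne_zero (exp_ne_zero _) ?_)
    rw [VX3_cpow hA]
    exact exp_ne_zero _
  · intro y hy
    have hB : 0 < 6 * π * (κ * y) ^ (1 / 3 : ℝ) := by
      have := Real.rpow_pos_of_pos (mul_pos hκ hy) (1 / 3 : ℝ); positivity
    have t0 := VX3_trans hκ hy 0 (c := -(5 / 8)) (by norm_num)
      (mellinBarnes_one (c := -(5 / 8)) (by norm_num) (by norm_num) hB)
    have t1 := VX3_trans hκ hy 1 (c := -(13 / 8)) (by norm_num)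
      (mellinBarnes_two (c := -(13 / 8)) (by norm_num) (by norm_num) hB)
    have t2 := VX3_trans hκ hy 2 (c := -(21 / 8)) (by norm_num)
      (mellinBarnes_three (c := -(21 / 8)) (by norm_num) (by norm_num) hB)
    have e0 : ((5 - ((0:ℕ):ℝ)) / 3 : ℝ) = 5 / 3 := by norm_num
    have e1 : ((5 - ((1:ℕ):ℝ)) / 3 : ℝ) = 4 / 3 := by norm_num
    have e2 : ((5 - ((2:ℕ):ℝ)) / 3 : ℝ) = 1 := by norm_num
    rw [e0] at t0
    rw [e1] at t1
    rw [e2, Real.rpow_one] at t2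
    rw [VX3_e]
    refine ⟨?_, t0.2, t1.2, t2.2⟩
    intro j
    fin_cases j
    · exact t0.1
    · exact t1.1
    · exact t2.1
--END VX3

variable {b : ℕ → ℝ} {L : ℂ → ℂ}
variable {Q : ℝ} {r : ℕ} {lam : Fin r → ℝ} {mu : Fin r → ℂ} {w : ℂ}

--BEGIN VX4
private theorem VX4_ne (t : ℝ) : (2 + t * I : ℂ) * (2 + t * I + 1) * (2 + t * I + 2) ≠ 0 := by
  have h : ∀ c : ℝ, 0 < c → (c + t * I : ℂ) ≠ 0 := by
    intro c hc h0
    have := congrArg Complex.re h0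
    simp at this
    exact hc.ne' this
  have h1 := h 2 (by norm_num)
  have h2 := h 3 (by norm_num)
  have h3 := h 4 (by norm_num)
  push_cast at h1 h2 h3
  refine mul_ne_zero (mul_ne_zero h1 ?_) ?_
  · have e : (2 + t * I + 1 : ℂ) = 3 + t * I := by ring
    rw [e]
    exact h2
  · have e : (2 + t * I + 2 : ℂ) = 4 + t * I := by ring
    rw [e]
    exact h3

private theorem VX4_den (t : ℝ) :
    ‖(2 + t * I : ℂ) * (2 + t * I + 1) * (2 + t * I + 2)‖⁻¹ ≤ (1 + t ^ 2)⁻¹ := by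
  refine inv_anti₀ (by positivity) ?_
  have h : ∀ c : ℝ, ‖(c + t * I : ℂ)‖ ^ 2 = c ^ 2 + t ^ 2 := by
    intro c
    rw [← Complex.normSq_eq_norm_sq, Complex.normSq_add_mul_I]
  have e1 : (2 + t * I : ℂ) = ((2 : ℝ) : ℂ) + t * I := by push_cast; ring
  have e2 : (2 + t * I + 1 : ℂ) = ((3 : ℝ) : ℂ) + t * I := by push_cast; ring
  have e3 : (2 + t * I + 2 : ℂ) = ((4 : ℝ) : ℂ) + t * I := by push_cast; ring
  rw [norm_mul, norm_mul, e2, e3, e1]
  have h1 := h 2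
  have h2 := h 3
  have h3 := h 4
  have n1 := norm_nonneg (((2 : ℝ) : ℂ) + t * I)
  have n2 := norm_nonneg (((3 : ℝ) : ℂ) + t * I)
  have n3 := norm_nonneg (((4 : ℝ) : ℂ) + t * I)
  generalize ‖((2 : ℝ) : ℂ) + t * I‖ = A at h1 n1 ⊢
  generalize ‖((3 : ℝ) : ℂ) + t * I‖ = B at h2 n2 ⊢
  generalize ‖((4 : ℝ) : ℂ) + t * I‖ = D at h3 n3 ⊢
  have hB : A ≤ B := by
    apply le_of_sq_le_sq _ n2
    nlinarith
  have hD : 1 ≤ D := by nlinarith
  have h4 : A * A ≤ A * B := mul_le_mul_of_nonneg_left hB n1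
  have h5 : 0 ≤ A * B := mul_nonneg n1 n2
  nlinarith

private theorem VX4_poly (A : ℝ) : ∃ E : ℝ, ∀ u v : ℝ, 0 ≤ u → u ≤ 2 + v →
    A * (1 + u) ^ A ≤ E * Real.exp v := by
  rcases le_or_gt A 0 with hA | hA
  · refine ⟨0, fun u v hu _ => ?_⟩
    have h1 : 0 ≤ (1 + u) ^ A := Real.rpow_nonneg (by linarith) _
    nlinarith
  · obtain ⟨n, hn⟩ := exists_nat_ge A
    refine ⟨A * ((n.factorial : ℝ) * Real.exp 3), fun u v hu huv => ?_⟩
    have h1 : (1 + u) ^ A ≤ (1 + u) ^ (n : ℝ) :=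
      Real.rpow_le_rpow_of_exponent_le (by linarith) hn
    rw [Real.rpow_natCast] at h1
    have h2 := Real.pow_div_factorial_le_exp (x := 1 + u) (by linarith) n
    rw [div_le_iff₀ (by positivity)] at h2
    have h3 : Real.exp (1 + u) ≤ Real.exp 3 * Real.exp v := by
      rw [← Real.exp_add]
      exact Real.exp_le_exp.2 (by linarith)
    have h4 : (0 : ℝ) < n.factorial := by positivity
    calc A * (1 + u) ^ A ≤ A * (Real.exp (1 + u) * n.factorial) :=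
          mul_le_mul_of_nonneg_left (h1.trans h2) hA.le
      _ ≤ A * (Real.exp 3 * Real.exp v * n.factorial) :=
          mul_le_mul_of_nonneg_left (mul_le_mul_of_nonneg_right h3 h4.le) hA.le
      _ = _ := by ring

/-- **VX4.** Perron, growth and the shift from `2` to `-1/8` (compare `perron_sum`, `L_growth`,
`shift_line`; `perron_kernel` and `shift_poles` are used as they are). -/
theorem perron_sum3 (h : RealSelberg b L 3) {x : ℝ} (hx : 0 < x) :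
    ((1 / 2 * ∑ n ∈ Finset.Icc 1 ⌊x⌋₊, b n * (x - n) ^ 2 : ℝ) : ℂ) =
    (1 / (2 * π) : ℂ) * ∫ t : ℝ, L (2 + t * I) * (x : ℂ) ^ (2 + t * I + 2 : ℂ) /
      ((2 + t * I) * (2 + t * I + 1) * (2 + t * I + 2)) := by
  have hxc : (x : ℂ) ≠ 0 := Complex.ofReal_ne_zero.2 hx.ne'
  -- the terms
  set T : ℕ → ℝ → ℂ := fun n t => LSeries.term (fun n => (b n : ℂ)) (2 + t * I) n *
    (x : ℂ) ^ (2 + t * I + 2 : ℂ) / ((2 + t * I) * (2 + t * I + 1) * (2 + t * I + 2)) with hT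
  have hre : ∀ t : ℝ, (2 + t * I : ℂ).re = 2 := by intro t; simp
  have hsum2 : LSeriesSummable (fun n => (b n : ℂ)) 2 := (h.series 2 (by norm_num)).1
  have hLs : ∀ t : ℝ, L (2 + t * I) * (x : ℂ) ^ (2 + t * I + 2 : ℂ) /
      ((2 + t * I) * (2 + t * I + 1) * (2 + t * I + 2)) = ∑' n, T n t := by
    intro t
    have h1 := (h.series (2 + t * I) (by rw [hre]; norm_num)).2
    rw [h1, hT]
    simp only [LSeries]
    rw [← tsum_mul_right, ← tsum_div_const]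
  have hK : ∀ t : ℝ, ‖(x : ℂ) ^ (2 + t * I + 2 : ℂ) /
      ((2 + t * I) * (2 + t * I + 1) * (2 + t * I + 2))‖ ≤ x ^ (4 : ℝ) * (1 + t ^ 2)⁻¹ := by
    intro t
    rw [norm_div, Complex.norm_cpow_eq_rpow_re_of_pos hx, div_eq_mul_inv]
    have h1 : (2 + t * I + 2 : ℂ).re = 4 := by simp; norm_num
    rw [h1]
    refine mul_le_mul_of_nonneg_left ?_ (Real.rpow_nonneg hx.le _)
    exact VX4_den t
  have hTn : ∀ n t, ‖T n t‖ ≤ ‖LSeries.term (fun n => (b n : ℂ)) 2 n‖ *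
      (x ^ (4 : ℝ) * (1 + t ^ 2)⁻¹) := by
    intro n t
    rw [hT]
    simp only []
    rw [mul_div_assoc, norm_mul]
    refine mul_le_mul (le_of_eq ?_) (hK t) (norm_nonneg _) (norm_nonneg _)
    rw [LSeries.norm_term_eq, LSeries.norm_term_eq, hre]
    rfl
  have hint0 : Integrable (fun t : ℝ => x ^ (4 : ℝ) * (1 + t ^ 2)⁻¹) :=
    integrable_inv_one_add_sq.const_mul _
  have hcont : ∀ n, Continuous (T n) := by
    intro n
    rw [hT]
    simp only []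
    rcases eq_or_ne n 0 with rfl | hn
    · simp only [LSeries.term_zero, zero_mul, zero_div]
      exact continuous_const
    · have hn' : (n : ℂ) ≠ 0 := Nat.cast_ne_zero.2 hn
      simp only [LSeries.term_of_ne_zero hn]
      refine Continuous.div ?_ (by fun_prop) (fun t => VX4_ne t)
      refine Continuous.mul (Continuous.div continuous_const ?_ ?_) ?_
      · exact Continuous.const_cpow (by fun_prop) (Or.inl hn')
      · intro t
        rw [Ne, Complex.cpow_eq_zero_iff]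
        exact fun h => hn' h.1
      · exact Continuous.const_cpow (by fun_prop) (Or.inl hxc)
  have hTint : ∀ n, Integrable (T n) := fun n =>
    (hint0.const_mul ‖LSeries.term (fun n => (b n : ℂ)) 2 n‖).mono'
      (hcont n).aestronglyMeasurable (Filter.Eventually.of_forall fun t => hTn n t)
  have hTsum : Summable fun n => ∫ t, ‖T n t‖ := by
    have h2 : Summable fun n => ‖LSeries.term (fun n => (b n : ℂ)) 2 n‖ *
        ∫ t : ℝ, x ^ (4 : ℝ) * (1 + t ^ 2)⁻¹ := hsum2.norm.mul_right _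
    refine Summable.of_nonneg_of_le (fun n => integral_nonneg fun t => norm_nonneg _)
      (fun n => ?_) h2
    rw [← integral_const_mul]
    exact integral_mono (hTint n).norm (hint0.const_mul _) (fun t => hTn n t)
  have hmain := hasSum_integral_of_summable_integral_norm hTint hTsum
  -- the single integrals
  have hone : ∀ n : ℕ, (1 / (2 * π) : ℂ) * ∫ t, T n t =
      ((if n = 0 then 0 else 1 / 2 * (b n * (max (x - n) 0) ^ 2) : ℝ) : ℂ) := by
    intro n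
    rcases eq_or_ne n 0 with rfl | hn
    · rw [hT]
      simp
    · have hn0 : (0 : ℝ) < n := Nat.cast_pos.2 (Nat.pos_of_ne_zero hn)
      have hu : 0 < (n : ℝ) / x := div_pos hn0 hx
      have h3 : ∀ t : ℝ, T n t = ((b n * x ^ 2 : ℝ) : ℂ) * ((((n : ℝ) / x : ℝ) : ℂ) ^ (-(2 + t * I : ℂ)) /
          ((2 + t * I) * (2 + t * I + 1) * (2 + t * I + 2))) := by
        intro t
        rw [hT]
        simp only []
        rw [LSeries.term_of_ne_zero hn, Complex.cpow_neg, Complex.ofReal_div,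
          Complex.div_cpow_ofReal_nonneg hn0.le hx.le]
        have h5 : (x : ℂ) ^ (2 + t * I + 2 : ℂ) = (x : ℂ) ^ (2 + t * I : ℂ) * (x : ℂ) ^ 2 := by
          rw [Complex.cpow_add _ _ hxc]
          norm_cast
        rw [h5]
        have h6 : ((n : ℝ) : ℂ) = (n : ℂ) := by simp
        rw [h6]
        have h7 : (x : ℂ) ^ (2 + t * I : ℂ) ≠ 0 := by
          rw [Ne, Complex.cpow_eq_zero_iff]
          exact fun h => hxc h.1
        have h8 : (n : ℂ) ^ (2 + t * I : ℂ) ≠ 0 := by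
          rw [Ne, Complex.cpow_eq_zero_iff]
          exact fun h => (Nat.cast_ne_zero.2 hn) h.1
        push_cast
        field_simp
      simp only [h3]
      rw [integral_const_mul, mul_left_comm, perron_kernel hu, if_neg hn, ← Complex.ofReal_mul]
      congr 1
      have h9 : max (x - n) 0 = x * max (1 - n / x) 0 := by
        rw [mul_max_of_nonneg _ _ hx.le, mul_zero]
        congr 1
        field_simp
      rw [h9]
      ring
  have hsum := hmain.mul_left (1 / (2 * π) : ℂ)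
  simp only [hone] at hsum
  have hfin : HasSum (fun n : ℕ => ((if n = 0 then 0 else 1 / 2 * (b n * (max (x - n) 0) ^ 2) : ℝ) : ℂ))
      ((1 / 2 * ∑ n ∈ Finset.Icc 1 ⌊x⌋₊, b n * (x - n) ^ 2 : ℝ) : ℂ) := by
    have h10 : ((1 / 2 * ∑ n ∈ Finset.Icc 1 ⌊x⌋₊, b n * (x - n) ^ 2 : ℝ) : ℂ)
        = ∑ n ∈ Finset.Icc 1 ⌊x⌋₊,
          ((if n = 0 then 0 else 1 / 2 * (b n * (max (x - n) 0) ^ 2) : ℝ) : ℂ) := by
      rw [Finset.mul_sum, Complex.ofReal_sum]
      refine Finset.sum_congr rfl fun n hn => ?_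
      obtain ⟨h11, h12⟩ := Finset.mem_Icc.1 hn
      have h13 : (n : ℝ) ≤ x := (Nat.le_floor_iff hx.le).1 h12
      rw [if_neg (by omega), max_eq_left (by linarith)]
    rw [h10]
    refine hasSum_sum_of_ne_finset_zero fun n hn => ?_
    rcases Nat.eq_zero_or_pos n with rfl | hn0
    · simp
    · have h14 : x < n := by
        by_contra hc
        push Not at hc
        exact hn (Finset.mem_Icc.2 ⟨hn0, Nat.le_floor hc⟩)
      rw [if_neg hn0.ne', max_eq_right (by linarith)]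
      simp
  rw [hfin.unique hsum]
  congr 1
  exact integral_congr_ae (Filter.Eventually.of_forall fun t => (hLs t).symm)

theorem L_growth3 (h : RealSelberg b L 3) : ∃ C : ℝ, 0 < C ∧ ∀ s : ℂ, -(1 / 8) ≤ s.re →
    s.re ≤ 2 → 1 ≤ |s.im| → ‖L s‖ ≤ C * |s.im| ^ (15 / 8 : ℝ) := by
  obtain ⟨Q, r, lam, mu, w, hf⟩ := exists_fun3 h
  obtain ⟨C1, hC1, hX⟩ := Xf_bound3 h hf
  obtain ⟨m, G, A, hGd, hG, hGb⟩ := h.continuation
  -- bounds for the Dirichlet series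
  have hser : ∀ σ : ℝ, 1 < σ → ∃ B : ℝ, 0 < B ∧ ∀ s : ℂ, s.re = σ → ‖L s‖ ≤ B := by
    intro σ hσ
    have h1 : LSeriesSummable (fun n => (b n : ℂ)) (σ : ℂ) := (h.series σ (by simpa using hσ)).1
    refine ⟨∑' n, ‖LSeries.term (fun n => (b n : ℂ)) (σ : ℂ) n‖ + 1, ?_, fun s hs => ?_⟩
    · have : 0 ≤ ∑' n, ‖LSeries.term (fun n => (b n : ℂ)) (σ : ℂ) n‖ :=
        tsum_nonneg fun n => norm_nonneg _
      linarith
    · rw [(h.series s (by rw [hs]; exact hσ)).2]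
      have h2 : ∀ n, ‖LSeries.term (fun n => (b n : ℂ)) s n‖
          = ‖LSeries.term (fun n => (b n : ℂ)) (σ : ℂ) n‖ := by
        intro n
        rw [LSeries.norm_term_eq, LSeries.norm_term_eq, hs, Complex.ofReal_re]
      have h3 : ‖LSeries (fun n => (b n : ℂ)) s‖
          ≤ ∑' n, ‖LSeries.term (fun n => (b n : ℂ)) s n‖ := by
        unfold LSeries
        refine norm_tsum_le_tsum_norm ?_
        simp only [h2]
        exact h1.norm
      simp only [h2] at h3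
      linarith
  obtain ⟨B2, hB2, hL2⟩ := hser 2 (by norm_num)
  obtain ⟨B1, hB1, hL1⟩ := hser (9 / 8) (by norm_num)
  set N : ℝ := m + 15 / 8 with hN
  have hN0 : 0 < N := by positivity
  -- the normalised function
  set f : ℂ → ℂ := fun s => G s * (s + 2) ^ (-(N : ℂ)) with hfdef
  have hslit : ∀ s : ℂ, -(1 / 8) ≤ s.re → s + 2 ∈ slitPlane := by
    intro s hs
    left
    simp
    linarith
  have hne2 : ∀ s : ℂ, -(1 / 8) ≤ s.re → 1 ≤ ‖s + 2‖ := by
    intro s hs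
    have h1 := (Complex.re_le_norm (s + 2))
    simp at h1
    linarith
  have hfn : ∀ s : ℂ, ‖f s‖ = ‖G s‖ * ‖s + 2‖ ^ (-N) := by
    intro s
    rw [hfdef]
    simp only []
    rw [norm_mul, ← Complex.ofReal_neg, Complex.norm_cpow_real]
  have hs12 : ∀ s : ℂ, -(1 / 8) ≤ s.re → ‖s - 1‖ ≤ ‖s + 2‖ := by
    intro s hs
    apply le_of_sq_le_sq _ (norm_nonneg _)
    rw [← Complex.normSq_eq_norm_sq, ← Complex.normSq_eq_norm_sq, Complex.normSq_apply,
      Complex.normSq_apply]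
    simp
    nlinarith
  set D : ℝ := B2 + C1 * B1 * 2 ^ (15 / 8 : ℝ) with hD
  have hD0 : 0 < D := by positivity
  have hside : ∀ s : ℂ, -(1 / 8) ≤ s.re → ∀ K : ℝ, 0 ≤ K → s ≠ 1 →
      ‖L s‖ ≤ K * ‖s + 2‖ ^ (15 / 8 : ℝ) → ‖f s‖ ≤ K := by
    intro s hs K hK hs1 hLs
    have h2 := hne2 s hs
    have h20 : 0 < ‖s + 2‖ := by linarith
    rw [hfn, hG s hs1, norm_mul, norm_pow]
    have h3 : ‖s - 1‖ ^ m * ‖L s‖ ≤ ‖s + 2‖ ^ m * (K * ‖s + 2‖ ^ (15 / 8 : ℝ)) :=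
      mul_le_mul (pow_le_pow_left₀ (norm_nonneg _) (hs12 s hs) m) hLs (norm_nonneg _)
        (by positivity)
    calc ‖s - 1‖ ^ m * ‖L s‖ * ‖s + 2‖ ^ (-N)
        ≤ ‖s + 2‖ ^ m * (K * ‖s + 2‖ ^ (15 / 8 : ℝ)) * ‖s + 2‖ ^ (-N) :=
          mul_le_mul_of_nonneg_right h3 (by positivity)
      _ = K := by
          rw [← Real.rpow_natCast, hN]
          have h4 : ‖s + 2‖ ^ (m : ℝ) * (K * ‖s + 2‖ ^ (15 / 8 : ℝ)) * ‖s + 2‖ ^ (-(m + 15 / 8 : ℝ))
              = K * (‖s + 2‖ ^ (m : ℝ) * ‖s + 2‖ ^ (15 / 8 : ℝ) * ‖s + 2‖ ^ (-(m + 15 / 8 : ℝ))) := by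
            ring
          rw [h4, ← Real.rpow_add h20, ← Real.rpow_add h20]
          have h5 : (m : ℝ) + 15 / 8 + -(m + 15 / 8) = 0 := by ring
          rw [h5, Real.rpow_zero, mul_one]
  have hright : ∀ s : ℂ, s.re = 2 → ‖f s‖ ≤ D := by
    intro s hs
    have h1 : -(1 / 8) ≤ s.re := by rw [hs]; norm_num
    have hs1 : s ≠ 1 := by
      rintro rfl
      norm_num at hs
    refine (hside s h1 B2 hB2.le hs1 ?_).trans (by rw [hD]; linarith [show 0 ≤ C1 * B1 * (2 : ℝ) ^ (15 / 8 : ℝ) by positivity])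
    refine (hL2 s hs).trans (le_mul_of_one_le_right hB2.le ?_)
    exact Real.one_le_rpow (hne2 s h1) (by norm_num)
  have hleft : ∀ s : ℂ, s.re = -(1 / 8) → ‖f s‖ ≤ D := by
    intro s hs
    have h1 : -(1 / 8) ≤ s.re := hs.ge
    have hs1 : s ≠ 1 := by
      rintro rfl
      norm_num at hs
    have hs0 : s ≠ 0 := by
      rintro rfl
      norm_num at hs
    refine (hside s h1 (C1 * B1 * 2 ^ (15 / 8 : ℝ)) (by positivity) hs1 ?_).trans
      (by rw [hD]; linarith)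
    rw [fe_left3 h hf (by rw [hs]; norm_num) hs0, norm_mul]
    have h2 := hX s (by rw [hs]; norm_num) hs.le
    have h3 := hL1 (1 - s) (by rw [Complex.sub_re, Complex.one_re, hs]; norm_num)
    have h4 : (1 + |s.im|) ^ (3 / 2 - 3 * s.re) ≤ (2 * ‖s + 2‖) ^ (15 / 8 : ℝ) := by
      rw [hs]
      have h5 : (3 / 2 : ℝ) - 3 * -(1 / 8) = 15 / 8 := by norm_num
      rw [h5]
      refine Real.rpow_le_rpow (by positivity) ?_ (by norm_num)
      have h6 := hne2 s h1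
      have h7 : |s.im| ≤ ‖s + 2‖ := by
        have := Complex.abs_im_le_norm (s + 2)
        simpa using this
      linarith
    calc ‖Xf Q lam mu w s‖ * ‖L (1 - s)‖ ≤ C1 * (2 * ‖s + 2‖) ^ (15 / 8 : ℝ) * B1 :=
          mul_le_mul (h2.trans (mul_le_mul_of_nonneg_left h4 hC1.le)) h3 (norm_nonneg _)
            (by positivity)
      _ = C1 * B1 * 2 ^ (15 / 8 : ℝ) * ‖s + 2‖ ^ (15 / 8 : ℝ) := by
          rw [Real.mul_rpow (by norm_num) (norm_nonneg _)]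
          ring
  -- Phragmen-Lindelof
  have hfd : ∀ s : ℂ, -(1 / 8) ≤ s.re → DifferentiableAt ℂ f s := by
    intro s hs
    have h1 : DifferentiableAt ℂ (fun s : ℂ => s + 2) s := by fun_prop
    exact (hGd s).mul (h1.cpow_const (hslit s hs))
  have hdc : DiffContOnCl ℂ f (re ⁻¹' Ioo (-(1 / 8)) 2) := by
    constructor
    · intro s hs
      exact (hfd s hs.1.le).differentiableWithinAt
    · rw [Complex.closure_preimage_re, closure_Ioo (by norm_num)]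
      intro s hs
      exact (hfd s hs.1).continuousAt.continuousWithinAt
  obtain ⟨E, hE⟩ := VX4_poly A
  have hall : ∀ s : ℂ, -(1 / 8) ≤ s.re → s.re ≤ 2 → ‖f s‖ ≤ D := by
    intro s h1 h2
    refine PhragmenLindelof.vertical_strip (a := -(1 / 8)) (b := 2) hdc ?_ hleft hright h1 h2
    refine ⟨1, ?_, E, ?_⟩
    · rw [lt_div_iff₀ (by norm_num)]
      have := Real.pi_gt_three
      norm_num
      linarith
    · apply Asymptotics.IsBigO.of_bound 1
      have h3 : ∀ᶠ z : ℂ in comap (_root_.abs ∘ im) atTop ⊓ 𝓟 (re ⁻¹' Ioo (-(1 / 8)) 2),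
          z ∈ re ⁻¹' Ioo (-(1 / 8) : ℝ) 2 :=
        Filter.mem_inf_of_right (Filter.mem_principal_self _)
      filter_upwards [h3] with z hz
      have hz1 : -(1 / 8) ≤ z.re := hz.1.le
      have hz2 : z.re ≤ 2 := hz.2.le
      rw [one_mul, Real.norm_eq_abs, Real.abs_exp, one_mul, hfn]
      have h4 : ‖z + 2‖ ^ (-N) ≤ 1 := Real.rpow_le_one_of_one_le_of_nonpos (hne2 z hz1) (by linarith)
      have h5 : ‖G z‖ * ‖z + 2‖ ^ (-N) ≤ Real.exp (A * (1 + ‖z‖) ^ A) :=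
        (mul_le_of_le_one_right (norm_nonneg _) h4).trans (hGb z)
      refine h5.trans (Real.exp_le_exp.2 ?_)
      refine hE ‖z‖ |z.im| (norm_nonneg _) ?_
      have h6 := Complex.norm_le_abs_re_add_abs_im z
      have h7 : |z.re| ≤ 2 := by rw [abs_le]; constructor <;> linarith
      linarith
  refine ⟨D * 5 ^ N, by positivity, fun s h1 h2 h3 => ?_⟩
  have hs1 : s ≠ 1 := by
    rintro rfl
    simp at h3
    linarith
  have h4 := hall s h1 h2
  have h5 := hne2 s h1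
  have h50 : 0 < ‖s + 2‖ := by linarith
  rw [hfn, hG s hs1, norm_mul, norm_pow, Real.rpow_neg h50.le, ← div_eq_mul_inv,
    div_le_iff₀ (by positivity)] at h4
  have ht : 0 < |s.im| := by linarith
  have h6 : |s.im| ≤ ‖s - 1‖ := by
    have := Complex.abs_im_le_norm (s - 1)
    simpa using this
  have h7 : ‖s + 2‖ ≤ 5 * |s.im| := by
    have h8 := Complex.norm_le_abs_re_add_abs_im (s + 2)
    have h9 : |(s + 2).re| ≤ 4 := by
      rw [abs_le]
      simp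
      constructor <;> linarith
    have h10 : |(s + 2).im| = |s.im| := by simp
    rw [h10] at h8
    linarith
  have h8 : |s.im| ^ m * ‖L s‖ ≤ D * 5 ^ N * |s.im| ^ (15 / 8 : ℝ) * |s.im| ^ m := by
    calc |s.im| ^ m * ‖L s‖ ≤ ‖s - 1‖ ^ m * ‖L s‖ :=
          mul_le_mul_of_nonneg_right (pow_le_pow_left₀ ht.le h6 m) (norm_nonneg _)
      _ ≤ D * ‖s + 2‖ ^ N := h4
      _ ≤ D * (5 * |s.im|) ^ N :=
          mul_le_mul_of_nonneg_left (Real.rpow_le_rpow h50.le h7 hN0.le) hD0.le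
      _ = D * 5 ^ N * |s.im| ^ (15 / 8 : ℝ) * |s.im| ^ m := by
          rw [Real.mul_rpow (by norm_num) ht.le, hN, Real.rpow_add ht, Real.rpow_natCast]
          ring
  have h9 : 0 < |s.im| ^ m := by positivity
  rw [mul_comm] at h8
  exact le_of_mul_le_mul_right h8 h9

theorem shift_line3 (h : RealSelberg b L 3) {x : ℝ} (hx : 0 < x) :
    (1 / (2 * π) : ℂ) * ∫ t : ℝ, L (2 + t * I) * (x : ℂ) ^ (2 + t * I + 2 : ℂ) /
      ((2 + t * I) * (2 + t * I + 1) * (2 + t * I + 2)) =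
    (2 * π * I)⁻¹ * (∮ s in C(1, 1 / 2), L s * (x : ℂ) ^ (s + 2) / (s * (s + 1) * (s + 2))) +
      L 0 * (x : ℂ) ^ 2 / 2 +
    (1 / (2 * π) : ℂ) * ∫ t : ℝ, L (-(1 / 8) + t * I) * (x : ℂ) ^ (-(1 / 8) + t * I + 2 : ℂ) /
      ((-(1 / 8) + t * I) * (-(1 / 8) + t * I + 1) * (-(1 / 8) + t * I + 2)) := by
  have hxc : (x : ℂ) ≠ 0 := Complex.ofReal_ne_zero.2 hx.ne'
  obtain ⟨C, hC, hL⟩ := L_growth3 h
  obtain ⟨m, G, A, hGd, hG, -⟩ := h.continuation
  set F : ℂ → ℂ := fun s => L s * (x : ℂ) ^ (s + 2) / (s * (s + 1) * (s + 2)) with hF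
  set G1 : ℂ → ℂ := fun s => G s * (x : ℂ) ^ (s + 2) / ((s + 1) * (s + 2)) with hG1
  have hne : ∀ s : ℂ, -(1 / 8) ≤ s.re → (s + 1) * (s + 2) ≠ 0 := by
    intro s hs
    refine mul_ne_zero ?_ ?_
    · intro h0
      have := congrArg Complex.re h0
      simp at this
      linarith
    · intro h0
      have := congrArg Complex.re h0
      simp at this
      linarith
  have hmax : ∀ s : ℂ, -(1 / 8) ≤ s.re → s.re ≤ 2 → x ^ (s.re + 2) ≤ (max x 1) ^ (4 : ℝ) := by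
    intro s h1 h2
    calc x ^ (s.re + 2) ≤ (max x 1) ^ (s.re + 2) :=
          Real.rpow_le_rpow hx.le (le_max_left _ _) (by linarith)
      _ ≤ (max x 1) ^ (4 : ℝ) :=
          Real.rpow_le_rpow_of_exponent_le (le_max_right _ _) (by linarith)
  have key := shift_poles (F := F) (G := G1) (σ1 := -(1 / 8)) (σ2 := 2)
    (C := C * (max x 1) ^ (4 : ℝ)) (δ := 1 / 8) m (by norm_num) (by norm_num) (by norm_num)
    (by
      intro s h1 _
      have h3 : DifferentiableAt ℂ (fun s : ℂ => (x : ℂ) ^ (s + 2)) s :=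
        DifferentiableAt.const_cpow (by fun_prop) (Or.inl hxc)
      exact ((hGd s).mul h3).div (by fun_prop) (hne s h1))
    (by
      intro s hs0 hs1
      rw [hF, hG1]
      simp only []
      rw [hG s hs1]
      have h4 : (s - 1) ^ m ≠ 0 := pow_ne_zero _ (sub_ne_zero.2 hs1)
      by_cases h5 : (s + 1) * (s + 2) = 0
      · have h6 : s * (s + 1) * (s + 2) = 0 := by rw [mul_assoc, h5, mul_zero]
        rw [h6, h5, div_zero, div_zero, zero_div]
      · obtain ⟨h6, h7⟩ := mul_ne_zero_iff.1 h5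
        field_simp)
    (by
      intro s h1 h2 h3
      have ht : 0 < |s.im| := by linarith
      rw [hF]
      simp only []
      rw [norm_div, norm_mul, norm_mul, norm_mul, Complex.norm_cpow_eq_rpow_re_of_pos hx]
      have h4 : (s + 2).re = s.re + 2 := by simp
      rw [h4]
      have h5 : ∀ c : ℝ, |s.im| ≤ ‖s + c‖ := by
        intro c
        have := Complex.abs_im_le_norm (s + c)
        simpa using this
      have a0 : |s.im| ≤ ‖s‖ := Complex.abs_im_le_norm s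
      have a1 : |s.im| ≤ ‖s + 1‖ := by simpa using h5 1
      have a2 : |s.im| ≤ ‖s + 2‖ := by simpa using h5 2
      have h6 : |s.im| ^ 3 ≤ ‖s‖ * ‖s + 1‖ * ‖s + 2‖ := by
        calc |s.im| ^ 3 = |s.im| * |s.im| * |s.im| := by ring
          _ ≤ ‖s‖ * ‖s + 1‖ * ‖s + 2‖ := by gcongr
      calc ‖L s‖ * x ^ (s.re + 2) / (‖s‖ * ‖s + 1‖ * ‖s + 2‖)
          ≤ (C * |s.im| ^ (15 / 8 : ℝ)) * (max x 1) ^ (4 : ℝ) / |s.im| ^ 3 := by
            refine div_le_div₀ (by positivity) ?_ (by positivity) h6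
            exact mul_le_mul (hL s h1 h2 h3) (hmax s h1 h2) (Real.rpow_nonneg hx.le _)
              (by positivity)
        _ = C * (max x 1) ^ (4 : ℝ) * |s.im| ^ (-(1 + 1 / 8 : ℝ)) := by
            have h7 : |s.im| ^ (-(1 + 1 / 8 : ℝ)) = |s.im| ^ (15 / 8 : ℝ) / |s.im| ^ 3 := by
              rw [← Real.rpow_natCast, ← Real.rpow_sub ht]
              norm_num
            rw [h7]
            ring)
  obtain ⟨-, -, key⟩ := key
  have h0 : G1 0 / (-1) ^ m = L 0 * (x : ℂ) ^ 2 / 2 := by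
    rw [hG1]
    simp only []
    rw [hG 0 (by norm_num)]
    have h8 : (x : ℂ) ^ ((0 : ℂ) + 2) = (x : ℂ) ^ 2 := by
      rw [zero_add]
      norm_cast
    rw [h8]
    have h9 : ((-1 : ℂ)) ^ m ≠ 0 := pow_ne_zero _ (by norm_num)
    have h10 : ((0 : ℂ) - 1) ^ m = (-1) ^ m := by norm_num
    rw [h10]
    field_simp
    ring
  rw [h0] at key
  have c2 : ((2 : ℝ) : ℂ) = 2 := by norm_num
  have c38 : ((-(1 / 8) : ℝ) : ℂ) = -(1 / 8) := by push_cast; ring
  rw [c2, c38] at key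
  exact key
--END VX4

--BEGIN VX5
private theorem VX5_den (t : ℝ) : (1 / 16 * (1 + |t|)) ^ 3 ≤
    ‖((-(1 / 8) + t * I) * (-(1 / 8) + t * I + 1) * (-(1 / 8) + t * I + 2) : ℂ)‖ := by
  have hn : ∀ z : ℂ, (|z.re| + |z.im|) / 2 ≤ ‖z‖ := by
    intro z
    have h1 := abs_re_le_norm z
    have h2 := abs_im_le_norm z
    linarith
  have h0 : 1 / 16 * (1 + |t|) ≤ ‖(-(1 / 8) + t * I : ℂ)‖ := by
    refine le_trans ?_ (hn _)
    have e1 : (-(1 / 8) + t * I : ℂ).re = -(1 / 8) := by simp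
    have e2 : (-(1 / 8) + t * I : ℂ).im = t := by simp
    rw [e1, e2, abs_neg, abs_of_pos (by norm_num : (0 : ℝ) < 1 / 8)]
    have := abs_nonneg t
    linarith
  have h1 : 1 / 16 * (1 + |t|) ≤ ‖(-(1 / 8) + t * I + 1 : ℂ)‖ := by
    refine le_trans ?_ (hn _)
    have e1 : (-(1 / 8) + t * I + 1 : ℂ).re = 7 / 8 := by simp; norm_num
    have e2 : (-(1 / 8) + t * I + 1 : ℂ).im = t := by simp
    rw [e1, e2, abs_of_pos (by norm_num : (0 : ℝ) < 7 / 8)]
    have := abs_nonneg t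
    linarith
  have h2 : 1 / 16 * (1 + |t|) ≤ ‖(-(1 / 8) + t * I + 2 : ℂ)‖ := by
    refine le_trans ?_ (hn _)
    have e1 : (-(1 / 8) + t * I + 2 : ℂ).re = 15 / 8 := by simp; norm_num
    have e2 : (-(1 / 8) + t * I + 2 : ℂ).im = t := by simp
    rw [e1, e2, abs_of_pos (by norm_num : (0 : ℝ) < 15 / 8)]
    have := abs_nonneg t
    linarith
  have hpos : 0 ≤ 1 / 16 * (1 + |t|) := by positivity
  rw [norm_mul, norm_mul]
  calc (1 / 16 * (1 + |t|)) ^ 3 = (1 / 16 * (1 + |t|)) * (1 / 16 * (1 + |t|)) *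
        (1 / 16 * (1 + |t|)) := by ring
    _ ≤ _ := by gcongr

private theorem VX5_denne (t : ℝ) :
    ((-(1 / 8) + t * I) * (-(1 / 8) + t * I + 1) * (-(1 / 8) + t * I + 2) : ℂ) ≠ 0 := by
  intro h
  have h1 := VX5_den t
  rw [h, norm_zero] at h1
  have : 0 < (1 / 16 * (1 + |t|)) ^ 3 := by positivity
  linarith

private theorem VX5_int (h : RealSelberg b L 3) (hf : Fun3 L Q lam mu w) :
    Integrable (fun t : ℝ => Xf Q lam mu w (-(1 / 8) + t * I) /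
      ((-(1 / 8) + t * I) * (-(1 / 8) + t * I + 1) * (-(1 / 8) + t * I + 2))) := by
  obtain ⟨C, hC, hb⟩ := Xf_bound3 h hf
  have hre : ∀ t : ℝ, (-(1 / 8) + t * I : ℂ).re = -(1 / 8) := by intro t; simp
  have him : ∀ t : ℝ, (-(1 / 8) + t * I : ℂ).im = t := by intro t; simp
  have hcont : Continuous (fun t : ℝ => Xf Q lam mu w (-(1 / 8) + t * I)) := by
    rw [continuous_iff_continuousAt]
    intro t
    have h1 : ContinuousAt (Xf Q lam mu w) (-(1 / 8) + t * I) :=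
      (Xf_diff3 hf (by rw [hre]; norm_num)).continuousAt
    exact ContinuousAt.comp (f := fun t : ℝ => (-(1 / 8) + t * I : ℂ)) h1
      (by fun_prop)
  have hg : Integrable (fun t : ℝ => C * 16 ^ 3 * (1 + ‖t‖) ^ (-(9 / 8 : ℝ))) := by
    refine Integrable.const_mul ?_ _
    exact integrable_one_add_norm (by simp; norm_num)
  refine hg.mono' ?_ ?_
  · refine Continuous.aestronglyMeasurable ?_
    exact hcont.div (by fun_prop) (fun t => VX5_denne t)
  · refine Eventually.of_forall fun t => ?_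
    have h1 := hb (-(1 / 8) + t * I) (by rw [hre]; norm_num) (by rw [hre])
    rw [hre, him] at h1
    have h2 := VX5_den t
    have hp : 0 < 1 + |t| := by positivity
    rw [norm_div, Real.norm_eq_abs]
    have h3 : (1 + |t|) ^ (3 / 2 - 3 * -(1 / 8) : ℝ) =
        (1 + |t|) ^ (-(9 / 8 : ℝ)) * (1 + |t|) ^ (3 : ℕ) := by
      rw [← Real.rpow_natCast (1 + |t|) 3, ← Real.rpow_add hp]
      congr 1
      norm_num
    calc ‖Xf Q lam mu w (-(1 / 8) + t * I)‖ /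
        ‖((-(1 / 8) + t * I) * (-(1 / 8) + t * I + 1) * (-(1 / 8) + t * I + 2) : ℂ)‖
        ≤ (C * (1 + |t|) ^ (3 / 2 - 3 * -(1 / 8) : ℝ)) / (1 / 16 * (1 + |t|)) ^ 3 := by gcongr
      _ = C * 16 ^ 3 * (1 + |t|) ^ (-(9 / 8 : ℝ)) := by
        rw [h3]
        field_simp

private theorem VX5_normy {y : ℝ} (hy : 0 < y) (t : ℝ) :
    ‖(y : ℂ) ^ (-(1 / 8) + t * I + 2 : ℂ)‖ = y ^ (15 / 8 : ℝ) := by
  rw [norm_cpow_eq_rpow_re_of_pos hy]
  congr 1
  simp
  norm_num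

private theorem VX5_inty (h : RealSelberg b L 3) (hf : Fun3 L Q lam mu w) {y : ℝ} (hy : 0 < y) :
    Integrable (fun t : ℝ => Xf Q lam mu w (-(1 / 8) + t * I) *
      (y : ℂ) ^ (-(1 / 8) + t * I + 2 : ℂ) /
      ((-(1 / 8) + t * I) * (-(1 / 8) + t * I + 1) * (-(1 / 8) + t * I + 2))) := by
  have hyc : (y : ℂ) ≠ 0 := by exact_mod_cast hy.ne'
  have h1 := (VX5_int h hf).mul_bdd (g := fun t : ℝ => (y : ℂ) ^ (-(1 / 8) + t * I + 2 : ℂ))
    (c := y ^ (15 / 8 : ℝ))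
    (Continuous.aestronglyMeasurable (Continuous.const_cpow (by fun_prop) (Or.inl hyc)))
    (Eventually.of_forall fun t => (VX5_normy hy t).le)
  refine h1.congr (Eventually.of_forall fun t => ?_)
  simp only
  ring

/-- **VX5.** Insert the functional equation and the Dirichlet series (compare `dual_series`). -/
theorem dual_series3 (h : RealSelberg b L 3) (hf : Fun3 L Q lam mu w) {x : ℝ} (hx : 0 < x) :
    Summable (fun m : ℕ => ((b m * (m : ℝ) ^ (-3 : ℝ) : ℝ) : ℂ) * Theta3 Q lam mu w (m * x)) ∧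
    (1 / (2 * π) : ℂ) * ∫ t : ℝ, L (-(1 / 8) + t * I) * (x : ℂ) ^ (-(1 / 8) + t * I + 2 : ℂ) /
      ((-(1 / 8) + t * I) * (-(1 / 8) + t * I + 1) * (-(1 / 8) + t * I + 2)) =
    ∑' m : ℕ, ((b m * (m : ℝ) ^ (-3 : ℝ) : ℝ) : ℂ) * Theta3 Q lam mu w (m * x) := by
  set D : ℝ → ℂ := fun t =>
    ((-(1 / 8) + t * I) * (-(1 / 8) + t * I + 1) * (-(1 / 8) + t * I + 2) : ℂ) with hD
  set F : ℕ → ℝ → ℂ := fun m t => ((b m * (m : ℝ) ^ (-3 : ℝ) : ℝ) : ℂ) *
    (Xf Q lam mu w (-(1 / 8) + t * I) * (((m * x : ℝ)) : ℂ) ^ (-(1 / 8) + t * I + 2 : ℂ) / D t)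
    with hF
  have hre : ∀ t : ℝ, (-(1 / 8) + t * I : ℂ).re = -(1 / 8) := by intro t; simp
  have hzero : ∀ t, F 0 t = 0 := by
    intro t
    simp only [hF]
    rw [Nat.cast_zero, Real.zero_rpow (by norm_num)]
    simp
  have hF_int : ∀ m, Integrable (F m) := by
    intro m
    rcases Nat.eq_zero_or_pos m with rfl | hm
    · have : F 0 = fun _ => 0 := funext hzero
      rw [this]
      exact integrable_zero _ _ _
    · have hm' : (0 : ℝ) < m := by exact_mod_cast hm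
      exact (VX5_inty h hf (mul_pos hm' hx)).const_mul _
  -- the norms
  set g : ℝ → ℝ := fun t => ‖Xf Q lam mu w (-(1 / 8) + t * I) / D t‖ * x ^ (15 / 8 : ℝ) with hg
  have hnorm : ∀ m t, ‖F m t‖ = |b m| * (m : ℝ) ^ (-(9 / 8) : ℝ) * g t := by
    intro m t
    rcases Nat.eq_zero_or_pos m with rfl | hm
    · rw [hzero, norm_zero, Nat.cast_zero, Real.zero_rpow (by norm_num)]
      simp
    · have hm' : (0 : ℝ) < m := by exact_mod_cast hm
      simp only [hF, hg]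
      rw [norm_mul, norm_div, norm_mul, VX5_normy (mul_pos hm' hx), norm_real, norm_mul,
        Real.norm_eq_abs, Real.norm_of_nonneg (Real.rpow_nonneg hm'.le _), norm_div,
        Real.mul_rpow hm'.le hx.le]
      have e1 : (m : ℝ) ^ (-(9 / 8) : ℝ) = (m : ℝ) ^ (-3 : ℝ) * (m : ℝ) ^ (15 / 8 : ℝ) := by
        rw [← Real.rpow_add hm']; norm_num
      rw [e1]
      ring
  have hsa : Summable (fun m : ℕ => |b m| * (m : ℝ) ^ (-(9 / 8) : ℝ)) := by
    have h1 := (h.series ((9 / 8 : ℝ) : ℂ) (by rw [ofReal_re]; norm_num)).1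
    rw [LSeriesSummable] at h1
    have h2 := h1.norm
    refine (h2.congr_cofinite ?_)
    filter_upwards [(Set.finite_singleton (0 : ℕ)).compl_mem_cofinite] with m hm
    have hm0 : m ≠ 0 := by simpa using hm
    have hm' : (0 : ℝ) < m := by exact_mod_cast Nat.pos_of_ne_zero hm0
    rw [LSeries.norm_term_eq, if_neg hm0, norm_real, Real.norm_eq_abs, ofReal_re,
      Real.rpow_neg hm'.le]
    rfl
  have hsum : Summable fun m => ∫ t, ‖F m t‖ := by
    have : (fun m => ∫ t, ‖F m t‖) = fun m => |b m| * (m : ℝ) ^ (-(9 / 8) : ℝ) * ∫ t, g t := by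
      funext m
      rw [← integral_const_mul]
      exact integral_congr_ae (Eventually.of_forall fun t => hnorm m t)
    rw [this]
    exact hsa.mul_right _
  have hHas := hasSum_integral_of_summable_integral_norm hF_int hsum
  have hterm : ∀ m, (1 / (2 * π) : ℂ) * ∫ t, F m t =
      ((b m * (m : ℝ) ^ (-3 : ℝ) : ℝ) : ℂ) * Theta3 Q lam mu w (m * x) := by
    intro m
    simp only [hF]
    rw [integral_const_mul, Theta3]
    ring
  have hHas2 := hHas.mul_left (1 / (2 * π) : ℂ)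
  simp_rw [hterm] at hHas2
  refine ⟨hHas2.summable, ?_⟩
  rw [hHas2.tsum_eq]
  congr 1
  refine integral_congr_ae (Eventually.of_forall fun t => ?_)
  simp only
  set s : ℂ := -(1 / 8) + t * I with hs
  have hsre : s.re = -(1 / 8) := hre t
  have hs0 : s ≠ 0 := by
    rintro h0
    rw [h0] at hsre
    simp at hsre
  have h1s : 1 < (1 - s).re := by rw [sub_re, one_re, hsre]; norm_num
  have hfe := fe_left3 h hf (by rw [hsre]; norm_num) hs0
  obtain ⟨hsumm, hLs⟩ := h.series (1 - s) h1s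
  have hxc : (x : ℂ) ≠ 0 := by exact_mod_cast hx.ne'
  have hFt : ∀ m, F m t = Xf Q lam mu w s * (x : ℂ) ^ (s + 2) / D t *
      LSeries.term (fun n => (b n : ℂ)) (1 - s) m := by
    intro m
    rcases Nat.eq_zero_or_pos m with rfl | hm
    · rw [hzero, LSeries.term_zero, mul_zero]
    · have hm' : (0 : ℝ) < m := by exact_mod_cast hm
      have hmc : (m : ℂ) ≠ 0 := by exact_mod_cast hm.ne'
      rw [LSeries.term_of_ne_zero hm.ne']
      simp only [hF]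
      rw [← hs]
      have e1 : ((m * x : ℝ) : ℂ) ^ (s + 2) = (m : ℂ) ^ (s + 2) * (x : ℂ) ^ (s + 2) := by
        rw [ofReal_mul, mul_cpow_ofReal_nonneg hm'.le hx.le, ofReal_natCast]
      have e2 : (((m : ℝ) ^ (-3 : ℝ) : ℝ) : ℂ) = (m : ℂ) ^ (-3 : ℂ) := by
        rw [ofReal_cpow hm'.le]
        push_cast
        rfl
      have e3 : (m : ℂ) ^ (-3 : ℂ) * (m : ℂ) ^ (s + 2) * (m : ℂ) ^ (1 - s) = 1 := by
        rw [← cpow_add _ _ hmc, ← cpow_add _ _ hmc]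
        have : (-3 + (s + 2) + (1 - s) : ℂ) = 0 := by ring
        rw [this, cpow_zero]
      have e4 : (m : ℂ) ^ (1 - s) ≠ 0 := by
        rw [cpow_def_of_ne_zero hmc]; exact exp_ne_zero _
      rw [ofReal_mul, e1, e2]
      field_simp
      linear_combination (b m * Xf Q lam mu w s * (x : ℂ) ^ (s + 2) / D t) * e3
  have e5 : ∑' m, F m t = Xf Q lam mu w s * (x : ℂ) ^ (s + 2) / D t * L (1 - s) := by
    simp_rw [hFt]
    rw [tsum_mul_left, hLs, LSeries]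
  rw [e5, hfe]
  simp only [hD]
  rw [← hs]
  ring
--END VX5

--BEGIN VX6
private theorem VX6_pt (r y : ℝ) (hy : 0 < y) :
    (y : ℂ) ^ (((r : ℝ) : ℂ) + 2) = ((y ^ (r + 2) : ℝ) : ℂ) := by
  rw [ofReal_cpow hy.le]
  push_cast
  rfl

private theorem VX6_A {R W : ℂ → ℂ} {C : ℝ} (hC : 0 < C)
    (hR : ∀ s : ℂ, -1 ≤ s.re → s.re ≤ -(1 / 8) → 1 ≤ |s.im| →
      ‖R s‖ ≤ C * |s.im| ^ (-3 * s.re - 9 / 2))
    (hW : ∀ s : ℂ, -1 < s.re → s.re < 0 → DifferentiableAt ℂ W s)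
    (hRW : ∀ s : ℂ, -1 < s.re → s.re < 0 → s ≠ -(1 / 3) → s ≠ -(2 / 3) →
        R s = W s / ((s + 1 / 3) * (s + 2 / 3))) {y : ℝ} (hy : 1 ≤ y) :
    Integrable (fun t : ℝ => R (-(1 / 8) + t * I) * (y : ℂ) ^ (-(1 / 8) + t * I + 2 : ℂ)) ∧
    (1 / (2 * π) : ℂ) * (∫ t : ℝ, R (-(1 / 8) + t * I) *
        (y : ℂ) ^ (-(1 / 8) + t * I + 2 : ℂ)) =
      3 * W (-(1 / 3)) * ((y ^ (5 / 3 : ℝ) : ℝ) : ℂ) +
      (1 / (2 * π) : ℂ) * (∫ t : ℝ, R (((-(1 / 2) : ℝ) : ℂ) + t * I) *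
        (y : ℂ) ^ (((-(1 / 2) : ℝ) : ℂ) + t * I + 2 : ℂ)) := by
  have hy0 : 0 < y := by linarith
  have hyc : (y : ℂ) ≠ 0 := by exact_mod_cast hy0.ne'
  have h := shift_pole (F := fun s => R s * (y : ℂ) ^ (s + 2))
    (W := fun s => W s * (y : ℂ) ^ (s + 2) / (s + 2 / 3)) (σ1 := -(1 / 2)) (σ2 := -(1 / 8))
    (C := C * y ^ (2 : ℝ)) (δ := 1) (p := -(1 / 3)) (by norm_num) (by norm_num) one_pos
    (fun s h1 h2 => ?_) (fun s h1 h2 h3 => ?_) (fun s h1 h2 h3 => ?_)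
  · obtain ⟨-, i2, e⟩ := h
    have c8 : ((-(1 / 8) : ℝ) : ℂ) = -(1 / 8) := by push_cast; ring
    have c3 : ((-(1 / 3) : ℝ) : ℂ) = -(1 / 3) := by push_cast; ring
    simp only [c8] at i2 e
    refine ⟨i2, ?_⟩
    rw [e]
    congr 1
    have e1 := VX6_pt (-(1 / 3)) y hy0
    rw [c3] at e1 ⊢
    rw [e1]
    have e2 : (-(1 / 3) + 2 : ℝ) = 5 / 3 := by norm_num
    have e3 : (-(1 / 3) + 2 / 3 : ℂ) = 1 / 3 := by norm_num
    rw [e2, e3]
    ring
  · have hd : s + 2 / 3 ≠ 0 := by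
      intro h4
      have h5 := congrArg re h4
      have h6 : (s + 2 / 3 : ℂ).re = s.re + 2 / 3 := by
        have : (2 / 3 : ℂ) = ((2 / 3 : ℝ) : ℂ) := by push_cast; ring
        rw [this, add_re, ofReal_re]
      rw [h6, zero_re] at h5
      linarith
    refine DifferentiableAt.div ?_ (by fun_prop) hd
    refine (hW s (by linarith) (by linarith)).mul ?_
    exact DifferentiableAt.const_cpow (by fun_prop) (Or.inl hyc)
  · have c3 : ((-(1 / 3) : ℝ) : ℂ) = -(1 / 3) := by push_cast; ring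
    rw [c3] at h3 ⊢
    have hd : s + 2 / 3 ≠ 0 := by
      intro h4
      have h5 := congrArg re h4
      have h6 : (s + 2 / 3 : ℂ).re = s.re + 2 / 3 := by
        have : (2 / 3 : ℂ) = ((2 / 3 : ℝ) : ℂ) := by push_cast; ring
        rw [this, add_re, ofReal_re]
      rw [h6, zero_re] at h5
      linarith
    have hd' : s + 1 / 3 ≠ 0 := by
      intro h4
      exact h3 (by linear_combination h4)
    have hd2 : s ≠ -(2 / 3) := by
      intro h4
      exact hd (by rw [h4]; ring)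
    have e1 := hRW s (by linarith) (by linarith) h3 hd2
    rw [e1]
    have e2 : s - -(1 / 3) = s + 1 / 3 := by ring
    rw [e2]
    field_simp
  · have e1 := hR s (by linarith) h2 h3
    rw [norm_mul, norm_cpow_eq_rpow_re_of_pos hy0]
    have e2 : (s + 2).re = s.re + 2 := by simp
    rw [e2]
    have e3 : y ^ (s.re + 2) ≤ y ^ (2 : ℝ) := Real.rpow_le_rpow_of_exponent_le hy (by linarith)
    have e4 : |s.im| ^ (-3 * s.re - 9 / 2) ≤ |s.im| ^ (-(1 + 1) : ℝ) :=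
      Real.rpow_le_rpow_of_exponent_le h3 (by linarith)
    calc ‖R s‖ * y ^ (s.re + 2) ≤ (C * |s.im| ^ (-3 * s.re - 9 / 2)) * y ^ (2 : ℝ) :=
          mul_le_mul e1 e3 (Real.rpow_nonneg hy0.le _) (by positivity)
      _ ≤ (C * |s.im| ^ (-(1 + 1) : ℝ)) * y ^ (2 : ℝ) :=
          mul_le_mul_of_nonneg_right (mul_le_mul_of_nonneg_left e4 hC.le)
            (Real.rpow_nonneg hy0.le _)
      _ = _ := by ring

private theorem VX6_B {R W : ℂ → ℂ} {C : ℝ} (hC : 0 < C)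
    (hR : ∀ s : ℂ, -1 ≤ s.re → s.re ≤ -(1 / 8) → 1 ≤ |s.im| →
      ‖R s‖ ≤ C * |s.im| ^ (-3 * s.re - 9 / 2))
    (hW : ∀ s : ℂ, -1 < s.re → s.re < 0 → DifferentiableAt ℂ W s)
    (hRW : ∀ s : ℂ, -1 < s.re → s.re < 0 → s ≠ -(1 / 3) → s ≠ -(2 / 3) →
        R s = W s / ((s + 1 / 3) * (s + 2 / 3))) {σ : ℝ} (hσ : -1 < σ) (hσ' : σ ≤ -(3 / 4))
    {y : ℝ} (hy : 1 ≤ y) :
    (1 / (2 * π) : ℂ) * (∫ t : ℝ, R (((-(1 / 2) : ℝ) : ℂ) + t * I) *
        (y : ℂ) ^ (((-(1 / 2) : ℝ) : ℂ) + t * I + 2 : ℂ)) =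
      -3 * W (-(2 / 3)) * ((y ^ (4 / 3 : ℝ) : ℝ) : ℂ) +
      (1 / (2 * π) : ℂ) * (∫ t : ℝ, R ((σ : ℂ) + t * I) *
        (y : ℂ) ^ ((σ : ℂ) + t * I + 2 : ℂ)) := by
  have hy0 : 0 < y := by linarith
  have hyc : (y : ℂ) ≠ 0 := by exact_mod_cast hy0.ne'
  have h := shift_pole (F := fun s => R s * (y : ℂ) ^ (s + 2))
    (W := fun s => W s * (y : ℂ) ^ (s + 2) / (s + 1 / 3)) (σ1 := σ) (σ2 := -(1 / 2))
    (C := C * y ^ (2 : ℝ)) (δ := -3 * σ * 0 + (-(-3 * σ - 9 / 2) - 1)) (p := -(2 / 3)) (by linarith)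
    (by norm_num) (by linarith)
    (fun s h1 h2 => ?_) (fun s h1 h2 h3 => ?_) (fun s h1 h2 h3 => ?_)
  · obtain ⟨-, -, e⟩ := h
    have c3 : ((-(2 / 3) : ℝ) : ℂ) = -(2 / 3) := by push_cast; ring
    refine e.trans ?_
    congr 1
    have e1 := VX6_pt (-(2 / 3)) y hy0
    rw [c3] at e1 ⊢
    rw [e1]
    have e2 : (-(2 / 3) + 2 : ℝ) = 4 / 3 := by norm_num
    have e3 : (-(2 / 3) + 1 / 3 : ℂ) = -(1 / 3) := by norm_num
    rw [e2, e3]
    ring
  · have hd : s + 1 / 3 ≠ 0 := by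
      intro h4
      have h5 := congrArg re h4
      have h6 : (s + 1 / 3 : ℂ).re = s.re + 1 / 3 := by
        have : (1 / 3 : ℂ) = ((1 / 3 : ℝ) : ℂ) := by push_cast; ring
        rw [this, add_re, ofReal_re]
      rw [h6, zero_re] at h5
      linarith
    refine DifferentiableAt.div ?_ (by fun_prop) hd
    refine (hW s (by linarith) (by linarith)).mul ?_
    exact DifferentiableAt.const_cpow (by fun_prop) (Or.inl hyc)
  · have c3 : ((-(2 / 3) : ℝ) : ℂ) = -(2 / 3) := by push_cast; ring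
    rw [c3] at h3 ⊢
    have hd : s + 1 / 3 ≠ 0 := by
      intro h4
      have h5 := congrArg re h4
      have h6 : (s + 1 / 3 : ℂ).re = s.re + 1 / 3 := by
        have : (1 / 3 : ℂ) = ((1 / 3 : ℝ) : ℂ) := by push_cast; ring
        rw [this, add_re, ofReal_re]
      rw [h6, zero_re] at h5
      linarith
    have hd' : s + 2 / 3 ≠ 0 := by
      intro h4
      exact h3 (by linear_combination h4)
    have hd2 : s ≠ -(1 / 3) := by
      intro h4
      exact hd (by rw [h4]; ring)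
    have e1 := hRW s (by linarith) (by linarith) hd2 h3
    rw [e1]
    have e2 : s - -(2 / 3) = s + 2 / 3 := by ring
    rw [e2]
    field_simp
  · have e1 := hR s (by linarith) (by linarith) h3
    rw [norm_mul, norm_cpow_eq_rpow_re_of_pos hy0]
    have e2 : (s + 2).re = s.re + 2 := by simp
    rw [e2]
    have e3 : y ^ (s.re + 2) ≤ y ^ (2 : ℝ) := Real.rpow_le_rpow_of_exponent_le hy (by linarith)
    have e4 : |s.im| ^ (-3 * s.re - 9 / 2) ≤
        |s.im| ^ (-(1 + (-3 * σ * 0 + (-(-3 * σ - 9 / 2) - 1))) : ℝ) :=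
      Real.rpow_le_rpow_of_exponent_le h3 (by linarith)
    calc ‖R s‖ * y ^ (s.re + 2) ≤ (C * |s.im| ^ (-3 * s.re - 9 / 2)) * y ^ (2 : ℝ) :=
          mul_le_mul e1 e3 (Real.rpow_nonneg hy0.le _) (by positivity)
      _ ≤ (C * |s.im| ^ (-(1 + (-3 * σ * 0 + (-(-3 * σ - 9 / 2) - 1))) : ℝ)) * y ^ (2 : ℝ) :=
          mul_le_mul_of_nonneg_right (mul_le_mul_of_nonneg_left e4 hC.le)
            (Real.rpow_nonneg hy0.le _)
      _ = _ := by ring

/-- **VX6.** Shift of the remainder from `-1/8` to `-1 + δ`, over the simple poles `-1/3` and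
`-2/3` (VX1 twice, with an intermediate line `-1/2`). Stated for a general function `R`. -/
theorem Rem3_transform {R W : ℂ → ℂ} {C : ℝ} (hC : 0 < C)
    (hR : ∀ s : ℂ, -1 ≤ s.re → s.re ≤ -(1 / 8) → 1 ≤ |s.im| →
      ‖R s‖ ≤ C * |s.im| ^ (-3 * s.re - 9 / 2))
    (hW : ∀ s : ℂ, -1 < s.re → s.re < 0 → DifferentiableAt ℂ W s)
    (hRW : ∀ s : ℂ, -1 < s.re → s.re < 0 → s ≠ -(1 / 3) → s ≠ -(2 / 3) →
        R s = W s / ((s + 1 / 3) * (s + 2 / 3))) :
    ∃ r1 r2 : ℂ, ∀ δ : ℝ, 0 < δ → ∃ C' : ℝ, 0 < C' ∧ ∀ y : ℝ, 1 ≤ y →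
      ‖(1 / (2 * π) : ℂ) * (∫ t : ℝ, R (-(1 / 8) + t * I) *
        (y : ℂ) ^ (-(1 / 8) + t * I + 2 : ℂ)) - (r1 * ((y ^ (5 / 3 : ℝ) : ℝ) : ℂ) +
          r2 * ((y ^ (4 / 3 : ℝ) : ℝ) : ℂ))‖ ≤ C' * y ^ (1 + δ) := by
  refine ⟨3 * W (-(1 / 3)), -3 * W (-(2 / 3)), fun δ hδ => ?_⟩
  set δ' : ℝ := min δ (1 / 4) with hδ'
  have hδ'0 : 0 < δ' := lt_min hδ (by norm_num)
  have hδ'1 : δ' ≤ 1 / 4 := min_le_right _ _
  have hδ'2 : δ' ≤ δ := min_le_left _ _
  set σ : ℝ := -1 + δ' with hσ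
  refine ⟨1 / (2 * π) * (∫ t : ℝ, ‖R ((σ : ℂ) + t * I)‖) + 1, ?_, fun y hy => ?_⟩
  · have h1 : 0 ≤ ∫ t : ℝ, ‖R ((σ : ℂ) + t * I)‖ := integral_nonneg fun t => norm_nonneg _
    have := Real.pi_pos
    positivity
  have hy0 : 0 < y := by linarith
  rw [(VX6_A hC hR hW hRW hy).2,
    VX6_B hC hR hW hRW (σ := σ) (by rw [hσ]; linarith) (by rw [hσ]; linarith) hy]
  have e1 : 3 * W (-(1 / 3)) * ((y ^ (5 / 3 : ℝ) : ℝ) : ℂ) +
      (-3 * W (-(2 / 3)) * ((y ^ (4 / 3 : ℝ) : ℝ) : ℂ) +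
        (1 / (2 * π) : ℂ) * ∫ t : ℝ, R ((σ : ℂ) + t * I) * (y : ℂ) ^ ((σ : ℂ) + t * I + 2 : ℂ)) -
      (3 * W (-(1 / 3)) * ((y ^ (5 / 3 : ℝ) : ℝ) : ℂ) +
        -3 * W (-(2 / 3)) * ((y ^ (4 / 3 : ℝ) : ℝ) : ℂ)) =
      (1 / (2 * π) : ℂ) * ∫ t : ℝ, R ((σ : ℂ) + t * I) * (y : ℂ) ^ ((σ : ℂ) + t * I + 2 : ℂ) := by
    ring
  rw [e1, norm_mul]
  have e2 : ‖(1 / (2 * π) : ℂ)‖ = 1 / (2 * π) := by
    rw [norm_div, norm_one, norm_mul, norm_real, Real.norm_of_nonneg Real.pi_pos.le]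
    norm_num
  have e3 : ‖∫ t : ℝ, R ((σ : ℂ) + t * I) * (y : ℂ) ^ ((σ : ℂ) + t * I + 2 : ℂ)‖ ≤
      (∫ t : ℝ, ‖R ((σ : ℂ) + t * I)‖) * y ^ (1 + δ') := by
    refine (norm_integral_le_integral_norm _).trans_eq ?_
    rw [← integral_mul_const]
    refine integral_congr_ae (Eventually.of_forall fun t => ?_)
    simp only
    rw [norm_mul, norm_cpow_eq_rpow_re_of_pos hy0]
    congr 2
    simp [hσ]
    ring
  have e4 : y ^ (1 + δ') ≤ y ^ (1 + δ) := Real.rpow_le_rpow_of_exponent_le hy (by linarith)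
  have h1 : 0 ≤ ∫ t : ℝ, ‖R ((σ : ℂ) + t * I)‖ := integral_nonneg fun t => norm_nonneg _
  have hp : 0 < y ^ (1 + δ) := Real.rpow_pos_of_pos hy0 _
  rw [e2]
  have hπ := Real.pi_pos
  calc 1 / (2 * π) * ‖∫ t : ℝ, R ((σ : ℂ) + t * I) * (y : ℂ) ^ ((σ : ℂ) + t * I + 2 : ℂ)‖
      ≤ 1 / (2 * π) * ((∫ t : ℝ, ‖R ((σ : ℂ) + t * I)‖) * y ^ (1 + δ)) := by
        refine mul_le_mul_of_nonneg_left (e3.trans ?_) (by positivity)
        exact mul_le_mul_of_nonneg_left e4 h1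
    _ = 1 / (2 * π) * (∫ t : ℝ, ‖R ((σ : ℂ) + t * I)‖) * y ^ (1 + δ) := by ring
    _ ≤ _ := by nlinarith
--END VX6

--BEGIN VX7
private theorem VX7_conjI {G : ℝ → ℂ} (hG : Integrable G) :
    Integrable (fun t : ℝ => conj (G (-t))) ∧ ∫ t : ℝ, conj (G (-t)) = conj (∫ t : ℝ, G t) := by
  have h1 : Integrable (fun t : ℝ => G (-t)) := hG.comp_neg
  refine ⟨(Complex.conjCLE : ℂ →L[ℝ] ℂ).integrable_comp h1, ?_⟩
  rw [integral_conj]
  congr 1
  exact integral_neg_eq_self G volume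

private theorem VX7_dec {g V : Fin 3 → ℂ} {y : ℝ} (hy : 0 < y)
    (hi : ∀ j : Fin 3, Integrable (fun t : ℝ => Mf3 (kap3 Q lam) j (-(1 / 8) + t * I) *
      (y : ℂ) ^ (-(1 / 8) + t * I + 2 : ℂ)))
    (hV : ∀ j : Fin 3, (1 / (2 * π) : ℂ) * (∫ t : ℝ, Mf3 (kap3 Q lam) j (-(1 / 8) + t * I) *
      (y : ℂ) ^ (-(1 / 8) + t * I + 2 : ℂ)) = V j)
    (hR : Integrable (fun t : ℝ => Rem3 Q lam mu w g (-(1 / 8) + t * I) *
      (y : ℂ) ^ (-(1 / 8) + t * I + 2 : ℂ))) :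
    Theta3 Q lam mu w y = (∑ j : Fin 3, g j * V j) +
      conj (∑ j : Fin 3, g j * V j) + (1 / (2 * π) : ℂ) * ∫ t : ℝ,
        Rem3 Q lam mu w g (-(1 / 8) + t * I) * (y : ℂ) ^ (-(1 / 8) + t * I + 2 : ℂ) := by
  set G : ℝ → ℂ := fun t => ∑ j : Fin 3, g j * (Mf3 (kap3 Q lam) j (-(1 / 8) + t * I) *
      (y : ℂ) ^ (-(1 / 8) + t * I + 2 : ℂ)) with hG
  have iG : Integrable G := integrable_finsetSum _ fun j _ => (hi j).const_mul (g j)
  have vG : (1 / (2 * π) : ℂ) * ∫ t : ℝ, G t = ∑ j : Fin 3, g j * V j := by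
    simp only [hG]
    rw [integral_finsetSum _ fun j _ => (hi j).const_mul (g j), Finset.mul_sum]
    refine Finset.sum_congr rfl fun j _ => ?_
    rw [integral_const_mul, mul_left_comm, hV j]
  obtain ⟨iH, vH⟩ := VX7_conjI iG
  have hpt : ∀ t : ℝ, Xf Q lam mu w (-(1 / 8) + t * I) * (y : ℂ) ^ (-(1 / 8) + t * I + 2 : ℂ) /
      ((-(1 / 8) + t * I) * (-(1 / 8) + t * I + 1) * (-(1 / 8) + t * I + 2)) =
      G t + conj (G (-t)) + Rem3 Q lam mu w g (-(1 / 8) + t * I) *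
        (y : ℂ) ^ (-(1 / 8) + t * I + 2 : ℂ) := by
    intro t
    have hcs : conj (-(1 / 8) + t * I : ℂ) = -(1 / 8) + ((-t : ℝ) : ℂ) * I := by
      simp only [map_add, map_neg, map_div₀, map_ofNat, map_mul, conj_ofReal, conj_I, map_one]
      push_cast
      ring
    have hcy : conj ((y : ℂ) ^ (-(1 / 8) + ((-t : ℝ) : ℂ) * I + 2 : ℂ)) =
        (y : ℂ) ^ (-(1 / 8) + t * I + 2 : ℂ) := by
      have h1 := conj_cpow (y : ℂ) (-(1 / 8) + t * I + 2 : ℂ)
        (by rw [arg_ofReal_of_nonneg hy.le]; exact Real.pi_ne_zero.symm)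
      have h2 : conj (2 : ℂ) = 2 := map_ofNat _ 2
      rw [conj_ofReal, map_add, hcs, h2] at h1
      exact h1.symm
    have hG1 : ∀ u : ℝ, G u = (∑ j : Fin 3, g j * Mf3 (kap3 Q lam) j (-(1 / 8) + (u : ℂ) * I)) *
        (y : ℂ) ^ (-(1 / 8) + (u : ℂ) * I + 2 : ℂ) := by
      intro u
      simp only [hG]
      rw [Finset.sum_mul]
      refine Finset.sum_congr rfl fun j _ => ?_
      ring
    have hGc : conj (G (-t)) =
        conj (∑ j : Fin 3, g j * Mf3 (kap3 Q lam) j (-(1 / 8) + ((-t : ℝ) : ℂ) * I)) *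
        (y : ℂ) ^ (-(1 / 8) + t * I + 2 : ℂ) := by
      rw [← hcy, ← map_mul, hG1]
    rw [hGc, hG1 t, Rem3, hcs]
    ring
  have iGH : Integrable (fun t : ℝ => G t + conj (G (-t))) := iG.add iH
  rw [Theta3]
  simp_rw [hpt]
  rw [integral_add iGH hR, integral_add iG iH, vH, mul_add, mul_add, vG]
  congr 2
  rw [← vG, map_mul]
  congr 1
  rw [map_div₀, map_mul, map_one, conj_ofReal, map_ofNat]

/-- **VX7.** The formula for `Θ` (GX9, VX3, VX6); the non oscillating terms of VX3 and VX6 are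
multiples of `y^{5/3}`, `y^{4/3}`, `y`. For the conjugate part use
`∫ conj(M(conj s)) y^{s+2} = conj(∫ M(s) y^{s+2})` on the line. -/
theorem Theta3_formula (h : RealSelberg b L 3) (hf : Fun3 L Q lam mu w) :
    ∃ (c : Fin 3 → ℂ) (B0 B1 : ℂ), c 0 ≠ 0 ∧ ∀ δ : ℝ, 0 < δ → ∃ C : ℝ, 0 < C ∧ ∀ y : ℝ, 1 ≤ y →
      ‖Theta3 Q lam mu w y - ((qm (kap3 Q lam) c 1 y : ℝ) : ℂ) -
        (B0 * ((y ^ (5 / 3 : ℝ) : ℝ) : ℂ) + B1 * ((y ^ (4 / 3 : ℝ) : ℝ) : ℂ))‖ ≤
        C * y ^ (1 + δ) := by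
  have hκ := kap3_pos hf
  obtain ⟨g, hg0, ⟨CR, hCR, hRb⟩, W, hW, hRW⟩ := Rem3_bound h hf
  obtain ⟨C, hC0, hM⟩ := Mf3_transform hκ
  obtain ⟨r1, r2, hr⟩ := Rem3_transform hCR hRb hW hRW
  set κ := kap3 Q lam with hκd
  set om : ℝ := 6 * π * κ ^ (1 / 3 : ℝ) with hom
  set a0 : ℂ := g 0 * C 0 with ha0
  set a1 : ℂ := g 1 * C 1 with ha1
  set a2 : ℂ := g 2 * C 2 with ha2
  set B0 : ℂ := -a0 - I * om * a1 + a2 * om ^ 2 / 2 with hB0
  set B1 : ℂ := -a1 - I * om * a2 with hB1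
  refine ⟨![2 * a0, 2 * a1, 2 * a2], B0 + conj B0 + r1, B1 + conj B1 + r2, ?_, fun δ hδ => ?_⟩
  · simp only [Matrix.cons_val_zero]
    exact mul_ne_zero two_ne_zero (mul_ne_zero hg0 hC0)
  obtain ⟨C', hC', hb⟩ := hr δ hδ
  refine ⟨C' + 2 * ‖a2‖, by positivity, fun y hy => ?_⟩
  have hy0 : 0 < y := by linarith
  obtain ⟨hi, v0, v1, v2⟩ := hM y hy0
  set E : ℂ := e (3 * (κ * y) ^ (1 / 3 : ℝ)) with hE
  set u : ℝ := y ^ (1 / 3 : ℝ) with hu
  have hu0 : 0 < u := Real.rpow_pos_of_pos hy0 _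
  have hZ : 6 * π * (κ * y) ^ (1 / 3 : ℝ) = om * u := by
    rw [hom, hu, Real.mul_rpow hκ.le hy0.le]
    ring
  have hy1 : y = u ^ 3 := by
    rw [hu, ← Real.rpow_natCast, ← Real.rpow_mul hy0.le]
    norm_num
  have hy53 : y ^ (5 / 3 : ℝ) = u ^ 5 := by
    rw [hu, ← Real.rpow_natCast, ← Real.rpow_mul hy0.le]
    norm_num
  have hy43 : y ^ (4 / 3 : ℝ) = u ^ 4 := by
    rw [hu, ← Real.rpow_natCast, ← Real.rpow_mul hy0.le]
    norm_num
  set V : Fin 3 → ℂ := ![C 0 * ((u ^ 5 : ℝ) : ℂ) * (E - 1),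
    C 1 * ((u ^ 4 : ℝ) : ℂ) * (E - 1 - I * ((om * u : ℝ) : ℂ)),
    C 2 * (y : ℂ) * (E - 1 - I * ((om * u : ℝ) : ℂ) + ((om * u : ℝ) : ℂ) ^ 2 / 2)] with hV
  have hZ2 : ((6 * π * (κ * y) ^ (1 / 3 : ℝ) : ℝ) : ℂ) = ((om * u : ℝ) : ℂ) := by rw [hZ]
  have hdec := VX7_dec (mu := mu) (w := w) (g := g) (V := V) hy0 hi (by
    intro j
    fin_cases j
    · refine Eq.trans ?_ (v0.trans ?_)
      · rfl
      · rw [hy53]; rfl
    · refine Eq.trans ?_ (v1.trans ?_)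
      · rfl
      · rw [hy43, hZ2]; rfl
    · refine Eq.trans ?_ (v2.trans ?_)
      · rfl
      · rw [hZ2]; rfl) (VX6_A hCR hRb hW hRW hy).1
  have hsum : ∑ j : Fin 3, g j * V j = (((u ^ 5 : ℝ) : ℂ) * (a0 * E) + ((u ^ 4 : ℝ) : ℂ) * (a1 * E) +
      ((u ^ 3 : ℝ) : ℂ) * (a2 * E)) + (B0 * ((u ^ 5 : ℝ) : ℂ) + B1 * ((u ^ 4 : ℝ) : ℂ)) -
        a2 * ((u ^ 3 : ℝ) : ℂ) := by
    rw [Fin.sum_univ_three]
    simp only [hV, Matrix.cons_val_zero, Matrix.cons_val_one, Matrix.cons_val]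
    rw [hy1, hB0, hB1, ha0, ha1, ha2]
    push_cast
    ring
  have hqm : ((qm κ ![2 * a0, 2 * a1, 2 * a2] 1 y : ℝ) : ℂ) =
      (((u ^ 5 : ℝ) : ℂ) * (a0 * E) + ((u ^ 4 : ℝ) : ℂ) * (a1 * E) +
      ((u ^ 3 : ℝ) : ℂ) * (a2 * E)) + conj (((u ^ 5 : ℝ) : ℂ) * (a0 * E) +
        ((u ^ 4 : ℝ) : ℂ) * (a1 * E) + ((u ^ 3 : ℝ) : ℂ) * (a2 * E)) := by
    have e0 : ((5 - ((0 : ℕ) : ℝ)) / 3 : ℝ) = 5 / 3 := by norm_num
    have e1 : ((5 - ((1 : ℕ) : ℝ)) / 3 : ℝ) = 4 / 3 := by norm_num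
    have e2 : ((5 - ((2 : ℕ) : ℝ)) / 3 : ℝ) = 1 := by norm_num
    have hEE : e (3 * (κ * ((1 : ℕ) : ℝ) * y) ^ (1 / 3 : ℝ)) = E := by
      rw [hE, Nat.cast_one, mul_one]
    rw [add_conj, qm, Fin.sum_univ_three]
    simp only [Fin.val_zero, Fin.val_one, Fin.val_two, Matrix.cons_val_zero, Matrix.cons_val_one,
      Matrix.cons_val, Nat.cast_one, Real.one_rpow, one_mul]
    have hEE' : e (3 * (κ * 1 * y) ^ (1 / 3 : ℝ)) = E := by
      rw [hE, mul_one]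
    rw [e0, hEE']
    have e1' : ((5 - 1) / 3 : ℝ) = 4 / 3 := by norm_num
    have e2' : ((5 - ((2 : ℕ) : ℝ)) / 3 : ℝ) = 1 := by norm_num
    rw [e1', e2', hy53, hy43, Real.rpow_one]
    rw [add_re, add_re, re_ofReal_mul, re_ofReal_mul, re_ofReal_mul]
    have f : ∀ a : ℂ, (2 * a * E).re = 2 * (a * E).re := by
      intro a
      rw [mul_assoc]
      have : (2 : ℂ) = ((2 : ℝ) : ℂ) := by push_cast; rfl
      rw [this, re_ofReal_mul]
    rw [f, f, f, ← hy1]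
    push_cast
    ring
  have hfin : Theta3 Q lam mu w y - ((qm κ ![2 * a0, 2 * a1, 2 * a2] 1 y : ℝ) : ℂ) -
      ((B0 + conj B0 + r1) * ((y ^ (5 / 3 : ℝ) : ℝ) : ℂ) +
        (B1 + conj B1 + r2) * ((y ^ (4 / 3 : ℝ) : ℝ) : ℂ)) =
      ((1 / (2 * π) : ℂ) * (∫ t : ℝ, Rem3 Q lam mu w g (-(1 / 8) + t * I) *
        (y : ℂ) ^ (-(1 / 8) + t * I + 2 : ℂ)) - (r1 * ((y ^ (5 / 3 : ℝ) : ℝ) : ℂ) +
          r2 * ((y ^ (4 / 3 : ℝ) : ℝ) : ℂ))) - (a2 + conj a2) * ((u ^ 3 : ℝ) : ℂ) := by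
    rw [hdec, hqm, hsum, hy53, hy43]
    simp only [map_add, map_sub, map_mul, conj_ofReal]
    ring
  rw [hfin]
  have hyδ : y ≤ y ^ (1 + δ) := by
    calc y = y ^ (1 : ℝ) := (Real.rpow_one y).symm
      _ ≤ _ := Real.rpow_le_rpow_of_exponent_le hy (by linarith)
  have e5 : ‖(a2 + conj a2) * ((u ^ 3 : ℝ) : ℂ)‖ ≤ 2 * ‖a2‖ * y ^ (1 + δ) := by
    rw [norm_mul, norm_real, ← hy1, Real.norm_of_nonneg hy0.le]
    have : ‖a2 + conj a2‖ ≤ 2 * ‖a2‖ := by
      refine (norm_add_le _ _).trans_eq ?_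
      rw [RCLike.norm_conj]; ring
    exact mul_le_mul this hyδ hy0.le (by positivity)
  calc _ ≤ C' * y ^ (1 + δ) + 2 * ‖a2‖ * y ^ (1 + δ) :=
        (norm_sub_le _ _).trans (add_le_add (hb y hy) e5)
    _ = _ := by ring
--END VX7

--BEGIN VX8
private theorem VX8_diff (h : RealSelberg b L 3) {s : ℂ} (hs : s ≠ 1) : DifferentiableAt ℂ L s := by
  obtain ⟨m, G, A, hG, hGL, -⟩ := h.continuation
  have h1 : DifferentiableAt ℂ (fun z => G z / (z - 1) ^ m) s := by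
    refine (hG s).div (by fun_prop) (pow_ne_zero _ (sub_ne_zero.2 hs))
  refine h1.congr_of_eventuallyEq ?_
  filter_upwards [isOpen_ne.mem_nhds hs] with z hz
  have hz' : (z - 1) ^ m ≠ 0 := pow_ne_zero _ (sub_ne_zero.2 hz)
  rw [hGL z hz]; field_simp

private theorem VX8_sphere {r : ℝ} (_hr : 0 < r) (hr' : r ≤ 1 / 2) {s : ℂ}
    (hs : s ∈ Metric.sphere (1 : ℂ) r) :
    1 - r ≤ s.re ∧ s.re ≤ 1 + r ∧ 1 / 2 ≤ s.re ∧ 1 / 2 ≤ ‖s‖ ∧ ‖s‖ ≤ 3 / 2 := by
  have h1 : ‖s - 1‖ = r := by simpa [dist_eq_norm] using hs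
  have h2 : |(s - 1).re| ≤ r := h1 ▸ Complex.abs_re_le_norm (s - 1)
  simp only [Complex.sub_re, Complex.one_re] at h2
  rw [abs_le] at h2
  have h3 : s.re ≤ ‖s‖ := Complex.re_le_norm s
  have h4 : ‖s‖ ≤ ‖s - 1‖ + ‖(1 : ℂ)‖ := by
    have := norm_add_le (s - 1) 1
    simpa using this
  rw [h1, norm_one] at h4
  refine ⟨by linarith, by linarith, by linarith, by linarith, by linarith⟩

/-- bound on the circle -/
private theorem VX8_bound {k : ℂ → ℂ} {r : ℝ} (hr : 0 < r) (hr' : r ≤ 1 / 2)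
    (hk : ContinuousOn k (Metric.sphere (1 : ℂ) r)) (c : ℝ) : ∃ K : ℝ, 0 < K ∧ ∀ t : ℝ, 0 < t →
    ‖(2 * π * I : ℂ)⁻¹ * ∮ s in C(1, r), k s * (t : ℂ) ^ (s + c)‖ ≤
      K * (t ^ (1 - r + c) + t ^ (1 + r + c)) := by
  obtain ⟨B, hB⟩ := (isCompact_sphere (1 : ℂ) r).exists_bound_of_continuousOn hk
  refine ⟨max B 1, by positivity, fun t ht => ?_⟩
  have hp1 : 0 < t ^ (1 - r + c) := Real.rpow_pos_of_pos ht _
  have hp2 : 0 < t ^ (1 + r + c) := Real.rpow_pos_of_pos ht _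
  have h1 : ∀ s ∈ Metric.sphere (1 : ℂ) r, ‖k s * (t : ℂ) ^ (s + c)‖ ≤
      max B 1 * (t ^ (1 - r + c) + t ^ (1 + r + c)) := by
    intro s hs
    obtain ⟨e1, e2, -, -, -⟩ := VX8_sphere hr hr' hs
    rw [norm_mul, Complex.norm_cpow_eq_rpow_re_of_pos ht]
    have h2 : t ^ (s + c).re ≤ t ^ (1 - r + c) + t ^ (1 + r + c) := by
      have e3 : (s + c).re = s.re + c := by simp
      rw [e3]
      rcases le_total 1 t with h | h
      · have := Real.rpow_le_rpow_of_exponent_le h (by linarith : s.re + c ≤ 1 + r + c)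
        linarith
      · have := Real.rpow_le_rpow_of_exponent_ge ht h (by linarith : 1 - r + c ≤ s.re + c)
        linarith
    exact mul_le_mul ((hB s hs).trans (le_max_left _ _)) h2 (Real.rpow_nonneg ht.le _)
      (by positivity)
  have h2 := circleIntegral.norm_two_pi_i_inv_smul_integral_le_of_norm_le_const hr.le h1
  rw [smul_eq_mul] at h2
  refine h2.trans ?_
  have : 0 ≤ max B 1 * (t ^ (1 - r + c) + t ^ (1 + r + c)) := by positivity
  nlinarith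

private theorem VX8_cont {k : ℂ → ℂ} {r : ℝ} (hr : 0 < r)
    (hk : ContinuousOn k (Metric.sphere (1 : ℂ) r)) (c : ℂ) :
    ContinuousOn (fun p : ℝ × ℝ => deriv (circleMap 1 r) p.2 •
      (k (circleMap 1 r p.2) * (p.1 : ℂ) ^ (circleMap 1 r p.2 + c))) (Ioi 0 ×ˢ univ) := by
  have h0 : ContinuousOn (fun p : ℝ × ℝ => k (circleMap 1 r p.2)) (Ioi 0 ×ˢ univ) := by
    refine hk.comp (Continuous.continuousOn ?_) ?_
    · exact (continuous_circleMap 1 r).comp continuous_snd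
    · intro p _
      exact circleMap_mem_sphere 1 hr.le p.2
  have h1 : ContinuousOn (fun p : ℝ × ℝ => (p.1 : ℂ) ^ (circleMap 1 r p.2 + c))
      (Ioi 0 ×ˢ univ) := by
    refine ContinuousOn.cpow ?_ ?_ ?_
    · exact (Complex.continuous_ofReal.comp continuous_fst).continuousOn
    · exact (((continuous_circleMap 1 r).comp continuous_snd).add continuous_const).continuousOn
    · rintro ⟨x, y⟩ hp
      have : 0 < x := hp.1
      exact Or.inl (by simpa using this)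
  have h2 : ContinuousOn (fun p : ℝ × ℝ => deriv (circleMap 1 r) p.2) (Ioi 0 ×ˢ univ) := by
    simp only [deriv_circleMap]
    exact (((continuous_circleMap 0 r).comp continuous_snd).mul continuous_const).continuousOn
  exact h2.smul (h0.mul h1)

/-- derivative under the integral sign -/
private theorem VX8_deriv {k : ℂ → ℂ} {r : ℝ} (hr : 0 < r)
    (hk : ContinuousOn k (Metric.sphere (1 : ℂ) r)) (c : ℂ) {x : ℝ} (hx : 0 < x) :
    HasDerivAt (fun z : ℝ => ∮ s in C(1, r), k s * (z : ℂ) ^ (s + c))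
      (∮ s in C(1, r), k s * (s + c) * (x : ℂ) ^ (s + (c - 1))) x := by
  have hk' : ContinuousOn (fun s => k s * (s + c)) (Metric.sphere (1 : ℂ) r) :=
    hk.mul (by fun_prop)
  have c1 := VX8_cont hr hk c
  have c2 := VX8_cont hr hk' (c - 1)
  have hsub : Icc (x / 2) (2 * x) ×ˢ Icc 0 (2 * π) ⊆ (Ioi 0 ×ˢ univ : Set (ℝ × ℝ)) := by
    rintro ⟨p, q⟩ hp
    exact ⟨lt_of_lt_of_le (by positivity : 0 < x / 2) hp.1.1, mem_univ _⟩
  obtain ⟨B, hB⟩ := (isCompact_Icc.prod isCompact_Icc).exists_bound_of_continuousOn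
    (c2.mono hsub)
  have key := intervalIntegral.hasDerivAt_integral_of_dominated_loc_of_deriv_le
    (μ := volume) (a := 0) (b := 2 * π) (x₀ := x) (s := Ioo (x / 2) (2 * x))
    (F := fun (z : ℝ) (θ : ℝ) => deriv (circleMap 1 r) θ •
      (k (circleMap 1 r θ) * (z : ℂ) ^ (circleMap 1 r θ + c)))
    (F' := fun (z : ℝ) (θ : ℝ) => deriv (circleMap 1 r) θ •
      (k (circleMap 1 r θ) * (circleMap 1 r θ + c) * (z : ℂ) ^ (circleMap 1 r θ + (c - 1))))
    (bound := fun _ => B)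
    (Ioo_mem_nhds (by linarith) (by linarith)) ?_ ?_ ?_ ?_ ?_ ?_
  · exact key.2
  · filter_upwards [lt_mem_nhds hx] with z hz
    have : Continuous (fun θ : ℝ => deriv (circleMap 1 r) θ •
      (k (circleMap 1 r θ) * (z : ℂ) ^ (circleMap 1 r θ + c))) := by
      have := c1.comp_continuous (f := fun θ : ℝ => (z, θ)) (by fun_prop)
        (fun θ => ⟨hz, mem_univ _⟩)
      exact this
    exact this.aestronglyMeasurable
  · have : Continuous (fun θ : ℝ => deriv (circleMap 1 r) θ •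
      (k (circleMap 1 r θ) * (x : ℂ) ^ (circleMap 1 r θ + c))) := by
      have := c1.comp_continuous (f := fun θ : ℝ => (x, θ)) (by fun_prop)
        (fun θ => ⟨hx, mem_univ _⟩)
      exact this
    exact this.intervalIntegrable _ _
  · have : Continuous (fun θ : ℝ => deriv (circleMap 1 r) θ •
      (k (circleMap 1 r θ) * (circleMap 1 r θ + c) *
        (x : ℂ) ^ (circleMap 1 r θ + (c - 1)))) := by
      have := c2.comp_continuous (f := fun θ : ℝ => (x, θ)) (by fun_prop)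
        (fun θ => ⟨hx, mem_univ _⟩)
      exact this
    exact this.aestronglyMeasurable
  · refine Filter.Eventually.of_forall fun θ hθ z hz => ?_
    have hθ' : θ ∈ Icc 0 (2 * π) := by
      rw [uIoc_of_le (by positivity)] at hθ
      exact ⟨hθ.1.le, hθ.2⟩
    exact hB (z, θ) ⟨⟨hz.1.le, hz.2.le⟩, hθ'⟩
  · exact intervalIntegrable_const
  · refine Filter.Eventually.of_forall fun θ hθ z hz => ?_
    have hz0 : 0 < z := lt_trans (by positivity : 0 < x / 2) hz.1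
    have h1 : HasDerivAt (fun y : ℂ => y ^ (circleMap 1 r θ + c))
        ((circleMap 1 r θ + c) * (z : ℂ) ^ (circleMap 1 r θ + c - 1) * 1) (z : ℂ) :=
      (hasDerivAt_id (z : ℂ)).cpow_const (Or.inl (by simpa using hz0))
    have h2 := (h1.comp_ofReal).const_mul (k (circleMap 1 r θ))
    have h3 := h2.const_smul (deriv (circleMap 1 r) θ)
    refine h3.congr_deriv ?_
    rw [mul_one, add_sub_assoc, mul_assoc]

private theorem VX8_q (u : ℝ) : HasDerivAt (fun v : ℝ => (max v 0) ^ 2) (2 * max u 0) u := by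
  rcases lt_trichotomy u 0 with h | h | h
  · have h1 : HasDerivAt (fun _ : ℝ => (0 : ℝ)) 0 u := hasDerivAt_const _ _
    rw [max_eq_right h.le, mul_zero]
    refine h1.congr_of_eventuallyEq ?_
    filter_upwards [gt_mem_nhds h] with v hv
    rw [max_eq_right (le_of_lt hv)]; norm_num
  · subst h
    rw [max_self, mul_zero, hasDerivAt_iff_isLittleO]
    have h1 : (fun v : ℝ => v ^ 2) =o[𝓝 0] (fun v : ℝ => v) :=
      Asymptotics.isLittleO_pow_id (by norm_num)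
    simp only [max_self, sub_zero, smul_zero, ne_eq, OfNat.ofNat_ne_zero, not_false_eq_true,
      zero_pow]
    refine (Asymptotics.IsBigO.of_norm_le fun v => ?_).trans_isLittleO h1
    rw [Real.norm_eq_abs, abs_of_nonneg (sq_nonneg _)]
    rcases le_total v 0 with h | h
    · rw [max_eq_right h]; nlinarith [sq_nonneg v]
    · rw [max_eq_left h]
  · have h1 : HasDerivAt (fun v : ℝ => v ^ 2) (2 * u) u := by
      have := hasDerivAt_pow 2 u
      simpa using this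
    rw [max_eq_left h.le]
    refine h1.congr_of_eventuallyEq ?_
    filter_upwards [lt_mem_nhds h] with v hv
    rw [max_eq_left (le_of_lt hv)]

private theorem VX8_sum_shift (a : ℕ → ℝ) {z : ℝ} (g : ℝ → ℝ) (hg : ∀ u, u ≤ 0 → g u = 0)
    {N : ℕ} (hz : z ≤ N) :
    ∑ n ∈ Finset.Icc 1 ⌊z⌋₊, a n * g (z - n) = ∑ n ∈ Finset.Icc 1 N, a n * g (z - n) := by
  refine Finset.sum_subset ?_ ?_
  · refine Finset.Icc_subset_Icc_right ?_
    exact Nat.floor_le_of_le hz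
  · intro n hn hn'
    rw [Finset.mem_Icc] at hn hn'
    have h1 : ⌊z⌋₊ < n := by
      by_contra h; exact hn' ⟨hn.1, not_lt.1 h⟩
    have h2 : z < n := (Nat.floor_lt' (by omega)).1 h1
    rw [hg _ (by linarith), mul_zero]

private theorem VX8_A (a : ℕ → ℝ) (x : ℝ) :
    HasDerivAt (fun z : ℝ => 1 / 2 * ∑ n ∈ Finset.Icc 1 ⌊z⌋₊, a n * (z - n) ^ 2)
      (∑ n ∈ Finset.Icc 1 ⌊x⌋₊, a n * (x - n)) x := by
  obtain ⟨N, hN⟩ := exists_nat_gt x
  have e0 : ∀ z : ℝ, z ≤ N → 1 / 2 * ∑ n ∈ Finset.Icc 1 ⌊z⌋₊, a n * (z - n) ^ 2 =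
      1 / 2 * ∑ n ∈ Finset.Icc 1 N, a n * (max (z - n) 0) ^ 2 := by
    intro z hz
    rw [← VX8_sum_shift a (fun u => (max u 0) ^ 2) (fun u hu => by simp [max_eq_right hu]) hz]
    congr 1
    refine Finset.sum_congr rfl fun n hn => ?_
    rw [Finset.mem_Icc] at hn
    have h1 : (n : ℝ) ≤ z := (Nat.le_floor_iff' (by omega)).1 hn.2
    rw [max_eq_left (by linarith)]
  have e1 : ∑ n ∈ Finset.Icc 1 ⌊x⌋₊, a n * (x - n) =
      1 / 2 * ∑ n ∈ Finset.Icc 1 N, a n * (2 * max (x - n) 0 * 1) := by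
    rw [Finset.mul_sum]
    have e2 : ∀ n : ℕ, 1 / 2 * (a n * (2 * max (x - n) 0 * 1)) = a n * max (x - n) 0 := by
      intro n; ring
    simp only [e2]
    rw [← VX8_sum_shift a (fun u => max u 0) (fun u hu => by simp [max_eq_right hu]) hN.le]
    refine Finset.sum_congr rfl fun n hn => ?_
    rw [Finset.mem_Icc] at hn
    have h1 : (n : ℝ) ≤ x := (Nat.le_floor_iff' (by omega)).1 hn.2
    rw [max_eq_left (by linarith)]
  rw [e1]
  have e3 : HasDerivAt (fun z : ℝ => 1 / 2 * ∑ n ∈ Finset.Icc 1 N, a n * (max (z - n) 0) ^ 2)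
      (1 / 2 * ∑ n ∈ Finset.Icc 1 N, a n * (2 * max (x - n) 0 * 1)) x := by
    refine HasDerivAt.const_mul _ (HasDerivAt.fun_sum fun n _ => HasDerivAt.const_mul _ ?_)
    exact (VX8_q (x - n)).comp x ((hasDerivAt_id x).sub_const (n : ℝ))
  refine e3.congr_of_eventuallyEq ?_
  filter_upwards [gt_mem_nhds hN] with z hz
  exact e0 z (le_of_lt hz)

private theorem VX8_ind {x : ℝ} (_hx : 0 ≤ x) {n : ℕ} (hn : 1 ≤ n) (hnx : (n : ℝ) ≤ x) (c : ℝ) :
    IntervalIntegrable (fun t : ℝ => (Ici (n : ℝ)).indicator (fun _ => c) t) volume 0 x ∧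
    ∫ t in (0 : ℝ)..x, (Ici (n : ℝ)).indicator (fun _ => c) t = c * (x - n) := by
  have hn' : (1 : ℝ) ≤ n := by exact_mod_cast hn
  constructor
  · rw [intervalIntegrable_iff_integrableOn_Ioc_of_le (by linarith)]
    refine IntegrableOn.indicator ?_ measurableSet_Ici
    exact integrableOn_const (by simp)
  · rw [intervalIntegral.integral_of_le (by linarith), setIntegral_indicator measurableSet_Ici]
    have : Ioc 0 x ∩ Ici (n : ℝ) = Icc (n : ℝ) x := by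
      ext t; simp only [mem_inter_iff, mem_Ioc, mem_Ici, mem_Icc]
      constructor
      · rintro ⟨⟨_, h2⟩, h3⟩; exact ⟨h3, h2⟩
      · rintro ⟨h1, h2⟩; exact ⟨⟨by linarith, h2⟩, h1⟩
    rw [this, setIntegral_const, measureReal_def, Real.volume_Icc,
      ENNReal.toReal_ofReal (by linarith), smul_eq_mul, mul_comm]

private theorem VX8_S (a : ℕ → ℝ) {x : ℝ} (hx : 0 ≤ x) :
    IntervalIntegrable (fun t : ℝ => ∑ n ∈ Finset.Icc 1 ⌊t⌋₊, a n) volume 0 x ∧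
    ∫ t in (0 : ℝ)..x, ∑ n ∈ Finset.Icc 1 ⌊t⌋₊, a n = ∑ n ∈ Finset.Icc 1 ⌊x⌋₊, a n * (x - n) := by
  have e0 : EqOn (fun t : ℝ => ∑ n ∈ Finset.Icc 1 ⌊x⌋₊, (Ici (n : ℝ)).indicator (fun _ => a n) t)
      (fun t : ℝ => ∑ n ∈ Finset.Icc 1 ⌊t⌋₊, a n) (uIcc 0 x) := by
    intro t ht
    rw [uIcc_of_le hx] at ht
    simp only
    symm
    rw [← Finset.sum_subset (Finset.Icc_subset_Icc_right (Nat.floor_mono ht.2))]
    · refine Finset.sum_congr rfl fun n hn => ?_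
      rw [Finset.mem_Icc] at hn
      have h1 : (n : ℝ) ≤ t := (Nat.le_floor_iff' (by omega)).1 hn.2
      rw [indicator_of_mem (by exact h1)]
    · intro n hn hn'
      rw [Finset.mem_Icc] at hn hn'
      have h1 : ⌊t⌋₊ < n := by
        by_contra h; exact hn' ⟨hn.1, not_lt.1 h⟩
      have h2 : t < n := (Nat.floor_lt' (by omega)).1 h1
      rw [indicator_of_notMem (by simpa using h2)]
  have e1 : IntervalIntegrable (fun t : ℝ => ∑ n ∈ Finset.Icc 1 ⌊x⌋₊,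
      (Ici (n : ℝ)).indicator (fun _ => a n) t) volume 0 x := by
    rw [intervalIntegrable_iff_integrableOn_Ioc_of_le hx]
    refine integrable_finsetSum _ fun n hn => ?_
    rw [Finset.mem_Icc] at hn
    have := (VX8_ind hx hn.1 ((Nat.le_floor_iff' (by omega)).1 hn.2) (a n)).1
    rwa [intervalIntegrable_iff_integrableOn_Ioc_of_le hx] at this
  refine ⟨IntervalIntegrable.congr (e0.mono uIoc_subset_uIcc) e1, ?_⟩
  rw [← intervalIntegral.integral_congr e0, intervalIntegral.integral_finsetSum]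
  · refine Finset.sum_congr rfl fun n hn => ?_
    rw [Finset.mem_Icc] at hn
    exact (VX8_ind hx hn.1 ((Nat.le_floor_iff' (by omega)).1 hn.2) (a n)).2
  · intro n hn
    rw [Finset.mem_Icc] at hn
    exact (VX8_ind hx hn.1 ((Nat.le_floor_iff' (by omega)).1 hn.2) (a n)).1

private theorem VX8_k (h : RealSelberg b L 3) {r : ℝ} (hr : 0 < r)
    {q : ℂ → ℂ} (hq : ContinuousOn q (Metric.sphere (1 : ℂ) r))
    (hq0 : ∀ s ∈ Metric.sphere (1 : ℂ) r, q s ≠ 0) :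
    ContinuousOn (fun s => L s / q s) (Metric.sphere (1 : ℂ) r) := by
  refine ContinuousOn.div (fun s hs => ?_) hq hq0
  refine (VX8_diff h ?_).continuousAt.continuousWithinAt
  rintro rfl
  rw [Metric.mem_sphere, dist_self] at hs
  linarith

private theorem VX8_re {s : ℂ} (hs : s ∈ Metric.sphere (1 : ℂ) (1 / 2)) :
    s ≠ 0 ∧ s + 1 ≠ 0 ∧ s + 2 ≠ 0 := by
  have h1 := (VX8_sphere (by norm_num) le_rfl hs).2.2.1
  refine ⟨?_, ?_, ?_⟩
  · rintro rfl; norm_num at h1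
  · intro h
    have : (s + 1).re = 0 := by rw [h]; simp
    simp only [add_re, one_re] at this
    linarith
  · intro h
    have : (s + 2).re = 0 := by rw [h]; simp
    simp only [add_re, re_ofNat] at this
    linarith

private theorem VX8_P (h : RealSelberg b L 3) :
    (∀ x : ℝ, 0 < x → HasDerivAt (fun z : ℝ => ((2 * π * I : ℂ)⁻¹ * ∮ s in C(1, 1 / 2),
        L s * (z : ℂ) ^ (s + 2) / (s * (s + 1) * (s + 2))).re)
      ((2 * π * I : ℂ)⁻¹ * ∮ s in C(1, 1 / 2), L s * (x : ℂ) ^ (s + 1) / (s * (s + 1))).re x) ∧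
    (∀ x : ℝ, 0 < x → HasDerivAt (fun z : ℝ => ((2 * π * I : ℂ)⁻¹ * ∮ s in C(1, 1 / 2),
        L s * (z : ℂ) ^ (s + 1) / (s * (s + 1))).re)
      ((2 * π * I : ℂ)⁻¹ * ∮ s in C(1, 1 / 2), L s * (x : ℂ) ^ s / s).re x) ∧
    (∃ K : ℝ, 0 < K ∧ ∀ x : ℝ, 0 < x →
      |((2 * π * I : ℂ)⁻¹ * ∮ s in C(1, 1 / 2), L s * (x : ℂ) ^ (s + 1) / (s * (s + 1))).re| ≤
        K * (x ^ (3 / 2 : ℝ) + x ^ (5 / 2 : ℝ))) ∧
    (∃ K : ℝ, 0 < K ∧ ∀ x : ℝ, 0 < x →
      |((2 * π * I : ℂ)⁻¹ * ∮ s in C(1, 1 / 2), L s * (x : ℂ) ^ s / s).re| ≤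
        K * (x ^ (1 / 2 : ℝ) + x ^ (3 / 2 : ℝ))) ∧
    ContinuousOn (fun x : ℝ => ((2 * π * I : ℂ)⁻¹ * ∮ s in C(1, 1 / 2),
      L s * (x : ℂ) ^ s / s).re) (Ioi 0) := by
  have hr : (0 : ℝ) < 1 / 2 := by norm_num
  have k2 := VX8_k h (q := fun s => s * (s + 1) * (s + 2)) hr (by fun_prop)
    (fun s hs => by
      obtain ⟨h1, h2, h3⟩ := VX8_re hs
      exact mul_ne_zero (mul_ne_zero h1 h2) h3)
  have k1 := VX8_k h (q := fun s => s * (s + 1)) hr (by fun_prop)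
    (fun s hs => by
      obtain ⟨h1, h2, h3⟩ := VX8_re hs
      exact mul_ne_zero h1 h2)
  have k0 := VX8_k h (q := fun s => s) hr (by fun_prop)
    (fun s hs => (VX8_re hs).1)
  have f2 : ∀ z : ℝ, (∮ s in C(1, 1 / 2), L s * (z : ℂ) ^ (s + 2) / (s * (s + 1) * (s + 2))) =
      ∮ s in C(1, 1 / 2), L s / (s * (s + 1) * (s + 2)) * (z : ℂ) ^ (s + 2) := by
    intro z
    exact circleIntegral.integral_congr hr.le (fun s _ => by ring)
  have f1 : ∀ z : ℝ, (∮ s in C(1, 1 / 2), L s * (z : ℂ) ^ (s + 1) / (s * (s + 1))) =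
      ∮ s in C(1, 1 / 2), L s / (s * (s + 1)) * (z : ℂ) ^ (s + 1) := by
    intro z
    exact circleIntegral.integral_congr hr.le (fun s _ => by ring)
  have f0 : ∀ z : ℝ, (∮ s in C(1, 1 / 2), L s * (z : ℂ) ^ s / s) =
      ∮ s in C(1, 1 / 2), L s / s * (z : ℂ) ^ (s + 0) := by
    intro z
    exact circleIntegral.integral_congr hr.le (fun s _ => by simp only [add_zero]; ring)
  have g1 : ∀ z : ℝ, (∮ s in C(1, 1 / 2), L s / (s * (s + 1) * (s + 2)) * (s + 2) *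
      (z : ℂ) ^ (s + (2 - 1))) = ∮ s in C(1, 1 / 2), L s / (s * (s + 1)) * (z : ℂ) ^ (s + 1) := by
    intro z
    refine circleIntegral.integral_congr hr.le (fun s hs => ?_)
    obtain ⟨h1, h2, h3⟩ := VX8_re hs
    have : (2 - 1 : ℂ) = 1 := by norm_num
    simp only [this]
    field_simp
  have g0 : ∀ z : ℝ, (∮ s in C(1, 1 / 2), L s / (s * (s + 1)) * (s + 1) *
      (z : ℂ) ^ (s + (1 - 1))) = ∮ s in C(1, 1 / 2), L s / s * (z : ℂ) ^ (s + 0) := by
    intro z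
    refine circleIntegral.integral_congr hr.le (fun s hs => ?_)
    obtain ⟨h1, h2, h3⟩ := VX8_re hs
    have : (1 - 1 : ℂ) = 0 := by norm_num
    simp only [this]
    field_simp
  simp only [f2, f1, f0]
  have d1 : ∀ x : ℝ, 0 < x → HasDerivAt (fun z : ℝ => ((2 * π * I : ℂ)⁻¹ *
      ∮ s in C(1, 1 / 2), L s / (s * (s + 1)) * (z : ℂ) ^ (s + 1)).re)
      ((2 * π * I : ℂ)⁻¹ * ∮ s in C(1, 1 / 2), L s / s * (x : ℂ) ^ (s + 0)).re x := by
    intro x hx
    have := (VX8_deriv hr k1 1 hx).const_mul (2 * π * I : ℂ)⁻¹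
    rw [g0] at this
    exact Complex.reCLM.hasFDerivAt.comp_hasDerivAt x this
  have b1 := VX8_bound hr le_rfl k1 1
  have b0 := VX8_bound hr le_rfl k0 0
  simp only [ofReal_one] at b1
  simp only [ofReal_zero] at b0
  refine ⟨fun x hx => ?_, d1, ?_, ?_, ?_⟩
  · have := (VX8_deriv hr k2 2 hx).const_mul (2 * π * I : ℂ)⁻¹
    rw [g1] at this
    exact Complex.reCLM.hasFDerivAt.comp_hasDerivAt x this
  · obtain ⟨K, hK, hb⟩ := b1
    refine ⟨K, hK, fun x hx => (Complex.abs_re_le_norm _).trans ?_⟩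
    have := hb x hx
    norm_num at this ⊢
    exact this
  · obtain ⟨K, hK, hb⟩ := b0
    refine ⟨K, hK, fun x hx => (Complex.abs_re_le_norm _).trans ?_⟩
    have := hb x hx
    norm_num at this ⊢
    exact this
  · intro x hx
    have := ((VX8_deriv hr k0 0 hx).const_mul (2 * π * I : ℂ)⁻¹).continuousAt
    exact (Complex.continuous_re.continuousAt.comp this).continuousWithinAt


private theorem VX8_intE (h : RealSelberg b L 3) : (∀ x : ℝ, 0 ≤ x →
      IntervalIntegrable (errTerm b L) volume 0 x) ∧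
    ∀ x : ℝ, 0 < x → HasDerivAt (fun z : ℝ => 1 / 2 * ∑ n ∈ Finset.Icc 1 ⌊z⌋₊, b n * (z - n) ^ 2 -
      ((2 * π * I)⁻¹ * ∮ s in C(1, 1 / 2), L s * (z : ℂ) ^ (s + 2) /
        (s * (s + 1) * (s + 2))).re) (∫ t in (0 : ℝ)..x, errTerm b L t) x := by
  obtain ⟨d2, d1, ⟨K1, hK1, b1⟩, ⟨K0, hK0, b0⟩, hc⟩ := VX8_P h
  have iP : ∀ x : ℝ, 0 ≤ x → IntervalIntegrable (fun t : ℝ =>
      ((2 * π * I : ℂ)⁻¹ * ∮ s in C(1, 1 / 2), L s * (t : ℂ) ^ s / s).re) volume 0 x := by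
    intro x hx
    rw [intervalIntegrable_iff_integrableOn_Ioc_of_le hx]
    refine IntegrableOn.of_bound (by simp)
      ((hc.mono Ioc_subset_Ioi_self).aestronglyMeasurable measurableSet_Ioc)
      (K0 * (x ^ (1 / 2 : ℝ) + x ^ (3 / 2 : ℝ))) ?_
    rw [ae_restrict_iff' measurableSet_Ioc]
    refine Filter.Eventually.of_forall fun t ht => ?_
    rw [Real.norm_eq_abs]
    refine (b0 t ht.1).trans ?_
    have e1 := Real.rpow_le_rpow ht.1.le ht.2 (by norm_num : (0 : ℝ) ≤ 1 / 2)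
    have e2 := Real.rpow_le_rpow ht.1.le ht.2 (by norm_num : (0 : ℝ) ≤ 3 / 2)
    exact mul_le_mul_of_nonneg_left (add_le_add e1 e2) hK0.le
  have iE : ∀ x : ℝ, 0 ≤ x → IntervalIntegrable (errTerm b L) volume 0 x := by
    intro x hx
    exact (VX8_S b hx).1.sub (iP x hx)
  refine ⟨iE, fun x hx => ?_⟩
  have i1 : ∫ t in (0 : ℝ)..x, ((2 * π * I : ℂ)⁻¹ * ∮ s in C(1, 1 / 2),
      L s * (t : ℂ) ^ s / s).re =
      ((2 * π * I : ℂ)⁻¹ * ∮ s in C(1, 1 / 2), L s * (x : ℂ) ^ (s + 1) / (s * (s + 1))).re - 0 := by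
    refine intervalIntegral.integral_eq_sub_of_hasDerivAt_of_tendsto
      (f := fun z : ℝ => ((2 * π * I : ℂ)⁻¹ * ∮ s in C(1, 1 / 2),
        L s * (z : ℂ) ^ (s + 1) / (s * (s + 1))).re) hx (fun t ht => d1 t ht.1) (iP x hx.le) ?_ ?_
    · have t1 : Tendsto (fun z : ℝ => K1 * (z ^ (3 / 2 : ℝ) + z ^ (5 / 2 : ℝ))) (𝓝[>] 0) (𝓝 0) := by
        have e1 : Tendsto (fun z : ℝ => K1 * (z ^ (3 / 2 : ℝ) + z ^ (5 / 2 : ℝ))) (𝓝 0)
            (𝓝 (K1 * ((0 : ℝ) ^ (3 / 2 : ℝ) + (0 : ℝ) ^ (5 / 2 : ℝ)))) := by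
          refine Tendsto.const_mul _ (Tendsto.add ?_ ?_)
          · exact (Real.continuousAt_rpow_const _ _ (Or.inr (by norm_num))).tendsto
          · exact (Real.continuousAt_rpow_const _ _ (Or.inr (by norm_num))).tendsto
        rw [Real.zero_rpow (by norm_num), Real.zero_rpow (by norm_num), add_zero, mul_zero] at e1
        exact e1.mono_left nhdsWithin_le_nhds
      refine squeeze_zero_norm' ?_ t1
      filter_upwards [self_mem_nhdsWithin] with z hz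
      rw [Real.norm_eq_abs]
      exact b1 z hz
    · exact (d1 x hx).continuousAt.tendsto.mono_left nhdsWithin_le_nhds
  have i2 : ∫ t in (0 : ℝ)..x, errTerm b L t = ∑ n ∈ Finset.Icc 1 ⌊x⌋₊, b n * (x - n) -
      ((2 * π * I : ℂ)⁻¹ * ∮ s in C(1, 1 / 2), L s * (x : ℂ) ^ (s + 1) / (s * (s + 1))).re := by
    have := intervalIntegral.integral_sub (VX8_S b hx.le).1 (iP x hx.le)
    rw [(VX8_S b hx.le).2, i1, sub_zero] at this
    exact this
  rw [i2]
  exact (VX8_A b x).sub (d2 x hx)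

private theorem VX8_shrink (h : RealSelberg b L 3) {r : ℝ} (hr : 0 < r) (hr' : r ≤ 1 / 2) {x : ℝ}
    (hx : 0 < x) : (∮ s in C(1, 1 / 2), L s * (x : ℂ) ^ s / s) =
      ∮ s in C(1, r), L s / s * (x : ℂ) ^ (s + (0 : ℝ)) := by
  have e1 : (∮ s in C(1, r), L s / s * (x : ℂ) ^ (s + (0 : ℝ))) =
      ∮ s in C(1, r), L s * (x : ℂ) ^ s / s := by
    refine circleIntegral.integral_congr hr.le (fun s _ => ?_)
    simp only [ofReal_zero, add_zero]
    ring
  rw [e1]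
  have hd : ∀ z ∈ Metric.closedBall (1 : ℂ) (1 / 2) \ Metric.ball (1 : ℂ) r,
      DifferentiableAt ℂ (fun s => L s * (x : ℂ) ^ s / s) z := by
    intro z hz
    have hz1 : z ≠ 1 := by
      rintro rfl
      exact hz.2 (Metric.mem_ball_self hr)
    have hz0 : z ≠ 0 := by
      rintro rfl
      have := hz.1
      rw [Metric.mem_closedBall, dist_eq_norm, zero_sub, norm_neg, norm_one] at this
      norm_num at this
    have hx0 : (x : ℂ) ≠ 0 := by exact_mod_cast hx.ne'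
    refine ((VX8_diff h hz1).mul ?_).div differentiableAt_id hz0
    exact (differentiableAt_id).const_cpow (Or.inl hx0)
  refine Complex.circleIntegral_eq_of_differentiable_on_annulus_off_countable hr hr'
    countable_empty (fun z hz => (hd z hz).continuousAt.continuousWithinAt) ?_
  intro z hz
  refine hd z ⟨Metric.ball_subset_closedBall hz.1.1, fun h => hz.1.2 ?_⟩
  exact Metric.ball_subset_closedBall h


private theorem VX8_triv (h : RealSelberg b L 3) {ε : ℝ} (hε : 0 < ε) : ∃ C : ℝ, 0 < C ∧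
    (∀ x : ℝ, 1 ≤ x → |errTerm b L x| ≤ C * x ^ (1 + ε)) ∧
    ∀ x : ℝ, 0 < x → x ≤ 1 → |errTerm b L x| ≤ C * x ^ (1 / 2 : ℝ) := by
  obtain ⟨Ca', hCa'⟩ := h.ramanujan ε hε
  obtain ⟨Ca, hCa1, hCa⟩ : ∃ Ca : ℝ, 0 < Ca ∧ ∀ n : ℕ, 1 ≤ n → |b n| ≤ Ca * (n : ℝ) ^ ε := by
    refine ⟨max Ca' 1, by positivity, fun n hn => (hCa' n hn).trans ?_⟩
    exact mul_le_mul_of_nonneg_right (le_max_left _ _) (by positivity)
  have hS : ∀ x : ℝ, 0 ≤ x → |∑ n ∈ Finset.Icc 1 ⌊x⌋₊, b n| ≤ Ca * (⌊x⌋₊ : ℝ) * x ^ ε := by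
    intro x hx
    refine (Finset.abs_sum_le_sum_abs _ _).trans ?_
    have : ∀ n ∈ Finset.Icc 1 ⌊x⌋₊, |b n| ≤ Ca * x ^ ε := by
      intro n hn
      rw [Finset.mem_Icc] at hn
      refine (hCa n hn.1).trans ?_
      have h1 : (n : ℝ) ≤ x := (Nat.le_floor_iff' (by omega)).1 hn.2
      exact mul_le_mul_of_nonneg_left (Real.rpow_le_rpow (by positivity) h1 hε.le) hCa1.le
    refine (Finset.sum_le_card_nsmul _ _ _ this).trans ?_
    rw [Nat.card_Icc, nsmul_eq_mul, Nat.add_sub_cancel]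
    apply le_of_eq; ring
  obtain ⟨r, hr, hr', hrε⟩ : ∃ r : ℝ, 0 < r ∧ r ≤ 1 / 2 ∧ r ≤ ε :=
    ⟨min ε (1 / 2), lt_min hε (by norm_num), min_le_right _ _, min_le_left _ _⟩
  have kr := VX8_k h (q := fun s => s) hr (by fun_prop) (fun s hs => by
      have := (VX8_sphere hr hr' hs).2.2.1
      rintro rfl
      norm_num at this)
  obtain ⟨K, hK, hb⟩ := VX8_bound hr hr' kr 0
  obtain ⟨-, -, -, ⟨K0, hK0, b0⟩, -⟩ := VX8_P h
  refine ⟨Ca + 2 * K + 2 * K0, by positivity, fun x hx => ?_, fun x hx hx1 => ?_⟩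
  · have hx0 : 0 < x := by linarith
    have h1 : |∑ n ∈ Finset.Icc 1 ⌊x⌋₊, b n| ≤ Ca * x ^ (1 + ε) := by
      refine (hS x hx0.le).trans ?_
      rw [Real.rpow_add hx0, Real.rpow_one, mul_assoc]
      refine mul_le_mul_of_nonneg_left ?_ hCa1.le
      exact mul_le_mul_of_nonneg_right (Nat.floor_le hx0.le) (by positivity)
    have h2 : |((2 * π * I : ℂ)⁻¹ * ∮ s in C(1, 1 / 2), L s * (x : ℂ) ^ s / s).re| ≤
        2 * K * x ^ (1 + ε) := by
      rw [VX8_shrink h hr hr' hx0]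
      refine (Complex.abs_re_le_norm _).trans ((hb x hx0).trans ?_)
      have e1 := Real.rpow_le_rpow_of_exponent_le hx (by linarith : 1 - r + 0 ≤ 1 + ε)
      have e2 := Real.rpow_le_rpow_of_exponent_le hx (by linarith : 1 + r + 0 ≤ 1 + ε)
      nlinarith
    have h3 := abs_sub (∑ n ∈ Finset.Icc 1 ⌊x⌋₊, b n)
      ((2 * π * I : ℂ)⁻¹ * ∮ s in C(1, 1 / 2), L s * (x : ℂ) ^ s / s).re
    have h4 : 0 ≤ 2 * K0 * x ^ (1 + ε) := by positivity
    rw [errTerm]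
    calc _ ≤ _ := h3
      _ ≤ Ca * x ^ (1 + ε) + 2 * K * x ^ (1 + ε) := add_le_add h1 h2
      _ ≤ _ := by linarith
  · have h1 : |∑ n ∈ Finset.Icc 1 ⌊x⌋₊, b n| ≤ Ca * x ^ (1 / 2 : ℝ) := by
      refine (hS x hx.le).trans ?_
      rcases lt_or_eq_of_le hx1 with h | h
      · rw [Nat.floor_eq_zero.2 h]
        simp only [Nat.cast_zero, mul_zero, zero_mul]
        positivity
      · subst h; simp
    have h2 : |((2 * π * I : ℂ)⁻¹ * ∮ s in C(1, 1 / 2), L s * (x : ℂ) ^ s / s).re| ≤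
        2 * K0 * x ^ (1 / 2 : ℝ) := by
      refine (b0 x hx).trans ?_
      have e1 := Real.rpow_le_rpow_of_exponent_ge hx hx1 (by norm_num : (1 / 2 : ℝ) ≤ 3 / 2)
      nlinarith
    have h3 := abs_sub (∑ n ∈ Finset.Icc 1 ⌊x⌋₊, b n)
      ((2 * π * I : ℂ)⁻¹ * ∮ s in C(1, 1 / 2), L s * (x : ℂ) ^ s / s).re
    have h4 : 0 ≤ 2 * K * x ^ (1 / 2 : ℝ) := by positivity
    rw [errTerm]
    calc _ ≤ _ := h3
      _ ≤ Ca * x ^ (1 / 2 : ℝ) + 2 * K0 * x ^ (1 / 2 : ℝ) := add_le_add h1 h2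
      _ ≤ _ := by linarith

private theorem VX8_step (b : ℕ → ℝ) {x : ℝ} (hx : 0 ≤ x) :
    ContinuousWithinAt (fun t : ℝ => ∑ n ∈ Finset.Icc 1 ⌊t⌋₊, b n) (Ici x) x := by
  have h1 : (fun t : ℝ => ∑ n ∈ Finset.Icc 1 ⌊t⌋₊, b n) =ᶠ[𝓝[≥] x]
      fun _ => ∑ n ∈ Finset.Icc 1 ⌊x⌋₊, b n := by
    filter_upwards [self_mem_nhdsWithin,
      mem_nhdsWithin_of_mem_nhds (gt_mem_nhds (Nat.lt_floor_add_one x))] with t ht ht2
    have : ⌊t⌋₊ = ⌊x⌋₊ := by
      apply le_antisymm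
      · have h3 : ⌊t⌋₊ < ⌊x⌋₊ + 1 := (Nat.floor_lt (hx.trans ht)).2 (by exact_mod_cast ht2)
        omega
      · exact Nat.floor_mono ht
    rw [this]
  exact (continuousWithinAt_const).congr_of_eventuallyEq h1 rfl

private theorem VX8_right (h : RealSelberg b L 3) {x : ℝ} (hx : 0 < x) :
    HasDerivWithinAt (fun z : ℝ => ∫ t in (0 : ℝ)..z, errTerm b L t) (errTerm b L x) (Ioi x) x := by
  obtain ⟨d2, d1, -, -, hc⟩ := VX8_P h
  have hE := (VX8_intE h).1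
  have hcw : ContinuousWithinAt (errTerm b L) (Ici x) x := by
    refine (VX8_step b hx.le).sub ?_
    exact ((hc x hx).continuousAt (Ioi_mem_nhds hx)).continuousWithinAt
  have hcw' : ContinuousWithinAt (errTerm b L) (Ioi x) x := hcw.mono Ioi_subset_Ici_self
  have hm : StronglyMeasurableAtFilter (errTerm b L) (𝓝[Ioi x] x) volume := by
    refine ⟨Ioc x (x + 1), Ioc_mem_nhdsGT (by linarith), ?_⟩
    have h1 := hE (x + 1) (by linarith)
    have h2 := ((intervalIntegrable_iff_integrableOn_Ioc_of_le (by linarith)).1 h1)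
    exact (h2.mono_set (Ioc_subset_Ioc_left hx.le)).aestronglyMeasurable
  exact (intervalIntegral.integral_hasDerivWithinAt_right (s := Ici x) (t := Ioi x) (hE x hx.le) hm
    hcw').mono Ioi_subset_Ici_self

private theorem VX8_E1cont (h : RealSelberg b L 3) (x : ℝ) :
    ContinuousOn (fun z : ℝ => ∫ t in (0 : ℝ)..z, errTerm b L t) (Icc 0 x) := by
  rcases le_or_gt 0 x with hx | hx
  · have h1 := (VX8_intE h).1 x hx
    have h2 := intervalIntegral.continuousOn_primitive_interval' h1 (left_mem_uIcc)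
    rwa [uIcc_of_le hx] at h2
  · rw [Icc_eq_empty (by linarith)]
    exact continuousOn_empty _

private theorem VX8_der0 (h : RealSelberg b L 3) {r : ℝ} (hr : 0 < r) (hr' : r ≤ 1 / 2) :
    ∃ K : ℝ, 0 < K ∧ ∀ x : ℝ, 1 ≤ x → ∃ v : ℝ, HasDerivAt (fun z : ℝ => ((2 * π * I : ℂ)⁻¹ *
      ∮ s in C(1, 1 / 2), L s * (z : ℂ) ^ s / s).re) v x ∧ |v| ≤ K * x ^ r := by
  have kr := VX8_k h (q := fun s => s) hr (by fun_prop) (fun s hs => by
      have := (VX8_sphere hr hr' hs).2.2.1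
      rintro rfl
      norm_num at this)
  have kr' : ContinuousOn (fun s => L s / s * (s + 0)) (Metric.sphere (1 : ℂ) r) :=
    kr.mul (by fun_prop)
  obtain ⟨K, hK, hb⟩ := VX8_bound hr hr' kr' (-1)
  refine ⟨2 * K, by positivity, fun x hx => ?_⟩
  have hx0 : 0 < x := by linarith
  have h1 := (VX8_deriv hr kr 0 hx0).const_mul (2 * π * I : ℂ)⁻¹
  refine ⟨_, (Complex.reCLM.hasFDerivAt.comp_hasDerivAt x h1).congr_of_eventuallyEq ?_, ?_⟩
  · filter_upwards [lt_mem_nhds hx0] with z hz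
    have e1 := VX8_shrink h hr hr' hz
    simp only [ofReal_zero] at e1
    rw [e1]
    rfl
  · have h2 := hb x hx0
    have e2 : ((0 : ℂ) - 1) = ((-1 : ℝ) : ℂ) := by push_cast; ring
    rw [e2]
    refine (Complex.abs_re_le_norm _).trans (h2.trans ?_)
    have e3 : x ^ (1 - r + -1) ≤ x ^ r := Real.rpow_le_rpow_of_exponent_le hx (by linarith)
    have e4 : x ^ (1 + r + -1) ≤ x ^ r := Real.rpow_le_rpow_of_exponent_le hx (by linarith)
    calc K * (x ^ (1 - r + -1) + x ^ (1 + r + -1)) ≤ K * (x ^ r + x ^ r) := by gcongr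
      _ = _ := by ring

/-- **VX8.** `E` is locally integrable and bounded trivially (compare `int_errTerm`,
`errTerm_trivial`), short differences, and the identity for `D`. -/
theorem errTerm3_int (h : RealSelberg b L 3) (x : ℝ) (hx : 0 ≤ x) :
    IntervalIntegrable (errTerm b L) volume 0 x := by
  exact (VX8_intE h).1 x hx

theorem errTerm3_trivial (h : RealSelberg b L 3) {ε : ℝ} (hε : 0 < ε) : ∃ C : ℝ, 0 < C ∧
    (∀ x : ℝ, 1 ≤ x → |errTerm b L x| ≤ C * x ^ (1 + ε)) ∧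
    (∀ x : ℝ, 0 < x → x ≤ 1 → |errTerm b L x| ≤ C * x ^ (1 / 2 : ℝ)) := by
  exact VX8_triv h hε

theorem errTerm3_diff (h : RealSelberg b L 3) {ε : ℝ} (hε : 0 < ε) : ∃ C : ℝ, 0 < C ∧
    ∀ x z : ℝ, 1 ≤ x → x ≤ z → z ≤ 2 * x →
      |errTerm b L z - errTerm b L x| ≤ C * (z - x + 1) * x ^ ε := by
  obtain ⟨Ca', hCa'⟩ := h.ramanujan ε hε
  obtain ⟨Ca, hCa1, hCa⟩ : ∃ Ca : ℝ, 0 < Ca ∧ ∀ n : ℕ, 1 ≤ n → |b n| ≤ Ca * (n : ℝ) ^ ε := by
    refine ⟨max Ca' 1, by positivity, fun n hn => (hCa' n hn).trans ?_⟩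
    exact mul_le_mul_of_nonneg_right (le_max_left _ _) (by positivity)
  obtain ⟨r, hr, hr', hrε⟩ : ∃ r : ℝ, 0 < r ∧ r ≤ 1 / 2 ∧ r ≤ ε :=
    ⟨min ε (1 / 2), lt_min hε (by norm_num), min_le_right _ _, min_le_left _ _⟩
  obtain ⟨K, hK, hd⟩ := VX8_der0 h hr hr'
  refine ⟨Ca * 2 ^ ε + K * 2 ^ r, by positivity, fun x z hx hxz hz => ?_⟩
  have hx0 : 0 < x := by linarith
  have hz0 : 0 < z := by linarith
  have hS : |∑ n ∈ Finset.Icc 1 ⌊z⌋₊, b n - ∑ n ∈ Finset.Icc 1 ⌊x⌋₊, b n| ≤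
      (z - x + 1) * (Ca * (2 * x) ^ ε) := by
    have h1 : Finset.Icc 1 ⌊x⌋₊ ⊆ Finset.Icc 1 ⌊z⌋₊ :=
      Finset.Icc_subset_Icc_right (Nat.floor_mono hxz)
    rw [← Finset.sum_sdiff h1, add_sub_cancel_right]
    refine (Finset.abs_sum_le_sum_abs _ _).trans ?_
    have h2 : ∀ n ∈ Finset.Icc 1 ⌊z⌋₊ \ Finset.Icc 1 ⌊x⌋₊, |b n| ≤ Ca * (2 * x) ^ ε := by
      intro n hn
      rw [Finset.mem_sdiff, Finset.mem_Icc] at hn
      refine (hCa n hn.1.1).trans ?_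
      have h3 : (n : ℝ) ≤ z := (Nat.le_floor_iff' (by omega)).1 hn.1.2
      exact mul_le_mul_of_nonneg_left (Real.rpow_le_rpow (by positivity) (h3.trans hz) hε.le)
        hCa1.le
    refine (Finset.sum_le_card_nsmul _ _ _ h2).trans ?_
    rw [nsmul_eq_mul]
    refine mul_le_mul_of_nonneg_right ?_ (by positivity)
    rw [Finset.card_sdiff_of_subset h1, Nat.card_Icc, Nat.card_Icc,
      Nat.add_sub_cancel, Nat.add_sub_cancel, Nat.cast_sub (Nat.floor_mono hxz)]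
    have h4 := Nat.floor_le hz0.le
    have h5 := Nat.lt_floor_add_one x
    linarith
  have hM : |((2 * π * I : ℂ)⁻¹ * ∮ s in C(1, 1 / 2), L s * (z : ℂ) ^ s / s).re -
      ((2 * π * I : ℂ)⁻¹ * ∮ s in C(1, 1 / 2), L s * (x : ℂ) ^ s / s).re| ≤
      K * (2 * x) ^ r * (z - x) := by
    choose! v hv hvb using hd
    have h1 := Convex.norm_image_sub_le_of_norm_hasDerivWithin_le (s := Icc x z)
      (f := fun z : ℝ => ((2 * π * I : ℂ)⁻¹ * ∮ s in C(1, 1 / 2), L s * (z : ℂ) ^ s / s).re)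
      (f' := v) (C := K * (2 * x) ^ r) (x := x) (y := z)
      (fun t ht => (hv t (hx.trans ht.1)).hasDerivWithinAt) (fun t ht => ?_) (convex_Icc x z)
      ⟨le_rfl, hxz⟩ ⟨hxz, le_rfl⟩
    · rw [Real.norm_eq_abs, Real.norm_eq_abs, abs_of_nonneg (by linarith : 0 ≤ z - x)] at h1
      exact h1
    · rw [Real.norm_eq_abs]
      refine (hvb t (hx.trans ht.1)).trans ?_
      exact mul_le_mul_of_nonneg_left (Real.rpow_le_rpow (by linarith [ht.1])
        (ht.2.trans hz) hr.le) hK.le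
  have hxr : x ^ r ≤ x ^ ε := Real.rpow_le_rpow_of_exponent_le hx hrε
  rw [Real.mul_rpow (by norm_num) hx0.le] at hS hM
  have hp : 0 < x ^ ε := Real.rpow_pos_of_pos hx0 _
  have h2r : (0 : ℝ) < 2 ^ r := by positivity
  have hzx : 0 ≤ z - x := by linarith
  unfold errTerm
  have e1 : (∑ n ∈ Finset.Icc 1 ⌊z⌋₊, b n - ((2 * π * I)⁻¹ * ∮ s in C(1, 1 / 2),
      L s * (z : ℂ) ^ s / s).re) - (∑ n ∈ Finset.Icc 1 ⌊x⌋₊, b n -
      ((2 * π * I)⁻¹ * ∮ s in C(1, 1 / 2), L s * (x : ℂ) ^ s / s).re) =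
      (∑ n ∈ Finset.Icc 1 ⌊z⌋₊, b n - ∑ n ∈ Finset.Icc 1 ⌊x⌋₊, b n) -
      (((2 * π * I : ℂ)⁻¹ * ∮ s in C(1, 1 / 2), L s * (z : ℂ) ^ s / s).re -
      ((2 * π * I : ℂ)⁻¹ * ∮ s in C(1, 1 / 2), L s * (x : ℂ) ^ s / s).re) := by ring
  rw [e1]
  refine (abs_sub _ _).trans ((add_le_add hS hM).trans ?_)
  have e2 : K * (2 ^ r * x ^ r) * (z - x) ≤ K * 2 ^ r * (z - x + 1) * x ^ ε := by
    calc K * (2 ^ r * x ^ r) * (z - x) = K * 2 ^ r * (z - x) * x ^ r := by ring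
      _ ≤ K * 2 ^ r * (z - x) * x ^ ε := by gcongr
      _ ≤ K * 2 ^ r * (z - x + 1) * x ^ ε := by gcongr; linarith
  calc (z - x + 1) * (Ca * (2 ^ ε * x ^ ε)) + K * (2 ^ r * x ^ r) * (z - x)
      ≤ (z - x + 1) * (Ca * (2 ^ ε * x ^ ε)) + K * 2 ^ r * (z - x + 1) * x ^ ε :=
        add_le_add le_rfl e2
    _ = _ := by ring

theorem D2_eq (h : RealSelberg b L 3) {x : ℝ} (hx : 0 < x) :
    D2 b L x = 1 / 2 * ∑ n ∈ Finset.Icc 1 ⌊x⌋₊, b n * (x - n) ^ 2 -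
      ((2 * π * I)⁻¹ * ∮ s in C(1, 1 / 2), L s * (x : ℂ) ^ (s + 2) /
        (s * (s + 1) * (s + 2))).re := by
  obtain ⟨hiE, hΦ⟩ := VX8_intE h
  -- by parts
  have h1 : D2 b L x = ∫ z in (0 : ℝ)..x, ∫ t in (0 : ℝ)..z, errTerm b L t := by
    have h2 := intervalIntegral.integral_mul_deriv_eq_deriv_mul_of_hasDeriv_right
      (a := 0) (b := x) (u := fun t : ℝ => x - t) (u' := fun _ => -1)
      (v := fun z : ℝ => ∫ t in (0 : ℝ)..z, errTerm b L t) (v' := errTerm b L)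
      (by fun_prop) (by rw [uIcc_of_le hx.le]; exact VX8_E1cont h x)
      (fun t _ => ((hasDerivAt_id t).const_sub x).hasDerivWithinAt)
      (fun t ht => VX8_right h (by rw [min_eq_left hx.le] at ht; exact ht.1))
      intervalIntegrable_const (hiE x hx.le)
    rw [D2, h2]
    simp only [sub_self, zero_mul, intervalIntegral.integral_same, mul_zero, zero_sub, neg_mul,
      one_mul, intervalIntegral.integral_neg, neg_neg]
  have k2 := VX8_k h (q := fun s => s * (s + 1) * (s + 2)) (r := 1 / 2) (by norm_num) (by fun_prop)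
    (fun s hs => by
      obtain ⟨h1, h2, h3⟩ := VX8_re hs
      exact mul_ne_zero (mul_ne_zero h1 h2) h3)
  obtain ⟨K, hK, hb⟩ := VX8_bound (by norm_num) le_rfl k2 2
  have f2 : ∀ z : ℝ, (∮ s in C(1, 1 / 2), L s * (z : ℂ) ^ (s + 2) / (s * (s + 1) * (s + 2))) =
      ∮ s in C(1, 1 / 2), L s / (s * (s + 1) * (s + 2)) * (z : ℂ) ^ (s + ((2 : ℝ) : ℂ)) := by
    intro z
    refine circleIntegral.integral_congr (by norm_num) (fun s _ => ?_)
    simp only [ofReal_ofNat]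
    ring
  rw [h1]
  rw [intervalIntegral.integral_eq_sub_of_hasDerivAt_of_tendsto (fa := 0)
    (f := fun z : ℝ => 1 / 2 * ∑ n ∈ Finset.Icc 1 ⌊z⌋₊, b n * (z - n) ^ 2 -
      ((2 * π * I)⁻¹ * ∮ s in C(1, 1 / 2), L s * (z : ℂ) ^ (s + 2) /
        (s * (s + 1) * (s + 2))).re) hx (fun t ht => hΦ t ht.1)
    ((VX8_E1cont h x).intervalIntegrable_of_Icc hx.le) ?_
    ((hΦ x hx).continuousAt.tendsto.mono_left nhdsWithin_le_nhds), sub_zero]
  have t1 : Tendsto (fun z : ℝ => K * (z ^ (1 - 1 / 2 + 2 : ℝ) + z ^ (1 + 1 / 2 + 2 : ℝ))) (𝓝[>] 0)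
      (𝓝 0) := by
    have e1 : Tendsto (fun z : ℝ => K * (z ^ (1 - 1 / 2 + 2 : ℝ) + z ^ (1 + 1 / 2 + 2 : ℝ))) (𝓝 0)
        (𝓝 (K * ((0 : ℝ) ^ (1 - 1 / 2 + 2 : ℝ) + (0 : ℝ) ^ (1 + 1 / 2 + 2 : ℝ)))) := by
      refine Tendsto.const_mul _ (Tendsto.add ?_ ?_)
      · exact (Real.continuousAt_rpow_const _ _ (Or.inr (by norm_num))).tendsto
      · exact (Real.continuousAt_rpow_const _ _ (Or.inr (by norm_num))).tendsto
    rw [Real.zero_rpow (by norm_num), Real.zero_rpow (by norm_num), add_zero, mul_zero] at e1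
    exact e1.mono_left nhdsWithin_le_nhds
  refine squeeze_zero_norm' ?_ t1
  filter_upwards [self_mem_nhdsWithin, mem_nhdsWithin_of_mem_nhds (gt_mem_nhds one_pos)]
    with z hz hz1
  have hz0 : 0 < z := hz
  rw [Nat.floor_eq_zero.2 hz1, f2]
  simp only [Finset.Icc_eq_empty_of_lt one_pos, Finset.sum_empty, mul_zero, zero_sub, norm_neg]
  rw [Real.norm_eq_abs]
  exact (Complex.abs_re_le_norm _).trans (hb z hz0)
--END VX8

--BEGIN VX9
private theorem VX9_sum {a : ℕ → ℝ} {p : ℝ} (hp : p < -1)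
    (ha : ∀ ε : ℝ, 0 < ε → ∃ C : ℝ, ∀ n : ℕ, 1 ≤ n → |a n| ≤ C * (n : ℝ) ^ ε) :
    Summable fun m : ℕ => |a m| * (m : ℝ) ^ p := by
  obtain ⟨C, hC⟩ := ha ((-1 - p) / 2) (by linarith)
  have h1 : Summable fun m : ℕ => |C| * (m : ℝ) ^ (p + (-1 - p) / 2) :=
    (Real.summable_nat_rpow.2 (by linarith)).mul_left _
  refine Summable.of_nonneg_of_le (fun m => by positivity) (fun m => ?_) h1
  rcases Nat.eq_zero_or_pos m with h0 | h0
  · rw [h0, Nat.cast_zero, Real.zero_rpow (by linarith), mul_zero]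
    positivity
  · have hm : (0:ℝ) < m := by exact_mod_cast h0
    rw [add_comm p, Real.rpow_add hm, ← mul_assoc]
    refine mul_le_mul_of_nonneg_right ((hC m h0).trans ?_) (by positivity)
    exact mul_le_mul_of_nonneg_right (le_abs_self C) (by positivity)

private theorem VX9_zero (κ : ℝ) (c : Fin 3 → ℂ) (x : ℝ) : qm κ c 0 x = 0 := by
  unfold qm
  refine Finset.sum_eq_zero fun j _ => ?_
  have hj : (0 : ℝ) ≤ ((j : ℕ) : ℝ) := Nat.cast_nonneg _
  rw [Nat.cast_zero, Real.zero_rpow (by linarith), zero_mul, zero_mul]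

private theorem VX9_le (κ : ℝ) (c : Fin 3 → ℂ) {m : ℕ} (hm : 1 ≤ m) {x : ℝ} (hx : 1 ≤ x) :
    |qm κ c m x| ≤ (∑ j : Fin 3, ‖c j‖) * x ^ (5 / 3 : ℝ) * (m : ℝ) ^ (-(4 / 3) : ℝ) := by
  have hx0 : 0 < x := by linarith
  have hm1 : (1 : ℝ) ≤ m := by exact_mod_cast hm
  have hm0 : (0 : ℝ) < m := by linarith
  unfold qm
  refine (Finset.abs_sum_le_sum_abs _ _).trans ?_
  rw [Finset.sum_mul, Finset.sum_mul]
  refine Finset.sum_le_sum fun j _ => ?_
  have hj : (0 : ℝ) ≤ ((j : ℕ) : ℝ) := Nat.cast_nonneg _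
  rw [abs_mul, abs_of_nonneg (show (0 : ℝ) ≤ (m : ℝ) ^ (-((4 + ((j : ℕ) : ℝ)) / 3)) *
    x ^ ((5 - ((j : ℕ) : ℝ)) / 3) by positivity)]
  have h1 : ‖e (3 * (κ * m * x) ^ (1 / 3 : ℝ))‖ = 1 := by
    unfold e
    rw [norm_exp]
    have : (2 * π * I * ((3 * (κ * m * x) ^ (1 / 3 : ℝ) : ℝ) : ℂ)) =
        ((2 * π * (3 * (κ * m * x) ^ (1 / 3 : ℝ)) : ℝ) : ℂ) * I := by push_cast; ring
    rw [this, re_ofReal_mul, I_re, mul_zero, Real.exp_zero]
  have h2 : |(c j * e (3 * (κ * m * x) ^ (1 / 3 : ℝ))).re| ≤ ‖c j‖ := by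
    refine (abs_re_le_norm _).trans ?_
    rw [norm_mul, h1, mul_one]
  have h3 : (m : ℝ) ^ (-((4 + ((j : ℕ) : ℝ)) / 3)) ≤ (m : ℝ) ^ (-(4 / 3) : ℝ) :=
    Real.rpow_le_rpow_of_exponent_le hm1 (by linarith)
  have h4 : x ^ ((5 - ((j : ℕ) : ℝ)) / 3) ≤ x ^ (5 / 3 : ℝ) :=
    Real.rpow_le_rpow_of_exponent_le hx (by linarith)
  calc (m : ℝ) ^ (-((4 + ((j : ℕ) : ℝ)) / 3)) * x ^ ((5 - ((j : ℕ) : ℝ)) / 3) *
        |(c j * e (3 * (κ * m * x) ^ (1 / 3 : ℝ))).re|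
      ≤ (m : ℝ) ^ (-(4 / 3) : ℝ) * x ^ (5 / 3 : ℝ) * ‖c j‖ := by gcongr
    _ = _ := by ring

private theorem VX9_bd {b : ℕ → ℝ} (κ : ℝ) (c : Fin 3 → ℂ) (m : ℕ) {x : ℝ} (hx : 1 ≤ x) :
    |b m * qm κ c m x| ≤ (∑ j : Fin 3, ‖c j‖) * x ^ (5 / 3 : ℝ) *
      (|b m| * (m : ℝ) ^ (-(4 / 3) : ℝ)) := by
  rcases Nat.eq_zero_or_pos m with h0 | h0
  · rw [h0, VX9_zero, mul_zero, abs_zero]
    have : 0 ≤ ∑ j : Fin 3, ‖c j‖ := Finset.sum_nonneg fun j _ => norm_nonneg _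
    have hx0 : 0 < x := by linarith
    positivity
  · rw [abs_mul]
    calc |b m| * |qm κ c m x| ≤ |b m| * ((∑ j : Fin 3, ‖c j‖) * x ^ (5 / 3 : ℝ) *
          (m : ℝ) ^ (-(4 / 3) : ℝ)) :=
          mul_le_mul_of_nonneg_left (VX9_le κ c h0 hx) (abs_nonneg _)
      _ = _ := by ring

private theorem VX9_summable {b : ℕ → ℝ} (κ : ℝ) (c : Fin 3 → ℂ)
    (ha : ∀ ε : ℝ, 0 < ε → ∃ C : ℝ, ∀ n : ℕ, 1 ≤ n → |b n| ≤ C * (n : ℝ) ^ ε) {x : ℝ}
    (hx : 1 ≤ x) : Summable fun m : ℕ => b m * qm κ c m x :=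
  Summable.of_norm_bounded ((VX9_sum (by norm_num) ha).mul_left _) fun m => VX9_bd κ c m hx

private theorem VX9_scale (κ : ℝ) (c : Fin 3 → ℂ) {m : ℕ} (hm : 1 ≤ m) {x : ℝ} (hx : 0 < x) :
    (m : ℝ) ^ (-3 : ℝ) * qm κ c 1 (m * x) = qm κ c m x := by
  have hm0 : (0 : ℝ) < m := by exact_mod_cast hm
  unfold qm
  rw [Finset.mul_sum]
  refine Finset.sum_congr rfl fun j _ => ?_
  have e1 : κ * ((1:ℕ) : ℝ) * (m * x) = κ * m * x := by push_cast; ring
  rw [e1, Real.mul_rpow hm0.le hx.le, Nat.cast_one, Real.one_rpow, one_mul]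
  have e2 : (m : ℝ) ^ (-((4 + ((j : ℕ) : ℝ)) / 3)) =
      (m : ℝ) ^ (-3 : ℝ) * (m : ℝ) ^ ((5 - ((j : ℕ) : ℝ)) / 3) := by
    rw [← Real.rpow_add hm0]
    congr 1
    ring
  rw [e2]
  ring

/-- **VX9.** The Voronoi series of `D` (VX4, VX5, VX7, VX8; real parts). -/
theorem voronoi3 (h : RealSelberg b L 3) : ∃ (κ : ℝ) (c : Fin 3 → ℂ) (A : Fin 3 → ℝ), 0 < κ ∧
    c 0 ≠ 0 ∧ ∀ δ : ℝ, 0 < δ → ∃ C : ℝ, 0 < C ∧ ∀ x : ℝ, 1 ≤ x →
      |D2 b L x - (A 0 * x ^ 2 + A 1 * x ^ (5 / 3 : ℝ) + A 2 * x ^ (4 / 3 : ℝ)) -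
        ∑' m : ℕ, b m * qm κ c m x| ≤ C * x ^ (1 + δ) := by
  obtain ⟨Q, r, lam, mu, w, hf⟩ := exists_fun3 h
  obtain ⟨c, B0, B1, hc0, hΘ⟩ := Theta3_formula h hf
  set κ := kap3 Q lam with hκ
  have s43 := VX9_sum (a := b) (p := -(4 / 3)) (by norm_num) h.ramanujan
  have s53 := VX9_sum (a := b) (p := -(5 / 3)) (by norm_num) h.ramanujan
  have t43 : Summable fun m : ℕ => b m * (m : ℝ) ^ (-(4 / 3) : ℝ) :=
    Summable.of_norm_bounded s43 fun m => by
      rw [Real.norm_eq_abs, abs_mul, abs_of_nonneg (Real.rpow_nonneg (Nat.cast_nonneg m) _)]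
  have t53 : Summable fun m : ℕ => b m * (m : ℝ) ^ (-(5 / 3) : ℝ) :=
    Summable.of_norm_bounded s53 fun m => by
      rw [Real.norm_eq_abs, abs_mul, abs_of_nonneg (Real.rpow_nonneg (Nat.cast_nonneg m) _)]
  refine ⟨κ, c, ![(L 0).re / 2, B0.re * ∑' m : ℕ, b m * (m : ℝ) ^ (-(4 / 3) : ℝ),
    B1.re * ∑' m : ℕ, b m * (m : ℝ) ^ (-(5 / 3) : ℝ)], kap3_pos hf, hc0, fun δ hδ => ?_⟩
  set δ' : ℝ := min δ (1 / 2) with hδ'
  have hδ'0 : 0 < δ' := lt_min hδ (by norm_num)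
  have hδ'1 : δ' ≤ 1 / 2 := min_le_right _ _
  have hδ'2 : δ' ≤ δ := min_le_left _ _
  obtain ⟨C, hC, hb⟩ := hΘ δ' hδ'0
  have sr := VX9_sum (a := b) (p := -2 + δ') (by linarith) h.ramanujan
  have sr0 : 0 ≤ ∑' m : ℕ, |b m| * (m : ℝ) ^ (-2 + δ') := tsum_nonneg fun m => by positivity
  refine ⟨C * (∑' m : ℕ, |b m| * (m : ℝ) ^ (-2 + δ')) + 1, by positivity, fun x hx => ?_⟩
  have hx0 : 0 < x := by linarith
  obtain ⟨hsum, hdual⟩ := dual_series3 h hf hx0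
  have hid : D2 b L x = (L 0).re * (x ^ 2 / 2) +
      (∑' m : ℕ, ((b m * (m : ℝ) ^ (-3 : ℝ) : ℝ) : ℂ) * Theta3 Q lam mu w (m * x)).re := by
    have k1 := perron_sum3 h hx0
    rw [shift_line3 h hx0, hdual] at k1
    have k2 := congrArg re k1
    rw [ofReal_re, add_re, add_re] at k2
    have k3 : (L 0 * (x : ℂ) ^ 2 / 2).re = (L 0).re * (x ^ 2 / 2) := by
      have : L 0 * (x : ℂ) ^ 2 / 2 = L 0 * ((x ^ 2 / 2 : ℝ) : ℂ) := by push_cast; ring
      rw [this, re_mul_ofReal]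
    rw [k3] at k2
    rw [D2_eq h hx0]
    linarith
  have hre : (∑' m : ℕ, ((b m * (m : ℝ) ^ (-3 : ℝ) : ℝ) : ℂ) * Theta3 Q lam mu w (m * x)).re =
      ∑' m : ℕ, (((b m * (m : ℝ) ^ (-3 : ℝ) : ℝ) : ℂ) * Theta3 Q lam mu w (m * x)).re :=
    re_tsum hsum
  have hsumre : Summable fun m : ℕ =>
      (((b m * (m : ℝ) ^ (-3 : ℝ) : ℝ) : ℂ) * Theta3 Q lam mu w (m * x)).re :=
    hsum.map reCLM.toLinearMap.toAddMonoidHom reCLM.continuous
  have hq := VX9_summable (b := b) κ c h.ramanujan hx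
  have hterm : ∀ m : ℕ, ‖(((b m * (m : ℝ) ^ (-3 : ℝ) : ℝ) : ℂ) * Theta3 Q lam mu w (m * x)).re -
      b m * qm κ c m x - (B0.re * x ^ (5 / 3 : ℝ) * (b m * (m : ℝ) ^ (-(4 / 3) : ℝ)) +
        B1.re * x ^ (4 / 3 : ℝ) * (b m * (m : ℝ) ^ (-(5 / 3) : ℝ)))‖ ≤
      C * x ^ (1 + δ') * (|b m| * (m : ℝ) ^ (-2 + δ')) := by
    intro m
    rcases Nat.eq_zero_or_pos m with h0 | h0
    · rw [h0, VX9_zero, Nat.cast_zero, Real.zero_rpow (by norm_num), Real.zero_rpow (by norm_num),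
        Real.zero_rpow (by norm_num)]
      simp
      positivity
    · have hm1 : (1:ℝ) ≤ m := by exact_mod_cast h0
      have hm0 : (0:ℝ) < m := by linarith
      have k1 := hb (m * x) (by nlinarith)
      have k3 := VX9_scale κ c h0 hx0
      have p1 : (m : ℝ) ^ (-(4 / 3) : ℝ) = (m : ℝ) ^ (-3 : ℝ) * (m : ℝ) ^ (5 / 3 : ℝ) := by
        rw [← Real.rpow_add hm0]; norm_num
      have p2 : (m : ℝ) ^ (-(5 / 3) : ℝ) = (m : ℝ) ^ (-3 : ℝ) * (m : ℝ) ^ (4 / 3 : ℝ) := by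
        rw [← Real.rpow_add hm0]; norm_num
      have p3 : (m : ℝ) ^ (-2 + δ') = (m : ℝ) ^ (-3 : ℝ) * (m : ℝ) ^ (1 + δ') := by
        rw [← Real.rpow_add hm0]; congr 1; ring
      have k2 : (((b m * (m : ℝ) ^ (-3 : ℝ) : ℝ) : ℂ) * Theta3 Q lam mu w (m * x)).re -
          b m * qm κ c m x - (B0.re * x ^ (5 / 3 : ℝ) * (b m * (m : ℝ) ^ (-(4 / 3) : ℝ)) +
          B1.re * x ^ (4 / 3 : ℝ) * (b m * (m : ℝ) ^ (-(5 / 3) : ℝ))) =
          b m * (m : ℝ) ^ (-3 : ℝ) * (Theta3 Q lam mu w (m * x) - ((qm κ c 1 (m * x) : ℝ) : ℂ) -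
            (B0 * (((m * x) ^ (5 / 3 : ℝ) : ℝ) : ℂ) + B1 * (((m * x) ^ (4 / 3 : ℝ) : ℝ) : ℂ))).re := by
        rw [sub_re, sub_re, add_re, ofReal_re, re_mul_ofReal, re_mul_ofReal, re_ofReal_mul,
          Real.mul_rpow hm0.le hx0.le, Real.mul_rpow hm0.le hx0.le, p1, p2, ← k3]
        ring
      rw [k2, Real.norm_eq_abs, abs_mul, abs_mul, abs_of_nonneg (Real.rpow_nonneg hm0.le _)]
      have k5 := (abs_re_le_norm _).trans k1
      have p4 : (m * x) ^ (1 + δ') = (m : ℝ) ^ (1 + δ') * x ^ (1 + δ') := Real.mul_rpow hm0.le hx0.le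
      rw [p4] at k5
      rw [p3]
      calc |b m| * (m : ℝ) ^ (-3 : ℝ) * |(Theta3 Q lam mu w (m * x) -
            ((qm κ c 1 (m * x) : ℝ) : ℂ) - (B0 * (((m * x) ^ (5 / 3 : ℝ) : ℝ) : ℂ) +
            B1 * (((m * x) ^ (4 / 3 : ℝ) : ℝ) : ℂ))).re|
          ≤ |b m| * (m : ℝ) ^ (-3 : ℝ) * (C * ((m : ℝ) ^ (1 + δ') * x ^ (1 + δ'))) :=
            mul_le_mul_of_nonneg_left k5 (by positivity)
        _ = _ := by ring
  have hfin := tsum_of_norm_bounded ((sr.mul_left (C * x ^ (1 + δ'))).hasSum) hterm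
  rw [Real.norm_eq_abs, tsum_mul_left] at hfin
  have hsplit : ∑' m : ℕ, ((((b m * (m : ℝ) ^ (-3 : ℝ) : ℝ) : ℂ) * Theta3 Q lam mu w (m * x)).re -
      b m * qm κ c m x - (B0.re * x ^ (5 / 3 : ℝ) * (b m * (m : ℝ) ^ (-(4 / 3) : ℝ)) +
        B1.re * x ^ (4 / 3 : ℝ) * (b m * (m : ℝ) ^ (-(5 / 3) : ℝ)))) =
      (∑' m : ℕ, ((((b m * (m : ℝ) ^ (-3 : ℝ) : ℝ) : ℂ) * Theta3 Q lam mu w (m * x)).re)) -
      (∑' m : ℕ, b m * qm κ c m x) - (B0.re * x ^ (5 / 3 : ℝ) *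
        (∑' m : ℕ, b m * (m : ℝ) ^ (-(4 / 3) : ℝ)) + B1.re * x ^ (4 / 3 : ℝ) *
        (∑' m : ℕ, b m * (m : ℝ) ^ (-(5 / 3) : ℝ))) := by
    rw [(hsumre.sub hq).tsum_sub ((t43.mul_left _).add (t53.mul_left _)), hsumre.tsum_sub hq,
      (t43.mul_left _).tsum_add (t53.mul_left _), tsum_mul_left, tsum_mul_left]
  rw [hsplit] at hfin
  rw [hid, hre]
  simp only [Matrix.cons_val_zero, Matrix.cons_val_one, Matrix.cons_val]
  have e1 : (L 0).re * (x ^ 2 / 2) + (∑' m : ℕ, ((((b m * (m : ℝ) ^ (-3 : ℝ) : ℝ) : ℂ) *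
      Theta3 Q lam mu w (m * x)).re)) - ((L 0).re / 2 * x ^ 2 +
      B0.re * (∑' m : ℕ, b m * (m : ℝ) ^ (-(4 / 3) : ℝ)) * x ^ (5 / 3 : ℝ) +
      B1.re * (∑' m : ℕ, b m * (m : ℝ) ^ (-(5 / 3) : ℝ)) * x ^ (4 / 3 : ℝ)) -
      ∑' m : ℕ, b m * qm κ c m x =
      (∑' m : ℕ, ((((b m * (m : ℝ) ^ (-3 : ℝ) : ℝ) : ℂ) * Theta3 Q lam mu w (m * x)).re)) -
      (∑' m : ℕ, b m * qm κ c m x) - (B0.re * x ^ (5 / 3 : ℝ) *
        (∑' m : ℕ, b m * (m : ℝ) ^ (-(4 / 3) : ℝ)) + B1.re * x ^ (4 / 3 : ℝ) *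
        (∑' m : ℕ, b m * (m : ℝ) ^ (-(5 / 3) : ℝ))) := by ring
  rw [e1]
  refine hfin.trans ?_
  have hxp : x ^ (1 + δ') ≤ x ^ (1 + δ) := Real.rpow_le_rpow_of_exponent_le hx (by linarith)
  have hxq : 0 ≤ x ^ (1 + δ) := by positivity
  calc C * x ^ (1 + δ') * ∑' m : ℕ, |b m| * (m : ℝ) ^ (-2 + δ')
      = C * (∑' m : ℕ, |b m| * (m : ℝ) ^ (-2 + δ')) * x ^ (1 + δ') := by ring
    _ ≤ C * (∑' m : ℕ, |b m| * (m : ℝ) ^ (-2 + δ')) * x ^ (1 + δ) :=
        mul_le_mul_of_nonneg_left hxp (by positivity)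
    _ ≤ _ := by nlinarith
--END VX9

--BEGIN VX10
/-- the basic functions -/
private noncomputable def VX10_T (κ : ℝ) (m : ℕ) (p x : ℝ) : ℂ :=
  ((x ^ p : ℝ) : ℂ) * e (3 * (κ * m * x) ^ (1 / 3 : ℝ))

private theorem VX10_e {κ : ℝ} (hκ : 0 < κ) {m : ℕ} (hm : 1 ≤ m) {x : ℝ} (hx : 0 < x) :
    HasDerivAt (fun x : ℝ => e (3 * (κ * m * x) ^ (1 / 3 : ℝ)))
      ((2 * π * I * (κ ^ (1 / 3 : ℝ) : ℝ) * ((m : ℝ) ^ (1 / 3 : ℝ) : ℝ)) *
        ((x ^ (-(2 / 3) : ℝ) : ℝ) : ℂ) * e (3 * (κ * m * x) ^ (1 / 3 : ℝ))) x := by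
  have hm0 : (0 : ℝ) < m := by exact_mod_cast hm
  have hkm : 0 < κ * m := mul_pos hκ hm0
  have h1 : HasDerivAt (fun x : ℝ => κ * m * x) (κ * m) x := by
    simpa using (hasDerivAt_id x).const_mul (κ * m)
  have h2 := ((h1.rpow_const (p := (1 / 3 : ℝ)) (Or.inl (mul_pos hkm hx).ne')).const_mul 3)
  have h3 : 3 * (κ * m * (1 / 3) * (κ * m * x) ^ (1 / 3 - 1 : ℝ)) =
      κ ^ (1 / 3 : ℝ) * (m : ℝ) ^ (1 / 3 : ℝ) * x ^ (-(2 / 3) : ℝ) := by
    have e1 : (1 / 3 - 1 : ℝ) = -(2 / 3) := by norm_num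
    rw [e1, Real.mul_rpow hkm.le hx.le, Real.mul_rpow hκ.le hm0.le]
    have e2 : κ ^ (1 / 3 : ℝ) = κ * κ ^ (-(2 / 3) : ℝ) := by
      nth_rewrite 2 [← Real.rpow_one κ]
      rw [← Real.rpow_add hκ]
      norm_num
    have e3 : (m : ℝ) ^ (1 / 3 : ℝ) = m * (m : ℝ) ^ (-(2 / 3) : ℝ) := by
      nth_rewrite 2 [← Real.rpow_one (m : ℝ)]
      rw [← Real.rpow_add hm0]
      norm_num
    rw [e2, e3]
    ring
  rw [h3] at h2
  have h4 := (h2.ofReal_comp.const_mul (2 * π * I : ℂ)).cexp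
  refine h4.congr_deriv ?_
  rw [e]
  push_cast
  ring

private theorem VX10_Td {κ : ℝ} (hκ : 0 < κ) {m : ℕ} (hm : 1 ≤ m) (p : ℝ) {x : ℝ} (hx : 0 < x) :
    HasDerivAt (VX10_T κ m p) ((p : ℂ) * VX10_T κ m (p - 1) x +
      (2 * π * I * (κ ^ (1 / 3 : ℝ) : ℝ) * ((m : ℝ) ^ (1 / 3 : ℝ) : ℝ)) *
        VX10_T κ m (p - 2 / 3) x) x := by
  have h1 : HasDerivAt (fun y : ℝ => ((y ^ p : ℝ) : ℂ)) ((p * x ^ (p - 1) : ℝ) : ℂ) x :=
    (Real.hasDerivAt_rpow_const (Or.inl hx.ne')).ofReal_comp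
  have h2 := h1.mul (VX10_e hκ hm hx)
  refine h2.congr_deriv ?_
  unfold VX10_T
  have e1 : x ^ (p - 2 / 3) = x ^ p * x ^ (-(2 / 3) : ℝ) := by
    rw [← Real.rpow_add hx]
    congr 1
  rw [e1]
  push_cast
  ring

private theorem VX10_pow {m : ℕ} (hm : 1 ≤ m) (k : ℕ) (u : ℝ) (hu : u = (k : ℝ) / 3) :
    (m : ℝ) ^ (-u) = ((m : ℝ) ^ (-(1 / 3) : ℝ)) ^ k := by
  have hm0 : (0 : ℝ) < m := by exact_mod_cast hm
  rw [← Real.rpow_natCast, ← Real.rpow_mul hm0.le, hu]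
  congr 1
  ring

private theorem VX10_qm {κ : ℝ} (c : Fin 3 → ℂ) {m : ℕ} (hm : 1 ≤ m) (x : ℝ) :
    qm κ c m x = ((((m : ℝ) ^ (-(1 / 3) : ℝ) : ℝ) : ℂ) ^ 4 * c 0 * VX10_T κ m (5 / 3) x +
      (((m : ℝ) ^ (-(1 / 3) : ℝ) : ℝ) : ℂ) ^ 5 * c 1 * VX10_T κ m (4 / 3) x +
      (((m : ℝ) ^ (-(1 / 3) : ℝ) : ℝ) : ℂ) ^ 6 * c 2 * VX10_T κ m 1 x).re := by
  set N : ℝ := (m : ℝ) ^ (-(1 / 3) : ℝ) with hN
  have p4 := VX10_pow hm 4 (4 / 3) (by norm_num)
  have p5 := VX10_pow hm 5 (5 / 3) (by norm_num)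
  have p6 := VX10_pow hm 6 2 (by norm_num)
  rw [← hN] at p4 p5 p6
  rw [qm, Fin.sum_univ_three]
  simp only [Fin.val_zero, Fin.val_one, Fin.val_two]
  have e0 : ((4 + ((0 : ℕ) : ℝ)) / 3 : ℝ) = 4 / 3 := by norm_num
  have e1 : ((4 + ((1 : ℕ) : ℝ)) / 3 : ℝ) = 5 / 3 := by norm_num
  have e2 : ((4 + ((2 : ℕ) : ℝ)) / 3 : ℝ) = 2 := by norm_num
  have f0 : ((5 - ((0 : ℕ) : ℝ)) / 3 : ℝ) = 5 / 3 := by norm_num
  have f1 : ((5 - ((1 : ℕ) : ℝ)) / 3 : ℝ) = 4 / 3 := by norm_num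
  have f2 : ((5 - ((2 : ℕ) : ℝ)) / 3 : ℝ) = 1 := by norm_num
  rw [e0, e1, e2, f0, f1, f2, p4, p5, p6, add_re, add_re]
  have g : ∀ (k : ℕ) (c : ℂ) (p : ℝ), ((N : ℂ) ^ k * c * VX10_T κ m p x).re =
      N ^ k * x ^ p * (c * e (3 * (κ * m * x) ^ (1 / 3 : ℝ))).re := by
    intro k c p
    rw [VX10_T]
    have : (N : ℂ) ^ k * c * (((x ^ p : ℝ) : ℂ) * e (3 * (κ * m * x) ^ (1 / 3 : ℝ))) =
        ((N ^ k * x ^ p : ℝ) : ℂ) * (c * e (3 * (κ * m * x) ^ (1 / 3 : ℝ))) := by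
      push_cast; ring
    rw [this, re_ofReal_mul]
  rw [g, g, g]

private theorem VX10_km {κ : ℝ} (d : Fin 4 → ℂ) {m : ℕ} (hm : 1 ≤ m) (x : ℝ) :
    km κ d m x = ((((m : ℝ) ^ (-(1 / 3) : ℝ) : ℝ) : ℂ) ^ 2 * d 0 * VX10_T κ m (1 / 3) x +
      (((m : ℝ) ^ (-(1 / 3) : ℝ) : ℝ) : ℂ) ^ 3 * d 1 * VX10_T κ m 0 x +
      (((m : ℝ) ^ (-(1 / 3) : ℝ) : ℝ) : ℂ) ^ 4 * d 2 * VX10_T κ m (-(1 / 3)) x +
      (((m : ℝ) ^ (-(1 / 3) : ℝ) : ℝ) : ℂ) ^ 5 * d 3 * VX10_T κ m (-(2 / 3)) x).re := by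
  set N : ℝ := (m : ℝ) ^ (-(1 / 3) : ℝ) with hN
  have p2 := VX10_pow hm 2 (2 / 3) (by norm_num)
  have p3 := VX10_pow hm 3 1 (by norm_num)
  have p4 := VX10_pow hm 4 (4 / 3) (by norm_num)
  have p5 := VX10_pow hm 5 (5 / 3) (by norm_num)
  rw [← hN] at p2 p3 p4 p5
  rw [km, Fin.sum_univ_four]
  have e0 : ((2 + (((0 : Fin 4) : ℕ) : ℝ)) / 3 : ℝ) = 2 / 3 := by norm_num
  have e1 : ((2 + (((1 : Fin 4) : ℕ) : ℝ)) / 3 : ℝ) = 1 := by norm_num
  have e2 : ((2 + (((2 : Fin 4) : ℕ) : ℝ)) / 3 : ℝ) = 4 / 3 := by norm_num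
  have e3 : ((2 + (((3 : Fin 4) : ℕ) : ℝ)) / 3 : ℝ) = 5 / 3 := by norm_num
  have f0 : ((1 - (((0 : Fin 4) : ℕ) : ℝ)) / 3 : ℝ) = 1 / 3 := by norm_num
  have f1 : ((1 - (((1 : Fin 4) : ℕ) : ℝ)) / 3 : ℝ) = 0 := by norm_num
  have f2 : ((1 - (((2 : Fin 4) : ℕ) : ℝ)) / 3 : ℝ) = -(1 / 3) := by norm_num
  have f3 : ((1 - (((3 : Fin 4) : ℕ) : ℝ)) / 3 : ℝ) = -(2 / 3) := by norm_num
  rw [e0, e1, e2, e3, f0, f1, f2, f3, p2, p3, p4, p5, add_re, add_re, add_re]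
  have g : ∀ (k : ℕ) (c : ℂ) (p : ℝ), ((N : ℂ) ^ k * c * VX10_T κ m p x).re =
      N ^ k * x ^ p * (c * e (3 * (κ * m * x) ^ (1 / 3 : ℝ))).re := by
    intro k c p
    rw [VX10_T]
    have : (N : ℂ) ^ k * c * (((x ^ p : ℝ) : ℂ) * e (3 * (κ * m * x) ^ (1 / 3 : ℝ))) =
        ((N ^ k * x ^ p : ℝ) : ℂ) * (c * e (3 * (κ * m * x) ^ (1 / 3 : ℝ))) := by
      push_cast; ring
    rw [this, re_ofReal_mul]
  rw [g, g, g, g]

/-- **VX10.** Second derivative of the terms of the series. -/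
theorem qm_deriv2 {κ : ℝ} (hκ : 0 < κ) (c : Fin 3 → ℂ) : ∃ d : Fin 4 → ℂ,
    d 0 = -(4 * π ^ 2 * (κ ^ (2 / 3 : ℝ) : ℝ)) * c 0 ∧
    ∀ (m : ℕ), 1 ≤ m → ∃ q' : ℝ → ℝ, ∀ x : ℝ, 0 < x → HasDerivAt (qm κ c m) (q' x) x ∧
      HasDerivAt q' (km κ d m x) x := by
  set a : ℂ := 2 * π * I * (κ ^ (1 / 3 : ℝ) : ℝ) with ha
  refine ⟨![a ^ 2 * c 0, a * (8 / 3) * c 0 + a ^ 2 * c 1,
    10 / 9 * c 0 + 2 * a * c 1 + a ^ 2 * c 2, 4 / 9 * c 1 + a * (4 / 3) * c 2], ?_, ?_⟩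
  · simp only [Matrix.cons_val_zero]
    have e1 : ((κ ^ (2 / 3 : ℝ) : ℝ) : ℂ) = ((κ ^ (1 / 3 : ℝ) : ℝ) : ℂ) ^ 2 := by
      rw [← ofReal_pow, ← Real.rpow_natCast, ← Real.rpow_mul hκ.le]
      norm_num
    rw [e1, ha]
    linear_combination (4 * π ^ 2 * ((κ ^ (1 / 3 : ℝ) : ℝ) : ℂ) ^ 2 * c 0) * I_sq
  intro m hm
  have hm0 : (0 : ℝ) < m := by exact_mod_cast hm
  set N : ℂ := (((m : ℝ) ^ (-(1 / 3) : ℝ) : ℝ) : ℂ) with hN
  set M : ℂ := (((m : ℝ) ^ (1 / 3 : ℝ) : ℝ) : ℂ) with hM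
  have hMN : M * N = 1 := by
    rw [hM, hN, ← ofReal_mul, ← Real.rpow_add hm0]
    norm_num
  -- the first derivative
  refine ⟨fun x => (N ^ 4 * c 0 * ((5 / 3) * VX10_T κ m (2 / 3) x + (a * M) * VX10_T κ m 1 x) +
    N ^ 5 * c 1 * ((4 / 3) * VX10_T κ m (1 / 3) x + (a * M) * VX10_T κ m (2 / 3) x) +
    N ^ 6 * c 2 * (VX10_T κ m 0 x + (a * M) * VX10_T κ m (1 / 3) x)).re, fun x hx => ⟨?_, ?_⟩⟩
  · have d0 := VX10_Td hκ hm (5 / 3) hx
    have d1 := VX10_Td hκ hm (4 / 3) hx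
    have d2 := VX10_Td hκ hm 1 hx
    have h1 := ((d0.const_mul (N ^ 4 * c 0)).add (d1.const_mul (N ^ 5 * c 1))).add
      (d2.const_mul (N ^ 6 * c 2))
    have h2 := Complex.reCLM.hasFDerivAt.comp_hasDerivAt x h1
    have h3 : HasDerivAt (qm κ c m) _ x := h2.congr_of_eventuallyEq
      (Eventually.of_forall fun z => VX10_qm c hm z)
    refine h3.congr_deriv ?_
    simp only [Complex.reCLM_apply]
    congr 1
    rw [← ha, ← hM]
    have e1 : (5 / 3 - 1 : ℝ) = 2 / 3 := by norm_num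
    have e2 : (5 / 3 - 2 / 3 : ℝ) = 1 := by norm_num
    have e3 : (4 / 3 - 1 : ℝ) = 1 / 3 := by norm_num
    have e4 : (4 / 3 - 2 / 3 : ℝ) = 2 / 3 := by norm_num
    have e5 : (1 - 1 : ℝ) = 0 := by norm_num
    have e6 : (1 - 2 / 3 : ℝ) = 1 / 3 := by norm_num
    rw [e1, e2, e3, e4, e5, e6]
    push_cast
    ring
  · have d0 := VX10_Td hκ hm (2 / 3) hx
    have d1 := VX10_Td hκ hm 1 hx
    have d2 := VX10_Td hκ hm (1 / 3) hx
    have d3 := VX10_Td hκ hm 0 hx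
    have h1 := ((((d0.const_mul (5 / 3 : ℂ)).add (d1.const_mul (a * M))).const_mul
      (N ^ 4 * c 0)).add (((d2.const_mul (4 / 3 : ℂ)).add (d0.const_mul (a * M))).const_mul
      (N ^ 5 * c 1))).add ((d3.add (d2.const_mul (a * M))).const_mul (N ^ 6 * c 2))
    have h2 := Complex.reCLM.hasFDerivAt.comp_hasDerivAt x h1
    refine HasDerivAt.congr_deriv h2 ?_
    rw [VX10_km _ hm, Complex.reCLM_apply]
    congr 1
    rw [← ha, ← hM, ← hN]
    have e1 : (2 / 3 - 1 : ℝ) = -(1 / 3) := by norm_num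
    have e2 : (2 / 3 - 2 / 3 : ℝ) = 0 := by norm_num
    have e3 : (1 / 3 - 1 : ℝ) = -(2 / 3) := by norm_num
    have e4 : (1 / 3 - 2 / 3 : ℝ) = -(1 / 3) := by norm_num
    have e5 : (1 - 1 : ℝ) = 0 := by norm_num
    have e6 : (1 - 2 / 3 : ℝ) = 1 / 3 := by norm_num
    have e7 : (0 - 2 / 3 : ℝ) = -(2 / 3) := by norm_num
    rw [e1, e2, e3, e4, e5, e6, e7]
    simp only [Matrix.cons_val_zero, Matrix.cons_val_one, Matrix.cons_val]
    push_cast
    have q2 : N ^ 4 * (a * M) = N ^ 3 * a := by linear_combination (N ^ 3 * a) * hMN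
    have q3 : N ^ 4 * (a * M) ^ 2 = N ^ 2 * a ^ 2 := by
      linear_combination (N ^ 3 * a ^ 2 * M + N ^ 2 * a ^ 2) * hMN
    have q4 : N ^ 5 * (a * M) = N ^ 4 * a := by linear_combination (N ^ 4 * a) * hMN
    have q5 : N ^ 5 * (a * M) ^ 2 = N ^ 3 * a ^ 2 := by
      linear_combination (N ^ 4 * a ^ 2 * M + N ^ 3 * a ^ 2) * hMN
    have q6 : N ^ 6 * (a * M) = N ^ 5 * a := by linear_combination (N ^ 5 * a) * hMN
    have q7 : N ^ 6 * (a * M) ^ 2 = N ^ 4 * a ^ 2 := by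
      linear_combination (N ^ 5 * a ^ 2 * M + N ^ 4 * a ^ 2) * hMN
    linear_combination (c 0 * VX10_T κ m (1 / 3) x) * q3 +
      (c 0 * (8 / 3) * VX10_T κ m 0 x) * q2 + (c 1 * 2 * VX10_T κ m (-(1 / 3)) x) * q4 +
      (c 1 * VX10_T κ m 0 x) * q5 + (c 2 * (4 / 3) * VX10_T κ m (-(2 / 3)) x) * q6 +
      (c 2 * VX10_T κ m (-(1 / 3)) x) * q7
--END VX10

--BEGIN VX11
private theorem VX11_bdry {F : ℝ → ℂ} {p q : ℝ} (hF : ContDiff ℝ 2 F)
    (hs : ∀ x, x ∉ Icc p q → F x = 0) :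
    F p = 0 ∧ F q = 0 ∧ deriv F p = 0 ∧ deriv F q = 0 := by
  have hc : Continuous F := hF.continuous
  have hc' : Continuous (deriv F) := hF.continuous_deriv (by norm_num)
  have z1 : ∀ x, x < p → F x = 0 ∧ deriv F x = 0 := by
    intro x hx
    refine ⟨hs x fun h => not_le.2 hx h.1, ?_⟩
    have h1 : F =ᶠ[𝓝 x] fun _ => 0 := by
      filter_upwards [gt_mem_nhds hx] with z hz
      exact hs z fun h => not_le.2 hz h.1
    rw [h1.deriv_eq, deriv_const]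
  have z2 : ∀ x, q < x → F x = 0 ∧ deriv F x = 0 := by
    intro x hx
    refine ⟨hs x fun h => not_le.2 hx h.2, ?_⟩
    have h1 : F =ᶠ[𝓝 x] fun _ => 0 := by
      filter_upwards [lt_mem_nhds hx] with z hz
      exact hs z fun h => not_le.2 hz h.2
    rw [h1.deriv_eq, deriv_const]
  have key : ∀ G : ℝ → ℂ, Continuous G → (∀ x, x < p → G x = 0) → (∀ x, q < x → G x = 0) →
      G p = 0 ∧ G q = 0 := by
    intro G hG h1 h2
    constructor
    · have h3 : closure (Iio p) ⊆ {x | G x = 0} :=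
        (isClosed_eq hG continuous_const).closure_subset_iff.2 fun x hx => h1 x hx
      rw [closure_Iio] at h3
      exact h3 (mem_Iic.2 le_rfl)
    · have h3 : closure (Ioi q) ⊆ {x | G x = 0} :=
        (isClosed_eq hG continuous_const).closure_subset_iff.2 fun x hx => h2 x hx
      rw [closure_Ioi] at h3
      exact h3 (mem_Ici.2 le_rfl)
  obtain ⟨k1, k2⟩ := key F hc (fun x hx => (z1 x hx).1) (fun x hx => (z2 x hx).1)
  obtain ⟨k3, k4⟩ := key (deriv F) hc' (fun x hx => (z1 x hx).2) (fun x hx => (z2 x hx).2)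
  exact ⟨k1, k2, k3, k4⟩

private theorem VX11_parts {u u' u'' : ℝ → ℝ} {F : ℝ → ℂ} {p q : ℝ} (hpq : p ≤ q)
    (hF : ContDiff ℝ 2 F) (hs : ∀ x, x ∉ Icc p q → F x = 0)
    (hu : ∀ x ∈ Icc p q, HasDerivAt u (u' x) x) (huc : ContinuousOn u' (Icc p q))
    (hu' : ∀ x ∈ Ioo p q, HasDerivWithinAt u' (u'' x) (Ioi x) x)
    (hi : IntervalIntegrable u'' volume p q) :
    ∫ x in p..q, (u'' x : ℂ) * F x = ∫ x in p..q, (u x : ℂ) * deriv (deriv F) x := by
  obtain ⟨k1, k2, k3, k4⟩ := VX11_bdry hF hs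
  have hd1 : ∀ x, HasDerivAt F (deriv F x) x := fun x =>
    (hF.differentiable (by norm_num) x).hasDerivAt
  have hF' : ContDiff ℝ 1 (deriv F) := by
    have h2 : ContDiff ℝ (1 + 1) F := by
      refine hF.of_le ?_
      norm_num
    exact (contDiff_succ_iff_deriv.1 h2).2.2
  have hd2 : ∀ x, HasDerivAt (deriv F) (deriv (deriv F) x) x := fun x =>
    (hF'.differentiable (by norm_num) x).hasDerivAt
  have hc1 : Continuous (deriv F) := hF'.continuous
  have hc2 : Continuous (deriv (deriv F)) := hF'.continuous_deriv (by norm_num)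
  have s1 := intervalIntegral.integral_mul_deriv_eq_deriv_mul_of_hasDeriv_right
    (a := p) (b := q) (u := F) (u' := deriv F) (v := fun x => (u' x : ℂ))
    (v' := fun x => (u'' x : ℂ)) hF.continuous.continuousOn
    (by
      rw [uIcc_of_le hpq]
      exact Complex.continuous_ofReal.comp_continuousOn huc)
    (fun x _ => (hd1 x).hasDerivWithinAt)
    (fun x hx => by
      rw [min_eq_left hpq, max_eq_right hpq] at hx
      exact (hu' x hx).ofReal_comp)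
    (hc1.intervalIntegrable _ _) ⟨hi.1.ofReal, hi.2.ofReal⟩
  have s2 := intervalIntegral.integral_mul_deriv_eq_deriv_mul_of_hasDeriv_right
    (a := p) (b := q) (u := deriv F) (u' := deriv (deriv F)) (v := fun x => (u x : ℂ))
    (v' := fun x => (u' x : ℂ)) hc1.continuousOn
    (by
      rw [uIcc_of_le hpq]
      intro x hx
      exact ((hu x hx).ofReal_comp).continuousAt.continuousWithinAt)
    (fun x _ => (hd2 x).hasDerivWithinAt)
    (fun x hx => by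
      rw [min_eq_left hpq, max_eq_right hpq] at hx
      exact (hu x ⟨hx.1.le, hx.2.le⟩).ofReal_comp.hasDerivWithinAt)
    (hc2.intervalIntegrable _ _)
    (by
      refine ContinuousOn.intervalIntegrable ?_
      rw [uIcc_of_le hpq]
      exact Complex.continuous_ofReal.comp_continuousOn huc)
  have e1 : ∫ x in p..q, (u'' x : ℂ) * F x = ∫ x in p..q, F x * (u'' x : ℂ) :=
    intervalIntegral.integral_congr fun x _ => mul_comm _ _
  have e2 : ∫ x in p..q, (u x : ℂ) * deriv (deriv F) x =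
      ∫ x in p..q, deriv (deriv F) x * (u x : ℂ) :=
    intervalIntegral.integral_congr fun x _ => mul_comm _ _
  rw [e1, e2, s1, s2, k1, k2, k3, k4]
  ring

private theorem VX11_zero (κ : ℝ) (d : Fin 4 → ℂ) (x : ℝ) : km κ d 0 x = 0 := by
  unfold km
  refine Finset.sum_eq_zero fun j _ => ?_
  have hj : (0 : ℝ) ≤ ((j : ℕ) : ℝ) := Nat.cast_nonneg _
  rw [Nat.cast_zero, Real.zero_rpow (by linarith), zero_mul, zero_mul]

private theorem VX11_kc (κ : ℝ) (d : Fin 4 → ℂ) (m : ℕ) : ContinuousOn (km κ d m) (Ioi 0) := by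
  unfold km
  refine continuousOn_finsetSum _ fun i _ => ?_
  refine ContinuousOn.mul (ContinuousOn.mul continuousOn_const ?_) ?_
  · intro x hx
    exact (Real.continuousAt_rpow_const _ _ (Or.inl (ne_of_gt hx))).continuousWithinAt
  · refine Continuous.continuousOn ?_
    refine Complex.continuous_re.comp (continuous_const.mul ?_)
    unfold e
    have h1 : Continuous fun x : ℝ => (κ * m * x) ^ (1 / 3 : ℝ) :=
      (Real.continuous_rpow_const (by norm_num)).comp (by fun_prop)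
    have h2 : Continuous fun x : ℝ => ((3 * (κ * m * x) ^ (1 / 3 : ℝ) : ℝ) : ℂ) :=
      Complex.continuous_ofReal.comp (continuous_const.mul h1)
    exact Complex.continuous_exp.comp (continuous_const.mul h2)

private noncomputable def VX11_P (A : Fin 3 → ℝ) (x : ℝ) : ℝ :=
  A 0 * x ^ 2 + A 1 * x ^ (5 / 3 : ℝ) + A 2 * x ^ (4 / 3 : ℝ)

private noncomputable def VX11_P' (A : Fin 3 → ℝ) (x : ℝ) : ℝ :=
  A 0 * (2 * x) + A 1 * (5 / 3 * x ^ (2 / 3 : ℝ)) + A 2 * (4 / 3 * x ^ (1 / 3 : ℝ))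

private noncomputable def VX11_S (A : Fin 3 → ℝ) (x : ℝ) : ℝ :=
  A 0 * 2 + A 1 * (5 / 3 * (2 / 3 * x ^ (-(1 / 3) : ℝ))) +
    A 2 * (4 / 3 * (1 / 3 * x ^ (-(2 / 3) : ℝ)))

private theorem VX11_rp {x : ℝ} (hx : 0 < x) (p q : ℝ) (h : p - 1 = q) :
    HasDerivAt (fun x : ℝ => x ^ p) (p * x ^ q) x := by
  rw [← h]
  exact Real.hasDerivAt_rpow_const (Or.inl hx.ne')

private theorem VX11_Pd (A : Fin 3 → ℝ) {x : ℝ} (hx : 0 < x) :
    HasDerivAt (VX11_P A) (VX11_P' A x) x ∧ HasDerivAt (VX11_P' A) (VX11_S A x) x := by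
  constructor
  · have h1 : HasDerivAt (fun x : ℝ => x ^ 2) (2 * x) x := by simpa using hasDerivAt_pow 2 x
    exact ((h1.const_mul (A 0)).add ((VX11_rp hx (5 / 3) (2 / 3) (by norm_num)).const_mul
      (A 1))).add ((VX11_rp hx (4 / 3) (1 / 3) (by norm_num)).const_mul (A 2))
  · have h1 : HasDerivAt (fun x : ℝ => 2 * x) 2 x := by
      simpa using (hasDerivAt_id x).const_mul (2 : ℝ)
    exact ((h1.const_mul (A 0)).add (((VX11_rp hx (2 / 3) (-(1 / 3)) (by norm_num)).const_mul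
      (5 / 3)).const_mul (A 1))).add (((VX11_rp hx (1 / 3) (-(2 / 3)) (by norm_num)).const_mul
        (4 / 3)).const_mul (A 2))

private theorem VX11_Sc (A : Fin 3 → ℝ) : ContinuousOn (VX11_S A) (Ioi 0) := by
  intro x hx
  have h1 : ∀ p : ℝ, ContinuousAt (fun x : ℝ => x ^ p) x := fun p =>
    Real.continuousAt_rpow_const _ _ (Or.inl (ne_of_gt hx))
  unfold VX11_S
  refine ContinuousAt.continuousWithinAt ?_
  exact (continuousAt_const.add (continuousAt_const.mul (continuousAt_const.mul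
    (continuousAt_const.mul (h1 _))))).add (continuousAt_const.mul (continuousAt_const.mul
    (continuousAt_const.mul (h1 _))))

private theorem VX11_Sb (A : Fin 3 → ℝ) {x : ℝ} (hx : 1 ≤ x) :
    |VX11_S A x| ≤ 2 * |A 0| + 2 * |A 1| + |A 2| + 1 := by
  have h1 : x ^ (-(1 / 3) : ℝ) ≤ 1 := Real.rpow_le_one_of_one_le_of_nonpos hx (by norm_num)
  have h2 : x ^ (-(2 / 3) : ℝ) ≤ 1 := Real.rpow_le_one_of_one_le_of_nonpos hx (by norm_num)
  have h3 : 0 ≤ x ^ (-(1 / 3) : ℝ) := by positivity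
  have h4 : 0 ≤ x ^ (-(2 / 3) : ℝ) := by positivity
  unfold VX11_S
  refine (abs_add_le _ _).trans ?_
  refine (add_le_add (abs_add_le _ _) le_rfl).trans ?_
  have f0 : |A 0 * 2| = |A 0| * 2 := by
    rw [abs_mul, abs_of_nonneg (show (0 : ℝ) ≤ 2 by norm_num)]
  have f1 : |A 1 * (5 / 3 * (2 / 3 * x ^ (-(1 / 3) : ℝ)))| =
      |A 1| * (5 / 3 * (2 / 3 * x ^ (-(1 / 3) : ℝ))) := by
    rw [abs_mul, abs_of_nonneg (show (0 : ℝ) ≤ 5 / 3 * (2 / 3 * x ^ (-(1 / 3) : ℝ)) by positivity)]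
  have f2 : |A 2 * (4 / 3 * (1 / 3 * x ^ (-(2 / 3) : ℝ)))| =
      |A 2| * (4 / 3 * (1 / 3 * x ^ (-(2 / 3) : ℝ))) := by
    rw [abs_mul, abs_of_nonneg (show (0 : ℝ) ≤ 4 / 3 * (1 / 3 * x ^ (-(2 / 3) : ℝ)) by positivity)]
  rw [f0, f1, f2]
  have a1 := abs_nonneg (A 1)
  have a2 := abs_nonneg (A 2)
  have m1 : |A 1| * (5 / 3 * (2 / 3 * x ^ (-(1 / 3) : ℝ))) ≤ |A 1| * 2 :=
    mul_le_mul_of_nonneg_left (by linarith) a1
  have m2 : |A 2| * (4 / 3 * (1 / 3 * x ^ (-(2 / 3) : ℝ))) ≤ |A 2| * 1 :=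
    mul_le_mul_of_nonneg_left (by linarith) a2
  linarith

private theorem VX11_D (h : RealSelberg b L 3) {x : ℝ} (hx : 0 < x) :
    HasDerivAt (D2 b L) (∫ t in (0 : ℝ)..x, errTerm b L t) x := by
  refine ((VX8_intE h).2 x hx).congr_of_eventuallyEq ?_
  filter_upwards [lt_mem_nhds hx] with z hz
  exact D2_eq h hz

private theorem VX11_second {P P' S : ℝ → ℝ} {C : ℝ}
    (h1 : ∀ x : ℝ, 1 ≤ x → HasDerivAt P (P' x) x) (h2 : ∀ x : ℝ, 1 ≤ x → HasDerivAt P' (S x) x)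
    (h3 : ∀ x : ℝ, 1 ≤ x → |S x| ≤ C) {x h : ℝ} (hx : 1 ≤ x) (hh : 0 < h) :
    |P (x + 2 * h) - 2 * P (x + h) + P x| ≤ C * h ^ 2 := by
  have s1 : ∀ t : ℝ, 1 ≤ t → |P' (t + h) - P' t| ≤ C * h := by
    intro t ht
    have k := Convex.norm_image_sub_le_of_norm_hasDerivWithin_le (s := Ici (1 : ℝ))
      (f := P') (f' := S) (C := C) (x := t) (y := t + h)
      (fun z hz => (h2 z hz).hasDerivWithinAt) (fun z hz => by
        rw [Real.norm_eq_abs]; exact h3 z hz) (convex_Ici 1) ht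
      (by rw [mem_Ici]; linarith)
    rw [Real.norm_eq_abs, Real.norm_eq_abs, add_sub_cancel_left, abs_of_pos hh] at k
    exact k
  have s2 := Convex.norm_image_sub_le_of_norm_hasDerivWithin_le (s := Ici (1 : ℝ))
      (f := fun t => P (t + h) - P t) (f' := fun t => P' (t + h) - P' t) (C := C * h)
      (x := x) (y := x + h)
      (fun z hz => ((((h1 (z + h) (by rw [mem_Ici] at hz; linarith)).comp_add_const z h)).sub
        (h1 z hz)).hasDerivWithinAt) (fun z hz => by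
        rw [Real.norm_eq_abs]; exact s1 z hz) (convex_Ici 1) hx
      (by rw [mem_Ici]; linarith)
  rw [Real.norm_eq_abs, Real.norm_eq_abs, add_sub_cancel_left, abs_of_pos hh] at s2
  have e1 : P (x + h + h) - P (x + h) - (P (x + h) - P x) =
      P (x + 2 * h) - 2 * P (x + h) + P x := by
    have : x + h + h = x + 2 * h := by ring
    rw [this]; ring
  rw [e1] at s2
  calc _ ≤ C * h * h := s2
    _ = _ := by ring

/-- **VX11.** The weak Voronoi formula: `∫ E F = ∫ D F''` (twice by parts; `D' = ∫ E`), then VX9,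
VX10. For `m = 0` all terms vanish by the conventions for powers. -/
theorem weak_voronoi (h : RealSelberg b L 3) : ∃ (κ C0 : ℝ) (c : Fin 3 → ℂ) (d : Fin 4 → ℂ)
    (S : ℝ → ℝ), 0 < κ ∧ 0 < C0 ∧ d 0 ≠ 0 ∧ ContinuousOn S (Ici 1) ∧ (∀ x : ℝ, 1 ≤ x → |S x| ≤ C0) ∧
    (∀ (m : ℕ), ∃ q' : ℝ → ℝ, ∀ x : ℝ, 0 < x → HasDerivAt (qm κ c m) (q' x) x ∧
      HasDerivAt q' (km κ d m x) x) ∧
    (∀ δ : ℝ, 0 < δ → ∃ C : ℝ, 0 < C ∧ ∀ (p q : ℝ) (F : ℝ → ℂ), 1 ≤ p → p ≤ q → ContDiff ℝ 2 F →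
      (∀ x, x ∉ Icc p q → F x = 0) →
      Summable (fun m : ℕ => ‖(b m : ℂ) * ∫ x in p..q, (km κ d m x : ℂ) * F x‖) ∧
      ‖(∫ x in p..q, (errTerm b L x : ℂ) * F x) - (∫ x in p..q, (S x : ℂ) * F x) -
        ∑' m : ℕ, (b m : ℂ) * ∫ x in p..q, (km κ d m x : ℂ) * F x‖ ≤
        C * q ^ (1 + δ) * ∫ x in p..q, ‖deriv (deriv F) x‖) ∧
    (∀ δ : ℝ, 0 < δ → ∃ C : ℝ, 0 < C ∧ ∀ x h : ℝ, 1 ≤ x → 0 < h → h ≤ x →
      |(D2 b L (x + 2 * h) - 2 * D2 b L (x + h) + D2 b L x) -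
        ∑' m : ℕ, b m * (qm κ c m (x + 2 * h) - 2 * qm κ c m (x + h) + qm κ c m x)| ≤
        C * h ^ 2 + C * x ^ (1 + δ)) := by
  obtain ⟨κ, c, A, hκ, hc0, hV⟩ := voronoi3 h
  obtain ⟨d, hd0, hder⟩ := qm_deriv2 hκ c
  have hder' : ∀ (m : ℕ), ∃ q' : ℝ → ℝ, ∀ x : ℝ, 0 < x → HasDerivAt (qm κ c m) (q' x) x ∧
      HasDerivAt q' (km κ d m x) x := by
    intro m
    rcases Nat.eq_zero_or_pos m with h0 | h0
    · subst h0
      refine ⟨fun _ => 0, fun x _ => ⟨?_, ?_⟩⟩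
      · have : qm κ c 0 = fun _ => 0 := by funext z; exact VX9_zero κ c z
        rw [this]
        exact hasDerivAt_const x 0
      · rw [VX11_zero]
        exact hasDerivAt_const x 0
    · exact hder m h0
  have hd0' : d 0 ≠ 0 := by
    rw [hd0]
    refine mul_ne_zero (neg_ne_zero.2 (mul_ne_zero ?_ ?_)) hc0
    · have : (π : ℂ) ≠ 0 := by exact_mod_cast Real.pi_ne_zero
      exact mul_ne_zero (by norm_num) (pow_ne_zero 2 this)
    · exact_mod_cast (Real.rpow_pos_of_pos hκ _).ne'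
  have hsm := VX9_sum (a := b) (p := -(4 / 3)) (by norm_num) h.ramanujan
  have hCc : 0 ≤ ∑ j : Fin 3, ‖c j‖ := Finset.sum_nonneg fun j _ => norm_nonneg _
  refine ⟨κ, 2 * |A 0| + 2 * |A 1| + |A 2| + 1, c, d, VX11_S A, hκ, by positivity, hd0',
    (VX11_Sc A).mono fun x hx => (show (0 : ℝ) < x from lt_of_lt_of_le one_pos hx), fun x hx => VX11_Sb A hx, hder', ?_, ?_⟩
  · intro δ hδ
    obtain ⟨C, hC, hb⟩ := hV δ hδ
    refine ⟨C, hC, fun p q F hp hpq hF hs => ?_⟩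
    have hp0 : 0 < p := by linarith
    have hq0 : 0 < q := by linarith
    have hF' : ContDiff ℝ 1 (deriv F) := by
      have h2 : ContDiff ℝ (1 + 1) F := by
        refine hF.of_le ?_
        norm_num
      exact (contDiff_succ_iff_deriv.1 h2).2.2
    have hc2 : Continuous (deriv (deriv F)) := hF'.continuous_deriv (by norm_num)
    obtain ⟨B, hB⟩ := isCompact_Icc.exists_bound_of_continuousOn
      (hc2.continuousOn (s := Icc p q))
    have hB0 : 0 ≤ B := (norm_nonneg _).trans (hB p ⟨le_rfl, hpq⟩)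
    -- by parts
    have hk : ∀ m : ℕ, ∫ x in p..q, (km κ d m x : ℂ) * F x =
        ∫ x in p..q, (qm κ c m x : ℂ) * deriv (deriv F) x := by
      intro m
      obtain ⟨q', hq'⟩ := hder' m
      refine VX11_parts hpq hF hs (fun x hx => (hq' x (by linarith [hx.1])).1)
        (fun x hx => (hq' x (by linarith [hx.1])).2.continuousAt.continuousWithinAt)
        (fun x hx => (hq' x (by linarith [hx.1])).2.hasDerivWithinAt) ?_
      refine ContinuousOn.intervalIntegrable ?_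
      rw [uIcc_of_le hpq]
      exact (VX11_kc κ d m).mono fun x hx => lt_of_lt_of_le hp0 hx.1
    have hS : ∫ x in p..q, (VX11_S A x : ℂ) * F x =
        ∫ x in p..q, (VX11_P A x : ℂ) * deriv (deriv F) x := by
      refine VX11_parts hpq hF hs (fun x hx => (VX11_Pd A (by linarith [hx.1])).1)
        (fun x hx => (VX11_Pd A (by linarith [hx.1])).2.continuousAt.continuousWithinAt)
        (fun x hx => (VX11_Pd A (by linarith [hx.1])).2.hasDerivWithinAt) ?_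
      refine ContinuousOn.intervalIntegrable ?_
      rw [uIcc_of_le hpq]
      exact (VX11_Sc A).mono fun x hx => lt_of_lt_of_le hp0 hx.1
    have hE : ∫ x in p..q, (errTerm b L x : ℂ) * F x =
        ∫ x in p..q, (D2 b L x : ℂ) * deriv (deriv F) x := by
      refine VX11_parts hpq hF hs (fun x hx => VX11_D h (by linarith [hx.1]))
        ((VX8_E1cont h q).mono (Icc_subset_Icc_left hp0.le))
        (fun x hx => VX8_right h (by linarith [hx.1])) ?_
      exact (errTerm3_int h p hp0.le).symm.trans (errTerm3_int h q hq0.le)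
    -- the series
    set u : ℕ → ℝ := fun m => (∑ j : Fin 3, ‖c j‖) * q ^ (5 / 3 : ℝ) *
      (|b m| * (m : ℝ) ^ (-(4 / 3) : ℝ)) with hu
    have husum : Summable u := hsm.mul_left _
    have hub : ∀ m : ℕ, ∀ x ∈ Icc p q, |b m * qm κ c m x| ≤ u m := by
      intro m x hx
      have hx1 : 1 ≤ x := hp.trans hx.1
      refine (VX9_bd κ c m hx1).trans ?_
      simp only [hu]
      refine mul_le_mul_of_nonneg_right (mul_le_mul_of_nonneg_left ?_ hCc) (by positivity)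
      exact Real.rpow_le_rpow (by linarith) hx.2 (by norm_num)
    have hqc : ∀ m : ℕ, ContinuousOn (fun x => b m * qm κ c m x) (Icc p q) := by
      intro m
      obtain ⟨q', hq'⟩ := hder' m
      refine continuousOn_const.mul fun x hx => ?_
      exact (hq' x (by linarith [hx.1])).1.continuousAt.continuousWithinAt
    set G : ℝ → ℝ := fun x => ∑' m : ℕ, b m * qm κ c m x with hG
    have hGc : ContinuousOn G (Icc p q) := continuousOn_tsum hqc husum fun m x hx => by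
      rw [Real.norm_eq_abs]; exact hub m x hx
    have hHas : HasSum (fun m : ℕ => ∫ x in p..q, ((b m * qm κ c m x : ℝ) : ℂ) *
        deriv (deriv F) x) (∫ x in p..q, (G x : ℂ) * deriv (deriv F) x) := by
      refine intervalIntegral.hasSum_integral_of_dominated_convergence
        (fun m _ => u m * B) ?_ ?_ ?_ ?_ ?_
      · intro m
        rw [uIoc_of_le hpq]
        refine ContinuousOn.aestronglyMeasurable ?_ measurableSet_Ioc
        exact (Complex.continuous_ofReal.comp_continuousOn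
          ((hqc m).mono Ioc_subset_Icc_self)).mul hc2.continuousOn
      · intro m
        refine Eventually.of_forall fun x hx => ?_
        rw [uIoc_of_le hpq] at hx
        have hx' : x ∈ Icc p q := ⟨hx.1.le, hx.2⟩
        rw [norm_mul, norm_real, Real.norm_eq_abs]
        exact mul_le_mul (hub m x hx') (hB x hx') (norm_nonneg _)
          ((abs_nonneg _).trans (hub m x hx'))
      · exact Eventually.of_forall fun x _ => husum.mul_right B
      · exact intervalIntegrable_const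
      · refine Eventually.of_forall fun x hx => ?_
        rw [uIoc_of_le hpq] at hx
        have hx' : x ∈ Icc p q := ⟨hx.1.le, hx.2⟩
        have h1 : Summable fun m : ℕ => b m * qm κ c m x :=
          VX9_summable κ c h.ramanujan (hp.trans hx'.1)
        exact (Complex.hasSum_ofReal.2 h1.hasSum).mul_right _
    have hterm : ∀ m : ℕ, (b m : ℂ) * ∫ x in p..q, (km κ d m x : ℂ) * F x =
        ∫ x in p..q, ((b m * qm κ c m x : ℝ) : ℂ) * deriv (deriv F) x := by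
      intro m
      rw [hk m, ← intervalIntegral.integral_const_mul]
      refine intervalIntegral.integral_congr fun x _ => ?_
      push_cast
      ring
    constructor
    · refine Summable.of_nonneg_of_le (fun m => norm_nonneg _) (fun m => ?_)
        ((husum.mul_right B).mul_right |q - p|)
      rw [hterm m]
      refine intervalIntegral.norm_integral_le_of_norm_le_const fun x hx => ?_
      rw [uIoc_of_le hpq] at hx
      have hx' : x ∈ Icc p q := ⟨hx.1.le, hx.2⟩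
      rw [norm_mul, norm_real, Real.norm_eq_abs]
      exact mul_le_mul (hub m x hx') (hB x hx') (norm_nonneg _)
        ((abs_nonneg _).trans (hub m x hx'))
    · simp_rw [hterm]
      rw [hHas.tsum_eq, hE, hS]
      have hDc : ContinuousOn (D2 b L) (Icc p q) := fun x hx =>
        (VX11_D h (by linarith [hx.1])).continuousAt.continuousWithinAt
      have hPc : ContinuousOn (VX11_P A) (Icc p q) := fun x hx =>
        (VX11_Pd A (by linarith [hx.1])).1.continuousAt.continuousWithinAt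
      have i1 : IntervalIntegrable (fun x => (D2 b L x : ℂ) * deriv (deriv F) x) volume p q := by
        refine ContinuousOn.intervalIntegrable ?_
        rw [uIcc_of_le hpq]
        exact (Complex.continuous_ofReal.comp_continuousOn hDc).mul hc2.continuousOn
      have i2 : IntervalIntegrable (fun x => (VX11_P A x : ℂ) * deriv (deriv F) x)
          volume p q := by
        refine ContinuousOn.intervalIntegrable ?_
        rw [uIcc_of_le hpq]
        exact (Complex.continuous_ofReal.comp_continuousOn hPc).mul hc2.continuousOn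
      have i3 : IntervalIntegrable (fun x => (G x : ℂ) * deriv (deriv F) x) volume p q := by
        refine ContinuousOn.intervalIntegrable ?_
        rw [uIcc_of_le hpq]
        exact (Complex.continuous_ofReal.comp_continuousOn hGc).mul hc2.continuousOn
      rw [← intervalIntegral.integral_sub i1 i2, ← intervalIntegral.integral_sub (i1.sub i2) i3]
      refine (intervalIntegral.norm_integral_le_integral_norm hpq).trans ?_
      rw [← intervalIntegral.integral_const_mul]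
      refine intervalIntegral.integral_mono_on hpq ((i1.sub i2).sub i3).norm
        ((continuous_const.mul hc2.norm).intervalIntegrable _ _) fun x hx => ?_
      have hx1 : 1 ≤ x := hp.trans hx.1
      have e1 : (D2 b L x : ℂ) * deriv (deriv F) x - (VX11_P A x : ℂ) * deriv (deriv F) x -
          (G x : ℂ) * deriv (deriv F) x =
          ((D2 b L x - VX11_P A x - G x : ℝ) : ℂ) * deriv (deriv F) x := by
        push_cast; ring
      rw [e1, norm_mul, norm_real, Real.norm_eq_abs]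
      refine mul_le_mul_of_nonneg_right ?_ (norm_nonneg _)
      refine (hb x hx1).trans ?_
      exact mul_le_mul_of_nonneg_left (Real.rpow_le_rpow (by linarith) hx.2 (by linarith)) hC.le
  · intro δ hδ
    obtain ⟨C, hC, hb⟩ := hV δ hδ
    refine ⟨2 * |A 0| + 2 * |A 1| + |A 2| + 1 + 4 * C * 3 ^ (1 + δ), by positivity,
      fun x h' hx hh hhx => ?_⟩
    have hx0 : 0 < x := by linarith
    have e0 := VX9_summable (b := b) κ c h.ramanujan hx
    have e1 := VX9_summable (b := b) κ c h.ramanujan (x := x + h') (by linarith)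
    have e2 := VX9_summable (b := b) κ c h.ramanujan (x := x + 2 * h') (by linarith)
    have hts : ∑' m : ℕ, b m * (qm κ c m (x + 2 * h') - 2 * qm κ c m (x + h') + qm κ c m x) =
        (∑' m : ℕ, b m * qm κ c m (x + 2 * h')) - 2 * (∑' m : ℕ, b m * qm κ c m (x + h')) +
        ∑' m : ℕ, b m * qm κ c m x := by
      rw [← tsum_mul_left, ← e2.tsum_sub (e1.mul_left 2), ← (e2.sub (e1.mul_left 2)).tsum_add e0]
      refine tsum_congr fun m => ?_
      ring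
    rw [hts]
    have b0 := hb x hx
    have b1 := hb (x + h') (by linarith)
    have b2 := hb (x + 2 * h') (by linarith)
    have hsec := VX11_second (P := VX11_P A) (P' := VX11_P' A) (S := VX11_S A)
      (fun z hz => (VX11_Pd A (by linarith)).1) (fun z hz => (VX11_Pd A (by linarith)).2)
      (fun z hz => VX11_Sb A hz) hx hh
    set ρ : ℝ → ℝ := fun z => D2 b L z - VX11_P A z - ∑' m : ℕ, b m * qm κ c m z with hρ
    have r0 : |ρ x| ≤ C * (3 * x) ^ (1 + δ) := b0.trans (mul_le_mul_of_nonneg_left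
      (Real.rpow_le_rpow hx0.le (by linarith) (by linarith)) hC.le)
    have r1 : |ρ (x + h')| ≤ C * (3 * x) ^ (1 + δ) := b1.trans (mul_le_mul_of_nonneg_left
      (Real.rpow_le_rpow (by linarith) (by linarith) (by linarith)) hC.le)
    have r2 : |ρ (x + 2 * h')| ≤ C * (3 * x) ^ (1 + δ) := b2.trans (mul_le_mul_of_nonneg_left
      (Real.rpow_le_rpow (by linarith) (by linarith) (by linarith)) hC.le)
    have e3 : D2 b L (x + 2 * h') - 2 * D2 b L (x + h') + D2 b L x -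
        ((∑' m : ℕ, b m * qm κ c m (x + 2 * h')) - 2 * (∑' m : ℕ, b m * qm κ c m (x + h')) +
        ∑' m : ℕ, b m * qm κ c m x) =
        (VX11_P A (x + 2 * h') - 2 * VX11_P A (x + h') + VX11_P A x) +
        (ρ (x + 2 * h') - 2 * ρ (x + h') + ρ x) := by
      simp only [hρ]
      ring
    rw [e3]
    have e4 : |ρ (x + 2 * h') - 2 * ρ (x + h') + ρ x| ≤ 4 * (C * (3 * x) ^ (1 + δ)) := by
      rw [abs_le] at r0 r1 r2 ⊢
      constructor <;> linarith [r0.1, r0.2, r1.1, r1.2, r2.1, r2.2]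
    have e5 : (3 * x) ^ (1 + δ) = 3 ^ (1 + δ) * x ^ (1 + δ) := Real.mul_rpow (by norm_num) hx0.le
    rw [e5] at e4
    have hp : 0 < x ^ (1 + δ) := Real.rpow_pos_of_pos hx0 _
    have hh2 : 0 ≤ h' ^ 2 := sq_nonneg _
    have h3 : (0 : ℝ) < 3 ^ (1 + δ) := by positivity
    refine (abs_add_le _ _).trans ((add_le_add hsec e4).trans ?_)
    have a0 : 0 ≤ 2 * |A 0| + 2 * |A 1| + |A 2| + 1 := by positivity
    have k1 : 0 ≤ (2 * |A 0| + 2 * |A 1| + |A 2| + 1) * x ^ (1 + δ) := by positivity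
    have k2 : 0 ≤ 4 * C * 3 ^ (1 + δ) * h' ^ 2 := by positivity
    nlinarith
--END VX11

end Pool.Agent.PEt3
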